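import Pool.Agent.Lib.MP_3db736_an.Main

open MeasureTheory Metric Set Module Filter
open scoped ENNReal NNReal Topology ContDiff

namespace Pool.Agent.Lib.MP_3db736_an

section main

variable {n : ℕ} [Nontrivial (EuclideanSpace ℝ (Fin (n + n)))]

theorem omg_bound (n : ℕ) : ∃ M : ℝ, 0 ≤ M ∧ ∀ y : EuclideanSpace ℝ (Fin (n + 1)), ‖y‖ ≤ 1 →
    ‖omg n y‖ ≤ M ∧ ‖extDeriv (omg n) y‖ ≤ M := by
  have hc : IsCompact (closedBall (0 : EuclideanSpace ℝ (Fin (n + 1))) 1) := isCompact_closedBall _ _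
  have h1 : Continuous (omg n) := (contDiff_omg n).continuous
  have h2 : Continuous (extDeriv (omg n)) := by
    have h3 : ContDiff ℝ 1 (fderiv ℝ (omg n)) :=
      (contDiff_omg n).fderiv_right (m := 1) (WithTop.coe_le_coe.2 le_top)
    exact (contDiff_alt 1).continuous.comp h3.continuous
  obtain ⟨M1, hM1⟩ := hc.exists_bound_of_continuousOn h1.continuousOn
  obtain ⟨M2, hM2⟩ := hc.exists_bound_of_continuousOn h2.continuousOn
  refine ⟨max (max M1 M2) 0, le_max_right _ _, fun y hy => ⟨?_, ?_⟩⟩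
  · exact (hM1 y (by simpa using hy)).trans ((le_max_left _ _).trans (le_max_left _ _))
  · exact (hM2 y (by simpa using hy)).trans ((le_max_right _ _).trans (le_max_left _ _))

variable (n) in
theorem eta_gam_bound : ∃ C : ℝ, 0 ≤ C ∧
    ∀ f : sphere (0 : EuclideanSpace ℝ (Fin (n + n))) 1 → EuclideanSpace ℝ (Fin (n + 1)),
      Continuous f → (∀ ζ, ‖f ζ‖ = 1) → ∀ x : EuclideanSpace ℝ (Fin (n + n)), ‖x‖ < 1 →
        ‖eta f x‖ ≤ C * (dr ‖x‖ ^ n)⁻¹ ∧ ‖gam f x‖ ≤ C * (dr ‖x‖ ^ (n + 1))⁻¹ := by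
  obtain ⟨M, hM0, hM⟩ := omg_bound n
  obtain ⟨L, hL0, hL⟩ := norm_fderiv_ext_le (G := EuclideanSpace ℝ (Fin (n + 1)))
    (volume : Measure (EuclideanSpace ℝ (Fin (n + n))))
  refine ⟨max (M * L ^ n) (M * L ^ (n + 1)), le_max_of_le_left (by positivity), ?_⟩
  intro f hf h1 x hx
  have hd : 0 < dr ‖x‖ := dr_pos' (norm_nonneg _) hx
  have hF := norm_ext_le volume h1 x
  have hDF := hL f hf h1 x hx
  obtain ⟨hw1, hw2⟩ := hM _ hF
  constructor
  · calc ‖eta f x‖ ≤ ‖omg n (ext volume f x)‖ * ‖fderiv ℝ (ext volume f) x‖ ^ n := by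
          have := ContinuousAlternatingMap.norm_compContinuousLinearMap_le
            (omg n (ext volume f x)) (fderiv ℝ (ext volume f) x)
          rwa [Fintype.card_fin] at this
      _ ≤ M * (L / dr ‖x‖) ^ n := by gcongr
      _ = (M * L ^ n) * (dr ‖x‖ ^ n)⁻¹ := by rw [div_pow]; ring
      _ ≤ _ := by gcongr; exact le_max_left _ _
  · rw [gam_of_norm_lt hx, extDeriv_eta hf h1 hx]
    calc _ ≤ ‖extDeriv (omg n) (ext volume f x)‖ * ‖fderiv ℝ (ext volume f) x‖ ^ (n + 1) := by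
          have := ContinuousAlternatingMap.norm_compContinuousLinearMap_le
            (extDeriv (omg n) (ext volume f x)) (fderiv ℝ (ext volume f) x)
          rwa [Fintype.card_fin] at this
      _ ≤ M * (L / dr ‖x‖) ^ (n + 1) := by gcongr
      _ = (M * L ^ (n + 1)) * (dr ‖x‖ ^ (n + 1))⁻¹ := by rw [div_pow]; ring
      _ ≤ _ := by gcongr; exact le_max_right _ _

/-- The bad set. -/
def bad (f : sphere (0 : EuclideanSpace ℝ (Fin (n + n))) 1 → EuclideanSpace ℝ (Fin (n + 1))) :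
    Set (EuclideanSpace ℝ (Fin (n + n))) :=
  {x | x ∈ ball (0 : EuclideanSpace ℝ (Fin (n + n))) 1 ∧ ‖ext volume f x‖ ≤ 1 / 2}

variable (n) in
theorem bet_bound (hn : 2 ≤ n) : ∃ C : ℝ≥0∞, C ≠ ⊤ ∧
    ∀ f : sphere (0 : EuclideanSpace ℝ (Fin (n + n))) 1 → EuclideanSpace ℝ (Fin (n + 1)),
      Continuous f → (∀ ζ, ‖f ζ‖ = 1) → ∀ x : EuclideanSpace ℝ (Fin (n + n)), ‖x‖ < 1 →
        ‖bet f x‖ₑ ≤ C * opT volume n (3 / 16) (bad f) x := by
  obtain ⟨C, hC0, hC⟩ := eta_gam_bound n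
  obtain ⟨C', hC', hk⟩ := hop_kernel (W := EuclideanSpace ℝ (Fin (n + n)) [⋀^Fin (n + 1)]→L[ℝ] ℝ)
    (W' := EuclideanSpace ℝ (Fin (n + n)) [⋀^Fin n]→L[ℝ] ℝ)
    (volume : Measure (EuclideanSpace ℝ (Fin (n + n)))) (show 1 ≤ n by omega) (finrank_En n)
  refine ⟨C' * ENNReal.ofReal C, ENNReal.mul_ne_top hC' ENNReal.ofReal_ne_top, ?_⟩
  intro f hf h1 x hx
  have hbadm : MeasurableSet (bad f) := measurableSet_bad volume hf h1 _
  have hbsub : bad f ⊆ ball 0 1 := fun x hx => hx.1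
  calc ‖bet f x‖ₑ ≤ C' * ∫⁻ z in ball 0 1, ‖gam f z‖ₑ * kerT n (3 / 16) x z :=
        hk (ip _ n) (gam f) (contDiff_gam hf h1).continuous gam_supp (ip_bound _ n) x hx
    _ ≤ C' * ∫⁻ z in bad f, ENNReal.ofReal C * (wt (n + 1) z * kerT n (3 / 16) x z) := by
        refine mul_le_mul' le_rfl ?_
        rw [← lintegral_indicator measurableSet_ball, ← lintegral_indicator hbadm]
        apply lintegral_mono
        intro z
        by_cases hz : z ∈ ball (0 : EuclideanSpace ℝ (Fin (n + n))) 1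
        · rw [indicator_of_mem hz]
          by_cases hzb : z ∈ bad f
          · rw [indicator_of_mem hzb, ← mul_assoc]
            gcongr
            rw [← ofReal_norm, wt, ← ENNReal.ofReal_mul hC0]
            exact ENNReal.ofReal_le_ofReal (hC f hf h1 z (by simpa using hz)).2
          · have : gam f z = 0 := by
              apply gam_eq_zero_of_large hf h1
              by_contra hcon
              exact hzb ⟨hz, not_lt.1 hcon⟩
            refine le_of_eq_of_le (mul_eq_zero_of_left ?_ _) zero_le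
            rw [this]
            exact enorm_zero (E := EuclideanSpace ℝ (Fin (n + n)) [⋀^Fin (n + 1)]→L[ℝ] ℝ)
        · rw [indicator_of_notMem hz]
          exact zero_le
    _ = _ := by
        rw [lintegral_const_mul' _ _ ENNReal.ofReal_ne_top, ← mul_assoc]
        rfl

end main

end Pool.Agent.Lib.MP_3db736_an
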