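import Pool.Agent.Lib.MP_3db736_an.Retract2

open MeasureTheory Metric Set Module Filter
open scoped ENNReal NNReal Topology ContDiff

namespace Pool.Agent.Lib.MP_3db736_an

section pbk

variable {E : Type*} [NormedAddCommGroup E] [InnerProductSpace ℝ E] {n : ℕ}

/-- Pull back of the form on the target. -/
noncomputable def pbk (h : E → EuclideanSpace ℝ (Fin (n + 1))) (x : E) : E [⋀^Fin n]→L[ℝ] ℝ :=
  (omg n (h x)).compContinuousLinearMap (fderiv ℝ h x)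

theorem contDiffAt_pbk {h : E → EuclideanSpace ℝ (Fin (n + 1))} {x : E}
    (hh : ContDiffAt ℝ ∞ h x) : ContDiffAt ℝ 1 (pbk h) x := by
  have h1 : ContDiffAt ℝ 1 (fun x => omg n (h x)) x :=
    ((contDiff_omg n).contDiffAt.comp x hh).of_le (by exact_mod_cast le_top)
  have h2 : ContDiffAt ℝ 1 (fderiv ℝ h) x :=
    hh.fderiv_right (m := 1) (WithTop.coe_le_coe.2 le_top)
  exact contDiffAt_pullback (m := 1) h1 h2

theorem extDeriv_pbk {h : E → EuclideanSpace ℝ (Fin (n + 1))} {x : E}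
    (hh : ContDiffAt ℝ ∞ h x) (hx : 1 / 8 < ‖h x‖ ^ 2) : extDeriv (pbk h) x = 0 := by
  have h2 := extDeriv_pullback (r := ∞) (f := h) (x := x)
    ((contDiff_omg n).differentiable (by simp) (h x)) hh two_le_smooth'
  have h3 : extDeriv (pbk h) x = (extDeriv (omg n) (h x)).compContinuousLinearMap
    (fderiv ℝ h x) := h2
  rw [h3, extDeriv_omg n hx]
  rfl

theorem pbk_congr {h h' : E → EuclideanSpace ℝ (Fin (n + 1))} {x : E} (hh : h =ᶠ[𝓝 x] h') :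
    pbk h x = pbk h' x := by
  unfold pbk
  rw [hh.fderiv_eq, hh.eq_of_nhds]

theorem pbk_apply {h : E → EuclideanSpace ℝ (Fin (n + 1))} {x : E} (hx : ‖h x‖ = 1)
    (v : Fin n → E) : pbk h x v = volG (n + 1) (Matrix.vecCons (h x)
      (fun i => fderiv ℝ h x (v i))) := by
  have h1 : pbk h x v = kap2 n (‖h x‖ ^ 2) * volG (n + 1) (Matrix.vecCons (h x)
      (fun i => fderiv ℝ h x (v i))) := rfl
  rw [h1, kap2_eq (by rw [hx]; norm_num), hx, one_pow, Real.one_rpow, one_mul]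

end pbk

section proj

variable {E : Type*} [NormedAddCommGroup E] [InnerProductSpace ℝ E] {G : Type*}
  [NormedAddCommGroup G] [InnerProductSpace ℝ G]

/-- Homogeneous extension. -/
noncomputable def hmg (g : E → G) (x : E) : G := g (‖x‖⁻¹ • x)

theorem contDiffAt_hmg {g : E → G} {U : Set E} (hU : IsOpen U) (hUs : sphere 0 1 ⊆ U)
    (hg : ContDiffOn ℝ ∞ g U) {x : E} (hx : x ≠ 0) : ContDiffAt ℝ ∞ (hmg g) x := by
  have hmem : ‖x‖⁻¹ • x ∈ U := by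
    apply hUs
    rw [mem_sphere_zero_iff_norm, norm_smul, norm_inv, norm_norm,
      inv_mul_cancel₀ (norm_ne_zero_iff.2 hx)]
  have h1 : ContDiffAt ℝ ∞ g (‖x‖⁻¹ • x) := hg.contDiffAt (hU.mem_nhds hmem)
  exact ContDiffAt.comp (g := g) (f := fun x : E => ‖x‖⁻¹ • x) x h1 (contDiffAt_proj hx)

omit [InnerProductSpace ℝ G] in
theorem norm_hmg [NormedSpace ℝ G] {g : E → G} {U : Set E} (hUs : sphere 0 1 ⊆ U)
    (hg1 : ∀ x ∈ U, ‖g x‖ = 1) {x : E} (hx : x ≠ 0) : ‖hmg g x‖ = 1 := by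
  apply hg1
  apply hUs
  rw [mem_sphere_zero_iff_norm, norm_smul, norm_inv, norm_norm,
      inv_mul_cancel₀ (norm_ne_zero_iff.2 hx)]

theorem line_ne {a b : G} (ha : ‖a‖ = 1) (hb : ‖b‖ = 1) (hab : ‖b - a‖ < 2) {t : ℝ}
    (h0 : 0 ≤ t) (h1 : t ≤ 1) : a + t • (b - a) ≠ 0 := by
  intro h
  have h2 : (1 - t) • a = -(t • b) := by
    have : a + t • (b - a) = (1 - t) • a + t • b := by module
    rw [this] at h
    exact eq_neg_of_add_eq_zero_left h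
  have h3 : 1 - t = t := by
    have := congrArg norm h2
    rw [norm_neg, norm_smul, norm_smul, ha, hb, Real.norm_eq_abs, Real.norm_eq_abs,
      abs_of_nonneg (by linarith), abs_of_nonneg h0] at this
    linarith
  have h4 : t = 1 / 2 := by linarith
  rw [h4] at h2
  have h5 : b = -a := by
    have h6 : (1 / 2 : ℝ) • a = -((1 / 2 : ℝ) • b) := by
      rw [← h2]; norm_num
    have h7 : (2 : ℝ) • ((1 / 2 : ℝ) • a) = (2 : ℝ) • (-((1 / 2 : ℝ) • b)) := by rw [h6]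
    rw [smul_smul, smul_neg, smul_smul] at h7
    norm_num at h7
    rw [h7, neg_neg]
  rw [h5] at hab
  have h8 : ‖-a - a‖ = 2 := by
    have : -a - a = -((2 : ℝ) • a) := by module
    rw [this, norm_neg, norm_smul, ha]; norm_num
  linarith

end proj

section close

variable {n : ℕ}

theorem The_eq_pbk {Om : EuclideanSpace ℝ (Fin (n + n)) →
    EuclideanSpace ℝ (Fin (n + n)) [⋀^Fin n]→L[ℝ] ℝ}
    {g : EuclideanSpace ℝ (Fin (n + n)) → EuclideanSpace ℝ (Fin (n + 1))}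
    {U : Set (EuclideanSpace ℝ (Fin (n + n)))} (hU : IsOpen U) (hUs : sphere 0 1 ⊆ U)
    (hg : ContDiffOn ℝ ∞ g U) (hg1 : ∀ x ∈ U, ‖g x‖ = 1)
    (hbd : ∀ x, ‖x‖ = 1 → ∀ v : Fin n → EuclideanSpace ℝ (Fin (n + n)),
          Om x v = volG (n + 1) (Matrix.vecCons (g x) (fun i => fderiv ℝ g x (v i))))
    {δ : ℝ} (hδ : 0 < δ) (hδ1 : δ ≤ 1 / 8) {x : EuclideanSpace ℝ (Fin (n + n))}
    (hx : 1 - δ < ‖x‖ ^ 2) : The δ Om x = pbk (hmg g) x := by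
  have hx0 : x ≠ 0 := by
    rintro rfl
    rw [norm_zero] at hx
    norm_num at hx
    linarith
  have hn : ‖‖x‖⁻¹ • x‖ = 1 := by
    rw [norm_smul, norm_inv, norm_norm, inv_mul_cancel₀ (norm_ne_zero_iff.2 hx0)]
  have hmem : ‖x‖⁻¹ • x ∈ U := hUs (by rw [mem_sphere_zero_iff_norm]; exact hn)
  have h1 : DifferentiableAt ℝ g (‖x‖⁻¹ • x) :=
    (hg.contDiffAt (hU.mem_nhds hmem)).differentiableAt (by simp)
  have h2 : DifferentiableAt ℝ (fun x : EuclideanSpace ℝ (Fin (n + n)) => ‖x‖⁻¹ • x) x :=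
    (contDiffAt_proj hx0).differentiableAt (by simp)
  have h3 : fderiv ℝ (hmg g) x = (fderiv ℝ g (‖x‖⁻¹ • x)).comp
      (fderiv ℝ (fun x : EuclideanSpace ℝ (Fin (n + n)) => ‖x‖⁻¹ • x) x) :=
    (HasFDerivAt.comp (g := g) (f := fun x : EuclideanSpace ℝ (Fin (n + n)) => ‖x‖⁻¹ • x) x
      h1.hasFDerivAt h2.hasFDerivAt).fderiv
  have e1 := Pr_eventually_proj hδ hx
  ext v
  rw [pbk_apply (norm_hmg hUs hg1 hx0), h3]
  unfold The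
  rw [e1.fderiv_eq, e1.eq_of_nhds]
  exact hbd _ hn _

/-- Cutoff for the homotopy. -/
noncomputable def tau (t : ℝ) : ℝ := Real.smoothTransition (16 * t - 29 / 2)

theorem tau_zero {t : ℝ} (ht : t ≤ 29 / 32) : tau t = 0 :=
  Real.smoothTransition.zero_of_nonpos (by linarith)

theorem tau_one {t : ℝ} (ht : 31 / 32 ≤ t) : tau t = 1 :=
  Real.smoothTransition.one_of_one_le (by linarith)

theorem contDiff_tau : ContDiff ℝ ∞ tau := Real.smoothTransition.contDiff.comp (by fun_prop)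

/-- The homotopy. -/
noncomputable def Gam (g₀ g₁ : EuclideanSpace ℝ (Fin (n + n)) → EuclideanSpace ℝ (Fin (n + 1)))
    (x : EuclideanSpace ℝ (Fin (n + n))) : EuclideanSpace ℝ (Fin (n + 1)) :=
  ‖hmg g₀ x + tau (‖x‖ ^ 2) • (hmg g₁ x - hmg g₀ x)‖⁻¹ •
    (hmg g₀ x + tau (‖x‖ ^ 2) • (hmg g₁ x - hmg g₀ x))

variable {g₀ g₁ : EuclideanSpace ℝ (Fin (n + n)) → EuclideanSpace ℝ (Fin (n + 1))}
  {U₀ U₁ : Set (EuclideanSpace ℝ (Fin (n + n)))}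

theorem Gam_ne (hUs₀ : sphere 0 1 ⊆ U₀) (hUs₁ : sphere 0 1 ⊆ U₁)
    (hg1₀ : ∀ x ∈ U₀, ‖g₀ x‖ = 1) (hg1₁ : ∀ x ∈ U₁, ‖g₁ x‖ = 1)
    (hc : ∀ x, ‖x‖ = 1 → ‖g₁ x - g₀ x‖ < 2) {x : EuclideanSpace ℝ (Fin (n + n))} (hx : x ≠ 0) :
    hmg g₀ x + tau (‖x‖ ^ 2) • (hmg g₁ x - hmg g₀ x) ≠ 0 := by
  apply line_ne (norm_hmg hUs₀ hg1₀ hx) (norm_hmg hUs₁ hg1₁ hx)
  · apply hc
    rw [norm_smul, norm_inv, norm_norm, inv_mul_cancel₀ (norm_ne_zero_iff.2 hx)]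
  · exact Real.smoothTransition.nonneg _
  · exact Real.smoothTransition.le_one _

theorem contDiffAt_Gam (hU₀ : IsOpen U₀) (hU₁ : IsOpen U₁) (hUs₀ : sphere 0 1 ⊆ U₀)
    (hUs₁ : sphere 0 1 ⊆ U₁) (hg₀ : ContDiffOn ℝ ∞ g₀ U₀) (hg₁ : ContDiffOn ℝ ∞ g₁ U₁)
    (hg1₀ : ∀ x ∈ U₀, ‖g₀ x‖ = 1) (hg1₁ : ∀ x ∈ U₁, ‖g₁ x‖ = 1)
    (hc : ∀ x, ‖x‖ = 1 → ‖g₁ x - g₀ x‖ < 2) {x : EuclideanSpace ℝ (Fin (n + n))} (hx : x ≠ 0) :
    ContDiffAt ℝ ∞ (Gam g₀ g₁) x := by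
  have h1 := contDiffAt_hmg hU₀ hUs₀ hg₀ hx
  have h2 := contDiffAt_hmg hU₁ hUs₁ hg₁ hx
  have h3 : ContDiffAt ℝ ∞ (fun x : EuclideanSpace ℝ (Fin (n + n)) => tau (‖x‖ ^ 2)) x :=
    (contDiff_tau.comp (contDiff_norm_sq ℝ)).contDiffAt
  have h4 : ContDiffAt ℝ ∞ (fun x => hmg g₀ x + tau (‖x‖ ^ 2) • (hmg g₁ x - hmg g₀ x)) x :=
    h1.add (h3.smul (h2.sub h1))
  exact ContDiffAt.comp (g := fun y : EuclideanSpace ℝ (Fin (n + 1)) => ‖y‖⁻¹ • y)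
    (f := fun x => hmg g₀ x + tau (‖x‖ ^ 2) • (hmg g₁ x - hmg g₀ x)) x
    (contDiffAt_proj (Gam_ne hUs₀ hUs₁ hg1₀ hg1₁ hc hx)) h4

theorem norm_Gam (hUs₀ : sphere 0 1 ⊆ U₀) (hUs₁ : sphere 0 1 ⊆ U₁)
    (hg1₀ : ∀ x ∈ U₀, ‖g₀ x‖ = 1) (hg1₁ : ∀ x ∈ U₁, ‖g₁ x‖ = 1)
    (hc : ∀ x, ‖x‖ = 1 → ‖g₁ x - g₀ x‖ < 2) {x : EuclideanSpace ℝ (Fin (n + n))} (hx : x ≠ 0) :
    ‖Gam g₀ g₁ x‖ = 1 := by
  unfold Gam
  rw [norm_smul, norm_inv, norm_norm, inv_mul_cancel₀]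
  exact norm_ne_zero_iff.2 (Gam_ne hUs₀ hUs₁ hg1₀ hg1₁ hc hx)

theorem Gam_left (hUs₀ : sphere 0 1 ⊆ U₀) (hg1₀ : ∀ x ∈ U₀, ‖g₀ x‖ = 1)
    {x : EuclideanSpace ℝ (Fin (n + n))} (hx : x ≠ 0) (hx2 : ‖x‖ ^ 2 < 29 / 32) :
    Gam g₀ g₁ =ᶠ[𝓝 x] hmg g₀ := by
  have h2 : IsOpen {y : EuclideanSpace ℝ (Fin (n + n)) | ‖y‖ ^ 2 < 29 / 32} :=
    isOpen_lt (by fun_prop) continuous_const
  filter_upwards [h2.mem_nhds hx2, isOpen_ne.mem_nhds hx] with y hy hy0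
  have hy' : ‖y‖ ^ 2 < 29 / 32 := hy
  unfold Gam
  rw [tau_zero hy'.le, zero_smul, add_zero, norm_hmg hUs₀ hg1₀ hy0, inv_one, one_smul]

theorem Gam_right (hUs₁ : sphere 0 1 ⊆ U₁) (hg1₁ : ∀ x ∈ U₁, ‖g₁ x‖ = 1)
    {x : EuclideanSpace ℝ (Fin (n + n))} (hx : x ≠ 0) (hx2 : 31 / 32 < ‖x‖ ^ 2) :
    Gam g₀ g₁ =ᶠ[𝓝 x] hmg g₁ := by
  have h2 : IsOpen {y : EuclideanSpace ℝ (Fin (n + n)) | 31 / 32 < ‖y‖ ^ 2} :=
    isOpen_lt continuous_const (by fun_prop)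
  filter_upwards [h2.mem_nhds hx2, isOpen_ne.mem_nhds hx] with y hy hy0
  have hy' : 31 / 32 < ‖y‖ ^ 2 := hy
  unfold Gam
  rw [tau_one hy'.le, one_smul, add_sub_cancel, norm_hmg hUs₁ hg1₁ hy0, inv_one, one_smul]

end close

end Pool.Agent.Lib.MP_3db736_an
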