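import Pool.Agent.Lib.MP_3db736_an.Close

open MeasureTheory Metric Set Module Filter
open scoped ENNReal NNReal Topology ContDiff

namespace Pool.Agent.Lib.MP_3db736_an

section close

variable {n : ℕ}

/-- The glued form. -/
noncomputable def mid (g₀ g₁ : EuclideanSpace ℝ (Fin (n + n)) → EuclideanSpace ℝ (Fin (n + 1)))
    (Om : EuclideanSpace ℝ (Fin (n + n)) → EuclideanSpace ℝ (Fin (n + n)) [⋀^Fin n]→L[ℝ] ℝ)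
    (x : EuclideanSpace ℝ (Fin (n + n))) : EuclideanSpace ℝ (Fin (n + n)) [⋀^Fin n]→L[ℝ] ℝ :=
  if ‖x‖ ^ 2 < 29 / 32 then The (1 / 8) Om x else pbk (Gam g₀ g₁) x

variable {g₀ g₁ : EuclideanSpace ℝ (Fin (n + n)) → EuclideanSpace ℝ (Fin (n + 1))}
  {U₀ U₁ : Set (EuclideanSpace ℝ (Fin (n + n)))}
  {Om₀ Om₁ : EuclideanSpace ℝ (Fin (n + n)) →
    EuclideanSpace ℝ (Fin (n + n)) [⋀^Fin n]→L[ℝ] ℝ}

theorem ne_zero_of_sq {x : EuclideanSpace ℝ (Fin (n + n))} (hx : 7 / 8 < ‖x‖ ^ 2) : x ≠ 0 := by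
  rintro rfl
  rw [norm_zero] at hx
  norm_num at hx

theorem mid_inner (Om : EuclideanSpace ℝ (Fin (n + n)) →
    EuclideanSpace ℝ (Fin (n + n)) [⋀^Fin n]→L[ℝ] ℝ) {x : EuclideanSpace ℝ (Fin (n + n))}
    (hx : ‖x‖ ^ 2 < 29 / 32) : mid g₀ g₁ Om =ᶠ[𝓝 x] The (1 / 8) Om := by
  have h2 : IsOpen {y : EuclideanSpace ℝ (Fin (n + n)) | ‖y‖ ^ 2 < 29 / 32} :=
    isOpen_lt (by fun_prop) continuous_const
  filter_upwards [h2.mem_nhds hx] with y hy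
  have hy' : ‖y‖ ^ 2 < 29 / 32 := hy
  unfold mid
  rw [if_pos hy']

theorem mid_outer (hU₀ : IsOpen U₀) (hUs₀ : sphere 0 1 ⊆ U₀)
    (hg₀ : ContDiffOn ℝ ∞ g₀ U₀) (hg1₀ : ∀ x ∈ U₀, ‖g₀ x‖ = 1)
    (hbd₀ : ∀ x, ‖x‖ = 1 → ∀ v : Fin n → EuclideanSpace ℝ (Fin (n + n)),
      Om₀ x v = volG (n + 1) (Matrix.vecCons (g₀ x) (fun i => fderiv ℝ g₀ x (v i))))
    {x : EuclideanSpace ℝ (Fin (n + n))}
    (hx : 7 / 8 < ‖x‖ ^ 2) : mid g₀ g₁ Om₀ =ᶠ[𝓝 x] pbk (Gam g₀ g₁) := by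
  have h2 : IsOpen {y : EuclideanSpace ℝ (Fin (n + n)) | 7 / 8 < ‖y‖ ^ 2} :=
    isOpen_lt continuous_const (by fun_prop)
  filter_upwards [h2.mem_nhds hx] with y hy
  have hy' : 7 / 8 < ‖y‖ ^ 2 := hy
  unfold mid
  split_ifs with h
  · rw [The_eq_pbk hU₀ hUs₀ hg₀ hg1₀ hbd₀ (by norm_num) le_rfl (by linarith)]
    exact (pbk_congr (Gam_left hUs₀ hg1₀ (ne_zero_of_sq hy') h)).symm
  · rfl

end close

section close2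

variable {m : ℕ} {g₀ g₁ : EuclideanSpace ℝ (Fin ((m + 1) + (m + 1))) →
    EuclideanSpace ℝ (Fin ((m + 1) + 1))}
  {U₀ U₁ : Set (EuclideanSpace ℝ (Fin ((m + 1) + (m + 1))))}
  {Om₀ Om₁ : EuclideanSpace ℝ (Fin ((m + 1) + (m + 1))) →
    EuclideanSpace ℝ (Fin ((m + 1) + (m + 1))) [⋀^Fin (m + 1)]→L[ℝ] ℝ} {R₀ R₁ : ℝ}

theorem close_maps (hm : 1 ≤ m) (hU₀ : IsOpen U₀) (hU₁ : IsOpen U₁) (hUs₀ : sphere 0 1 ⊆ U₀)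
    (hUs₁ : sphere 0 1 ⊆ U₁) (hg₀ : ContDiffOn ℝ ∞ g₀ U₀) (hg₁ : ContDiffOn ℝ ∞ g₁ U₁)
    (hg1₀ : ∀ x ∈ U₀, ‖g₀ x‖ = 1) (hg1₁ : ∀ x ∈ U₁, ‖g₁ x‖ = 1)
    (hc : ∀ x, ‖x‖ = 1 → ‖g₁ x - g₀ x‖ < 2)
    (hR₀ : 1 < R₀) (hR₁ : 1 < R₁) (hO₀ : ContDiffOn ℝ 1 Om₀ (ball 0 R₀))
    (hO₁ : ContDiffOn ℝ 1 Om₁ (ball 0 R₁))
    (hcl₀ : ∀ x ∈ ball 0 R₀, extDeriv Om₀ x = 0) (hcl₁ : ∀ x ∈ ball 0 R₁, extDeriv Om₁ x = 0)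
    (hbd₀ : ∀ x, ‖x‖ = 1 → ∀ v : Fin (m + 1) → EuclideanSpace ℝ (Fin ((m + 1) + (m + 1))),
      Om₀ x v = volG (m + 1 + 1) (Matrix.vecCons (g₀ x) (fun i => fderiv ℝ g₀ x (v i))))
    (hbd₁ : ∀ x, ‖x‖ = 1 → ∀ v : Fin (m + 1) → EuclideanSpace ℝ (Fin ((m + 1) + (m + 1))),
      Om₁ x v = volG (m + 1 + 1) (Matrix.vecCons (g₁ x) (fun i => fderiv ℝ g₁ x (v i)))) :
    ∫ x in ball (0 : EuclideanSpace ℝ (Fin ((m + 1) + (m + 1)))) 1, wedge (Om₀ x) (Om₀ x) =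
    ∫ x in ball (0 : EuclideanSpace ℝ (Fin ((m + 1) + (m + 1)))) 1, wedge (Om₁ x) (Om₁ x) := by
  rw [← integral_The hR₀ hO₀ hcl₀ (δ := 1 / 8) (by norm_num) le_rfl,
    ← integral_The hR₁ hO₁ hcl₁ (δ := 1 / 8) (by norm_num) le_rfl]
  have hin : ∀ {x : EuclideanSpace ℝ (Fin ((m + 1) + (m + 1)))}, ‖x‖ ^ 2 < 29 / 32 →
      mid g₀ g₁ Om₀ =ᶠ[𝓝 x] The (1 / 8) Om₀ := fun hx => mid_inner Om₀ hx
  have hout : ∀ {x : EuclideanSpace ℝ (Fin ((m + 1) + (m + 1)))}, 7 / 8 < ‖x‖ ^ 2 →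
      mid g₀ g₁ Om₀ =ᶠ[𝓝 x] pbk (Gam g₀ g₁) := fun hx => mid_outer hU₀ hUs₀ hg₀ hg1₀ hbd₀ hx
  have hT₀ := contDiff_The hR₀ hO₀ (δ := 1 / 8) (by norm_num) le_rfl
  have hT₁ := contDiff_The hR₁ hO₁ (δ := 1 / 8) (by norm_num) le_rfl
  have hTc₀ := extDeriv_The hR₀ hO₀ hcl₀ (δ := 1 / 8) (by norm_num) le_rfl
  have hTc₁ := extDeriv_The hR₁ hO₁ hcl₁ (δ := 1 / 8) (by norm_num) le_rfl
  have hmid : ContDiff ℝ 1 (mid g₀ g₁ Om₀) := by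
    rw [contDiff_iff_contDiffAt]
    intro x
    by_cases hx : ‖x‖ ^ 2 < 29 / 32
    · exact hT₀.contDiffAt.congr_of_eventuallyEq (hin hx)
    · have hx' : 7 / 8 < ‖x‖ ^ 2 := by linarith [not_lt.1 hx]
      exact (contDiffAt_pbk (contDiffAt_Gam hU₀ hU₁ hUs₀ hUs₁ hg₀ hg₁ hg1₀ hg1₁ hc
        (ne_zero_of_sq hx'))).congr_of_eventuallyEq (hout hx')
  have hmidc : ∀ x, extDeriv (mid g₀ g₁ Om₀) x = 0 := by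
    intro x
    by_cases hx : ‖x‖ ^ 2 < 29 / 32
    · rw [(hin hx).extDeriv_eq]
      exact hTc₀ x
    · have hx' : 7 / 8 < ‖x‖ ^ 2 := by linarith [not_lt.1 hx]
      rw [(hout hx').extDeriv_eq]
      apply extDeriv_pbk (contDiffAt_Gam hU₀ hU₁ hUs₀ hUs₁ hg₀ hg₁ hg1₀ hg1₁ hc
        (ne_zero_of_sq hx'))
      rw [norm_Gam hUs₀ hUs₁ hg1₀ hg1₁ hc (ne_zero_of_sq hx')]
      norm_num
  have hright : ∀ x, 99 / 100 ≤ ‖x‖ → mid g₀ g₁ Om₀ x = The (1 / 8) Om₁ x := by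
    intro x hx
    have hx2 : 31 / 32 < ‖x‖ ^ 2 := by nlinarith
    have hx' : 7 / 8 < ‖x‖ ^ 2 := by linarith
    rw [(hout hx').eq_of_nhds, pbk_congr (Gam_right hUs₁ hg1₁ (ne_zero_of_sq hx') hx2),
      The_eq_pbk hU₁ hUs₁ hg₁ hg1₁ hbd₁ (by norm_num) le_rfl (by linarith)]
  rw [← integral_wedge_eq hmid hT₁ hmidc hTc₁ (ρ := 99 / 100) (by norm_num) hright]
  congr 1
  ext1 x
  have hdim : finrank ℝ (EuclideanSpace ℝ (Fin (m + 1 + 1))) < (m + 1) + (m + 1) := by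
    rw [finrank_euclideanSpace, Fintype.card_fin]; omega
  by_cases hx : ‖x‖ ^ 2 < 29 / 32
  · rw [(hin hx).eq_of_nhds]
  · have hx' : 7 / 8 < ‖x‖ ^ 2 := by linarith [not_lt.1 hx]
    rw [(hout hx').eq_of_nhds, The_eq_pbk hU₀ hUs₀ hg₀ hg1₀ hbd₀ (by norm_num) le_rfl
      (by linarith)]
    unfold pbk
    rw [wedge_pullback hdim, wedge_pullback hdim]

end close2

end Pool.Agent.Lib.MP_3db736_an
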