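import Pool.Agent.Lib.MP_3db736_an.Potential

open MeasureTheory Metric Set Module Filter
open scoped ENNReal NNReal Topology

namespace Pool.Agent.Lib.MP_3db736_an

section affine

variable {E : Type*} [NormedAddCommGroup E] [InnerProductSpace ℝ E] [MeasurableSpace E]
  [BorelSpace E] [FiniteDimensional ℝ E]

/-- Affine change of variables for the lower integral. -/
theorem lintegral_affine (μ : Measure E) [μ.IsAddHaarMeasure] {h : E → ℝ≥0∞} (hh : Measurable h)
    (z : E) {d : ℝ} (hd : d ≠ 0) :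
    ∫⁻ y, h (z + d • y) ∂μ = ENNReal.ofReal |(d ^ finrank ℝ E)⁻¹| * ∫⁻ w, h w ∂μ := by
  have h1 : ∫⁻ y, h (z + d • y) ∂μ = ∫⁻ w, h (z + w) ∂(μ.map (fun y => d • y)) := by
    rw [lintegral_map (f := fun w => h (z + w)) (hh.comp (measurable_const_add z))
      (measurable_const_smul d)]
  rw [h1, Measure.map_addHaar_smul μ hd, lintegral_smul_measure, lintegral_add_left_eq_self,
    smul_eq_mul]

end affine

section nrm

variable {E : Type*} [NormedAddCommGroup E] [InnerProductSpace ℝ E] [Nontrivial E]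

instance : Nonempty (sphere (0 : E) 1) :=
  (NormedSpace.sphere_nonempty.2 zero_le_one).to_subtype

open Classical in
/-- Radial projection to the unit sphere. -/
noncomputable def nrm (x : E) : sphere (0 : E) 1 :=
  if h : x = 0 then Classical.arbitrary _ else
    ⟨‖x‖⁻¹ • x, by
      have : ‖x‖ ≠ 0 := norm_ne_zero_iff.2 h
      simp [norm_smul, this]⟩

theorem nrm_of_ne {x : E} (h : x ≠ 0) : ((nrm x : sphere (0 : E) 1) : E) = ‖x‖⁻¹ • x := by
  simp [nrm, h]

theorem nrm_smul {r : ℝ} (hr : 0 < r) (ζ : sphere (0 : E) 1) : nrm (r • (ζ : E)) = ζ := by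
  have hζ : (ζ : E) ≠ 0 := by
    intro h
    have := ζ.2
    rw [h] at this
    simp at this
  have h1 : r • (ζ : E) ≠ 0 := smul_ne_zero hr.ne' hζ
  ext1
  rw [nrm_of_ne h1, norm_smul, Real.norm_eq_abs, abs_of_pos hr]
  have h2 : ‖(ζ : E)‖ = 1 := by simp
  rw [h2, mul_one, smul_smul, inv_mul_cancel₀ hr.ne', one_smul]

theorem norm_smul_nrm {x : E} (h : x ≠ 0) : ‖x‖ • ((nrm x : sphere (0 : E) 1) : E) = x := by
  rw [nrm_of_ne h, smul_smul, mul_inv_cancel₀ (norm_ne_zero_iff.2 h), one_smul]

theorem nrm_sphere (ζ : sphere (0 : E) 1) : nrm (ζ : E) = ζ := by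
  have := nrm_smul one_pos ζ
  rwa [one_smul] at this

theorem continuousAt_nrm {x : E} (h : x ≠ 0) : ContinuousAt (nrm : E → sphere (0 : E) 1) x := by
  rw [Topology.IsInducing.subtypeVal.continuousAt_iff]
  have h1 : ContinuousAt (fun x : E => ‖x‖⁻¹ • x) x :=
    (continuous_norm.continuousAt.inv₀ (norm_ne_zero_iff.2 h)).smul continuousAt_id
  apply h1.congr
  filter_upwards [isOpen_ne.mem_nhds h] with y hy
  rw [Function.comp, nrm_of_ne hy]

theorem measurable_nrm [MeasurableSpace E] [BorelSpace E] :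
    Measurable (nrm : E → sphere (0 : E) 1) := by
  classical
  have h : (fun x : E => ((nrm x : sphere (0 : E) 1) : E)) =
      fun x => if x = 0 then ((nrm (0 : E) : sphere (0 : E) 1) : E) else ‖x‖⁻¹ • x := by
    ext1 x
    by_cases hx : x = 0
    · simp [hx]
    · rw [nrm_of_ne hx, if_neg hx]
  have h2 : Measurable (fun x : E => ((nrm x : sphere (0 : E) 1) : E)) := by
    rw [h]
    apply Measurable.ite (measurableSet_singleton 0) measurable_const
    exact measurable_norm.inv.smul measurable_id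
  have h3 : Measurable (fun x : E => (⟨((nrm x : sphere (0 : E) 1) : E), (nrm x).2⟩ :
    sphere (0 : E) 1)) := h2.subtype_mk
  exact h3

theorem sphere_close {r₀ r : ℝ} (h0 : 0 ≤ r₀) (h1 : r₀ < 1) (hr : 0 < r)
    (ζ ω : sphere (0 : E) 1) (h : ‖r • (ω : E) - r₀ • (ζ : E)‖ ≤ dr r₀) :
    dist ω ζ ≤ 6 * dr r₀ := by
  have hω : ‖(ω : E)‖ = 1 := by simp
  have hζ : ‖(ζ : E)‖ = 1 := by simp
  rw [Subtype.dist_eq, dist_eq_norm]
  by_cases h2 : r₀ < 1 / 2
  · have h3 : ‖(ω : E) - ζ‖ ≤ 2 := by
      refine (norm_sub_le _ _).trans ?_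
      rw [hω, hζ]; norm_num
    have h4 : 3 / 8 ≤ dr r₀ := by unfold dr; nlinarith
    linarith
  · push Not at h2
    have h3 : |r - r₀| ≤ dr r₀ := by
      refine le_trans ?_ h
      have := abs_norm_sub_norm_le (r • (ω : E)) (r₀ • (ζ : E))
      rw [norm_smul, norm_smul, hω, hζ, mul_one, mul_one, Real.norm_eq_abs, Real.norm_eq_abs,
        abs_of_pos hr, abs_of_nonneg h0] at this
      exact this
    have h4 : r₀ * ‖(ω : E) - ζ‖ ≤ 2 * dr r₀ := by
      calc r₀ * ‖(ω : E) - ζ‖ = ‖r₀ • ((ω : E) - ζ)‖ := by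
            rw [norm_smul, Real.norm_eq_abs, abs_of_nonneg h0]
        _ = ‖(r • (ω : E) - r₀ • (ζ : E)) - (r - r₀) • (ω : E)‖ := by
            congr 1; module
        _ ≤ ‖r • (ω : E) - r₀ • (ζ : E)‖ + ‖(r - r₀) • (ω : E)‖ := norm_sub_le _ _
        _ ≤ dr r₀ + dr r₀ := by
            gcongr
            rw [norm_smul, hω, mul_one, Real.norm_eq_abs]
            exact h3
        _ = 2 * dr r₀ := by ring
    have h5 : 0 ≤ dr r₀ := by unfold dr; nlinarith
    nlinarith [norm_nonneg ((ω : E) - ζ)]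

theorem radius_close {r₀ r : ℝ} (h0 : 0 ≤ r₀) (hr : 0 < r)
    (ζ ω : sphere (0 : E) 1) {δ : ℝ} (h : ‖r • (ω : E) - r₀ • (ζ : E)‖ < δ) :
    r ∈ Ioo (r₀ - δ) (r₀ + δ) := by
  have hω : ‖(ω : E)‖ = 1 := by simp
  have hζ : ‖(ζ : E)‖ = 1 := by simp
  have := abs_norm_sub_norm_le (r • (ω : E)) (r₀ • (ζ : E))
  rw [norm_smul, norm_smul, hω, hζ, mul_one, mul_one, Real.norm_eq_abs, Real.norm_eq_abs,
    abs_of_pos hr, abs_of_nonneg h0] at this
  have h2 := (this.trans_lt h)
  rw [abs_lt] at h2
  constructor <;> linarith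

end nrm

section energy

variable {E : Type*} [NormedAddCommGroup E] [InnerProductSpace ℝ E] [MeasurableSpace E]
  [BorelSpace E] [FiniteDimensional ℝ E] [Nontrivial E]
variable {G : Type*} [NormedAddCommGroup G] [NormedSpace ℝ G]

/-- The standard bump. -/
noncomputable def bmp : ContDiffBump (0 : E) := ⟨1 / 2, 1, by norm_num, by norm_num⟩

/-- The averaged extension of a map on the sphere to the ball. -/
noncomputable def ext (μ : Measure E) (f : sphere (0 : E) 1 → G) (x : E) : G :=
  ∫ y, (bmp.normed μ y) • f (nrm (x + dr ‖x‖ • y)) ∂μ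

/-- Pointwise energy. -/
noncomputable def eng (μ : Measure E) (f : sphere (0 : E) 1 → G) (p : ℝ) (m : ℕ)
    (ζ : sphere (0 : E) 1) : ℝ≥0∞ :=
  ∫⁻ ω, ENNReal.ofReal (dist (f ω) (f ζ) ^ p / dist ω ζ ^ (2 * m)) ∂μ.toSphere

/-- Integral over a ball of the difference, against the pointwise energy. -/
theorem ball_energy_le (μ : Measure E) [μ.IsAddHaarMeasure] {f : sphere (0 : E) 1 → G}
    (hf : Continuous f) {p : ℝ} (hp : 0 < p) (m : ℕ) (ζ : sphere (0 : E) 1) {r₀ : ℝ}
    (h0 : 0 < r₀) (h1 : r₀ < 1) :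
    ∫⁻ w in ball (r₀ • (ζ : E)) (dr r₀), ENNReal.ofReal (dist (f (nrm w)) (f ζ) ^ p) ∂μ ≤
      ENNReal.ofReal (2 * 6 ^ (2 * m) * dr r₀ ^ (2 * m + 1)) * eng μ f p m ζ := by
  have hd := dr_pos h0 h1
  have hmeas : Measurable (fun w : E => ENNReal.ofReal (dist (f (nrm w)) (f ζ) ^ p)) := by
    have h2 : Measurable (fun ω : sphere (0 : E) 1 => dist (f ω) (f ζ)) :=
      (hf.dist continuous_const).measurable
    exact ((h2.comp measurable_nrm).pow_const p).ennreal_ofReal
  rw [← lintegral_indicator measurableSet_ball,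
    lintegral_polar μ (hmeas.indicator measurableSet_ball), eng,
    ← lintegral_const_mul' _ _ ENNReal.ofReal_ne_top]
  apply lintegral_mono
  intro ω
  calc ∫⁻ r in Ioi (0 : ℝ), ENNReal.ofReal (r ^ (finrank ℝ E - 1)) *
        (ball (r₀ • (ζ : E)) (dr r₀)).indicator
          (fun w => ENNReal.ofReal (dist (f (nrm w)) (f ζ) ^ p)) (r • (ω : E))
      ≤ ∫⁻ r in Ioi (0 : ℝ), (Ioo (r₀ - dr r₀) (r₀ + dr r₀)).indicator (fun _ =>
          ENNReal.ofReal (6 ^ (2 * m) * dr r₀ ^ (2 * m)) *
            ENNReal.ofReal (dist (f ω) (f ζ) ^ p / dist ω ζ ^ (2 * m))) r := by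
        apply setLIntegral_mono' measurableSet_Ioi
        intro r hr
        by_cases hb : r • (ω : E) ∈ ball (r₀ • (ζ : E)) (dr r₀)
        · rw [indicator_of_mem hb]
          rw [mem_ball, dist_eq_norm] at hb
          have h2 := radius_close h0.le hr ζ ω hb
          rw [indicator_of_mem h2, nrm_smul hr]
          have h3 := sphere_close h0.le h1 hr ζ ω hb.le
          have h4 : r < 1 := by
            have := h2.2
            have := dr_le r₀
            linarith
          have hr0 : 0 < r := hr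
          calc ENNReal.ofReal (r ^ (finrank ℝ E - 1)) * ENNReal.ofReal (dist (f ω) (f ζ) ^ p)
              ≤ 1 * ENNReal.ofReal (dist (f ω) (f ζ) ^ p) := by
                gcongr
                rw [ENNReal.ofReal_le_one]
                exact pow_le_one₀ hr0.le h4.le
            _ = ENNReal.ofReal (dist (f ω) (f ζ) ^ p) := one_mul _
            _ ≤ _ := by
                rw [← ENNReal.ofReal_mul (by positivity)]
                apply ENNReal.ofReal_le_ofReal
                rcases eq_or_ne ω ζ with rfl | hne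
                · rw [dist_self, Real.zero_rpow hp.ne']
                  simp
                · have h5 : 0 < dist ω ζ := dist_pos.2 hne
                  rw [← mul_pow, mul_div_assoc', le_div_iff₀ (by positivity), mul_comm]
                  gcongr
        · rw [indicator_of_notMem hb, mul_zero]
          exact zero_le
    _ ≤ ∫⁻ r, (Ioo (r₀ - dr r₀) (r₀ + dr r₀)).indicator (fun _ =>
          ENNReal.ofReal (6 ^ (2 * m) * dr r₀ ^ (2 * m)) *
            ENNReal.ofReal (dist (f ω) (f ζ) ^ p / dist ω ζ ^ (2 * m))) r :=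
        setLIntegral_le_lintegral _ _
    _ = ENNReal.ofReal (6 ^ (2 * m) * dr r₀ ^ (2 * m)) *
            ENNReal.ofReal (dist (f ω) (f ζ) ^ p / dist ω ζ ^ (2 * m)) *
            ENNReal.ofReal (2 * dr r₀) := by
        rw [lintegral_indicator_const measurableSet_Ioo, Real.volume_Ioo]
        congr 2
        ring
    _ = _ := by
        rw [mul_right_comm, ← ENNReal.ofReal_mul (by positivity)]
        congr 2
        ring


theorem stronglyMeasurable_fnrm {f : sphere (0 : E) 1 → G} (hf : Continuous f) :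
    StronglyMeasurable (fun x : E => f (nrm x)) :=
  hf.stronglyMeasurable.comp_measurable measurable_nrm

theorem integrable_ext (μ : Measure E) [μ.IsAddHaarMeasure] {f : sphere (0 : E) 1 → G}
    (hf : Continuous f) (h1 : ∀ ζ, ‖f ζ‖ = 1) (z : E) (d : ℝ) :
    Integrable (fun y => (bmp.normed μ y) • f (nrm (z + d • y))) μ := by
  have hφ : Integrable (bmp.normed μ) μ := bmp.integrable_normed
  refine hφ.mono ?_ ?_
  · refine AEStronglyMeasurable.smul hφ.aestronglyMeasurable ?_
    exact ((stronglyMeasurable_fnrm hf).comp_measurable (by fun_prop)).aestronglyMeasurable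
  · refine Eventually.of_forall fun y => ?_
    rw [norm_smul, h1, mul_one]

theorem ext_sub (μ : Measure E) [μ.IsAddHaarMeasure] {f : sphere (0 : E) 1 → G}
    (hf : Continuous f) (h1 : ∀ ζ, ‖f ζ‖ = 1) [CompleteSpace G] (z : E) (v : G) :
    ext μ f z - v = ∫ y, (bmp.normed μ y) • (f (nrm (z + dr ‖z‖ • y)) - v) ∂μ := by
  have hφ : Integrable (bmp.normed μ) μ := bmp.integrable_normed
  simp_rw [smul_sub]
  rw [integral_sub (integrable_ext μ hf h1 z _) (hφ.smul_const v), integral_smul_const,
    bmp.integral_normed, one_smul, ext]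

theorem bmp_bound (μ : Measure E) [μ.IsAddHaarMeasure] : ∃ M : ℝ, 0 < M ∧ ∀ y, bmp.normed μ y ≤ M := by
  obtain ⟨M, hM⟩ := (bmp (E := E)).continuous_normed.bounded_above_of_compact_support
    (bmp.hasCompactSupport_normed (μ := μ))
  refine ⟨|M| + 1, by positivity, fun y => ?_⟩
  have := hM y
  have h2 := Real.norm_eq_abs (bmp.normed μ y)
  have h3 := le_abs_self (bmp.normed μ y)
  have h4 := le_abs_self M
  linarith

/-- If the extension is far from the sphere then the pointwise energy is large. -/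
theorem energy_lower (μ : Measure E) [μ.IsAddHaarMeasure] [CompleteSpace G] {p : ℝ} (hp : 0 < p) :
    ∃ c : ℝ, 0 < c ∧ ∀ f : sphere (0 : E) 1 → G, Continuous f → (∀ ζ, ‖f ζ‖ = 1) →
      ∀ (ζ : sphere (0 : E) 1) (r : ℝ), 0 < r → r < 1 → ‖ext μ f (r • (ζ : E))‖ ≤ 3 / 4 →
        ENNReal.ofReal c ≤ ENNReal.ofReal (dr r ^ (finrank ℝ E - 1)) *
          eng μ f p (finrank ℝ E - 1) ζ := by
  obtain ⟨M, hMpos, hM⟩ := bmp_bound μ
  set m := finrank ℝ E - 1 with hm
  have hN : finrank ℝ E = m + 1 := by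
    have : 0 < finrank ℝ E := finrank_pos
    omega
  set K : ℝ := 2 * 8 ^ p * (M * (2 * 6 ^ (2 * m))) with hK
  have hKpos : 0 < K := by positivity
  refine ⟨1 / K * (1 / 8), by positivity, ?_⟩
  intro f hf hf1 ζ r hr hr1 hF
  have hd := dr_pos hr hr1
  set z : E := r • (ζ : E) with hz
  have hzr : ‖z‖ = r := by rw [hz, norm_smul, Real.norm_eq_abs, abs_of_pos hr]; simp
  set φ : E → ℝ := bmp.normed μ with hφ
  have hφ0 : ∀ y, 0 ≤ φ y := fun y => bmp.nonneg_normed y
  set g : E → ℝ := fun y => dist (f (nrm (z + dr r • y))) (f ζ) with hg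
  have hgm : Measurable g := by
    have h2 : Measurable (fun ω : sphere (0 : E) 1 => dist (f ω) (f ζ)) :=
      (hf.dist continuous_const).measurable
    exact h2.comp (measurable_nrm.comp (by fun_prop))
  have hφm : Measurable φ := (bmp.continuous_normed (μ := μ)).measurable
  have hg0 : ∀ y, 0 ≤ g y := fun y => dist_nonneg
  have hg2 : ∀ y, g y ≤ 2 := by
    intro y
    simp only [hg]
    rw [dist_eq_norm]
    refine (norm_sub_le _ _).trans ?_
    rw [hf1, hf1]; norm_num
  have hφint : ∫⁻ y, ENNReal.ofReal (φ y) ∂μ = 1 := by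
    rw [← ofReal_integral_eq_lintegral_ofReal bmp.integrable_normed
      (Eventually.of_forall hφ0), bmp.integral_normed, ENNReal.ofReal_one]
  have hpt : ∀ y, φ y * g y ≤ 1 / 8 * φ y + 2 * 8 ^ p * (φ y * g y ^ p) := by
    intro y
    have h2 : g y ≤ 1 / 8 + 2 * 8 ^ p * g y ^ p := by
      by_cases h3 : g y ≤ 1 / 8
      · have : 0 ≤ 2 * (8 : ℝ) ^ p * g y ^ p := by
          have := Real.rpow_nonneg (hg0 y) p
          positivity
        linarith
      · push Not at h3
        have h4 : 1 ≤ (8 * g y) ^ p := Real.one_le_rpow (by linarith) hp.le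
        rw [Real.mul_rpow (by norm_num) (hg0 y)] at h4
        have := hg2 y
        linarith
    nlinarith [hφ0 y]
  set I : ℝ≥0∞ := ∫⁻ y, ENNReal.ofReal (φ y * g y ^ p) ∂μ with hI
  have hstep1 : ENNReal.ofReal (1 / 4) ≤
      ENNReal.ofReal (1 / 8) + ENNReal.ofReal (2 * 8 ^ p) * I := by
    calc ENNReal.ofReal (1 / 4) ≤ ‖ext μ f z - f ζ‖ₑ := by
          rw [← ofReal_norm]
          apply ENNReal.ofReal_le_ofReal
          have := norm_sub_norm_le (f ζ) (ext μ f z)
          rw [hf1, norm_sub_rev] at this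
          linarith
      _ ≤ ∫⁻ y, ‖φ y • (f (nrm (z + dr ‖z‖ • y)) - f ζ)‖ₑ ∂μ := by
          rw [ext_sub μ hf hf1 z (f ζ)]
          exact enorm_integral_le_lintegral_enorm _
      _ = ∫⁻ y, ENNReal.ofReal (φ y * g y) ∂μ := by
          apply lintegral_congr
          intro y
          rw [← ofReal_norm, norm_smul, Real.norm_eq_abs, abs_of_nonneg (hφ0 y), hzr,
            ← dist_eq_norm]
      _ ≤ ∫⁻ y, (ENNReal.ofReal (1 / 8) * ENNReal.ofReal (φ y) +
            ENNReal.ofReal (2 * 8 ^ p) * ENNReal.ofReal (φ y * g y ^ p)) ∂μ := by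
          apply lintegral_mono
          intro y
          have h3 : 0 ≤ g y ^ p := Real.rpow_nonneg (hg0 y) p
          have h4 := hφ0 y
          simp only
          rw [← ENNReal.ofReal_mul (by positivity), ← ENNReal.ofReal_mul (by positivity),
            ← ENNReal.ofReal_add (by positivity) (by positivity)]
          exact ENNReal.ofReal_le_ofReal (hpt y)
      _ = _ := by
          rw [lintegral_add_left (hφm.ennreal_ofReal.const_mul _),
            lintegral_const_mul' _ _ ENNReal.ofReal_ne_top,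
            lintegral_const_mul' _ _ ENNReal.ofReal_ne_top, hφint, mul_one]
  have hstep2 : ENNReal.ofReal (1 / 8) ≤ ENNReal.ofReal (2 * 8 ^ p) * I := by
    have h2 : ENNReal.ofReal (1 / 4) = ENNReal.ofReal (1 / 8) + ENNReal.ofReal (1 / 8) := by
      rw [← ENNReal.ofReal_add (by norm_num) (by norm_num)]
      congr 1; norm_num
    rw [h2] at hstep1
    exact (ENNReal.add_le_add_iff_left ENNReal.ofReal_ne_top).1 hstep1
  have hmeas : Measurable (fun w : E => ENNReal.ofReal (dist (f (nrm w)) (f ζ) ^ p)) := by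
    have h2 : Measurable (fun ω : sphere (0 : E) 1 => dist (f ω) (f ζ)) :=
      (hf.dist continuous_const).measurable
    exact ((h2.comp measurable_nrm).pow_const p).ennreal_ofReal
  have hstep3 : I ≤ ENNReal.ofReal M * (ENNReal.ofReal |(dr r ^ finrank ℝ E)⁻¹| *
      (ENNReal.ofReal (2 * 6 ^ (2 * m) * dr r ^ (2 * m + 1)) * eng μ f p m ζ)) := by
    calc I ≤ ∫⁻ y, ENNReal.ofReal M * (ball z (dr r)).indicator
            (fun w => ENNReal.ofReal (dist (f (nrm w)) (f ζ) ^ p)) (z + dr r • y) ∂μ := by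
          apply lintegral_mono
          intro y
          simp only
          by_cases hy : y ∈ ball (0 : E) 1
          · have hy' : z + dr r • y ∈ ball z (dr r) := by
              rw [mem_ball_iff_norm]
              rw [mem_ball_zero_iff] at hy
              rw [add_sub_cancel_left, norm_smul, Real.norm_eq_abs, abs_of_pos hd]
              nlinarith
            rw [indicator_of_mem hy', ← ENNReal.ofReal_mul hMpos.le]
            apply ENNReal.ofReal_le_ofReal
            have h3 : 0 ≤ g y ^ p := Real.rpow_nonneg (hg0 y) p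
            exact mul_le_mul_of_nonneg_right (hM y) h3
          · have : φ y = 0 := by
              have h3 := bmp.support_normed_eq (μ := μ) (E := E)
              have h4 : y ∉ Function.support (bmp.normed μ) := by
                rw [h3]; exact hy
              simpa using h4
            rw [this, zero_mul, ENNReal.ofReal_zero]
            exact zero_le
      _ = ENNReal.ofReal M * ∫⁻ y, (ball z (dr r)).indicator
            (fun w => ENNReal.ofReal (dist (f (nrm w)) (f ζ) ^ p)) (z + dr r • y) ∂μ := by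
          rw [lintegral_const_mul' _ _ ENNReal.ofReal_ne_top]
      _ = ENNReal.ofReal M * (ENNReal.ofReal |(dr r ^ finrank ℝ E)⁻¹| *
            ∫⁻ w in ball z (dr r), ENNReal.ofReal (dist (f (nrm w)) (f ζ) ^ p) ∂μ) := by
          rw [lintegral_affine μ (hmeas.indicator measurableSet_ball) z hd.ne',
            lintegral_indicator measurableSet_ball]
      _ ≤ _ := by
          gcongr
          exact ball_energy_le μ hf hp m ζ hr hr1
  calc ENNReal.ofReal (1 / K * (1 / 8)) = ENNReal.ofReal (1 / K) * ENNReal.ofReal (1 / 8) := by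
        rw [ENNReal.ofReal_mul (by positivity)]
    _ ≤ ENNReal.ofReal (1 / K) * (ENNReal.ofReal (2 * 8 ^ p) *
          (ENNReal.ofReal M * (ENNReal.ofReal |(dr r ^ finrank ℝ E)⁻¹| *
      (ENNReal.ofReal (2 * 6 ^ (2 * m) * dr r ^ (2 * m + 1)) * eng μ f p m ζ)))) := by
        gcongr
        exact hstep2.trans (by gcongr)
    _ = ENNReal.ofReal (1 / K * 2 * 8 ^ p * M * |(dr r ^ finrank ℝ E)⁻¹| *
          2 * 6 ^ (2 * m) * dr r ^ (2 * m + 1)) * eng μ f p m ζ := by
        simp only [← mul_assoc]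
        rw [← ENNReal.ofReal_mul (by positivity), ← ENNReal.ofReal_mul (by positivity),
          ← ENNReal.ofReal_mul (by positivity), ← ENNReal.ofReal_mul (by positivity)]
        simp only [← mul_assoc]
    _ = _ := by
        congr 2
        rw [hN, abs_of_pos (by positivity), hK]
        have h8 : (8 : ℝ) ^ p ≠ 0 := by positivity
        rw [show 2 * m + 1 = m + (m + 1) by ring, pow_add (dr r) m (m + 1)]
        field_simp

end energy

end Pool.Agent.Lib.MP_3db736_an
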