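import Pool.Agent.Lib.MP_3db736_an.Energy

open MeasureTheory Metric Set Module Filter
open scoped ENNReal NNReal Topology ContDiff Convolution

namespace Pool.Agent.Lib.MP_3db736_an

section ext

variable {E : Type*} [NormedAddCommGroup E] [InnerProductSpace ℝ E] [MeasurableSpace E]
  [BorelSpace E] [FiniteDimensional ℝ E] [Nontrivial E]
variable {G : Type*} [NormedAddCommGroup G] [NormedSpace ℝ G] [CompleteSpace G]

theorem norm_ext_le (μ : Measure E) [μ.IsAddHaarMeasure] {f : sphere (0 : E) 1 → G}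
    (h1 : ∀ ζ, ‖f ζ‖ = 1) (x : E) : ‖ext μ f x‖ ≤ 1 := by
  calc ‖ext μ f x‖ ≤ ∫ y, ‖(bmp.normed μ y) • f (nrm (x + dr ‖x‖ • y))‖ ∂μ :=
        norm_integral_le_integral_norm _
    _ = ∫ y, bmp.normed μ y ∂μ := by
        apply integral_congr_ae
        refine Eventually.of_forall fun y => ?_
        simp only
        rw [norm_smul, h1, mul_one, Real.norm_eq_abs, abs_of_nonneg (bmp.nonneg_normed y)]
    _ = 1 := bmp.integral_normed

theorem bmp_eq_zero (μ : Measure E) [μ.IsAddHaarMeasure] {y : E} (hy : 1 ≤ ‖y‖) :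
    bmp.normed μ y = 0 := by
  have h3 := bmp.support_normed_eq (μ := μ) (E := E)
  have h4 : y ∉ Function.support (bmp.normed μ) := by
    rw [h3, mem_ball_zero_iff]
    exact not_lt.2 hy
  simpa using h4

/-- The average is close to a value when the map is close to the value on the averaging region. -/
theorem norm_ext_sub_le (μ : Measure E) [μ.IsAddHaarMeasure] {f : sphere (0 : E) 1 → G}
    (hf : Continuous f) (h1 : ∀ ζ, ‖f ζ‖ = 1) (x : E) (v : G) {ε : ℝ}
    (h : ∀ y : E, ‖y‖ < 1 → ‖f (nrm (x + dr ‖x‖ • y)) - v‖ ≤ ε) :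
    ‖ext μ f x - v‖ ≤ ε := by
  rw [ext_sub μ hf h1 x v]
  calc ‖∫ y, (bmp.normed μ y) • (f (nrm (x + dr ‖x‖ • y)) - v) ∂μ‖
      ≤ ∫ y, bmp.normed μ y * ε ∂μ := by
        apply norm_integral_le_of_norm_le (bmp.integrable_normed.mul_const ε)
        refine Eventually.of_forall fun y => ?_
        rw [norm_smul, Real.norm_eq_abs, abs_of_nonneg (bmp.nonneg_normed y)]
        by_cases hy : ‖y‖ < 1
        · exact mul_le_mul_of_nonneg_left (h y hy) (bmp.nonneg_normed y)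
        · push Not at hy
          rw [bmp_eq_zero μ hy]
          simp
    _ = ε := by rw [integral_mul_const, bmp.integral_normed, one_mul]

/-- Boundary values of the extension, uniformly. -/
theorem ext_boundary (μ : Measure E) [μ.IsAddHaarMeasure] {f : sphere (0 : E) 1 → G}
    (hf : Continuous f) (h1 : ∀ ζ, ‖f ζ‖ = 1) {ε : ℝ} (hε : 0 < ε) :
    ∃ ρ : ℝ, 1 / 2 ≤ ρ ∧ ρ < 1 ∧ ∀ x : E, ρ < ‖x‖ → ‖x‖ < 1 → ‖ext μ f x - f (nrm x)‖ ≤ ε := by
  have hu : UniformContinuous f := CompactSpace.uniformContinuous_of_continuous hf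
  obtain ⟨δ, hδ, hfδ⟩ := Metric.uniformContinuous_iff.1 hu ε hε
  refine ⟨max (1 / 2) (1 - δ / 12), le_max_left _ _, ?_, ?_⟩
  · apply max_lt (by norm_num)
    linarith
  intro x hx1 hx2
  have hxh : 1 / 2 < ‖x‖ := lt_of_le_of_lt (le_max_left _ _) hx1
  have hxδ : 1 - δ / 12 < ‖x‖ := lt_of_le_of_lt (le_max_right _ _) hx1
  have hx0 : x ≠ 0 := by
    intro h; rw [h, norm_zero] at hxh; linarith
  apply norm_ext_sub_le μ hf h1
  intro y hy
  rw [← dist_eq_norm]
  have hd0 : 0 < dr ‖x‖ := dr_pos' (norm_nonneg _) hx2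
  have hd1 : dr ‖x‖ ≤ 1 - ‖x‖ := dr_le _
  set w := x + dr ‖x‖ • y with hw
  have hwx : ‖w - x‖ ≤ dr ‖x‖ := by
    rw [hw, add_sub_cancel_left, norm_smul, Real.norm_eq_abs, abs_of_pos hd0]
    nlinarith
  have hw0 : w ≠ 0 := by
    intro h
    rw [h, zero_sub, norm_neg] at hwx
    linarith
  have hclose := sphere_close (norm_nonneg x) hx2 (norm_pos_iff.2 hw0) (nrm x) (nrm w)
    (by rw [norm_smul_nrm hw0, norm_smul_nrm hx0]; exact hwx)
  apply le_of_lt
  apply hfδ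
  calc dist (nrm w) (nrm x) ≤ 6 * dr ‖x‖ := hclose
    _ < δ := by linarith

omit [Nontrivial E] in
theorem contDiff_dr_norm : ContDiff ℝ ∞ (fun x : E => dr ‖x‖) := by
  unfold dr
  exact (contDiff_const.sub (contDiff_norm_sq ℝ)).div_const 2

/-- The extension as a convolution with a variable kernel. -/
theorem ext_eq_conv (μ : Measure E) [μ.IsAddHaarMeasure] (f : sphere (0 : E) 1 → G) {x : E}
    (hx : ‖x‖ < 1) :
    ext μ f x = ((fun t => (dr ‖x‖ ^ finrank ℝ E)⁻¹ * bmp.normed μ ((dr ‖x‖)⁻¹ • t))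
      ⋆[ContinuousLinearMap.lsmul ℝ ℝ, μ] (fun w => f (nrm w))) x := by
  have hd0 : 0 < dr ‖x‖ := dr_pos' (norm_nonneg _) hx
  set d := dr ‖x‖ with hd
  have h1 := Measure.integral_comp_smul μ
    (fun t => bmp.normed μ (d⁻¹ • t) • f (nrm (x - t))) (-d)
  rw [convolution, ext]
  have h2 : (fun y => bmp.normed μ (d⁻¹ • (-d) • y) • f (nrm (x - (-d) • y))) =
      fun y => (bmp.normed μ y) • f (nrm (x + dr ‖x‖ • y)) := by
    ext1 y
    rw [smul_smul, show d⁻¹ * -d = -1 by field_simp, neg_one_smul, ContDiffBump.normed_neg,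
      neg_smul, sub_neg_eq_add]
  rw [← h2, h1, ← integral_smul]
  congr 1
  ext1 t
  rw [ContinuousLinearMap.lsmul_apply, mul_smul]
  congr 1
  rw [abs_inv, abs_pow, abs_neg, abs_of_pos hd0]

theorem contDiffOn_ext (μ : Measure E) [μ.IsAddHaarMeasure] {f : sphere (0 : E) 1 → G}
    (hf : Continuous f) (h1 : ∀ ζ, ‖f ζ‖ = 1) : ContDiffOn ℝ ∞ (ext μ f) (ball 0 1) := by
  have hloc : LocallyIntegrable (fun w : E => f (nrm w)) μ := by
    have h2 : LocallyIntegrable (fun _ : E => (1 : ℝ)) μ := by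
      exact locallyIntegrable_const 1
    refine h2.mono (stronglyMeasurable_fnrm hf).aestronglyMeasurable ?_
    refine Eventually.of_forall fun y => ?_
    rw [h1]; simp
  have hkey : ContDiffOn ℝ ((⊤ : ℕ∞) : WithTop ℕ∞) (fun x => ((fun (x : E) (t : E) =>
      (dr ‖x‖ ^ finrank ℝ E)⁻¹ * bmp.normed μ ((dr ‖x‖)⁻¹ • t)) x
      ⋆[ContinuousLinearMap.lsmul ℝ ℝ, μ] (fun w => f (nrm w))) (id x)) (ball (0 : E) 1) := by
    apply contDiffOn_convolution_left_with_param_comp (k := closedBall (0 : E) 1)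
      (ContinuousLinearMap.lsmul ℝ ℝ) contDiffOn_id isOpen_ball (isCompact_closedBall _ _) _ hloc
    · have hdne : ∀ p ∈ (ball (0 : E) 1) ×ˢ (univ : Set E), dr ‖p.1‖ ≠ 0 := by
        intro p hp
        have : ‖p.1‖ < 1 := by simpa using hp.1
        exact (dr_pos' (norm_nonneg _) this).ne'
      have h2 : ContDiff ℝ ∞ (fun p : E × E => dr ‖p.1‖) := contDiff_dr_norm.comp contDiff_fst
      have h3 : ContDiffOn ℝ ∞ (fun p : E × E => (dr ‖p.1‖ ^ finrank ℝ E)⁻¹)
          ((ball (0 : E) 1) ×ˢ univ) :=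
        (h2.pow _).contDiffOn.inv (fun p hp => pow_ne_zero _ (hdne p hp))
      have h4 : ContDiffOn ℝ ∞ (fun p : E × E => (dr ‖p.1‖)⁻¹ • p.2)
          ((ball (0 : E) 1) ×ˢ univ) :=
        (h2.contDiffOn.inv hdne).smul contDiff_snd.contDiffOn
      exact h3.mul ((bmp (E := E)).contDiff_normed.comp_contDiffOn h4)
    · intro x t hx ht
      have hx' : ‖x‖ < 1 := by simpa using hx
      have hd0 : 0 < dr ‖x‖ := dr_pos' (norm_nonneg _) hx'
      have hd1 : dr ‖x‖ ≤ 1 := by unfold dr; nlinarith [norm_nonneg x]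
      have ht' : 1 < ‖t‖ := by simpa using ht
      rw [bmp_eq_zero, mul_zero]
      rw [norm_smul, norm_inv, Real.norm_eq_abs, abs_of_pos hd0]
      rw [inv_mul_eq_div, le_div_iff₀ hd0]
      linarith
  refine hkey.congr ?_
  intro x hx
  have hx' : ‖x‖ < 1 := by simpa using hx
  rw [ext_eq_conv μ f hx']
  rfl

/-- The rescaled kernel. -/
noncomputable def kap (μ : Measure E) (q : ℝ × E × E) : ℝ :=
  (q.1 ^ finrank ℝ E)⁻¹ * bmp.normed μ (q.1⁻¹ • (q.2.2 - q.2.1))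

theorem kap_lipschitz (μ : Measure E) [μ.IsAddHaarMeasure] :
    ∃ L : ℝ≥0, LipschitzOnWith L (kap μ)
      (Icc (3 / 4 : ℝ) (5 / 4) ×ˢ (closedBall (0 : E) (1 / 4) ×ˢ closedBall (0 : E) 2)) := by
  have h1 : ContDiffOn ℝ 1 (kap μ)
      (Icc (3 / 4 : ℝ) (5 / 4) ×ˢ (closedBall (0 : E) (1 / 4) ×ˢ closedBall (0 : E) 2)) := by
    have hne : ∀ p ∈ (Icc (3 / 4 : ℝ) (5 / 4) ×ˢ
        (closedBall (0 : E) (1 / 4) ×ˢ closedBall (0 : E) 2)), p.1 ≠ 0 := by
      intro p hp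
      have : 3 / 4 ≤ p.1 := hp.1.1
      intro h; rw [h] at this; norm_num at this
    unfold kap
    have h2 : ContDiffOn ℝ 1 (fun p : ℝ × E × E => (p.1 ^ finrank ℝ E)⁻¹)
        (Icc (3 / 4 : ℝ) (5 / 4) ×ˢ (closedBall (0 : E) (1 / 4) ×ˢ closedBall (0 : E) 2)) :=
      (contDiff_fst.pow _).contDiffOn.inv (fun p hp => pow_ne_zero _ (hne p hp))
    have h3 : ContDiffOn ℝ 1 (fun p : ℝ × E × E => p.1⁻¹ • (p.2.2 - p.2.1))
        (Icc (3 / 4 : ℝ) (5 / 4) ×ˢ (closedBall (0 : E) (1 / 4) ×ˢ closedBall (0 : E) 2)) :=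
      (contDiff_fst.contDiffOn.inv hne).smul
        ((contDiff_snd.comp contDiff_snd).sub (contDiff_fst.comp contDiff_snd)).contDiffOn
    exact h2.mul (((bmp (E := E)).contDiff_normed (n := 1)).comp_contDiffOn h3)
  exact h1.exists_lipschitzOnWith one_ne_zero
    ((convex_Icc _ _).prod ((convex_closedBall _ _).prod (convex_closedBall _ _)))
    (isCompact_Icc.prod ((isCompact_closedBall _ _).prod (isCompact_closedBall _ _)))

theorem ext_eq_kap (μ : Measure E) [μ.IsAddHaarMeasure] (f : sphere (0 : E) 1 → G) {x₀ x : E}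
    (hx₀ : 0 < dr ‖x₀‖) (hx : 0 < dr ‖x‖) :
    ext μ f x = ∫ y, kap μ (dr ‖x‖ / dr ‖x₀‖, (dr ‖x₀‖)⁻¹ • (x - x₀), y) •
      f (nrm (x₀ + dr ‖x₀‖ • y)) ∂μ := by
  set d := dr ‖x‖ with hd
  set d₀ := dr ‖x₀‖ with hd₀
  set l := d / d₀ with hl
  have hlpos : 0 < l := by positivity
  set u := d₀⁻¹ • (x - x₀) with hu
  have hd₀ne : d₀ ≠ 0 := hx₀.ne'
  have hlne : l ≠ 0 := hlpos.ne'
  set h' : E → G := fun y => bmp.normed μ (l⁻¹ • y) • f (nrm (x₀ + d₀ • (y + u))) with hh'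
  have e1 : ext μ f x = ∫ y, h' (l • y) ∂μ := by
    rw [ext]
    congr 1
    ext1 y
    simp only [hh']
    rw [smul_smul l⁻¹ l y, inv_mul_cancel₀ hlne, one_smul, ← hd]
    congr 3
    rw [smul_add, hu, smul_smul, smul_smul, mul_inv_cancel₀ hd₀ne, one_smul, hl,
      mul_div_cancel₀ d hd₀ne]
    abel
  rw [e1, Measure.integral_comp_smul μ h' l, ← integral_smul]
  rw [← integral_sub_right_eq_self (fun y => |(l ^ finrank ℝ E)⁻¹| • h' y) u]
  congr 1
  ext1 y
  simp only [hh', kap, mul_smul, sub_add_cancel]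
  rw [abs_of_pos (by positivity)]

/-- Local Lipschitz estimate of the extension, at the scale of the depth. -/
theorem ext_lipschitz (μ : Measure E) [μ.IsAddHaarMeasure] :
    ∃ L : ℝ, 0 < L ∧ ∀ f : sphere (0 : E) 1 → G, Continuous f → (∀ ζ, ‖f ζ‖ = 1) →
      ∀ x₀ x : E, ‖x₀‖ < 1 → ‖x - x₀‖ ≤ dr ‖x₀‖ / 4 →
        ‖ext μ f x - ext μ f x₀‖ ≤ L * ‖x - x₀‖ / dr ‖x₀‖ := by
  obtain ⟨L, hL⟩ := kap_lipschitz μ
  refine ⟨L * μ.real (closedBall 0 2) + 1, by positivity, ?_⟩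
  intro f hf hf1 x₀ x hx₀ hx
  have hd₀ : 0 < dr ‖x₀‖ := dr_pos' (norm_nonneg _) hx₀
  have hd₀1 : dr ‖x₀‖ ≤ 1 - ‖x₀‖ := dr_le _
  have hxn : ‖x‖ < 1 := by
    have h1 : ‖x‖ ≤ ‖x - x₀‖ + ‖x₀‖ := by
      have := norm_add_le (x - x₀) x₀
      rwa [sub_add_cancel] at this
    linarith
  have hd : 0 < dr ‖x‖ := dr_pos' (norm_nonneg _) hxn
  set d := dr ‖x‖ with hdd
  set d₀ := dr ‖x₀‖ with hdd₀
  have hdiff : |d - d₀| ≤ ‖x - x₀‖ := by
    have h1 : d - d₀ = (‖x₀‖ - ‖x‖) * ((‖x₀‖ + ‖x‖) / 2) := by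
      rw [hdd, hdd₀]; unfold dr; ring
    rw [h1, abs_mul]
    have h2 : |‖x₀‖ - ‖x‖| ≤ ‖x - x₀‖ := by
      rw [norm_sub_rev]; exact abs_norm_sub_norm_le _ _
    have h3 : |(‖x₀‖ + ‖x‖) / 2| ≤ 1 := by
      rw [abs_of_nonneg (by positivity)]
      linarith
    calc |‖x₀‖ - ‖x‖| * |(‖x₀‖ + ‖x‖) / 2| ≤ ‖x - x₀‖ * 1 := by gcongr
      _ = _ := mul_one _
  set l := d / d₀ with hl
  set u := d₀⁻¹ • (x - x₀) with hu
  have hl1 : |l - 1| ≤ ‖x - x₀‖ / d₀ := by
    have : l - 1 = (d - d₀) / d₀ := by rw [hl]; field_simp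
    rw [this, abs_div, abs_of_pos hd₀]
    gcongr
  have hun : ‖u‖ = ‖x - x₀‖ / d₀ := by
    rw [hu, norm_smul, norm_inv, Real.norm_eq_abs, abs_of_pos hd₀]; field_simp
  have hq : ‖x - x₀‖ / d₀ ≤ 1 / 4 := by
    rw [div_le_iff₀ hd₀]; linarith
  have hlI : l ∈ Icc (3 / 4 : ℝ) (5 / 4) := by
    have := abs_le.1 (hl1.trans hq)
    constructor <;> linarith [this.1, this.2]
  have hlpos : 0 < l := by linarith [hlI.1]
  have e1 := ext_eq_kap μ f (x₀ := x₀) (x := x) hd₀ hd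
  have e2 := ext_eq_kap μ f (x₀ := x₀) (x := x₀) hd₀ hd₀
  rw [← hdd₀] at e1 e2
  rw [← hdd, ← hl, ← hu] at e1
  rw [div_self hd₀.ne', sub_self, smul_zero] at e2
  have hint : ∀ (l : ℝ) (u : E), l ≠ 0 →
      Integrable (fun y => kap μ (l, u, y) • f (nrm (x₀ + d₀ • y))) μ := by
    intro l u hl
    have h1 : Integrable (fun y => kap μ (l, u, y)) μ := by
      have h2 : Integrable (fun y => bmp.normed μ (l⁻¹ • y)) μ :=
        (bmp.integrable_normed (μ := μ)).comp_smul (inv_ne_zero hl)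
      exact (h2.comp_sub_right u).const_mul ((l ^ finrank ℝ E)⁻¹)
    refine h1.mono ?_ ?_
    · refine AEStronglyMeasurable.smul h1.aestronglyMeasurable ?_
      exact ((stronglyMeasurable_fnrm hf).comp_measurable (by fun_prop)).aestronglyMeasurable
    · refine Eventually.of_forall fun y => ?_
      rw [norm_smul, hf1, mul_one]
  rw [e1, e2, ← integral_sub (hint l u hlpos.ne') (hint 1 0 one_ne_zero)]
  have hbound : ∀ y, ‖kap μ (l, u, y) • f (nrm (x₀ + d₀ • y)) -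
      kap μ (1, 0, y) • f (nrm (x₀ + d₀ • y))‖ ≤
      (closedBall (0 : E) 2).indicator (fun _ => L * (‖x - x₀‖ / d₀)) y := by
    intro y
    rw [← sub_smul, norm_smul, hf1, mul_one, Real.norm_eq_abs]
    by_cases hy : y ∈ closedBall (0 : E) 2
    · rw [indicator_of_mem hy]
      have hm1 : (l, u, y) ∈ (Icc (3 / 4 : ℝ) (5 / 4) ×ˢ
          (closedBall (0 : E) (1 / 4) ×ˢ closedBall (0 : E) 2)) := by
        refine ⟨hlI, ?_, hy⟩
        rw [mem_closedBall_zero_iff, hun]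
        exact hq
      have hm2 : ((1 : ℝ), (0 : E), y) ∈ (Icc (3 / 4 : ℝ) (5 / 4) ×ˢ
          (closedBall (0 : E) (1 / 4) ×ˢ closedBall (0 : E) 2)) := by
        refine ⟨⟨by norm_num, by norm_num⟩, ?_, hy⟩
        exact mem_closedBall_self (by norm_num)
      have h3 := hL.dist_le_mul _ hm1 _ hm2
      rw [Real.dist_eq] at h3
      refine h3.trans ?_
      gcongr
      rw [Prod.dist_eq, Prod.dist_eq, dist_self]
      simp only [Real.dist_eq, dist_zero_right]
      refine max_le hl1 (max_le (le_of_eq hun) (by positivity))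
    · rw [indicator_of_notMem hy]
      have hy' : 2 < ‖y‖ := by simpa using hy
      have h4 : kap μ (l, u, y) = 0 := by
        unfold kap
        simp only
        rw [bmp_eq_zero, mul_zero]
        rw [norm_smul, norm_inv, Real.norm_eq_abs, abs_of_pos hlpos, inv_mul_eq_div,
          le_div_iff₀ hlpos]
        have h5 : ‖y‖ ≤ ‖y - u‖ + ‖u‖ := by
          have := norm_add_le (y - u) u
          rwa [sub_add_cancel] at this
        have := hlI.2
        rw [hun] at h5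
        linarith
      have h6 : kap μ (1, 0, y) = 0 := by
        unfold kap
        simp only
        rw [bmp_eq_zero, mul_zero]
        rw [inv_one, one_smul, sub_zero]
        linarith
      rw [h4, h6]
      simp
  calc _ ≤ ∫ y, (closedBall (0 : E) 2).indicator (fun _ => L * (‖x - x₀‖ / d₀)) y ∂μ := by
        apply norm_integral_le_of_norm_le _ (Eventually.of_forall hbound)
        exact (integrable_indicator_iff measurableSet_closedBall).2
          (integrableOn_const measure_closedBall_lt_top.ne)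
    _ = μ.real (closedBall (0 : E) 2) * (L * (‖x - x₀‖ / d₀)) := by
        rw [integral_indicator_const _ measurableSet_closedBall, smul_eq_mul]
    _ ≤ _ := by
        have : 0 ≤ ‖x - x₀‖ / d₀ := by positivity
        rw [mul_div_assoc]
        nlinarith

theorem norm_fderiv_ext_le (μ : Measure E) [μ.IsAddHaarMeasure] :
    ∃ L : ℝ, 0 < L ∧ ∀ f : sphere (0 : E) 1 → G, Continuous f → (∀ ζ, ‖f ζ‖ = 1) →
      ∀ x : E, ‖x‖ < 1 → ‖fderiv ℝ (ext μ f) x‖ ≤ L / dr ‖x‖ := by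
  obtain ⟨L, hL, h⟩ := ext_lipschitz (G := G) μ
  refine ⟨L, hL, ?_⟩
  intro f hf hf1 x hx
  have hd := dr_pos' (norm_nonneg _) hx
  apply norm_fderiv_le_of_lip' ℝ (by positivity)
  filter_upwards [closedBall_mem_nhds x (show 0 < dr ‖x‖ / 4 by positivity)] with y hy
  rw [mem_closedBall, dist_eq_norm] at hy
  have := h f hf hf1 x y hx hy
  rw [div_mul_eq_mul_div]
  exact this

theorem measurableSet_bad (μ : Measure E) [μ.IsAddHaarMeasure] {f : sphere (0 : E) 1 → G}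
    (hf : Continuous f) (h1 : ∀ ζ, ‖f ζ‖ = 1) (t : ℝ) :
    MeasurableSet {x : E | x ∈ ball (0 : E) 1 ∧ ‖ext μ f x‖ ≤ t} := by
  have hc : ContinuousOn (fun x => ‖ext μ f x‖) (ball (0 : E) 1) :=
    (contDiffOn_ext μ hf h1).continuousOn.norm
  obtain ⟨u, hu, hu2⟩ := continuousOn_iff_isClosed.1 hc (Iic t) isClosed_Iic
  have : {x : E | x ∈ ball (0 : E) 1 ∧ ‖ext μ f x‖ ≤ t} = u ∩ ball (0 : E) 1 := by
    rw [← hu2]
    ext x
    simp [and_comm]
  rw [this]
  exact hu.measurableSet.inter measurableSet_ball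

/-- If the extension comes close to the origin, the energy is bounded below. -/
theorem exists_energy_lower_bound (μ : Measure E) [μ.IsAddHaarMeasure] {p : ℝ} (hp : 0 < p)
    (hN : 2 ≤ finrank ℝ E) :
    ∃ c : ℝ, 0 < c ∧ ∀ f : sphere (0 : E) 1 → G, Continuous f → (∀ ζ, ‖f ζ‖ = 1) →
      (∃ x₀ : E, ‖x₀‖ < 1 ∧ ‖ext μ f x₀‖ ≤ 1 / 2) →
        ENNReal.ofReal c ≤ ∫⁻ ζ, eng μ f p (finrank ℝ E - 1) ζ ∂μ.toSphere := by
  obtain ⟨L, hLpos, hL⟩ := ext_lipschitz (G := G) μ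
  obtain ⟨c, hc, henergy⟩ := energy_lower (G := G) μ hp
  set N := finrank ℝ E with hNdef
  set η : ℝ := min (1 / 4) (1 / (4 * L)) with hη
  have hηpos : 0 < η := lt_min (by norm_num) (by positivity)
  set v : ℝ := μ.real (closedBall 0 1) with hv
  have hvpos : 0 < v := by
    rw [hv]
    apply ENNReal.toReal_pos
    · exact (measure_closedBall_pos μ 0 one_pos).ne'
    · exact measure_closedBall_lt_top.ne
  set K : ℝ := 2 ^ (N - 1 + 4) / c with hK
  have hKpos : 0 < K := by positivity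
  refine ⟨K⁻¹ * (((5 / 4) ^ N)⁻¹ * (η ^ N * v)), by positivity, ?_⟩
  intro f hf hf1 ⟨x₀, hx₀, hF⟩
  have hd₀ : 0 < dr ‖x₀‖ := dr_pos' (norm_nonneg _) hx₀
  have hd₀1 : dr ‖x₀‖ ≤ 1 - ‖x₀‖ := dr_le _
  set d₀ := dr ‖x₀‖ with hd₀def
  set D : Set E := {x : E | x ∈ ball (0 : E) 1 ∧ ‖ext μ f x‖ ≤ 3 / 4} with hD
  have hDm : MeasurableSet D := measurableSet_bad μ hf hf1 _
  have hw := setLIntegral_weight_le μ hDm (fun x hx => hx.1) hc (show 1 ≤ N - 1 by omega)
    (fun ζ r hr hr1 hrD => henergy f hf hf1 ζ r hr hr1 hrD.2)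
  have e1 : N - 1 + 1 = N := by omega
  rw [e1] at hw
  have hsub : closedBall x₀ (η * d₀) ⊆ D := by
    intro x hx
    rw [mem_closedBall, dist_eq_norm] at hx
    have h1 : η * d₀ ≤ d₀ / 4 := by
      have := min_le_left (1 / 4 : ℝ) (1 / (4 * L))
      rw [← hη] at this
      nlinarith
    have h2 : ‖x‖ < 1 := by
      have h3 : ‖x‖ ≤ ‖x - x₀‖ + ‖x₀‖ := by
        have := norm_add_le (x - x₀) x₀
        rwa [sub_add_cancel] at this
      linarith
    refine ⟨by simpa using h2, ?_⟩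
    have h3 := hL f hf hf1 x₀ x hx₀ (hx.trans h1)
    have h4 : L * ‖x - x₀‖ / d₀ ≤ 1 / 4 := by
      rw [div_le_iff₀ hd₀]
      have h5 : η ≤ 1 / (4 * L) := min_le_right _ _
      calc L * ‖x - x₀‖ ≤ L * (1 / (4 * L) * d₀) := by
            gcongr
            exact hx.trans (by gcongr)
        _ = 1 / 4 * d₀ := by field_simp
    have h5 : ‖ext μ f x‖ ≤ ‖ext μ f x - ext μ f x₀‖ + ‖ext μ f x₀‖ := by
      have := norm_add_le (ext μ f x - ext μ f x₀) (ext μ f x₀)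
      rwa [sub_add_cancel] at this
    linarith
  have hlow : ENNReal.ofReal (((5 / 4) ^ N)⁻¹ * (η ^ N * v)) ≤
      ∫⁻ x in D, ENNReal.ofReal ((dr ‖x‖ ^ N)⁻¹) ∂μ := by
    calc ENNReal.ofReal (((5 / 4) ^ N)⁻¹ * (η ^ N * v))
        = ENNReal.ofReal (((5 / 4 * d₀) ^ N)⁻¹) * μ (closedBall x₀ (η * d₀)) := by
          rw [Measure.addHaar_closedBall' _ _ (by positivity), ← hNdef]
          have h1 : μ (closedBall (0 : E) 1) = ENNReal.ofReal v := by
            rw [hv, Measure.real, ENNReal.ofReal_toReal measure_closedBall_lt_top.ne]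
          rw [h1, ← ENNReal.ofReal_mul (by positivity), ← ENNReal.ofReal_mul (by positivity)]
          congr 1
          rw [mul_pow, mul_pow]
          field_simp
      _ = ∫⁻ x in closedBall x₀ (η * d₀), ENNReal.ofReal (((5 / 4 * d₀) ^ N)⁻¹) ∂μ := by
          rw [setLIntegral_const]
      _ ≤ ∫⁻ x in closedBall x₀ (η * d₀), ENNReal.ofReal ((dr ‖x‖ ^ N)⁻¹) ∂μ := by
          apply setLIntegral_mono' measurableSet_closedBall
          intro x hx
          have hxb : ‖x‖ < 1 := by simpa using (hsub hx).1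
          have hdx : 0 < dr ‖x‖ := dr_pos' (norm_nonneg _) hxb
          apply ENNReal.ofReal_le_ofReal
          have h2 : dr ‖x‖ ≤ 5 / 4 * d₀ := by
            rw [mem_closedBall, dist_eq_norm] at hx
            have h3 : dr ‖x‖ - d₀ = (‖x₀‖ - ‖x‖) * ((‖x₀‖ + ‖x‖) / 2) := by
              rw [hd₀def]; unfold dr; ring
            have h4 : ‖x₀‖ - ‖x‖ ≤ ‖x - x₀‖ := by
              rw [norm_sub_rev]; exact norm_sub_norm_le _ _
            have h5 : ‖x - x₀‖ ≤ d₀ / 4 := by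
              have := min_le_left (1 / 4 : ℝ) (1 / (4 * L))
              rw [← hη] at this
              nlinarith
            have h6 : (‖x₀‖ + ‖x‖) / 2 ≤ 1 := by linarith
            have h7 : 0 ≤ (‖x₀‖ + ‖x‖) / 2 := by positivity
            nlinarith
          gcongr
      _ ≤ _ := lintegral_mono_set hsub
  calc ENNReal.ofReal (K⁻¹ * (((5 / 4) ^ N)⁻¹ * (η ^ N * v)))
      = ENNReal.ofReal K⁻¹ * ENNReal.ofReal (((5 / 4) ^ N)⁻¹ * (η ^ N * v)) := by
        rw [ENNReal.ofReal_mul (by positivity)]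
    _ ≤ ENNReal.ofReal K⁻¹ * (ENNReal.ofReal K *
          ∫⁻ ζ, eng μ f p (N - 1) ζ ∂μ.toSphere) := by
        gcongr
        exact hlow.trans hw
    _ = _ := by
        rw [← mul_assoc, ← ENNReal.ofReal_mul (by positivity), inv_mul_cancel₀ hKpos.ne',
          ENNReal.ofReal_one, one_mul]

end ext

end Pool.Agent.Lib.MP_3db736_an
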