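import Mathlib

open MeasureTheory Metric Set Module Filter
open scoped ENNReal NNReal Topology ContDiff

namespace Pool.Agent.Lib.MP_3db736_an

section alg

variable {E : Type*} [NormedAddCommGroup E] [NormedSpace ℝ E] {n : ℕ}

theorem alt_eq_zero [FiniteDimensional ℝ E] {k : ℕ} (h : finrank ℝ E < k)
    (f : E [⋀^Fin k]→L[ℝ] ℝ) : f = 0 := by
  ext v
  have h1 : ¬ LinearIndependent ℝ v := by
    intro hv
    have := hv.fintype_card_le_finrank
    rw [Fintype.card_fin] at this
    omega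
  exact f.toAlternatingMap.map_linearDependent v h1

/-- Cartan identity in coordinates. -/
theorem cartan_sum (A : E →L[ℝ] E [⋀^Fin (n + 1)]→L[ℝ] ℝ) (u : E) (v : Fin (n + 1) → E) :
    ∑ i : Fin (n + 1), (-1) ^ (i : ℕ) • A (v i) (Matrix.vecCons u (Fin.removeNth i v)) =
      A u v - ContinuousAlternatingMap.alternatizeUncurryFin A (Matrix.vecCons u v) := by
  rw [ContinuousAlternatingMap.alternatizeUncurryFin_apply]
  have h0 : (Fin.removeNth 0 (Matrix.vecCons u v) : Fin (n + 1) → E) = v := by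
    ext i
    simp [Fin.removeNth]
  have h1 : ∀ i : Fin (n + 1), Fin.removeNth i.succ (Matrix.vecCons u v : Fin (n + 2) → E) =
      Matrix.vecCons u (Fin.removeNth i v) := by
    intro i
    ext j
    refine Fin.cases ?_ (fun j => ?_) j
    · simp [Fin.removeNth]
    · simp [Fin.removeNth]
  have h2 : ∑ i : Fin (n + 1 + 1), (-1) ^ (i : ℕ) •
      (A ((Matrix.vecCons u v : Fin (n + 1 + 1) → E) i))
        (i.removeNth (Matrix.vecCons u v : Fin (n + 1 + 1) → E)) =
      A u v - ∑ i : Fin (n + 1), (-1) ^ (i : ℕ) • A (v i) (Matrix.vecCons u (Fin.removeNth i v)) := by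
    rw [Fin.sum_univ_succ]
    rw [h0]
    simp only [h1, Fin.val_zero, pow_zero, one_smul, Matrix.cons_val_zero, Matrix.cons_val_succ,
      Fin.val_succ, pow_succ, mul_neg, mul_one, neg_smul, Finset.sum_neg_distrib]
    ring
  rw [h2]
  ring

end alg

section vol

/-- The standard volume form. -/
noncomputable def volG (k : ℕ) :
    EuclideanSpace ℝ (Fin k) [⋀^Fin k]→L[ℝ] ℝ :=
  { (Matrix.detRowAlternating (R := ℝ) (n := Fin k)).compLinearMap
      (EuclideanSpace.equiv (Fin k) ℝ).toLinearEquiv.toLinearMap with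
    cont := by
      have h : Continuous (fun v : Fin k → EuclideanSpace ℝ (Fin k) =>
          Matrix.det (fun i j => v i j)) := by
        apply Continuous.matrix_det
        fun_prop
      exact h }

theorem volG_apply (k : ℕ) (v : Fin k → EuclideanSpace ℝ (Fin k)) :
    volG k v = Matrix.det (fun i j => v i j) := rfl

end vol

theorem contDiff_alt {E : Type*} [NormedAddCommGroup E] [NormedSpace ℝ E] {k : ℕ} (m : ℕ∞ω) :
    ContDiff ℝ m (fun A : E →L[ℝ] E [⋀^Fin k]→L[ℝ] ℝ =>
      ContinuousAlternatingMap.alternatizeUncurryFin A) := by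
  apply ContinuousLinearMap.contDiff

section kappa

/-- The radial cutoff profile. -/
noncomputable def kap2 (n : ℕ) (s : ℝ) : ℝ :=
  Real.smoothTransition (16 * s - 1) * s ^ (-(((n + 1 : ℕ) : ℝ) / 2))

theorem contDiff_kap2 (n : ℕ) : ContDiff ℝ ∞ (kap2 n) := by
  rw [contDiff_iff_contDiffAt]
  intro s
  by_cases hs : 0 < s
  · unfold kap2
    have h1 : ContDiff ℝ ∞ (fun s : ℝ => Real.smoothTransition (16 * s - 1)) :=
      Real.smoothTransition.contDiff.comp (by fun_prop)
    exact h1.contDiffAt.mul (Real.contDiffAt_rpow_const_of_ne hs.ne')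
  · have h1 : kap2 n =ᶠ[𝓝 s] fun _ => 0 := by
      have h2 : IsOpen {s : ℝ | s < 1 / 16} := isOpen_lt continuous_id continuous_const
      filter_upwards [h2.mem_nhds (show s < 1 / 16 by linarith [not_lt.1 hs])] with x hx
      have hx' : x < 1 / 16 := hx
      unfold kap2
      rw [Real.smoothTransition.zero_of_nonpos (by linarith), zero_mul]
    exact contDiffAt_const.congr_of_eventuallyEq h1

theorem kap2_eq {n : ℕ} {s : ℝ} (hs : 1 / 8 ≤ s) : kap2 n s = s ^ (-(((n + 1 : ℕ) : ℝ) / 2)) := by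
  unfold kap2
  rw [Real.smoothTransition.one_of_one_le (by linarith), one_mul]

theorem deriv_kap2 {n : ℕ} {s : ℝ} (hs : 1 / 8 < s) :
    2 * s * deriv (kap2 n) s + (n + 1 : ℕ) * kap2 n s = 0 := by
  have h1 : kap2 n =ᶠ[𝓝 s] fun s => s ^ (-(((n + 1 : ℕ) : ℝ) / 2)) := by
    have h2 : IsOpen {s : ℝ | 1 / 8 < s} := isOpen_lt continuous_const continuous_id
    filter_upwards [h2.mem_nhds hs] with x hx
    exact kap2_eq (le_of_lt hx)
  have hs0 : 0 < s := by linarith
  rw [h1.deriv_eq, kap2_eq hs.le, (Real.hasDerivAt_rpow_const (Or.inl hs0.ne')).deriv]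
  rw [Real.rpow_sub_one hs0.ne']
  field_simp
  ring

/-- The form on the target. -/
noncomputable def omg (n : ℕ) (y : EuclideanSpace ℝ (Fin (n + 1))) :
    EuclideanSpace ℝ (Fin (n + 1)) [⋀^Fin n]→L[ℝ] ℝ :=
  kap2 n (‖y‖ ^ 2) • (volG (n + 1)).curryLeft y

theorem contDiff_omg (n : ℕ) : ContDiff ℝ ∞ (omg n) := by
  unfold omg
  have h1 : ContDiff ℝ ∞ (fun y : EuclideanSpace ℝ (Fin (n + 1)) => kap2 n (‖y‖ ^ 2)) :=
    (contDiff_kap2 n).comp (contDiff_norm_sq ℝ)
  have h2 : ContDiff ℝ ∞ (fun y : EuclideanSpace ℝ (Fin (n + 1)) =>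
      (volG (n + 1)).curryLeft y) := (volG (n + 1)).curryLeft.contDiff
  exact h1.smul h2

theorem hasFDerivAt_omg (n : ℕ) (y : EuclideanSpace ℝ (Fin (n + 1))) :
    HasFDerivAt (omg n) (kap2 n (‖y‖ ^ 2) • (volG (n + 1)).curryLeft +
      (deriv (kap2 n) (‖y‖ ^ 2) • (2 • innerSL ℝ y)).smulRight ((volG (n + 1)).curryLeft y)) y := by
  have h1 : HasFDerivAt (fun y : EuclideanSpace ℝ (Fin (n + 1)) => kap2 n (‖y‖ ^ 2))
      (deriv (kap2 n) (‖y‖ ^ 2) • (2 • innerSL ℝ y)) y := by
    have h2 : HasDerivAt (kap2 n) (deriv (kap2 n) (‖y‖ ^ 2)) (‖y‖ ^ 2) :=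
      ((contDiff_kap2 n).differentiable (by simp) _).hasDerivAt
    have h3 := (hasStrictFDerivAt_norm_sq y).hasFDerivAt
    exact h2.comp_hasFDerivAt y h3
  have h4 : HasFDerivAt (fun y : EuclideanSpace ℝ (Fin (n + 1)) =>
      (volG (n + 1)).curryLeft y) ((volG (n + 1)).curryLeft) y :=
    (volG (n + 1)).curryLeft.hasFDerivAt
  exact h1.smul h4

theorem extDeriv_omg (n : ℕ) {y : EuclideanSpace ℝ (Fin (n + 1))} (hy : 1 / 8 < ‖y‖ ^ 2) :
    extDeriv (omg n) y = 0 := by
  rw [extDeriv, (hasFDerivAt_omg n y).fderiv]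
  ext v
  rw [ContinuousAlternatingMap.alternatizeUncurryFin_apply]
  set D := volG (n + 1) with hD
  set s := ‖y‖ ^ 2 with hs
  have h1 : ∀ (w : EuclideanSpace ℝ (Fin (n + 1))) (v' : Fin n → EuclideanSpace ℝ (Fin (n + 1))),
      (kap2 n s • D.curryLeft + (deriv (kap2 n) s • (2 • innerSL ℝ y)).smulRight
        (D.curryLeft y)) w v' = kap2 n s * D (Matrix.vecCons w v') +
        (deriv (kap2 n) s * (2 * inner ℝ y w)) * D (Matrix.vecCons y v') := by
    intro w v'
    have : (2 • innerSL ℝ y) w = 2 * inner ℝ y w := by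
      rw [two_mul, two_smul]; rfl
    change kap2 n s * D (Matrix.vecCons w v') +
        (deriv (kap2 n) s * ((2 • innerSL ℝ y) w)) * D (Matrix.vecCons y v') = _
    rw [this]
  simp only [h1]
  have h2 := congrArg (fun f => f v) (ContinuousAlternatingMap.alternatizeUncurryFin_curryLeft D)
  simp only [ContinuousAlternatingMap.alternatizeUncurryFin_apply,
    ContinuousAlternatingMap.curryLeft_apply_apply] at h2
  have h2' : ((n + 1) • D) v = ((n + 1 : ℕ) : ℝ) * D v := by
    rw [ContinuousAlternatingMap.smul_apply, nsmul_eq_mul]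
  rw [h2'] at h2
  have h3 := cartan_sum ((innerSL ℝ y).smulRight D) y v
  rw [alt_eq_zero (by rw [finrank_euclideanSpace, Fintype.card_fin]; omega)
    (ContinuousAlternatingMap.alternatizeUncurryFin ((innerSL ℝ y).smulRight D))] at h3
  have h4 : ∀ (w : EuclideanSpace ℝ (Fin (n + 1)))
      (v' : Fin (n + 1) → EuclideanSpace ℝ (Fin (n + 1))),
      ((innerSL ℝ y).smulRight D) w v' = inner ℝ y w * D v' := by
    intro w v'; rfl
  simp only [h4] at h3
  have h5 : (0 : EuclideanSpace ℝ (Fin (n + 1)) [⋀^Fin (n + 1 + 1)]→L[ℝ] ℝ)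
      (Matrix.vecCons y v) = 0 := rfl
  rw [h5, sub_zero, real_inner_self_eq_norm_sq, ← hs] at h3
  have h6 : ∑ i : Fin (n + 1), (-1) ^ (i : ℕ) • (kap2 n s * D (Matrix.vecCons (v i)
      (Fin.removeNth i v)) + (deriv (kap2 n) s * (2 * inner ℝ y (v i))) *
        D (Matrix.vecCons y (Fin.removeNth i v))) =
      kap2 n s * ∑ i : Fin (n + 1), (-1) ^ (i : ℕ) • D (Matrix.vecCons (v i)
        (Fin.removeNth i v)) +
      2 * deriv (kap2 n) s * ∑ i : Fin (n + 1), (-1) ^ (i : ℕ) • (inner ℝ y (v i) *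
        D (Matrix.vecCons y (Fin.removeNth i v))) := by
    rw [Finset.mul_sum, Finset.mul_sum, ← Finset.sum_add_distrib]
    apply Finset.sum_congr rfl
    intro i _
    simp only [zsmul_eq_mul]
    push_cast
    ring
  rw [h6, h2, h3]
  have h7 := deriv_kap2 (n := n) hy
  have h8 : (0 : EuclideanSpace ℝ (Fin (n + 1)) [⋀^Fin (n + 1)]→L[ℝ] ℝ) v = 0 := rfl
  rw [h8]
  linear_combination (D v) * h7

end kappa

section col

variable {E : Type*} [NormedAddCommGroup E] [NormedSpace ℝ E] {n : ℕ}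

theorem alt_column (D : E [⋀^Fin (n + 1)]→L[ℝ] ℝ) (y : E) (w : Fin n → E) (a : ℝ)
    (c : Fin n → ℝ) : D (Matrix.vecCons y (fun i => a • w i + c i • y)) =
      a ^ n * D (Matrix.vecCons y w) := by
  set f := D.curryLeft y with hf
  have h1 : D (Matrix.vecCons y (fun i => a • w i + c i • y)) =
      f ((fun i => a • w i) + fun i => c i • y) := rfl
  have h2 : f ((fun i => a • w i) + fun i => c i • y) = f (fun i => a • w i) := by
    have h3 := f.toMultilinearMap.map_add_univ (fun i => a • w i) (fun i => c i • y)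
    have h4 : f ((fun i => a • w i) + fun i => c i • y) =
        ∑ s : Finset (Fin n), f (s.piecewise (fun i => a • w i) (fun i => c i • y)) := h3
    rw [h4]
    rw [Finset.sum_eq_single Finset.univ]
    · rw [Finset.piecewise_univ]
    · intro s _ hs
      obtain ⟨i, hi⟩ : ∃ i, i ∉ s := by
        by_contra hcon
        push Not at hcon
        exact hs (Finset.eq_univ_iff_forall.2 hcon)
      set w' := s.piecewise (fun i => a • w i) (fun i => c i • y) with hw'
      have h5 : w' = Function.update w' i (c i • y) := by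
        rw [eq_comm, Function.update_eq_self_iff]
        rw [hw', Finset.piecewise_eq_of_notMem _ _ _ hi]
      rw [h5, f.map_update_smul]
      have h6 : f (Function.update w' i y) = 0 := by
        rw [hf, ContinuousAlternatingMap.curryLeft_apply_apply]
        apply D.map_eq_zero_of_eq _ (i := 0) (j := i.succ)
        · simp
        · exact (Fin.succ_ne_zero i).symm
      rw [h6, smul_zero]
    · intro h; exact absurd (Finset.mem_univ _) h
  rw [h1, h2]
  have h7 := f.toMultilinearMap.map_smul_univ (fun _ => a) w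
  have h8 : f (fun i => a • w i) = (∏ _i : Fin n, a) • f w := h7
  rw [h8, Finset.prod_const, Finset.card_univ, Fintype.card_fin, smul_eq_mul]
  rfl

theorem alt_scale (D : E [⋀^Fin (n + 1)]→L[ℝ] ℝ) (y : E) (w : Fin n → E) (a : ℝ) :
    D (Matrix.vecCons (a • y) w) = a * D (Matrix.vecCons y w) := by
  have h := D.curryLeft.map_smul a y
  have h2 := congrArg (fun f => f w) h
  exact h2

end col

section proj

variable {G : Type*} [NormedAddCommGroup G] [InnerProductSpace ℝ G]

/-- Derivative of the radial projection. -/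
theorem hasFDerivAt_proj {y : G} (hy : y ≠ 0) :
    HasFDerivAt (fun y : G => ‖y‖⁻¹ • y) (‖y‖⁻¹ • ContinuousLinearMap.id ℝ G +
      ((-(‖y‖ ^ 3)⁻¹) • innerSL ℝ y).smulRight y) y := by
  have hn : ‖y‖ ≠ 0 := norm_ne_zero_iff.2 hy
  have h1 : HasFDerivAt (fun y : G => ‖y‖) (‖y‖⁻¹ • innerSL ℝ y) y := by
    have h2 := (hasStrictFDerivAt_norm_sq y).hasFDerivAt
    have h3 : HasDerivAt Real.sqrt (1 / (2 * Real.sqrt (‖y‖ ^ 2))) (‖y‖ ^ 2) :=
      Real.hasDerivAt_sqrt (by positivity)
    have h4 := h3.comp_hasFDerivAt y h2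
    have h5 : (Real.sqrt ∘ fun y : G => ‖y‖ ^ 2) = fun y => ‖y‖ := by
      ext z; simp
    rw [h5] at h4
    refine h4.congr_fderiv ?_
    rw [Real.sqrt_sq (norm_nonneg y)]
    ext w
    change 1 / (2 * ‖y‖) * ((2 • innerSL ℝ y) w) = ‖y‖⁻¹ * inner ℝ y w
    have : (2 • innerSL ℝ y) w = 2 * inner ℝ y w := by
      rw [two_mul, two_smul]; rfl
    rw [this]
    field_simp
  have h6 : HasFDerivAt (fun y : G => ‖y‖⁻¹) ((-(‖y‖ ^ 2)⁻¹) • (‖y‖⁻¹ • innerSL ℝ y)) y :=
    (hasDerivAt_inv hn).comp_hasFDerivAt y h1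
  have h7 := h6.smul (hasFDerivAt_id y)
  refine h7.congr_fderiv ?_
  ext w
  change ‖y‖⁻¹ • w + (-(‖y‖ ^ 2)⁻¹ * (‖y‖⁻¹ * inner ℝ y w)) • y =
    ‖y‖⁻¹ • w + (-(‖y‖ ^ 3)⁻¹ * inner ℝ y w) • y
  congr 2
  field_simp

theorem contDiffAt_proj {y : G} (hy : y ≠ 0) : ContDiffAt ℝ ∞ (fun y : G => ‖y‖⁻¹ • y) y :=
  ((contDiffAt_norm ℝ hy).inv (norm_ne_zero_iff.2 hy)).smul contDiffAt_id

end proj

section omgproj

/-- The form is the pull back of the volume form of the sphere by the radial projection. -/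
theorem omg_eq_proj {n : ℕ} {y : EuclideanSpace ℝ (Fin (n + 1))} (hy : 1 / 8 ≤ ‖y‖ ^ 2)
    (w : Fin n → EuclideanSpace ℝ (Fin (n + 1))) :
    omg n y w = volG (n + 1) (Matrix.vecCons (‖y‖⁻¹ • y)
      (fun i => fderiv ℝ (fun y : EuclideanSpace ℝ (Fin (n + 1)) => ‖y‖⁻¹ • y) y (w i))) := by
  have hy0 : y ≠ 0 := by
    rintro rfl
    norm_num at hy
  have hn : 0 < ‖y‖ := norm_pos_iff.2 hy0
  rw [(hasFDerivAt_proj hy0).fderiv, alt_scale]
  have h1 : (fun i => (‖y‖⁻¹ • ContinuousLinearMap.id ℝ (EuclideanSpace ℝ (Fin (n + 1))) +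
      ((-(‖y‖ ^ 3)⁻¹) • innerSL ℝ y).smulRight y) (w i)) =
      fun i => ‖y‖⁻¹ • w i + (-(‖y‖ ^ 3)⁻¹ * inner ℝ y (w i)) • y := by
    ext1 i
    rfl
  rw [h1, alt_column]
  have h2 : omg n y w = kap2 n (‖y‖ ^ 2) * volG (n + 1) (Matrix.vecCons y w) := rfl
  rw [h2, kap2_eq hy]
  have h3 : (‖y‖ ^ 2) ^ (-(((n + 1 : ℕ) : ℝ) / 2)) = ‖y‖⁻¹ * ‖y‖⁻¹ ^ n := by
    rw [← pow_succ', ← Real.rpow_natCast, ← Real.rpow_natCast, ← Real.rpow_mul hn.le,
      Real.inv_rpow hn.le, ← Real.rpow_neg hn.le]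
    congr 1
    push_cast
    ring
  rw [h3]
  ring

end omgproj

section wedge

variable {n : ℕ}

/-- The value on the standard basis of the wedge product of two forms of degree `n` on
`ℝ ^ (n + n)`. -/
noncomputable def wedge {n : ℕ} (α β : EuclideanSpace ℝ (Fin (n + n)) [⋀^Fin n]→L[ℝ] ℝ) : ℝ :=
  ((n.factorial * n.factorial : ℕ) : ℝ)⁻¹ * ∑ σ : Equiv.Perm (Fin (n + n)),
    ((Equiv.Perm.sign σ : ℤ) : ℝ) *
      (α (fun i => EuclideanSpace.single (σ (Fin.castAdd n i)) (1 : ℝ)) *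
        β (fun i => EuclideanSpace.single (σ (Fin.natAdd n i)) (1 : ℝ)))

theorem wedge_sub_sub (α β : EuclideanSpace ℝ (Fin (n + n)) [⋀^Fin n]→L[ℝ] ℝ) :
    wedge (α - β) (α - β) = wedge α α - wedge α β - wedge β α + wedge β β := by
  unfold wedge
  rw [← mul_sub, ← mul_sub, ← mul_add, ← Finset.sum_sub_distrib, ← Finset.sum_sub_distrib,
    ← Finset.sum_add_distrib]
  congr 1
  apply Finset.sum_congr rfl
  intro σ _
  rw [ContinuousAlternatingMap.sub_apply, ContinuousAlternatingMap.sub_apply]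
  ring

theorem wedge_smul_smul (c : ℝ) (α β : EuclideanSpace ℝ (Fin (n + n)) [⋀^Fin n]→L[ℝ] ℝ) :
    wedge (c • α) (c • β) = c ^ 2 * wedge α β := by
  unfold wedge
  rw [mul_left_comm, Finset.mul_sum (a := c ^ 2)]
  congr 1
  apply Finset.sum_congr rfl
  intro σ _
  rw [ContinuousAlternatingMap.smul_apply, ContinuousAlternatingMap.smul_apply]
  simp only [smul_eq_mul]
  ring

/-- The constant in the bound of the wedge product. -/
noncomputable def wK (n : ℕ) : ℝ :=
  ((n.factorial * n.factorial : ℕ) : ℝ)⁻¹ * ((n + n).factorial : ℕ)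

theorem wK_nonneg (n : ℕ) : 0 ≤ wK n := by unfold wK; positivity

theorem abs_wedge_le (α β : EuclideanSpace ℝ (Fin (n + n)) [⋀^Fin n]→L[ℝ] ℝ) :
    |wedge α β| ≤ wK n * (‖α‖ * ‖β‖) := by
  unfold wedge wK
  rw [abs_mul, abs_of_nonneg (by positivity), mul_assoc]
  gcongr
  refine (Finset.abs_sum_le_sum_abs _ _).trans ?_
  have h1 : ∀ σ ∈ (Finset.univ : Finset (Equiv.Perm (Fin (n + n)))),
      |((Equiv.Perm.sign σ : ℤ) : ℝ) *
      (α (fun i => EuclideanSpace.single (σ (Fin.castAdd n i)) (1 : ℝ)) *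
        β (fun i => EuclideanSpace.single (σ (Fin.natAdd n i)) (1 : ℝ)))| ≤ ‖α‖ * ‖β‖ := by
    intro σ _
    have h2 : |((Equiv.Perm.sign σ : ℤ) : ℝ)| = 1 := by
      rcases Int.units_eq_one_or (Equiv.Perm.sign σ) with h | h <;> simp [h]
    rw [abs_mul, h2, one_mul, abs_mul]
    have h3 : ∀ (γ : EuclideanSpace ℝ (Fin (n + n)) [⋀^Fin n]→L[ℝ] ℝ)
        (τ : Fin n → Fin (n + n)), |γ (fun i => EuclideanSpace.single (τ i) (1 : ℝ))| ≤ ‖γ‖ := by
      intro γ τ
      have := γ.le_opNorm (fun i => EuclideanSpace.single (τ i) (1 : ℝ))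
      simpa using this
    exact mul_le_mul (h3 α _) (h3 β _) (abs_nonneg _) (norm_nonneg _)
  refine (Finset.sum_le_card_nsmul _ _ _ h1).trans ?_
  rw [Finset.card_univ, Fintype.card_perm, Fintype.card_fin, nsmul_eq_mul]

/-- The wedge square of a form pulled back from a space of dimension less than `2 n` is zero. -/
theorem wedge_pullback {G : Type*} [NormedAddCommGroup G] [NormedSpace ℝ G]
    [FiniteDimensional ℝ G] (hG : finrank ℝ G < n + n) (ww : G [⋀^Fin n]→L[ℝ] ℝ)
    (L : EuclideanSpace ℝ (Fin (n + n)) →L[ℝ] G) :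
    wedge (ww.compContinuousLinearMap L) (ww.compContinuousLinearMap L) = 0 := by
  set M : MultilinearMap ℝ (fun _ : Fin (n + n) => G) ℝ :=
    ((LinearMap.mul' ℝ ℝ).compMultilinearMap
      (ww.toMultilinearMap.domCoprod ww.toMultilinearMap)).domDomCongr finSumFinEquiv with hM
  have hMa : ∀ u : Fin (n + n) → G, M u = ww (fun i => u (Fin.castAdd n i)) *
      ww (fun i => u (Fin.natAdd n i)) := by
    intro u
    simp only [hM]
    rfl
  set u : Fin (n + n) → G := fun j => L (EuclideanSpace.single j (1 : ℝ)) with hu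
  have h1 : (MultilinearMap.alternatization M) u = 0 := by
    apply AlternatingMap.map_linearDependent
    intro hv
    have := hv.fintype_card_le_finrank
    rw [Fintype.card_fin] at this
    omega
  rw [MultilinearMap.alternatization_apply] at h1
  unfold wedge
  have h2 : ∑ σ : Equiv.Perm (Fin (n + n)), ((Equiv.Perm.sign σ : ℤ) : ℝ) *
      ((ww.compContinuousLinearMap L) (fun i => EuclideanSpace.single (σ (Fin.castAdd n i)) (1 : ℝ)) *
        (ww.compContinuousLinearMap L) (fun i => EuclideanSpace.single (σ (Fin.natAdd n i)) (1 : ℝ)))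
      = 0 := by
    rw [← h1]
    apply Finset.sum_congr rfl
    intro σ _
    rw [MultilinearMap.domDomCongr_apply, hMa]
    rw [Units.smul_def, zsmul_eq_mul]
    rfl
  rw [h2, mul_zero]

end wedge

section pb

variable {X E F : Type*} [NormedAddCommGroup X] [NormedSpace ℝ X]
  [NormedAddCommGroup E] [NormedSpace ℝ E] [NormedAddCommGroup F] [NormedSpace ℝ F] {k : ℕ}

/-- Alternatization as a linear map. -/
noncomputable def altLin (E : Type*) [NormedAddCommGroup E] [NormedSpace ℝ E] (k : ℕ) :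
    ContinuousMultilinearMap ℝ (fun _ : Fin k => E) ℝ →ₗ[ℝ] E [⋀^Fin k]→L[ℝ] ℝ where
  toFun f := ContinuousMultilinearMap.alternatization f
  map_add' f g := map_add _ f g
  map_smul' c f := by
    ext v
    rw [ContinuousMultilinearMap.alternatization_apply_apply]
    change _ = c • (ContinuousMultilinearMap.alternatization f v)
    rw [ContinuousMultilinearMap.alternatization_apply_apply, Finset.smul_sum]
    apply Finset.sum_congr rfl
    intro σ _
    rw [smul_comm]
    rfl

theorem altLin_bound (f : ContinuousMultilinearMap ℝ (fun _ : Fin k => E) ℝ) :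
    ‖altLin E k f‖ ≤ (k.factorial : ℝ) * ‖f‖ := by
  apply ContinuousAlternatingMap.opNorm_le_bound _ (by positivity)
  intro v
  change ‖ContinuousMultilinearMap.alternatization f v‖ ≤ _
  rw [ContinuousMultilinearMap.alternatization_apply_apply]
  refine (norm_sum_le _ _).trans ?_
  have h1 : ∀ σ ∈ (Finset.univ : Finset (Equiv.Perm (Fin k))),
      ‖Equiv.Perm.sign σ • f (v ∘ σ)‖ ≤ ‖f‖ * ∏ i, ‖v i‖ := by
    intro σ _
    have h2 : ‖Equiv.Perm.sign σ • f (v ∘ σ)‖ = ‖f (v ∘ σ)‖ := by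
      rcases Int.units_eq_one_or (Equiv.Perm.sign σ) with h | h <;> simp [h]
    rw [h2]
    refine (f.le_opNorm _).trans (le_of_eq ?_)
    congr 1
    exact Equiv.prod_comp σ (fun i => ‖v i‖)
  refine (Finset.sum_le_card_nsmul _ _ _ h1).trans ?_
  rw [Finset.card_univ, Fintype.card_perm, Fintype.card_fin, nsmul_eq_mul, mul_assoc]

/-- Normalised alternatization as a continuous linear map. -/
noncomputable def altL (E : Type*) [NormedAddCommGroup E] [NormedSpace ℝ E] (k : ℕ) :=
  ((k.factorial : ℝ)⁻¹) • (altLin E k).mkContinuous (k.factorial : ℝ) altLin_bound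

theorem altL_coe (g : E [⋀^Fin k]→L[ℝ] ℝ) : altL E k g.toContinuousMultilinearMap = g := by
  ext v
  change (k.factorial : ℝ)⁻¹ * (ContinuousMultilinearMap.alternatization
    g.toContinuousMultilinearMap v) = g v
  rw [ContinuousMultilinearMap.alternatization_apply_apply]
  have h1 : ∀ σ ∈ (Finset.univ : Finset (Equiv.Perm (Fin k))),
      Equiv.Perm.sign σ • g.toContinuousMultilinearMap (v ∘ σ) = g v := by
    intro σ _
    have h2 : g (v ∘ σ) = Equiv.Perm.sign σ • g v := g.toAlternatingMap.map_perm v σ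
    change Equiv.Perm.sign σ • g (v ∘ σ) = g v
    rw [h2, smul_smul, Int.units_mul_self, one_smul]
  rw [Finset.sum_congr rfl h1, Finset.sum_const, Finset.card_univ, Fintype.card_perm,
    Fintype.card_fin, nsmul_eq_mul, ← mul_assoc, inv_mul_cancel₀, one_mul]
  exact_mod_cast k.factorial_ne_zero

theorem contDiffAt_pullback {m : ℕ∞} {ww : X → F [⋀^Fin k]→L[ℝ] ℝ} {g : X → E →L[ℝ] F} {x : X}
    (hw : ContDiffAt ℝ m ww x) (hg : ContDiffAt ℝ m g x) :
    ContDiffAt ℝ m (fun x => (ww x).compContinuousLinearMap (g x)) x := by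
  set C := ContinuousMultilinearMap.compContinuousLinearMapContinuousMultilinear ℝ
    (fun _ : Fin k => E) (fun _ : Fin k => F) ℝ with hC
  have h0 : ContDiff ℝ m (fun g : (Fin k → E →L[ℝ] F) => C g) := by
    apply ContinuousMultilinearMap.contDiff
  have h1 : ContDiffAt ℝ m (fun x => C (fun _ => g x)) x := by
    have h2 : ContDiffAt ℝ m (fun x => (fun _ : Fin k => g x)) x := contDiffAt_pi.2 fun _ => hg
    exact h0.contDiffAt.comp x h2
  have h3 : ContDiffAt ℝ m (fun x => (ww x).toContinuousMultilinearMap) x :=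
    (ContinuousAlternatingMap.toContinuousMultilinearMapLI
      (𝕜 := ℝ) (E := F) (F := ℝ) (ι := Fin k)).contDiff.contDiffAt.comp x hw
  have h4 : ContDiffAt ℝ m (fun x => C (fun _ => g x) (ww x).toContinuousMultilinearMap) x :=
    h1.clm_apply h3
  have h5 := (altL E k).contDiff.contDiffAt.comp x h4
  refine h5.congr_of_eventuallyEq (Eventually.of_forall fun y => ?_)
  have h6 : C (fun _ => g y) (ww y).toContinuousMultilinearMap =
      ((ww y).compContinuousLinearMap (g y)).toContinuousMultilinearMap := rfl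
  simp only [Function.comp]
  rw [h6, altL_coe]

end pb

end Pool.Agent.Lib.MP_3db736_an
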