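import Pool.Agent.Lib.MP_3db736_an.Total

open MeasureTheory Metric Set Module Filter
open scoped ENNReal NNReal Topology ContDiff

namespace Pool.Agent.Lib.MP_3db736_an

section good

/-- Scaling of the lower integral. -/
theorem lintegral_scale {E : Type*} [NormedAddCommGroup E] [InnerProductSpace ℝ E]
    [MeasurableSpace E] [BorelSpace E] [FiniteDimensional ℝ E] (μ : Measure E)
    [μ.IsAddHaarMeasure] (h : E → ℝ≥0∞) {ρ : ℝ} (hρ : 0 < ρ) :
    ∫⁻ x, h (ρ • x) ∂μ = ENNReal.ofReal ((ρ ^ finrank ℝ E)⁻¹) * ∫⁻ y, h y ∂μ := by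
  have h1 : ∫⁻ x, h (ρ • x) ∂μ = ∫⁻ y, h y ∂(μ.map (fun x => ρ • x)) := by
    have h2 : MeasurableEmbedding (fun x : E => ρ • x) :=
      (Homeomorph.smulOfNeZero ρ hρ.ne').measurableEmbedding
    rw [h2.lintegral_map]
  rw [h1, Measure.map_addHaar_smul μ hρ.ne', lintegral_smul_measure, smul_eq_mul,
    abs_of_nonneg (by positivity)]

variable {n : ℕ} [Nontrivial (EuclideanSpace ℝ (Fin (n + n)))]

/-- Scaled form. -/
noncomputable def Phi (f : sphere (0 : EuclideanSpace ℝ (Fin (n + n))) 1 →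
    EuclideanSpace ℝ (Fin (n + 1))) (y : EuclideanSpace ℝ (Fin (n + n))) :
    EuclideanSpace ℝ (Fin (n + n)) [⋀^Fin n]→L[ℝ] ℝ := eta f y - bet f y

variable {f : sphere (0 : EuclideanSpace ℝ (Fin (n + n))) 1 → EuclideanSpace ℝ (Fin (n + 1))}

theorem contDiffAt_Phi (hn : 2 ≤ n) (hf : Continuous f) (h1 : ∀ ζ, ‖f ζ‖ = 1)
    {y : EuclideanSpace ℝ (Fin (n + n))} (hy : ‖y‖ < 1) : ContDiffAt ℝ 1 (Phi f) y := by
  unfold Phi
  exact ((contDiffAt_eta hf h1 hy).of_le (by exact_mod_cast le_top)).sub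
    (contDiff_bet hn hf h1).contDiffAt

theorem extDeriv_Phi (hn : 2 ≤ n) (hf : Continuous f) (h1 : ∀ ζ, ‖f ζ‖ = 1)
    {y : EuclideanSpace ℝ (Fin (n + n))} (hy : ‖y‖ < 1) : extDeriv (Phi f) y = 0 := by
  have ha : DifferentiableAt ℝ (eta f) y :=
    (contDiffAt_eta hf h1 hy).differentiableAt (by simp)
  have hb : DifferentiableAt ℝ (bet f) y :=
    (contDiff_bet hn hf h1).contDiffAt.differentiableAt (by simp)
  have h2 : fderiv ℝ (Phi f) y = fderiv ℝ (eta f) y - fderiv ℝ (bet f) y := by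
    unfold Phi
    exact fderiv_sub ha hb
  have h3 := extDeriv_bet hn hf h1 y
  rw [gam_of_norm_lt hy] at h3
  rw [extDeriv, h2]
  have h4 : ContinuousAlternatingMap.alternatizeUncurryFin
      (fderiv ℝ (eta f) y - fderiv ℝ (bet f) y) =
      ContinuousAlternatingMap.alternatizeUncurryFin (fderiv ℝ (eta f) y) -
      ContinuousAlternatingMap.alternatizeUncurryFin (fderiv ℝ (bet f) y) :=
    map_sub (ContinuousAlternatingMap.alternatizeUncurryFinCLM ℝ
      (EuclideanSpace ℝ (Fin (n + n))) ℝ) _ _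
  rw [h4]
  exact sub_eq_zero.2 h3.symm

/-- The form in the definition of the Hopf invariant. -/
noncomputable def Omg (f : sphere (0 : EuclideanSpace ℝ (Fin (n + n))) 1 →
    EuclideanSpace ℝ (Fin (n + 1))) (ρ : ℝ) (x : EuclideanSpace ℝ (Fin (n + n))) :
    EuclideanSpace ℝ (Fin (n + n)) [⋀^Fin n]→L[ℝ] ℝ := ρ ^ n • Phi f (ρ • x)

theorem Omg_eq (f : sphere (0 : EuclideanSpace ℝ (Fin (n + n))) 1 →
    EuclideanSpace ℝ (Fin (n + 1))) (ρ : ℝ) :
    Omg f ρ = fun x => (Phi f ((ρ • ContinuousLinearMap.id ℝ _) x)).compContinuousLinearMap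
      (fderiv ℝ (ρ • ContinuousLinearMap.id ℝ (EuclideanSpace ℝ (Fin (n + n)))) x) := by
  ext x v
  rw [ContinuousLinearMap.fderiv]
  have h1 : (Phi f ((ρ • ContinuousLinearMap.id ℝ _) x)).compContinuousLinearMap
      (ρ • ContinuousLinearMap.id ℝ (EuclideanSpace ℝ (Fin (n + n)))) v =
      Phi f (ρ • x) (fun i => ρ • v i) := rfl
  rw [h1]
  have h7 := (Phi f (ρ • x)).toMultilinearMap.map_smul_univ (fun _ => ρ) v
  have h8 : Phi f (ρ • x) (fun i => ρ • v i) = (∏ _i : Fin n, ρ) • Phi f (ρ • x) v := h7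
  rw [h8, Finset.prod_const, Finset.card_univ, Fintype.card_fin]
  rfl

theorem contDiffOn_Omg (hn : 2 ≤ n) (hf : Continuous f) (h1 : ∀ ζ, ‖f ζ‖ = 1) {ρ : ℝ}
    (hρ : 0 < ρ) : ContDiffOn ℝ 1 (Omg f ρ) (ball 0 (1 / ρ)) := by
  intro x hx
  have hx1 : ‖ρ • x‖ < 1 := by
    rw [norm_smul, Real.norm_eq_abs, abs_of_pos hρ]
    have : ‖x‖ < 1 / ρ := by simpa using hx
    rw [lt_div_iff₀ hρ] at this
    linarith [mul_comm ρ ‖x‖]
  unfold Omg
  apply ContDiffAt.contDiffWithinAt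
  have h2 : ContDiffAt ℝ 1 (fun x : EuclideanSpace ℝ (Fin (n + n)) => ρ • x) x :=
    contDiffAt_id.const_smul ρ
  have h3 : ContDiffAt ℝ 1 (fun x : EuclideanSpace ℝ (Fin (n + n)) => Phi f (ρ • x)) x :=
    ContDiffAt.comp x (contDiffAt_Phi hn hf h1 hx1) h2
  exact h3.const_smul (ρ ^ n)

theorem extDeriv_Omg (hn : 2 ≤ n) (hf : Continuous f) (h1 : ∀ ζ, ‖f ζ‖ = 1) {ρ : ℝ}
    (hρ : 0 < ρ) {x : EuclideanSpace ℝ (Fin (n + n))} (hx : x ∈ ball 0 (1 / ρ)) :
    extDeriv (Omg f ρ) x = 0 := by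
  have hx1 : ‖ρ • x‖ < 1 := by
    rw [norm_smul, Real.norm_eq_abs, abs_of_pos hρ]
    have : ‖x‖ < 1 / ρ := by simpa using hx
    rw [lt_div_iff₀ hρ] at this
    linarith [mul_comm ρ ‖x‖]
  rw [Omg_eq]
  have h2 : DifferentiableAt ℝ (Phi f) ((ρ • ContinuousLinearMap.id ℝ
      (EuclideanSpace ℝ (Fin (n + n)))) x) :=
    (contDiffAt_Phi hn hf h1 hx1).differentiableAt (by simp)
  have h3 := extDeriv_pullback (r := ∞) (f := ⇑(ρ • ContinuousLinearMap.id ℝ
      (EuclideanSpace ℝ (Fin (n + n))))) (x := x) h2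
      (ContinuousLinearMap.contDiff _).contDiffAt two_le_smooth
  rw [h3]
  have h4 : extDeriv (Phi f) ((ρ • ContinuousLinearMap.id ℝ
      (EuclideanSpace ℝ (Fin (n + n)))) x) = 0 := extDeriv_Phi hn hf h1 hx1
  rw [h4]
  rfl

/-- The smooth approximation. -/
noncomputable def gapp (f : sphere (0 : EuclideanSpace ℝ (Fin (n + n))) 1 →
    EuclideanSpace ℝ (Fin (n + 1))) (ρ : ℝ) (x : EuclideanSpace ℝ (Fin (n + n))) :
    EuclideanSpace ℝ (Fin (n + 1)) :=
  ‖ext volume f (ρ • x)‖⁻¹ • ext volume f (ρ • x)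

theorem wedge_Phi_le (hn : 2 ≤ n) (y : EuclideanSpace ℝ (Fin (n + n))) :
    ‖wedge (Phi f y) (Phi f y)‖ₑ ≤ ENNReal.ofReal (wK n) *
      (2 * (‖eta f y‖ₑ * ‖bet f y‖ₑ) + ‖bet f y‖ₑ * ‖bet f y‖ₑ) := by
  have h1 : wedge (eta f y) (eta f y) = 0 := by
    unfold eta
    apply wedge_pullback
    rw [finrank_euclideanSpace, Fintype.card_fin]
    omega
  have h2 : |wedge (Phi f y) (Phi f y)| ≤ wK n *
      (2 * (‖eta f y‖ * ‖bet f y‖) + ‖bet f y‖ * ‖bet f y‖) := by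
    unfold Phi
    rw [wedge_sub_sub, h1]
    have h3 := abs_wedge_le (eta f y) (bet f y)
    have h4 := abs_wedge_le (bet f y) (eta f y)
    have h5 := abs_wedge_le (bet f y) (bet f y)
    calc _ ≤ |wedge (eta f y) (bet f y)| + |wedge (bet f y) (eta f y)| +
          |wedge (bet f y) (bet f y)| := by
          rw [zero_sub]
          refine (abs_add_le _ _).trans ?_
          gcongr
          refine (abs_sub _ _).trans ?_
          rw [abs_neg]
      _ ≤ wK n * (‖eta f y‖ * ‖bet f y‖) + wK n * (‖bet f y‖ * ‖eta f y‖) +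
          wK n * (‖bet f y‖ * ‖bet f y‖) := by gcongr
      _ = _ := by ring
  rw [Real.enorm_eq_ofReal_abs]
  refine (ENNReal.ofReal_le_ofReal h2).trans (le_of_eq ?_)
  rw [ENNReal.ofReal_mul (wK_nonneg n), ENNReal.ofReal_add (by positivity) (by positivity),
    ENNReal.ofReal_mul (by norm_num), ENNReal.ofReal_mul (norm_nonneg _),
    ENNReal.ofReal_mul (norm_nonneg _), ofReal_norm, ofReal_norm]
  norm_num

theorem integral_Omg_le (hn : 2 ≤ n) {ρ : ℝ} (hρ : 0 < ρ) (hρ1 : ρ ≤ 1) :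
    ‖∫ x in ball (0 : EuclideanSpace ℝ (Fin (n + n))) 1, wedge (Omg f ρ x) (Omg f ρ x)‖ₑ ≤
      ENNReal.ofReal (wK n) * ∫⁻ y in ball (0 : EuclideanSpace ℝ (Fin (n + n))) 1,
        (2 * (‖eta f y‖ₑ * ‖bet f y‖ₑ) + ‖bet f y‖ₑ * ‖bet f y‖ₑ) := by
  set h : EuclideanSpace ℝ (Fin (n + n)) → ℝ≥0∞ := fun y =>
    (ball (0 : EuclideanSpace ℝ (Fin (n + n))) 1).indicator (fun y =>
      (2 * (‖eta f y‖ₑ * ‖bet f y‖ₑ) + ‖bet f y‖ₑ * ‖bet f y‖ₑ)) y with hh
  refine (enorm_integral_le_lintegral_enorm _).trans ?_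
  calc ∫⁻ x in ball (0 : EuclideanSpace ℝ (Fin (n + n))) 1, ‖wedge (Omg f ρ x) (Omg f ρ x)‖ₑ
      ≤ ∫⁻ x in ball (0 : EuclideanSpace ℝ (Fin (n + n))) 1,
          ENNReal.ofReal (ρ ^ (2 * n) * wK n) * h (ρ • x) := by
        apply setLIntegral_mono' measurableSet_ball
        intro x hx
        have hx1 : ρ • x ∈ ball (0 : EuclideanSpace ℝ (Fin (n + n))) 1 := by
          rw [mem_ball_zero_iff, norm_smul, Real.norm_eq_abs, abs_of_pos hρ]
          have : ‖x‖ < 1 := by simpa using hx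
          nlinarith [norm_nonneg x]
        have h1 : wedge (Omg f ρ x) (Omg f ρ x) = ρ ^ (2 * n) *
            wedge (Phi f (ρ • x)) (Phi f (ρ • x)) := by
          unfold Omg
          rw [wedge_smul_smul, ← pow_mul, mul_comm n 2]
        rw [h1, enorm_mul, hh]
        simp only []
        rw [indicator_of_mem hx1, ENNReal.ofReal_mul (by positivity), mul_assoc]
        have h2 : ‖ρ ^ (2 * n)‖ₑ = ENNReal.ofReal (ρ ^ (2 * n)) := by
          rw [Real.enorm_eq_ofReal (by positivity)]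
        rw [h2]
        gcongr
        exact wedge_Phi_le hn _
    _ ≤ ∫⁻ x, ENNReal.ofReal (ρ ^ (2 * n) * wK n) * h (ρ • x) := setLIntegral_le_lintegral _ _
    _ = ENNReal.ofReal (ρ ^ (2 * n) * wK n) * (ENNReal.ofReal ((ρ ^ (2 * n))⁻¹) * ∫⁻ y, h y) := by
        rw [lintegral_const_mul' _ _ ENNReal.ofReal_ne_top, lintegral_scale volume h hρ, finrank_En]
    _ = ENNReal.ofReal (wK n) * ∫⁻ y, h y := by
        rw [← mul_assoc, ← ENNReal.ofReal_mul (by have := wK_nonneg n; positivity)]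
        congr 2
        field_simp
    _ = _ := by rw [hh, lintegral_indicator measurableSet_ball]

end good

end Pool.Agent.Lib.MP_3db736_an
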