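import Pool.Agent.Lib.MP_3db736_an.Good

open MeasureTheory Metric Set Module Filter
open scoped ENNReal NNReal Topology ContDiff

namespace Pool.Agent.Lib.MP_3db736_an

section good

variable {n : ℕ} [Nontrivial (EuclideanSpace ℝ (Fin (n + n)))]

variable {f : sphere (0 : EuclideanSpace ℝ (Fin (n + n))) 1 → EuclideanSpace ℝ (Fin (n + 1))}

theorem contDiffAt_scaled (hf : Continuous f)
    (h1 : ∀ ζ, ‖f ζ‖ = 1) {ρ : ℝ} {x : EuclideanSpace ℝ (Fin (n + n))} (hx : ‖ρ • x‖ < 1) :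
    ContDiffAt ℝ ∞ (fun x => ext volume f (ρ • x)) x := by
  have h2 : ContDiffAt ℝ ∞ (fun x : EuclideanSpace ℝ (Fin (n + n)) => ρ • x) x :=
    contDiffAt_id.const_smul ρ
  exact ContDiffAt.comp (g := ext volume f) (f := fun x => ρ • x) x (contDiffAt_ext hf h1 hx) h2

theorem contDiffAt_gapp (hf : Continuous f)
    (h1 : ∀ ζ, ‖f ζ‖ = 1) {ρ : ℝ} {x : EuclideanSpace ℝ (Fin (n + n))} (hx : ‖ρ • x‖ < 1)
    (hF : ext volume f (ρ • x) ≠ 0) :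
    ContDiffAt ℝ ∞ (gapp f ρ) x := by
  have h2 := contDiffAt_scaled hf h1 hx
  exact ContDiffAt.comp (g := fun y : EuclideanSpace ℝ (Fin (n + 1)) => ‖y‖⁻¹ • y)
    (f := fun x => ext volume f (ρ • x)) x (contDiffAt_proj hF) h2

theorem fderiv_gapp (hf : Continuous f)
    (h1 : ∀ ζ, ‖f ζ‖ = 1) {ρ : ℝ} {x : EuclideanSpace ℝ (Fin (n + n))} (hx : ‖ρ • x‖ < 1)
    (hF : ext volume f (ρ • x) ≠ 0) (v : EuclideanSpace ℝ (Fin (n + n))) :
    fderiv ℝ (gapp f ρ) x v = fderiv ℝ (fun y : EuclideanSpace ℝ (Fin (n + 1)) => ‖y‖⁻¹ • y)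
      (ext volume f (ρ • x)) (fderiv ℝ (ext volume f) (ρ • x) (ρ • v)) := by
  have h2 : HasFDerivAt (fun x : EuclideanSpace ℝ (Fin (n + n)) => ρ • x)
      (ρ • ContinuousLinearMap.id ℝ _) x := (hasFDerivAt_id x).const_smul ρ
  have h3 : HasFDerivAt (ext volume f) (fderiv ℝ (ext volume f) (ρ • x)) (ρ • x) :=
    ((contDiffAt_ext hf h1 hx).differentiableAt (by simp)).hasFDerivAt
  have h4 := (contDiffAt_proj hF).differentiableAt (by simp)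
  have h5 := (h4.hasFDerivAt.comp x (h3.comp x h2)).fderiv
  have h6 : (fun y : EuclideanSpace ℝ (Fin (n + 1)) => ‖y‖⁻¹ • y) ∘
      (ext volume f ∘ fun x => ρ • x) = gapp f ρ := rfl
  rw [h6] at h5
  rw [h5]
  rfl

theorem Omg_boundary (hf : Continuous f) (h1 : ∀ ζ, ‖f ζ‖ = 1) {ρ₁ ρ : ℝ}
    (hρ : ∀ x : EuclideanSpace ℝ (Fin (n + n)), ρ₁ < ‖x‖ → ‖x‖ < 1 →
      ‖ext volume f x - f (nrm x)‖ ≤ 1 / 4) (h4 : 1 / 4 ≤ ρ) (hr : ρ₁ < ρ) (hr1 : ρ < 1)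
    {x : EuclideanSpace ℝ (Fin (n + n))} (hx : ‖x‖ = 1)
    (v : Fin n → EuclideanSpace ℝ (Fin (n + n))) :
    Omg f ρ x v = volG (n + 1) (Matrix.vecCons (gapp f ρ x)
      (fun i => fderiv ℝ (gapp f ρ) x (v i))) := by
  have hρ0 : 0 < ρ := by linarith
  have hnx : ‖ρ • x‖ = ρ := by
    rw [norm_smul, Real.norm_eq_abs, abs_of_pos hρ0, hx, mul_one]
  have hge := norm_ext_ge h1 hρ (x := ρ • x) (by rw [hnx]; exact hr) (by rw [hnx]; exact hr1)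
  have hF : ext volume f (ρ • x) ≠ 0 := by
    intro h0
    rw [h0, norm_zero] at hge
    linarith
  have hbet : bet f (ρ • x) = 0 := by
    apply hop_eq_zero (ρ := ρ) volume h4
    · intro z hz
      exact gam_eq_zero_of_norm hf h1 hρ (lt_of_lt_of_le hr hz)
    · rw [hnx]
  have h5 : Omg f ρ x v = eta f (ρ • x) (fun i => ρ • v i) := by
    have h6 : Omg f ρ x = ρ ^ n • eta f (ρ • x) := by
      unfold Omg Phi
      rw [hbet]
      congr 1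
      exact sub_zero (eta f (ρ • x))
    rw [h6]
    have h7 := (eta f (ρ • x)).toMultilinearMap.map_smul_univ (fun _ => ρ) v
    have h8 : eta f (ρ • x) (fun i => ρ • v i) = (∏ _i : Fin n, ρ) • eta f (ρ • x) v := h7
    rw [h8, Finset.prod_const, Finset.card_univ, Fintype.card_fin]
    rfl
  rw [h5]
  have h9 : eta f (ρ • x) (fun i => ρ • v i) = omg n (ext volume f (ρ • x))
      (fun i => fderiv ℝ (ext volume f) (ρ • x) (ρ • v i)) := rfl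
  rw [h9, omg_eq_proj (by nlinarith)]
  have h10 : (fun i => fderiv ℝ (fun y : EuclideanSpace ℝ (Fin (n + 1)) => ‖y‖⁻¹ • y)
      (ext volume f (ρ • x)) (fderiv ℝ (ext volume f) (ρ • x) (ρ • v i))) =
      fun i => fderiv ℝ (gapp f ρ) x (v i) := by
    ext1 i
    rw [fderiv_gapp hf h1 (by rw [hnx]; exact hr1) hF]
  rw [h10]
  rfl

variable (n) in
/-- Existence of a good form in the definition of the Hopf invariant. -/
theorem exists_good_form (hn : 2 ≤ n) {p : ℝ} (hp : 0 < p) : ∃ C : ℝ≥0∞, C ≠ ⊤ ∧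
    ∀ f : sphere (0 : EuclideanSpace ℝ (Fin (n + n))) 1 → EuclideanSpace ℝ (Fin (n + 1)),
      Continuous f → (∀ ζ, ‖f ζ‖ = 1) →
      ∃ (R : ℝ) (U : Set (EuclideanSpace ℝ (Fin (n + n))))
        (g : EuclideanSpace ℝ (Fin (n + n)) → EuclideanSpace ℝ (Fin (n + 1)))
        (Om : EuclideanSpace ℝ (Fin (n + n)) → EuclideanSpace ℝ (Fin (n + n)) [⋀^Fin n]→L[ℝ] ℝ),
        1 < R ∧ IsOpen U ∧ sphere 0 1 ⊆ U ∧ ContDiffOn ℝ ∞ g U ∧
        (∀ x ∈ U, ‖g x‖ = 1) ∧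
        (∀ ζ : sphere (0 : EuclideanSpace ℝ (Fin (n + n))) 1, ‖g ζ - f ζ‖ ≤ 1 / 2) ∧
        ContDiffOn ℝ 1 Om (ball 0 R) ∧ (∀ x ∈ ball 0 R, extDeriv Om x = 0) ∧
        (∀ x, ‖x‖ = 1 → ∀ v : Fin n → EuclideanSpace ℝ (Fin (n + n)),
          Om x v = volG (n + 1) (Matrix.vecCons (g x) (fun i => fderiv ℝ g x (v i)))) ∧
        ‖∫ x in ball (0 : EuclideanSpace ℝ (Fin (n + n))) 1, wedge (Om x) (Om x)‖ₑ ≤
        C * ((∫⁻ ζ, eng volume f p (2 * n - 1) ζ ∂(volume : Measure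
          (EuclideanSpace ℝ (Fin (n + n)))).toSphere) ^ ((1 : ℝ) / (2 * n - 1 : ℕ)) *
          (∫⁻ ζ, eng volume f p (2 * n - 1) ζ ∂(volume : Measure
          (EuclideanSpace ℝ (Fin (n + n)))).toSphere)) := by
  obtain ⟨C, hC, hmain⟩ := total_bound n hn hp
  refine ⟨ENNReal.ofReal (wK n) * C, ENNReal.mul_ne_top ENNReal.ofReal_ne_top hC, ?_⟩
  intro f hf h1
  obtain ⟨ρ₁, hρa, hρb, hρ⟩ := exists_rho hf h1
  set ρ : ℝ := (1 + ρ₁) / 2 with hρdef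
  have hr : ρ₁ < ρ := by rw [hρdef]; linarith
  have hr1 : ρ < 1 := by rw [hρdef]; linarith
  have hρ0 : 0 < ρ := by linarith
  have hUF : ∀ x : EuclideanSpace ℝ (Fin (n + n)), ρ₁ < ‖ρ • x‖ → ‖ρ • x‖ < 1 →
      3 / 4 ≤ ‖ext volume f (ρ • x)‖ := fun x ha hb => norm_ext_ge h1 hρ ha hb
  have hUF0 : ∀ x : EuclideanSpace ℝ (Fin (n + n)), ρ₁ < ‖ρ • x‖ → ‖ρ • x‖ < 1 →
      ext volume f (ρ • x) ≠ 0 := by
    intro x ha hb h0
    have := hUF x ha hb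
    rw [h0, norm_zero] at this
    linarith
  refine ⟨1 / ρ, {x | ρ₁ < ‖ρ • x‖ ∧ ‖ρ • x‖ < 1}, gapp f ρ, Omg f ρ, ?_, ?_, ?_, ?_, ?_, ?_,
    contDiffOn_Omg hn hf h1 hρ0, fun x hx => extDeriv_Omg hn hf h1 hρ0 hx, ?_, ?_⟩
  · rw [lt_div_iff₀ hρ0]; linarith
  · have h2 : Continuous (fun x : EuclideanSpace ℝ (Fin (n + n)) => ‖ρ • x‖) :=
      (continuous_id.const_smul ρ).norm
    exact (isOpen_lt continuous_const h2).inter (isOpen_lt h2 continuous_const)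
  · intro x hx
    have hx1 : ‖x‖ = 1 := by simpa using hx
    have hnx : ‖ρ • x‖ = ρ := by
      rw [norm_smul, Real.norm_eq_abs, abs_of_pos hρ0, hx1, mul_one]
    change ρ₁ < ‖ρ • x‖ ∧ ‖ρ • x‖ < 1
    rw [hnx]
    exact ⟨hr, hr1⟩
  · intro x hx
    exact (contDiffAt_gapp hf h1 hx.2 (hUF0 x hx.1 hx.2)).contDiffWithinAt
  · intro x hx
    unfold gapp
    rw [norm_smul, norm_inv, norm_norm, inv_mul_cancel₀]
    exact norm_ne_zero_iff.2 (hUF0 x hx.1 hx.2)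
  · intro ζ
    have hζ : ‖(ζ : EuclideanSpace ℝ (Fin (n + n)))‖ = 1 := by simp
    have hnx : ‖ρ • (ζ : EuclideanSpace ℝ (Fin (n + n)))‖ = ρ := by
      rw [norm_smul, Real.norm_eq_abs, abs_of_pos hρ0, hζ, mul_one]
    have ha : ρ₁ < ‖ρ • (ζ : EuclideanSpace ℝ (Fin (n + n)))‖ := by rw [hnx]; exact hr
    have hb : ‖ρ • (ζ : EuclideanSpace ℝ (Fin (n + n)))‖ < 1 := by rw [hnx]; exact hr1
    have h2 := hρ _ ha hb
    rw [nrm_smul hρ0] at h2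
    have h3 := hUF0 _ ha hb
    set y := ext volume f (ρ • (ζ : EuclideanSpace ℝ (Fin (n + n)))) with hy
    have h4 : ‖gapp f ρ ζ - y‖ ≤ 1 / 4 := by
      have h5 : gapp f ρ ζ - y = (‖y‖⁻¹ - 1) • y := by
        unfold gapp
        rw [← hy, sub_smul, one_smul]
      rw [h5, norm_smul, Real.norm_eq_abs]
      have h6 : |‖y‖⁻¹ - 1| * ‖y‖ = |1 - ‖y‖| := by
        rw [← abs_of_nonneg (norm_nonneg y), ← abs_mul, abs_of_nonneg (norm_nonneg y), sub_mul,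
          inv_mul_cancel₀ (norm_ne_zero_iff.2 h3), one_mul]
      rw [h6]
      have h7 := abs_norm_sub_norm_le y (f ζ)
      rw [h1, abs_sub_comm] at h7
      exact h7.trans h2
    calc ‖gapp f ρ ζ - f ζ‖ = ‖(gapp f ρ ζ - y) + (y - f ζ)‖ := by congr 1; abel
      _ ≤ ‖gapp f ρ ζ - y‖ + ‖y - f ζ‖ := norm_add_le _ _
      _ ≤ 1 / 4 + 1 / 4 := add_le_add h4 h2
      _ = 1 / 2 := by norm_num
  · intro x hx v
    exact Omg_boundary hf h1 hρ (by linarith) hr hr1 hx v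
  · refine (integral_Omg_le hn hρ0 hr1.le).trans ?_
    rw [mul_assoc]
    exact mul_le_mul' le_rfl (hmain f hf h1)

end good

end Pool.Agent.Lib.MP_3db736_an
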