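import Mathlib

open MeasureTheory Metric Set Module
open scoped ENNReal NNReal

namespace Pool.Agent.Lib.MP_3db736_an

section growth

variable {X : Type*} [PseudoMetricSpace X] [MeasurableSpace X] [OpensMeasurableSpace X]

theorem tsum_ofReal_half : ∑' j : ℕ, ENNReal.ofReal ((1 / 2 : ℝ) ^ j) = 2 := by
  have h1 : ∀ j : ℕ, ENNReal.ofReal ((1 / 2 : ℝ) ^ j) = (2⁻¹ : ℝ≥0∞) ^ j := by
    intro j
    rw [ENNReal.ofReal_pow (by norm_num)]
    congr 1
    rw [one_div, ENNReal.ofReal_inv_of_pos (by norm_num)]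
    norm_num
  simp_rw [h1]
  rw [ENNReal.tsum_geometric]
  rw [ENNReal.one_sub_inv_two, inv_inv]

/-- Integral of a negative power of the distance near its pole, below the growth exponent. -/
theorem lintegral_near (μ : Measure X) (x : X) {C : ℝ≥0∞} {m k : ℕ} (hk : k < m)
    (hμ : ∀ r : ℝ, 0 < r → μ (closedBall x r) ≤ C * ENNReal.ofReal (r ^ m)) {R : ℝ} (hR : 0 < R) :
    ∫⁻ y in closedBall x R, ENNReal.ofReal ((dist y x ^ k)⁻¹) ∂μ ≤
      C * ENNReal.ofReal (2 ^ (k + 1) * R ^ (m - k)) := by
  have hpt : ∀ y ∈ closedBall x R, ENNReal.ofReal ((dist y x ^ k)⁻¹) ≤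
      ∑' j : ℕ, (closedBall x (R / 2 ^ j)).indicator
        (fun _ => ENNReal.ofReal ((2 ^ (j + 1) / R) ^ k)) y := by
    intro y hy
    rcases eq_or_lt_of_le (dist_nonneg : 0 ≤ dist y x) with h0 | h0
    · rcases Nat.eq_zero_or_pos k with rfl | hkpos
      · refine le_trans ?_ (ENNReal.le_tsum 0)
        rw [indicator_of_mem (by simpa using hy)]
        simp
      · rw [← h0, zero_pow hkpos.ne']
        simp
    · have hle : dist y x ≤ R := hy
      obtain ⟨j, hj1, hj2⟩ := exists_nat_pow_near (x := R / dist y x) (y := (2 : ℝ))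
        (by rw [le_div_iff₀ h0]; linarith) (by norm_num)
      refine le_trans ?_ (ENNReal.le_tsum j)
      rw [indicator_of_mem]
      · apply ENNReal.ofReal_le_ofReal
        rw [← inv_pow]
        apply pow_le_pow_left₀ (by positivity)
        rw [div_lt_iff₀ h0] at hj2
        rw [inv_le_comm₀ h0 (by positivity), inv_div]
        rw [div_le_iff₀ (by positivity)]
        linarith
      · rw [mem_closedBall, le_div_iff₀ (by positivity)]
        rw [le_div_iff₀ h0] at hj1
        linarith
  calc ∫⁻ y in closedBall x R, ENNReal.ofReal ((dist y x ^ k)⁻¹) ∂μ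
      ≤ ∫⁻ y in closedBall x R, ∑' j : ℕ, (closedBall x (R / 2 ^ j)).indicator
        (fun _ => ENNReal.ofReal ((2 ^ (j + 1) / R) ^ k)) y ∂μ :=
        setLIntegral_mono' measurableSet_closedBall hpt
    _ ≤ ∫⁻ y, ∑' j : ℕ, (closedBall x (R / 2 ^ j)).indicator
        (fun _ => ENNReal.ofReal ((2 ^ (j + 1) / R) ^ k)) y ∂μ := setLIntegral_le_lintegral _ _
    _ = ∑' j : ℕ, ∫⁻ y, (closedBall x (R / 2 ^ j)).indicator
        (fun _ => ENNReal.ofReal ((2 ^ (j + 1) / R) ^ k)) y ∂μ := by
        apply lintegral_tsum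
        intro j
        exact (measurable_const.indicator measurableSet_closedBall).aemeasurable
    _ ≤ ∑' j : ℕ, C * ENNReal.ofReal (2 ^ k * R ^ (m - k)) * ENNReal.ofReal ((1 / 2 : ℝ) ^ j) := by
        apply ENNReal.tsum_le_tsum
        intro j
        rw [lintegral_indicator_const measurableSet_closedBall]
        calc ENNReal.ofReal ((2 ^ (j + 1) / R) ^ k) * μ (closedBall x (R / 2 ^ j))
            ≤ ENNReal.ofReal ((2 ^ (j + 1) / R) ^ k) * (C * ENNReal.ofReal ((R / 2 ^ j) ^ m)) := by
              gcongr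
              exact hμ _ (by positivity)
          _ = C * ENNReal.ofReal ((2 ^ (j + 1) / R) ^ k * (R / 2 ^ j) ^ m) := by
              rw [ENNReal.ofReal_mul (by positivity)]; ring
          _ ≤ C * (ENNReal.ofReal (2 ^ k * R ^ (m - k) * (1 / 2 : ℝ) ^ j)) := by
              apply mul_le_mul_right
              apply ENNReal.ofReal_le_ofReal
              obtain ⟨d, rfl⟩ := Nat.exists_eq_add_of_lt hk
              have h1 : (2 ^ (j + 1) / R) ^ k * (R / 2 ^ j) ^ (k + d + 1)
                  = 2 ^ k * R ^ (d + 1) * (1 / 2 ^ j) ^ (d + 1) := by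
                have hR' : R ≠ 0 := hR.ne'
                rw [pow_succ (2 : ℝ) j]
                generalize ha : (2 : ℝ) ^ j = a
                have h2 : a ≠ 0 := by rw [← ha]; positivity
                rw [div_pow, div_pow, mul_pow, div_pow, pow_add R, pow_add R, pow_add a, pow_add a,
                  one_pow]
                field_simp
                ring
              rw [h1]
              have h3 : k + d + 1 - k = d + 1 := by omega
              rw [h3]
              gcongr
              rw [one_div_pow (2 : ℝ) j]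
              calc (1 / (2 : ℝ) ^ j) ^ (d + 1) = (1 / (2 : ℝ) ^ j) ^ d * (1 / (2 : ℝ) ^ j) := by
                    rw [pow_succ]
                _ ≤ 1 * (1 / (2 : ℝ) ^ j) := by
                    gcongr
                    apply pow_le_one₀ (by positivity)
                    rw [div_le_one (by positivity)]
                    exact one_le_pow₀ (by norm_num)
                _ = _ := by ring
          _ = _ := by
              rw [ENNReal.ofReal_mul (by positivity)]; ring
    _ = C * ENNReal.ofReal (2 ^ (k + 1) * R ^ (m - k)) := by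
        rw [ENNReal.tsum_mul_left, tsum_ofReal_half, mul_assoc]
        congr 1
        rw [show (2 : ℝ≥0∞) = ENNReal.ofReal 2 by norm_num, ← ENNReal.ofReal_mul (by positivity)]
        congr 1
        ring

/-- Integral of a negative power of the distance away from its pole, above the growth exponent. -/
theorem lintegral_far (μ : Measure X) (x : X) {C : ℝ≥0∞} {m k : ℕ} (hk : m < k)
    (hμ : ∀ r : ℝ, 0 < r → μ (closedBall x r) ≤ C * ENNReal.ofReal (r ^ m)) {R : ℝ} (hR : 0 < R) :
    ∫⁻ y in {y | R ≤ dist y x}, ENNReal.ofReal ((dist y x ^ k)⁻¹) ∂μ ≤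
      C * ENNReal.ofReal (2 ^ (m + 1) * (R ^ (k - m))⁻¹) := by
  have hpt : ∀ y ∈ {y | R ≤ dist y x}, ENNReal.ofReal ((dist y x ^ k)⁻¹) ≤
      ∑' j : ℕ, (closedBall x (2 ^ (j + 1) * R)).indicator
        (fun _ => ENNReal.ofReal (((2 ^ j * R) ^ k)⁻¹)) y := by
    intro y hy
    have hle : R ≤ dist y x := hy
    obtain ⟨j, hj1, hj2⟩ := exists_nat_pow_near (x := dist y x / R) (y := (2 : ℝ))
        (by rw [le_div_iff₀ hR]; linarith) (by norm_num)
    refine le_trans ?_ (ENNReal.le_tsum j)
    rw [indicator_of_mem]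
    · apply ENNReal.ofReal_le_ofReal
      rw [le_div_iff₀ hR] at hj1
      gcongr
    · rw [mem_closedBall]
      rw [div_lt_iff₀ hR] at hj2
      linarith
  have hmeas : MeasurableSet {y | R ≤ dist y x} :=
    (isClosed_le continuous_const (continuous_id.dist continuous_const)).measurableSet
  calc ∫⁻ y in {y | R ≤ dist y x}, ENNReal.ofReal ((dist y x ^ k)⁻¹) ∂μ
      ≤ ∫⁻ y in {y | R ≤ dist y x}, ∑' j : ℕ, (closedBall x (2 ^ (j + 1) * R)).indicator
        (fun _ => ENNReal.ofReal (((2 ^ j * R) ^ k)⁻¹)) y ∂μ :=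
        setLIntegral_mono' hmeas hpt
    _ ≤ ∫⁻ y, ∑' j : ℕ, (closedBall x (2 ^ (j + 1) * R)).indicator
        (fun _ => ENNReal.ofReal (((2 ^ j * R) ^ k)⁻¹)) y ∂μ := setLIntegral_le_lintegral _ _
    _ = ∑' j : ℕ, ∫⁻ y, (closedBall x (2 ^ (j + 1) * R)).indicator
        (fun _ => ENNReal.ofReal (((2 ^ j * R) ^ k)⁻¹)) y ∂μ := by
        apply lintegral_tsum
        intro j
        exact (measurable_const.indicator measurableSet_closedBall).aemeasurable
    _ ≤ ∑' j : ℕ, C * ENNReal.ofReal (2 ^ m * (R ^ (k - m))⁻¹) *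
          ENNReal.ofReal ((1 / 2 : ℝ) ^ j) := by
        apply ENNReal.tsum_le_tsum
        intro j
        rw [lintegral_indicator_const measurableSet_closedBall]
        calc ENNReal.ofReal (((2 ^ j * R) ^ k)⁻¹) * μ (closedBall x (2 ^ (j + 1) * R))
            ≤ ENNReal.ofReal (((2 ^ j * R) ^ k)⁻¹) *
                (C * ENNReal.ofReal ((2 ^ (j + 1) * R) ^ m)) := by
              gcongr
              exact hμ _ (by positivity)
          _ = C * ENNReal.ofReal (((2 ^ j * R) ^ k)⁻¹ * (2 ^ (j + 1) * R) ^ m) := by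
              rw [ENNReal.ofReal_mul (by positivity)]; ring
          _ ≤ C * (ENNReal.ofReal (2 ^ m * (R ^ (k - m))⁻¹ * (1 / 2 : ℝ) ^ j)) := by
              apply mul_le_mul_right
              apply ENNReal.ofReal_le_ofReal
              obtain ⟨d, rfl⟩ := Nat.exists_eq_add_of_lt hk
              have h1 : ((2 ^ j * R) ^ (m + d + 1))⁻¹ * (2 ^ (j + 1) * R) ^ m
                  = 2 ^ m * (R ^ (d + 1))⁻¹ * (1 / 2 ^ j) ^ (d + 1) := by
                have hR' : R ≠ 0 := hR.ne'
                rw [pow_succ (2 : ℝ) j]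
                generalize ha : (2 : ℝ) ^ j = a
                have h2 : a ≠ 0 := by rw [← ha]; positivity
                rw [div_pow, mul_pow, mul_pow, mul_pow, pow_add R, pow_add R, pow_add a, pow_add a,
                  pow_add R, pow_add a, one_pow]
                field_simp
              rw [h1]
              have h3 : m + d + 1 - m = d + 1 := by omega
              rw [h3]
              gcongr
              rw [one_div_pow (2 : ℝ) j]
              calc (1 / (2 : ℝ) ^ j) ^ (d + 1) = (1 / (2 : ℝ) ^ j) ^ d * (1 / (2 : ℝ) ^ j) := by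
                    rw [pow_succ]
                _ ≤ 1 * (1 / (2 : ℝ) ^ j) := by
                    gcongr
                    apply pow_le_one₀ (by positivity)
                    rw [div_le_one (by positivity)]
                    exact one_le_pow₀ (by norm_num)
                _ = _ := by ring
          _ = _ := by
              rw [ENNReal.ofReal_mul (by positivity)]; ring
    _ = C * ENNReal.ofReal (2 ^ (m + 1) * (R ^ (k - m))⁻¹) := by
        rw [ENNReal.tsum_mul_left, tsum_ofReal_half, mul_assoc]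
        congr 1
        rw [show (2 : ℝ≥0∞) = ENNReal.ofReal 2 by norm_num, ← ENNReal.ofReal_mul (by positivity)]
        congr 1
        ring

/-- Rearrangement bound: the potential of a set is bounded by a power of its measure. -/
theorem lintegral_rearr (μ : Measure X) (x : X) {C : ℝ≥0∞} {k : ℕ}
    (hμ : ∀ r : ℝ, 0 < r → μ (closedBall x r) ≤ C * ENNReal.ofReal (r ^ (k + 1)))
    {A : Set X} (hA : MeasurableSet A) (hfin : μ A ≠ ∞) :
    ∫⁻ y in A, ENNReal.ofReal ((dist y x ^ k)⁻¹) ∂μ ≤
      (C * ENNReal.ofReal (2 ^ (k + 1)) + 1) * (μ A) ^ ((1 : ℝ) / (k + 1)) := by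
  rcases eq_or_ne (μ A) 0 with h0 | h0
  · rw [Measure.restrict_eq_zero.2 h0]
    simp
  set a : ℝ := (μ A).toReal with ha
  have hapos : 0 < a := ENNReal.toReal_pos h0 hfin
  set R : ℝ := a ^ ((1 : ℝ) / (k + 1)) with hR
  have hRpos : 0 < R := Real.rpow_pos_of_pos hapos _
  have hRk : R ^ (k + 1) = a := by
    rw [hR, ← Real.rpow_natCast, ← Real.rpow_mul hapos.le]
    have : (1 : ℝ) / (k + 1) * ((k + 1 : ℕ) : ℝ) = 1 := by
      push_cast
      field_simp
    rw [this, Real.rpow_one]
  have hμA : (μ A) ^ ((1 : ℝ) / (k + 1)) = ENNReal.ofReal R := by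
    rw [hR, ← ENNReal.ofReal_rpow_of_pos hapos, ha, ENNReal.ofReal_toReal hfin]
  rw [hμA]
  have hsplit : ∫⁻ y in A, ENNReal.ofReal ((dist y x ^ k)⁻¹) ∂μ ≤
      ∫⁻ y in closedBall x R, ENNReal.ofReal ((dist y x ^ k)⁻¹) ∂μ +
      ∫⁻ y in A \ closedBall x R, ENNReal.ofReal ((dist y x ^ k)⁻¹) ∂μ := by
    calc ∫⁻ y in A, ENNReal.ofReal ((dist y x ^ k)⁻¹) ∂μ
        ≤ ∫⁻ y in closedBall x R ∪ (A \ closedBall x R),
            ENNReal.ofReal ((dist y x ^ k)⁻¹) ∂μ := by
          apply lintegral_mono_set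
          intro y hy
          by_cases h : y ∈ closedBall x R
          · exact Or.inl h
          · exact Or.inr ⟨hy, h⟩
      _ ≤ _ := lintegral_union_le _ _ _
  refine hsplit.trans ?_
  have hnear := lintegral_near μ x (Nat.lt_succ_self k) hμ hRpos
  have hfar : ∫⁻ y in A \ closedBall x R, ENNReal.ofReal ((dist y x ^ k)⁻¹) ∂μ ≤
      ENNReal.ofReal R := by
    calc ∫⁻ y in A \ closedBall x R, ENNReal.ofReal ((dist y x ^ k)⁻¹) ∂μ
        ≤ ∫⁻ y in A \ closedBall x R, ENNReal.ofReal ((R ^ k)⁻¹) ∂μ := by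
          apply setLIntegral_mono' (hA.diff measurableSet_closedBall)
          intro y hy
          apply ENNReal.ofReal_le_ofReal
          have : R < dist y x := by simpa using hy.2
          gcongr
      _ = ENNReal.ofReal ((R ^ k)⁻¹) * μ (A \ closedBall x R) := by rw [setLIntegral_const]
      _ ≤ ENNReal.ofReal ((R ^ k)⁻¹) * μ A := by gcongr; exact sdiff_subset
      _ = ENNReal.ofReal R := by
          rw [← ENNReal.ofReal_toReal hfin, ← ha, ← hRk, ← ENNReal.ofReal_mul (by positivity)]
          congr 1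
          rw [pow_succ]
          field_simp
  calc _ ≤ C * ENNReal.ofReal (2 ^ (k + 1) * R ^ (k + 1 - k)) + ENNReal.ofReal R :=
        add_le_add hnear hfar
    _ = _ := by
      have : k + 1 - k = 1 := by omega
      rw [this, pow_one, ENNReal.ofReal_mul (by positivity)]
      ring

theorem lintegral_comp_aux (μ : Measure X) (z z' : X) {C : ℝ≥0∞} {j : ℕ}
    (hμ : ∀ r : ℝ, 0 < r → μ (closedBall z r) ≤ C * ENNReal.ofReal (r ^ (j + 3)))
    (hz : 0 < dist z z') :
    ∫⁻ x in {x | dist x z ≤ dist x z'}, ENNReal.ofReal ((dist x z ^ (j + 2))⁻¹) *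
        ENNReal.ofReal ((dist x z' ^ (j + 2))⁻¹) ∂μ ≤
      C * ENNReal.ofReal (2 ^ (2 * j + 6)) * ENNReal.ofReal ((dist z z' ^ (j + 1))⁻¹) := by
  set δ := dist z z' with hδ
  set A : Set X := {x | dist x z ≤ dist x z'} with hA
  have hAm : MeasurableSet A :=
    (isClosed_le (continuous_id.dist continuous_const)
      (continuous_id.dist continuous_const)).measurableSet
  have hfm : MeasurableSet {y | δ ≤ dist y z} :=
    (isClosed_le continuous_const (continuous_id.dist continuous_const)).measurableSet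
  have key : ∀ x ∈ A, δ / 2 ≤ dist x z' := by
    intro x hx
    have h1 : dist x z ≤ dist x z' := hx
    have h2 : δ ≤ dist z x + dist x z' := dist_triangle _ _ _
    rw [dist_comm z x] at h2
    linarith
  have h1 : ∫⁻ x in A ∩ closedBall z δ, ENNReal.ofReal ((dist x z ^ (j + 2))⁻¹) *
        ENNReal.ofReal ((dist x z' ^ (j + 2))⁻¹) ∂μ ≤
      ENNReal.ofReal (((δ / 2) ^ (j + 2))⁻¹) * (C * ENNReal.ofReal (2 ^ (j + 3) * δ)) := by
    calc ∫⁻ x in A ∩ closedBall z δ, ENNReal.ofReal ((dist x z ^ (j + 2))⁻¹) *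
        ENNReal.ofReal ((dist x z' ^ (j + 2))⁻¹) ∂μ
        ≤ ∫⁻ x in A ∩ closedBall z δ, ENNReal.ofReal (((δ / 2) ^ (j + 2))⁻¹) *
            ENNReal.ofReal ((dist x z ^ (j + 2))⁻¹) ∂μ := by
          apply setLIntegral_mono' (hAm.inter measurableSet_closedBall)
          intro x hx
          rw [mul_comm]
          have := key x hx.1
          gcongr
      _ ≤ ∫⁻ x in closedBall z δ, ENNReal.ofReal (((δ / 2) ^ (j + 2))⁻¹) *
            ENNReal.ofReal ((dist x z ^ (j + 2))⁻¹) ∂μ :=
          lintegral_mono_set inter_subset_right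
      _ = ENNReal.ofReal (((δ / 2) ^ (j + 2))⁻¹) * ∫⁻ x in closedBall z δ,
            ENNReal.ofReal ((dist x z ^ (j + 2))⁻¹) ∂μ := by
          rw [lintegral_const_mul' _ _ ENNReal.ofReal_ne_top]
      _ ≤ _ := by
          gcongr
          have := lintegral_near μ z (show j + 2 < j + 3 by omega) hμ hz
          have e : j + 3 - (j + 2) = 1 := by omega
          rw [e, pow_one] at this
          exact this
  have h2 : ∫⁻ x in A ∩ {y | δ ≤ dist y z}, ENNReal.ofReal ((dist x z ^ (j + 2))⁻¹) *
        ENNReal.ofReal ((dist x z' ^ (j + 2))⁻¹) ∂μ ≤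
      C * ENNReal.ofReal (2 ^ (j + 4) * (δ ^ (j + 1))⁻¹) := by
    calc ∫⁻ x in A ∩ {y | δ ≤ dist y z}, ENNReal.ofReal ((dist x z ^ (j + 2))⁻¹) *
        ENNReal.ofReal ((dist x z' ^ (j + 2))⁻¹) ∂μ
        ≤ ∫⁻ x in A ∩ {y | δ ≤ dist y z}, ENNReal.ofReal ((dist x z ^ (2 * j + 4))⁻¹) ∂μ := by
          apply setLIntegral_mono' (hAm.inter hfm)
          intro x hx
          rw [← ENNReal.ofReal_mul (by positivity)]
          apply ENNReal.ofReal_le_ofReal
          have h3 : dist x z ≤ dist x z' := hx.1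
          have h4 : δ ≤ dist x z := hx.2
          have h5 : 0 < dist x z := hz.trans_le h4
          rw [show 2 * j + 4 = (j + 2) + (j + 2) by ring, pow_add (dist x z) (j + 2) (j + 2), mul_inv]
          gcongr
      _ ≤ ∫⁻ x in {y | δ ≤ dist y z}, ENNReal.ofReal ((dist x z ^ (2 * j + 4))⁻¹) ∂μ :=
          lintegral_mono_set inter_subset_right
      _ ≤ _ := by
          have := lintegral_far μ z (show j + 3 < 2 * j + 4 by omega) hμ hz
          have e : 2 * j + 4 - (j + 3) = j + 1 := by omega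
          rw [e] at this
          exact this
  calc ∫⁻ x in A, ENNReal.ofReal ((dist x z ^ (j + 2))⁻¹) *
        ENNReal.ofReal ((dist x z' ^ (j + 2))⁻¹) ∂μ
      ≤ ∫⁻ x in (A ∩ closedBall z δ) ∪ (A ∩ {y | δ ≤ dist y z}),
          ENNReal.ofReal ((dist x z ^ (j + 2))⁻¹) *
            ENNReal.ofReal ((dist x z' ^ (j + 2))⁻¹) ∂μ := by
        apply lintegral_mono_set
        intro x hx
        rcases le_total (dist x z) δ with h | h
        · exact Or.inl ⟨hx, h⟩
        · exact Or.inr ⟨hx, h⟩
    _ ≤ _ := lintegral_union_le _ _ _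
    _ ≤ ENNReal.ofReal (((δ / 2) ^ (j + 2))⁻¹) * (C * ENNReal.ofReal (2 ^ (j + 3) * δ)) +
        C * ENNReal.ofReal (2 ^ (j + 4) * (δ ^ (j + 1))⁻¹) := add_le_add h1 h2
    _ = C * (ENNReal.ofReal (((δ / 2) ^ (j + 2))⁻¹ * (2 ^ (j + 3) * δ) +
          2 ^ (j + 4) * (δ ^ (j + 1))⁻¹)) := by
        rw [ENNReal.ofReal_add (by positivity) (by positivity),
          ENNReal.ofReal_mul (p := ((δ / 2) ^ (j + 2))⁻¹) (by positivity)]
        ring
    _ ≤ C * ENNReal.ofReal (2 ^ (2 * j + 6) * (δ ^ (j + 1))⁻¹) := by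
        refine mul_le_mul' le_rfl (ENNReal.ofReal_le_ofReal ?_)
        have hδ0 : δ ≠ 0 := hz.ne'
        have e1 : ((δ / 2) ^ (j + 2))⁻¹ * (2 ^ (j + 3) * δ) = 2 ^ (2 * j + 5) * (δ ^ (j + 1))⁻¹ := by
          rw [div_pow, pow_succ δ (j + 1), show 2 * j + 5 = (j + 2) + (j + 3) by ring,
            pow_add 2 (j + 2) (j + 3)]
          field_simp
        rw [e1]
        have e2 : (2 : ℝ) ^ (j + 4) ≤ 2 ^ (2 * j + 5) := by
          apply pow_le_pow_right₀ (by norm_num)
          omega
        have e3 : (2 : ℝ) ^ (2 * j + 6) = 2 ^ (2 * j + 5) + 2 ^ (2 * j + 5) := by ring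
        rw [e3, add_mul]
        have : 0 ≤ (δ ^ (j + 1))⁻¹ := by positivity
        gcongr
    _ = _ := by
        rw [ENNReal.ofReal_mul (by positivity)]
        ring

/-- Composition of two Riesz kernels of order one. -/
theorem lintegral_comp (μ : Measure X) (z z' : X) {C : ℝ≥0∞} {j : ℕ}
    (hμ : ∀ (x : X) (r : ℝ), 0 < r → μ (closedBall x r) ≤ C * ENNReal.ofReal (r ^ (j + 3)))
    (hz : 0 < dist z z') :
    ∫⁻ x, ENNReal.ofReal ((dist x z ^ (j + 2))⁻¹) *
        ENNReal.ofReal ((dist x z' ^ (j + 2))⁻¹) ∂μ ≤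
      C * ENNReal.ofReal (2 ^ (2 * j + 7)) * ENNReal.ofReal ((dist z z' ^ (j + 1))⁻¹) := by
  calc ∫⁻ x, ENNReal.ofReal ((dist x z ^ (j + 2))⁻¹) *
        ENNReal.ofReal ((dist x z' ^ (j + 2))⁻¹) ∂μ
      = ∫⁻ x in {x | dist x z ≤ dist x z'} ∪ {x | dist x z' ≤ dist x z},
          ENNReal.ofReal ((dist x z ^ (j + 2))⁻¹) *
            ENNReal.ofReal ((dist x z' ^ (j + 2))⁻¹) ∂μ := by
        rw [show {x | dist x z ≤ dist x z'} ∪ {x | dist x z' ≤ dist x z} = univ by
          ext x; simpa using le_total _ _]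
        simp
    _ ≤ _ := lintegral_union_le _ _ _
    _ ≤ C * ENNReal.ofReal (2 ^ (2 * j + 6)) * ENNReal.ofReal ((dist z z' ^ (j + 1))⁻¹) +
        C * ENNReal.ofReal (2 ^ (2 * j + 6)) * ENNReal.ofReal ((dist z z' ^ (j + 1))⁻¹) := by
        apply add_le_add
        · exact lintegral_comp_aux μ z z' (hμ z) hz
        · have := lintegral_comp_aux μ z' z (hμ z') (by rwa [dist_comm])
          rw [dist_comm z' z] at this
          refine le_trans (le_of_eq ?_) this
          apply lintegral_congr
          intro x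
          rw [mul_comm]
    _ = _ := by
        rw [show (2 : ℝ) ^ (2 * j + 7) = 2 ^ (2 * j + 6) + 2 ^ (2 * j + 6) by ring,
          ENNReal.ofReal_add (by positivity) (by positivity)]
        ring

end growth

section polar

variable {E : Type*} [NormedAddCommGroup E] [NormedSpace ℝ E] [MeasurableSpace E] [BorelSpace E]
  [FiniteDimensional ℝ E] [Nontrivial E]

theorem lintegral_polar (μ : Measure E) [μ.IsAddHaarMeasure] {f : E → ℝ≥0∞} (hf : Measurable f) :
    ∫⁻ x, f x ∂μ = ∫⁻ ζ : sphere (0 : E) 1, ∫⁻ r in Ioi (0 : ℝ),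
      ENNReal.ofReal (r ^ (finrank ℝ E - 1)) * f (r • (ζ : E)) ∂volume ∂μ.toSphere := by
  have hcont : Continuous fun p : sphere (0 : E) 1 × Ioi (0 : ℝ) => (p.2 : ℝ) • (p.1 : E) := by
    fun_prop
  calc ∫⁻ x, f x ∂μ = ∫⁻ x : ({(0 : E)}ᶜ : Set E), f x ∂(μ.comap (↑)) := by
        rw [lintegral_subtype_comap (measurableSet_singleton _).compl, restrict_compl_singleton]
    _ = ∫⁻ x : ({(0 : E)}ᶜ : Set E), (fun p : sphere (0 : E) 1 × Ioi (0 : ℝ) =>
          f ((p.2 : ℝ) • (p.1 : E))) (homeomorphUnitSphereProd E x) ∂(μ.comap (↑)) := by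
        apply lintegral_congr
        intro x
        have hx : ‖(x : E)‖ ≠ 0 := norm_ne_zero_iff.2 x.2
        simp [smul_smul, hx]
    _ = ∫⁻ p, f ((p.2 : ℝ) • (p.1 : E)) ∂(μ.toSphere.prod (Measure.volumeIoiPow (finrank ℝ E - 1))) := by
        exact μ.measurePreserving_homeomorphUnitSphereProd.lintegral_comp
          (f := fun p : sphere (0 : E) 1 × Ioi (0 : ℝ) => f ((p.2 : ℝ) • (p.1 : E)))
          (hf.comp hcont.measurable)
    _ = ∫⁻ ζ : sphere (0 : E) 1, ∫⁻ r : Ioi (0 : ℝ), f ((r : ℝ) • (ζ : E))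
          ∂(Measure.volumeIoiPow (finrank ℝ E - 1)) ∂μ.toSphere := by
        exact lintegral_prod (fun p : sphere (0 : E) 1 × Ioi (0 : ℝ) => f ((p.2 : ℝ) • (p.1 : E)))
          (hf.comp hcont.measurable).aemeasurable
    _ = _ := by
        apply lintegral_congr
        intro ζ
        rw [Measure.volumeIoiPow, lintegral_withDensity_eq_lintegral_mul]
        · simp only [Pi.mul_apply]
          rw [lintegral_subtype_comap measurableSet_Ioi
            (fun r : ℝ => ENNReal.ofReal (r ^ (finrank ℝ E - 1)) * f (r • (ζ : E)))]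
        · fun_prop
        · apply hf.comp
          fun_prop

/-- Upper Ahlfors regularity of the unit sphere. -/
theorem toSphere_closedBall_le (μ : Measure E) [μ.IsAddHaarMeasure] :
    ∃ C : ℝ≥0∞, C ≠ ∞ ∧ ∀ (ζ : sphere (0 : E) 1) (r : ℝ), 0 < r →
      μ.toSphere (closedBall ζ r) ≤ C * ENNReal.ofReal (r ^ (finrank ℝ E - 1)) := by
  set N := finrank ℝ E with hN
  have hNpos : 0 < N := finrank_pos
  refine ⟨ENNReal.ofReal (2 ^ (2 * N)) * μ (closedBall 0 1) +
    ENNReal.ofReal (2 ^ N) * μ.toSphere univ, ?_, ?_⟩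
  · refine ENNReal.add_ne_top.2 ⟨ENNReal.mul_ne_top ENNReal.ofReal_ne_top
      (measure_closedBall_lt_top).ne, ENNReal.mul_ne_top ENNReal.ofReal_ne_top (measure_ne_top _ _)⟩
  intro ζ r hr
  by_cases hr2 : r ≤ 1 / 2
  · have h1 : μ.toSphere (closedBall ζ r) * ENNReal.ofReal (r * (1 / 2) ^ (N - 1)) ≤
        μ (closedBall (ζ : E) (2 * r)) := by
      calc μ.toSphere (closedBall ζ r) * ENNReal.ofReal (r * (1 / 2) ^ (N - 1))
          = ∫⁻ ω : sphere (0 : E) 1 in closedBall ζ r, ∫⁻ s in Ioo (1 - r) 1,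
              ENNReal.ofReal ((1 / 2) ^ (N - 1)) ∂volume ∂μ.toSphere := by
            rw [setLIntegral_const, setLIntegral_const, Real.volume_Ioo,
              ENNReal.ofReal_mul hr.le]
            rw [show 1 - (1 - r) = r by ring]
            ring
        _ ≤ ∫⁻ ω : sphere (0 : E) 1 in closedBall ζ r, ∫⁻ s in Ioi (0 : ℝ),
              ENNReal.ofReal (s ^ (N - 1)) *
                (closedBall (ζ : E) (2 * r)).indicator 1 (s • (ω : E)) ∂volume ∂μ.toSphere := by
            apply setLIntegral_mono' measurableSet_closedBall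
            intro ω hω
            refine le_trans ?_ (lintegral_mono_set (s := Ioo (1 - r) 1) ?_)
            · apply setLIntegral_mono' measurableSet_Ioo
              intro s hs
              have hs1 : 1 - r < s := hs.1
              have hs2 : s < 1 := hs.2
              rw [indicator_of_mem]
              · simp only [Pi.one_apply, mul_one]
                apply ENNReal.ofReal_le_ofReal
                apply pow_le_pow_left₀ (by norm_num)
                linarith
              · rw [mem_closedBall, dist_eq_norm]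
                have hω' : ‖(ω : E) - ζ‖ ≤ r := by
                  have := mem_closedBall.1 hω
                  rwa [Subtype.dist_eq, dist_eq_norm] at this
                have hω1 : ‖(ω : E)‖ = 1 := by simp
                calc ‖s • (ω : E) - ζ‖ = ‖(s - 1) • (ω : E) + ((ω : E) - ζ)‖ := by
                      congr 1; module
                  _ ≤ ‖(s - 1) • (ω : E)‖ + ‖(ω : E) - ζ‖ := norm_add_le _ _
                  _ ≤ r + r := by
                      rw [norm_smul, hω1, mul_one, Real.norm_eq_abs, abs_of_neg (by linarith)]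
                      linarith
                  _ = 2 * r := by ring
            · intro s hs
              have hs1 : 1 - r < s := hs.1
              rw [mem_Ioi]
              linarith
        _ ≤ ∫⁻ ω : sphere (0 : E) 1, ∫⁻ s in Ioi (0 : ℝ),
              ENNReal.ofReal (s ^ (N - 1)) *
                (closedBall (ζ : E) (2 * r)).indicator 1 (s • (ω : E)) ∂volume ∂μ.toSphere :=
            setLIntegral_le_lintegral _ _
        _ = μ (closedBall (ζ : E) (2 * r)) := by
            rw [← lintegral_polar μ (measurable_one.indicator measurableSet_closedBall)]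
            rw [lintegral_indicator_one measurableSet_closedBall]
    have h2 : μ (closedBall (ζ : E) (2 * r)) = ENNReal.ofReal ((2 * r) ^ N) * μ (closedBall 0 1) := by
      rw [Measure.addHaar_closedBall' _ _ (by positivity)]
    have h3 : ENNReal.ofReal (r * (1 / 2) ^ (N - 1)) ≠ 0 := by
      simp only [ne_eq, ENNReal.ofReal_eq_zero, not_le]
      positivity
    rw [← ENNReal.le_div_iff_mul_le (Or.inl h3) (Or.inl ENNReal.ofReal_ne_top)] at h1
    refine h1.trans ?_
    rw [h2, div_eq_mul_inv, ← ENNReal.ofReal_inv_of_pos (by positivity)]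
    calc ENNReal.ofReal ((2 * r) ^ N) * μ (closedBall 0 1) *
          ENNReal.ofReal (r * (1 / 2) ^ (N - 1))⁻¹
        = ENNReal.ofReal ((2 * r) ^ N * (r * (1 / 2) ^ (N - 1))⁻¹) * μ (closedBall 0 1) := by
          rw [ENNReal.ofReal_mul (by positivity)]; ring
      _ ≤ ENNReal.ofReal (2 ^ (2 * N) * r ^ (N - 1)) * μ (closedBall 0 1) := by
          refine mul_le_mul' (ENNReal.ofReal_le_ofReal ?_) le_rfl
          obtain ⟨k, hk⟩ : ∃ k, N = k + 1 := ⟨N - 1, by omega⟩
          rw [hk]
          simp only [Nat.add_sub_cancel]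
          rw [mul_inv, one_div, inv_pow, inv_inv, mul_pow, pow_succ r k, pow_succ (2 : ℝ) k]
          have hr0 : r ≠ 0 := hr.ne'
          have : (2 : ℝ) ^ k * 2 * (r ^ k * r) * (r⁻¹ * 2 ^ k) = 2 ^ k * 2 * 2 ^ k * r ^ k := by
            field_simp
          rw [this]
          gcongr
          rw [show 2 * (k + 1) = k + 1 + k + 1 by ring]
          rw [pow_succ, pow_add, pow_succ]
          nlinarith [show (0 : ℝ) < 2 ^ k * 2 * 2 ^ k by positivity]
      _ = ENNReal.ofReal (2 ^ (2 * N)) * μ (closedBall 0 1) * ENNReal.ofReal (r ^ (N - 1)) := by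
          rw [ENNReal.ofReal_mul (by positivity)]; ring
      _ ≤ _ := by
          gcongr
          exact le_self_add
  · push Not at hr2
    calc μ.toSphere (closedBall ζ r) ≤ μ.toSphere univ := measure_mono (subset_univ _)
      _ = 1 * μ.toSphere univ := by rw [one_mul]
      _ ≤ ENNReal.ofReal (2 ^ N * r ^ (N - 1)) * μ.toSphere univ := by
          gcongr
          rw [ENNReal.one_le_ofReal]
          obtain ⟨k, hk⟩ : ∃ k, N = k + 1 := ⟨N - 1, by omega⟩
          rw [hk]
          simp only [Nat.add_sub_cancel]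
          rw [pow_succ]
          have : (1 : ℝ) ≤ (2 * r) ^ k := one_le_pow₀ (by linarith)
          rw [mul_pow] at this
          nlinarith
      _ = ENNReal.ofReal (2 ^ N) * μ.toSphere univ * ENNReal.ofReal (r ^ (N - 1)) := by
          rw [ENNReal.ofReal_mul (by positivity)]; ring
      _ ≤ _ := by
          gcongr
          exact le_add_self

end polar


end Pool.Agent.Lib.MP_3db736_an
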