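import Pool.Agent.Lib.MP_3db736_an.Potential

open MeasureTheory Metric Set Module Filter
open scoped ENNReal NNReal Topology ContDiff

namespace Pool.Agent.Lib.MP_3db736_an

section param

variable {E H Ω : Type*} [NormedAddCommGroup E] [NormedSpace ℝ E]
  [NormedAddCommGroup H] [NormedSpace ℝ H] [MeasurableSpace Ω]

/-- Differentiation under the integral sign, with a global domination. -/
theorem param_integral {ν : Measure Ω} {F : Ω → E → H} {F' : Ω → E → E →L[ℝ] H} {b : Ω → ℝ}
    (hF : ∀ x, Integrable (fun a => F a x) ν)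
    (hF' : ∀ x, AEStronglyMeasurable (fun a => F' a x) ν)
    (hbound : ∀ᵐ a ∂ν, ∀ x, ‖F' a x‖ ≤ b a) (hb : Integrable b ν)
    (hdiff : ∀ᵐ a ∂ν, ∀ x, HasFDerivAt (F a) (F' a x) x)
    (hcont : ∀ᵐ a ∂ν, Continuous (F' a)) :
    (∀ x, HasFDerivAt (fun x => ∫ a, F a x ∂ν) (∫ a, F' a x ∂ν) x) ∧
      ContDiff ℝ 1 (fun x => ∫ a, F a x ∂ν) := by
  have h1 : ∀ x, HasFDerivAt (fun x => ∫ a, F a x ∂ν) (∫ a, F' a x ∂ν) x := by
    intro x
    apply hasFDerivAt_integral_of_dominated_of_fderiv_le (F := fun x a => F a x)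
      (F' := fun x a => F' a x) (s := univ) (bound := b) univ_mem
    · exact Eventually.of_forall fun y => (hF y).aestronglyMeasurable
    · exact hF x
    · exact hF' x
    · filter_upwards [hbound] with a ha y _ using ha y
    · exact hb
    · filter_upwards [hdiff] with a ha y _ using ha y
  refine ⟨h1, ?_⟩
  rw [contDiff_one_iff_fderiv]
  refine ⟨fun x => (h1 x).differentiableAt, ?_⟩
  have h2 : fderiv ℝ (fun x => ∫ a, F a x ∂ν) = fun x => ∫ a, F' a x ∂ν := by
    ext1 x
    exact (h1 x).fderiv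
  rw [h2]
  apply continuous_of_dominated hF' (bound := b)
  · intro x
    filter_upwards [hbound] with a ha using ha x
  · exact hb
  · exact hcont

end param

section theta

variable {E : Type*} [NormedAddCommGroup E] [NormedSpace ℝ E] {n : ℕ}
  {W W' : Type*} [NormedAddCommGroup W] [NormedSpace ℝ W] [NormedAddCommGroup W']
  [NormedSpace ℝ W']

/-- The integrand of the homotopy operator. -/
noncomputable def Tht (b : W →L[ℝ] E →L[ℝ] W') (n : ℕ) (γ : E → W) (t : ℝ) (o x : E) : W' :=
  t ^ n • b (γ (o + t • (x - o))) (x - o)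

/-- The derivative of the integrand. -/
noncomputable def dTht (b : W →L[ℝ] E →L[ℝ] W') (n : ℕ) (γ : E → W) (t : ℝ) (o x : E) :
    E →L[ℝ] W' :=
  t ^ n • (b (γ (o + t • (x - o))) +
    t • (b.flip (x - o) ∘L fderiv ℝ γ (o + t • (x - o))))

/-- The derivative of the primitive along the path. -/
noncomputable def dPath (n : ℕ) (γ : E → W) (t : ℝ) (o x : E) : W :=
  ((n + 1 : ℕ) * t ^ n : ℝ) • γ (o + t • (x - o)) +
        t ^ (n + 1) • fderiv ℝ γ (o + t • (x - o)) (x - o)

theorem hasFDerivAt_Tht (b : W →L[ℝ] E →L[ℝ] W') {γ : E → W} (hγ : ContDiff ℝ 1 γ) (t : ℝ)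
    (o x : E) : HasFDerivAt (Tht b n γ t o) (dTht b n γ t o x) x := by
  have h1 : HasFDerivAt (fun x : E => o + t • (x - o)) (t • ContinuousLinearMap.id ℝ E) x :=
    (((hasFDerivAt_id x).sub_const o).const_smul t).const_add o
  have h2 : HasFDerivAt γ (fderiv ℝ γ (o + t • (x - o))) (o + t • (x - o)) :=
    (hγ.differentiable one_ne_zero _).hasFDerivAt
  have h3 := h2.comp x h1
  have h4 := b.hasFDerivAt.comp x h3
  have h5 : HasFDerivAt (fun x : E => x - o) (ContinuousLinearMap.id ℝ E) x :=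
    (hasFDerivAt_id x).sub_const o
  have h6 := (h4.clm_apply h5).const_smul (t ^ n)
  refine h6.congr_fderiv ?_
  rw [dTht]
  congr 1
  ext v
  simp

theorem hasDerivAt_path {γ : E → W} (hγ : ContDiff ℝ 1 γ) (t : ℝ)
    (o x : E) : HasDerivAt (fun t : ℝ => t ^ (n + 1) • γ (o + t • (x - o)))
      (dPath n γ t o x) t := by
  have h1 : HasDerivAt (fun t : ℝ => o + t • (x - o)) (x - o) t := by
    have := ((hasDerivAt_id t).smul_const (x - o)).const_add o
    simpa using this
  have h2 : HasFDerivAt γ (fderiv ℝ γ (o + t • (x - o))) (o + t • (x - o)) :=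
    (hγ.differentiable one_ne_zero _).hasFDerivAt
  have h3 := h2.comp_hasDerivAt t h1
  have h4 := (hasDerivAt_pow (n + 1) t).smul h3
  refine h4.congr_deriv ?_
  exact add_comm _ _

end theta

section cartan

variable {E : Type*} [NormedAddCommGroup E] [NormedSpace ℝ E] {n : ℕ}

/-- Interior product as a bilinear map. -/
noncomputable def ip (E : Type*) [NormedAddCommGroup E] [NormedSpace ℝ E] (n : ℕ) :=
  (ContinuousAlternatingMap.curryLeftLI (𝕜 := ℝ) (E := E) (F := ℝ)
        (n := n)).toContinuousLinearMap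

/-- Exterior derivative of the integrand is a total derivative in the parameter. -/
theorem alternatize_dTht {γ : E → E [⋀^Fin (n + 1)]→L[ℝ] ℝ} (hcl : ∀ x, extDeriv γ x = 0) (t : ℝ)
    (o x : E) : ContinuousAlternatingMap.alternatizeUncurryFinCLM ℝ E ℝ
      (dTht (ip E n) n γ t o x) = dPath n γ t o x := by
  rw [ContinuousAlternatingMap.alternatizeUncurryFinCLM_apply]
  ext v
  rw [ContinuousAlternatingMap.alternatizeUncurryFin_apply]
  set z := o + t • (x - o) with hz
  set u := x - o with hu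
  have h1 : ∀ (w : E) (v' : Fin n → E), dTht (ip E n) n γ t o x w v' =
      t ^ n * (γ z (Matrix.vecCons w v') + t * fderiv ℝ γ z w (Matrix.vecCons u v')) := by
    intro w v'
    rfl
  have h0 : (Fin.removeNth 0 (Matrix.vecCons u v) : Fin (n + 1) → E) = v := by
    ext i
    simp [Fin.removeNth]
  have h1' : ∀ i : Fin (n + 1), Fin.removeNth i.succ (Matrix.vecCons u v : Fin (n + 2) → E) =
      Matrix.vecCons u (Fin.removeNth i v) := by
    intro i
    ext j
    refine Fin.cases ?_ (fun j => ?_) j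
    · simp [Fin.removeNth]
    · simp [Fin.removeNth]
  have h2 : ∑ i : Fin (n + 1 + 1), (-1) ^ (i : ℕ) •
      (fderiv ℝ γ z ((Matrix.vecCons u v : Fin (n + 1 + 1) → E) i))
        (i.removeNth (Matrix.vecCons u v : Fin (n + 1 + 1) → E)) =
      fderiv ℝ γ z u v - ∑ i : Fin (n + 1), (-1) ^ (i : ℕ) •
        fderiv ℝ γ z (v i) (Matrix.vecCons u (Fin.removeNth i v)) := by
    rw [Fin.sum_univ_succ]
    rw [h0]
    simp only [h1', Fin.val_zero, pow_zero, one_smul, Matrix.cons_val_zero, Matrix.cons_val_succ,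
      Fin.val_succ, pow_succ, mul_neg, mul_one, neg_smul, Finset.sum_neg_distrib]
    ring
  have h3 := hcl z
  have h4 : ∑ i : Fin (n + 1 + 1), (-1) ^ (i : ℕ) •
      (fderiv ℝ γ z ((Matrix.vecCons u v : Fin (n + 1 + 1) → E) i))
        (i.removeNth (Matrix.vecCons u v : Fin (n + 1 + 1) → E)) = 0 := by
    have := ContinuousAlternatingMap.alternatizeUncurryFin_apply (fderiv ℝ γ z)
      (Matrix.vecCons u v : Fin (n + 1 + 1) → E)
    rw [← this]
    change extDeriv γ z _ = 0
    rw [h3]
    rfl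
  rw [h2] at h4
  have h5 := congrArg (fun f => f v) (ContinuousAlternatingMap.alternatizeUncurryFin_curryLeft (γ z))
  simp only [ContinuousAlternatingMap.alternatizeUncurryFin_apply,
    ContinuousAlternatingMap.curryLeft_apply_apply] at h5
  have h6 : dPath n γ t o x v = ((n + 1 : ℕ) * t ^ n : ℝ) * γ z v +
      t ^ (n + 1) * fderiv ℝ γ z u v := rfl
  rw [h6]
  simp only [h1]
  have h7 : fderiv ℝ γ z u v = ∑ i : Fin (n + 1), (-1) ^ (i : ℕ) •
        fderiv ℝ γ z (v i) (Matrix.vecCons u (Fin.removeNth i v)) := by linarith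
  have h8 : ((n + 1) • γ z) v = ((n + 1 : ℕ) : ℝ) * γ z v := by
    rw [ContinuousAlternatingMap.smul_apply, nsmul_eq_mul]
  rw [h8] at h5
  rw [h7, mul_right_comm, ← h5, Finset.sum_mul, Finset.mul_sum, ← Finset.sum_add_distrib]
  apply Finset.sum_congr rfl
  intro i _
  simp only [zsmul_eq_mul, smul_eq_mul]
  push_cast
  ring

end cartan

end Pool.Agent.Lib.MP_3db736_an
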