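import Pool.Agent.Lib.MP_3db736_an.Homotopy

open MeasureTheory Metric Set Module Filter
open scoped ENNReal NNReal Topology ContDiff

namespace Pool.Agent.Lib.MP_3db736_an

section hop

variable {E : Type*} [NormedAddCommGroup E] [InnerProductSpace ℝ E] [MeasurableSpace E]
  [BorelSpace E] [FiniteDimensional ℝ E] [Nontrivial E]
variable {V : Type*} [NormedAddCommGroup V] [NormedSpace ℝ V]

/-- The bump for the centre of the homotopy. -/
noncomputable def bmq : ContDiffBump (0 : E) := ⟨1 / 8, 1 / 4, by norm_num, by norm_num⟩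

omit [Nontrivial E] in
theorem bmq_eq_zero (μ : Measure E) [μ.IsAddHaarMeasure] {y : E} (hy : 1 / 4 ≤ ‖y‖) :
    bmq.normed μ y = 0 := by
  have h3 := bmq.support_normed_eq (μ := μ) (E := E)
  have h4 : y ∉ Function.support (bmq.normed μ) := by
    rw [h3, mem_ball_zero_iff]
    exact not_lt.2 hy
  simpa using h4

omit [Nontrivial E] in
theorem bmq_bound (μ : Measure E) [μ.IsAddHaarMeasure] : ∃ M : ℝ, 0 < M ∧ ∀ y, bmq.normed μ y ≤ M := by
  obtain ⟨M, hM⟩ := (bmq (E := E)).continuous_normed.bounded_above_of_compact_support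
    (bmq.hasCompactSupport_normed (μ := μ))
  refine ⟨|M| + 1, by positivity, fun y => ?_⟩
  have := hM y
  have h2 := Real.norm_eq_abs (bmq.normed μ y)
  have h3 := le_abs_self (bmq.normed μ y)
  have h4 := le_abs_self M
  linarith

omit [Nontrivial E] in
/-- Volume of the set of centres that see the unit ball. -/
theorem centre_volume (μ : Measure E) [μ.IsAddHaarMeasure] (x : E) {t : ℝ} (ht : 1 < t) :
    μ {o : E | ‖o‖ ≤ 1 / 4 ∧ ‖o + t • (x - o)‖ ≤ 1} ≤
      ENNReal.ofReal ((2 / t) ^ finrank ℝ E) * μ (closedBall 0 1) := by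
  have ht0 : 0 < t := by linarith
  by_cases h2 : t ≤ 2
  · calc μ {o : E | ‖o‖ ≤ 1 / 4 ∧ ‖o + t • (x - o)‖ ≤ 1} ≤ μ (closedBall 0 (1 / 4)) := by
          apply measure_mono
          intro o ho
          simpa using ho.1
      _ = ENNReal.ofReal ((1 / 4) ^ finrank ℝ E) * μ (closedBall 0 1) := by
          rw [Measure.addHaar_closedBall' _ _ (by norm_num)]
      _ ≤ _ := by
          refine mul_le_mul' (ENNReal.ofReal_le_ofReal
            (pow_le_pow_left₀ (by norm_num) ?_ _)) le_rfl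
          rw [le_div_iff₀ ht0]
          linarith
  · push Not at h2
    have ht1 : 0 < t - 1 := by linarith
    calc μ {o : E | ‖o‖ ≤ 1 / 4 ∧ ‖o + t • (x - o)‖ ≤ 1}
        ≤ μ (closedBall ((t / (t - 1)) • x) (1 / (t - 1))) := by
          apply measure_mono
          intro o ho
          have h3 : ‖o + t • (x - o)‖ ≤ 1 := ho.2
          rw [mem_closedBall, dist_eq_norm]
          have h4 : o - (t / (t - 1)) • x = -((1 / (t - 1)) • (o + t • (x - o))) := by
            have h5 : o = (1 / (t - 1)) • ((t - 1) • o) := by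
              rw [smul_smul, one_div_mul_cancel ht1.ne', one_smul]
            have h6 : (t / (t - 1)) • x = (1 / (t - 1)) • (t • x) := by
              rw [smul_smul]; congr 1; ring
            rw [h6]
            nth_rewrite 1 [h5]
            rw [← smul_sub, ← smul_neg]
            congr 1
            module
          rw [h4, norm_neg, norm_smul, Real.norm_eq_abs, abs_of_pos (by positivity)]
          have : 0 < 1 / (t - 1) := by positivity
          nlinarith
      _ = ENNReal.ofReal ((1 / (t - 1)) ^ finrank ℝ E) * μ (closedBall 0 1) := by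
          rw [Measure.addHaar_closedBall' _ _ (by positivity)]
      _ ≤ _ := by
          refine mul_le_mul' (ENNReal.ofReal_le_ofReal
            (pow_le_pow_left₀ (by positivity) ?_ _)) le_rfl
          rw [div_le_div_iff₀ ht1 ht0]
          linarith

omit [Nontrivial E] in
/-- Bound for an average over centres. -/
theorem centre_integral_le (μ : Measure E) [μ.IsAddHaarMeasure] {M : ℝ} (hM0 : 0 < M)
    (hM : ∀ y, bmq.normed μ y ≤ M) (x : E) {t : ℝ} (ht : 1 < t) {g : E → V} {A : ℝ} (hA : 0 ≤ A)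
    (hg : ∀ o, ‖o‖ ≤ 1 / 4 → ‖o + t • (x - o)‖ ≤ 1 → ‖g o‖ ≤ A)
    (hg0 : ∀ o, ‖o‖ ≤ 1 / 4 → 1 < ‖o + t • (x - o)‖ → g o = 0) :
    ‖∫ o, bmq.normed μ o • g o ∂μ‖ ≤ M * A * ((2 / t) ^ finrank ℝ E * μ.real (closedBall 0 1)) := by
  set S : Set E := {o : E | ‖o‖ ≤ 1 / 4 ∧ ‖o + t • (x - o)‖ ≤ 1} with hS
  have hSc : IsClosed S := by
    rw [hS]
    exact (isClosed_le (f := fun o : E => ‖o‖) continuous_norm continuous_const).inter
      (isClosed_le (f := fun o : E => ‖o + t • (x - o)‖) (by fun_prop) continuous_const)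
  have hvol := centre_volume μ x ht
  have ht0 : 0 < t := by linarith
  have hfin : ENNReal.ofReal ((2 / t) ^ finrank ℝ E) * μ (closedBall 0 1) ≠ ⊤ :=
    ENNReal.mul_ne_top ENNReal.ofReal_ne_top measure_closedBall_lt_top.ne
  have hSfin : μ S ≠ ⊤ := (lt_of_le_of_lt hvol hfin.lt_top).ne
  calc ‖∫ o, bmq.normed μ o • g o ∂μ‖ ≤ ∫ o, S.indicator (fun _ => M * A) o ∂μ := by
        apply norm_integral_le_of_norm_le
        · exact (integrable_indicator_iff hSc.measurableSet).2 (integrableOn_const hSfin)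
        · refine Eventually.of_forall fun o => ?_
          rw [norm_smul, Real.norm_eq_abs, abs_of_nonneg (bmq.nonneg_normed o)]
          by_cases h1 : ‖o‖ ≤ 1 / 4
          · by_cases h2 : ‖o + t • (x - o)‖ ≤ 1
            · rw [indicator_of_mem (show o ∈ S from ⟨h1, h2⟩)]
              exact mul_le_mul (hM o) (hg o h1 h2) (norm_nonneg _) hM0.le
            · rw [hg0 o h1 (not_le.1 h2), norm_zero, mul_zero]
              apply indicator_nonneg
              intro _ _
              positivity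
          · rw [bmq_eq_zero μ (not_le.1 h1).le, zero_mul]
            apply indicator_nonneg
            intro _ _
            positivity
    _ = μ.real S * (M * A) := by
        rw [integral_indicator_const _ hSc.measurableSet, smul_eq_mul]
    _ ≤ ((2 / t) ^ finrank ℝ E * μ.real (closedBall 0 1)) * (M * A) := by
        have h1 : μ.real S ≤ (2 / t) ^ finrank ℝ E * μ.real (closedBall 0 1) := by
          have h2 := ENNReal.toReal_mono hfin hvol
          rw [ENNReal.toReal_mul, ENNReal.toReal_ofReal (by positivity)] at h2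
          exact h2
        gcongr
    _ = _ := by ring

theorem integrableOn_inv_pow {n : ℕ} (hn : 2 ≤ n) (C : ℝ) :
    IntegrableOn (fun t : ℝ => C * (t ^ n)⁻¹) (Ioi 1) := by
  have h1 : IntegrableOn (fun t : ℝ => t ^ (-(n : ℝ))) (Ioi 1) :=
    integrableOn_Ioi_rpow_of_lt (by
      have : (2 : ℝ) ≤ n := by exact_mod_cast hn
      linarith) one_pos
  have h2 : IntegrableOn (fun t : ℝ => (t ^ n)⁻¹) (Ioi 1) := by
    refine h1.congr_fun ?_ measurableSet_Ioi
    intro t ht
    have ht' : (0 : ℝ) < t := lt_trans one_pos ht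
    simp only
    rw [Real.rpow_neg ht'.le, Real.rpow_natCast]
  exact h2.const_mul C

end hop

section hop

variable {E : Type*} [NormedAddCommGroup E] [InnerProductSpace ℝ E] [MeasurableSpace E]
  [BorelSpace E] [FiniteDimensional ℝ E] [Nontrivial E]
variable {W W' : Type*} [NormedAddCommGroup W] [NormedSpace ℝ W] [NormedAddCommGroup W']
  [NormedSpace ℝ W']

/-- Average of the integrand over the centres. -/
noncomputable def hopB (μ : Measure E) (b : W →L[ℝ] E →L[ℝ] W') (n : ℕ) (γ : E → W) (t : ℝ)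
    (x : E) : W' := ∫ o, bmq.normed μ o • Tht b n γ t o x ∂μ

/-- The averaged homotopy operator. -/
noncomputable def hop (μ : Measure E) (b : W →L[ℝ] E →L[ℝ] W') (n : ℕ) (γ : E → W)
    (x : E) : W' := -∫ t in Ioi (1 : ℝ), hopB μ b n γ t x

omit [MeasurableSpace E] [BorelSpace E] [FiniteDimensional ℝ E] [Nontrivial E] in
theorem fderiv_eq_zero_of_supp {γ : E → W} (hs : ∀ z, 1 ≤ ‖z‖ → γ z = 0) {z : E} (hz : 1 < ‖z‖) :
    fderiv ℝ γ z = 0 := by
  have h1 : γ =ᶠ[𝓝 z] fun _ => 0 := by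
    have h2 : IsOpen {z : E | 1 < ‖z‖} := isOpen_lt continuous_const continuous_norm
    filter_upwards [h2.mem_nhds hz] with y hy
    exact hs y (le_of_lt hy)
  rw [h1.fderiv_eq]
  simp

omit [MeasurableSpace E] [BorelSpace E] [Nontrivial E] in
theorem exists_bound_supp {γ : E → W} (hγ : ContDiff ℝ 1 γ) (hs : ∀ z, 1 ≤ ‖z‖ → γ z = 0) :
    ∃ Γ : ℝ, 0 < Γ ∧ (∀ z, ‖γ z‖ ≤ Γ) ∧ ∀ z, ‖fderiv ℝ γ z‖ ≤ Γ := by
  have hc : HasCompactSupport γ := by
    apply HasCompactSupport.intro (isCompact_closedBall (0 : E) 1)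
    intro x hx
    apply hs
    have : 1 < ‖x‖ := by simpa using hx
    exact this.le
  obtain ⟨C1, h1⟩ := hc.exists_bound_of_continuous hγ.continuous
  obtain ⟨C2, h2⟩ := (hc.fderiv ℝ).exists_bound_of_continuous (hγ.continuous_fderiv one_ne_zero)
  refine ⟨max (max C1 C2) 1, lt_of_lt_of_le one_pos (le_max_right _ _), fun z => ?_, fun z => ?_⟩
  · exact (h1 z).trans ((le_max_left _ _).trans (le_max_left _ _))
  · exact (h2 z).trans ((le_max_right _ _).trans (le_max_left _ _))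

variable {b : W →L[ℝ] E →L[ℝ] W'} {γ : E → W} {n : ℕ}

omit [MeasurableSpace E] [BorelSpace E] [FiniteDimensional ℝ E] [Nontrivial E] in
theorem centre_norm_le {t : ℝ} (ht : 1 < t) {o x : E} (ho : ‖o‖ ≤ 1 / 4)
    (hz : ‖o + t • (x - o)‖ ≤ 1) : t * ‖x - o‖ ≤ 5 / 4 := by
  have h1 : ‖t • (x - o)‖ ≤ ‖o + t • (x - o)‖ + ‖o‖ := by
    have := norm_sub_le (o + t • (x - o)) o
    rwa [add_sub_cancel_left] at this
  rw [norm_smul, Real.norm_eq_abs, abs_of_pos (by linarith)] at h1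
  linarith

omit [MeasurableSpace E] [BorelSpace E] [FiniteDimensional ℝ E] [Nontrivial E] in
theorem norm_Tht_le (hb : ∀ w u, ‖b w u‖ ≤ ‖w‖ * ‖u‖) {Γ : ℝ} (h1 : ∀ z, ‖γ z‖ ≤ Γ)
    {t : ℝ} (ht : 1 < t) {o x : E} (ho : ‖o‖ ≤ 1 / 4)
    (hz : ‖o + t • (x - o)‖ ≤ 1) : ‖Tht b n γ t o x‖ ≤ 3 * Γ * t ^ n := by
  have h3 := centre_norm_le ht ho hz
  have ht0 : 0 < t := by linarith
  have hx : ‖x - o‖ ≤ 5 / 4 := by nlinarith [norm_nonneg (x - o)]
  rw [Tht, norm_smul, norm_pow, Real.norm_eq_abs, abs_of_pos ht0]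
  have h4 := hb (γ (o + t • (x - o))) (x - o)
  have h5 := h1 (o + t • (x - o))
  have h6 : ‖γ (o + t • (x - o))‖ * ‖x - o‖ ≤ Γ * (5 / 4) := by
    apply mul_le_mul h5 hx (norm_nonneg _) ((norm_nonneg _).trans h5)
  have hΓ : 0 ≤ Γ := (norm_nonneg _).trans h5
  have h7 : 0 < t ^ n := by positivity
  nlinarith

omit [MeasurableSpace E] [BorelSpace E] [FiniteDimensional ℝ E] [Nontrivial E] in
theorem norm_dTht_le (hb : ∀ w u, ‖b w u‖ ≤ ‖w‖ * ‖u‖) {Γ : ℝ} (h1 : ∀ z, ‖γ z‖ ≤ Γ)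
    (h2 : ∀ z, ‖fderiv ℝ γ z‖ ≤ Γ)
    {t : ℝ} (ht : 1 < t) {o x : E} (ho : ‖o‖ ≤ 1 / 4)
    (hz : ‖o + t • (x - o)‖ ≤ 1) : ‖dTht b n γ t o x‖ ≤ 3 * Γ * t ^ n := by
  have h3 := centre_norm_le ht ho hz
  have ht0 : 0 < t := by linarith
  rw [dTht, norm_smul, norm_pow, Real.norm_eq_abs, abs_of_pos ht0]
  have h5 := h1 (o + t • (x - o))
  have hΓ : 0 ≤ Γ := (norm_nonneg _).trans h5
  have h6 : ‖b (γ (o + t • (x - o)))‖ ≤ Γ := by
    apply ContinuousLinearMap.opNorm_le_bound _ hΓ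
    intro u
    exact (hb _ u).trans (by gcongr)
  have h7 : ‖b.flip (x - o) ∘L fderiv ℝ γ (o + t • (x - o))‖ ≤ ‖x - o‖ * Γ := by
    refine (ContinuousLinearMap.opNorm_comp_le _ _).trans ?_
    gcongr
    · apply ContinuousLinearMap.opNorm_le_bound _ (norm_nonneg _)
      intro w
      rw [ContinuousLinearMap.flip_apply, mul_comm]
      exact hb _ _
    · exact h2 _
  have h8 : ‖b (γ (o + t • (x - o))) + t • (b.flip (x - o) ∘L fderiv ℝ γ (o + t • (x - o)))‖ ≤
      3 * Γ := by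
    refine (norm_add_le _ _).trans ?_
    rw [norm_smul, Real.norm_eq_abs, abs_of_pos ht0]
    have : t * ‖b.flip (x - o) ∘L fderiv ℝ γ (o + t • (x - o))‖ ≤ 5 / 4 * Γ := by
      calc _ ≤ t * (‖x - o‖ * Γ) := by gcongr
        _ = (t * ‖x - o‖) * Γ := by ring
        _ ≤ _ := by gcongr
    linarith
  have h9 : 0 < t ^ n := by positivity
  nlinarith

omit [MeasurableSpace E] [BorelSpace E] [FiniteDimensional ℝ E] [Nontrivial E] in
theorem norm_dPath_le {Γ : ℝ} (h1 : ∀ z, ‖γ z‖ ≤ Γ)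
    (h2 : ∀ z, ‖fderiv ℝ γ z‖ ≤ Γ)
    {t : ℝ} (ht : 1 < t) {o x : E} (ho : ‖o‖ ≤ 1 / 4)
    (hz : ‖o + t • (x - o)‖ ≤ 1) : ‖dPath n γ t o x‖ ≤ (n + 3) * Γ * t ^ n := by
  have h3 := centre_norm_le ht ho hz
  have ht0 : 0 < t := by linarith
  have h5 := h1 (o + t • (x - o))
  have hΓ : 0 ≤ Γ := (norm_nonneg _).trans h5
  rw [dPath]
  refine (norm_add_le _ _).trans ?_
  rw [norm_smul, norm_smul, Real.norm_eq_abs, Real.norm_eq_abs, abs_of_nonneg (by positivity),
    abs_of_nonneg (by positivity)]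
  have h6 : ‖fderiv ℝ γ (o + t • (x - o)) (x - o)‖ ≤ Γ * ‖x - o‖ :=
    (ContinuousLinearMap.le_opNorm _ _).trans (by gcongr; exact h2 _)
  have h7 : t ^ (n + 1) * ‖fderiv ℝ γ (o + t • (x - o)) (x - o)‖ ≤ t ^ n * (5 / 4 * Γ) := by
    calc _ ≤ t ^ (n + 1) * (Γ * ‖x - o‖) := by gcongr
      _ = t ^ n * ((t * ‖x - o‖) * Γ) := by ring
      _ ≤ _ := by gcongr
  have h8 : ((n + 1 : ℕ) : ℝ) * t ^ n * ‖γ (o + t • (x - o))‖ ≤ (n + 1) * t ^ n * Γ := by
    push_cast
    gcongr
  have h9 : 0 < t ^ n := by positivity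
  have h10 : 0 ≤ Γ * t ^ n := by positivity
  nlinarith

omit [MeasurableSpace E] [BorelSpace E] [FiniteDimensional ℝ E] [Nontrivial E] in
theorem Tht_eq_zero (hs : ∀ z, 1 ≤ ‖z‖ → γ z = 0) {t : ℝ} {o x : E}
    (hz : 1 < ‖o + t • (x - o)‖) : Tht b n γ t o x = 0 := by
  rw [Tht, hs _ hz.le]; simp

omit [MeasurableSpace E] [BorelSpace E] [FiniteDimensional ℝ E] [Nontrivial E] in
theorem dTht_eq_zero (hs : ∀ z, 1 ≤ ‖z‖ → γ z = 0) {t : ℝ} {o x : E}
    (hz : 1 < ‖o + t • (x - o)‖) : dTht b n γ t o x = 0 := by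
  rw [dTht, hs _ hz.le, fderiv_eq_zero_of_supp hs hz]; simp

omit [MeasurableSpace E] [BorelSpace E] [FiniteDimensional ℝ E] [Nontrivial E] in
theorem dPath_eq_zero (hs : ∀ z, 1 ≤ ‖z‖ → γ z = 0) {t : ℝ} {o x : E}
    (hz : 1 < ‖o + t • (x - o)‖) : dPath n γ t o x = 0 := by
  rw [dPath, hs _ hz.le, fderiv_eq_zero_of_supp hs hz]; simp

omit [MeasurableSpace E] [BorelSpace E] [FiniteDimensional ℝ E] [Nontrivial E] in
theorem continuous_Tht (hγ : ContDiff ℝ 1 γ) :
    Continuous (fun p : ℝ × E × E => Tht b n γ p.1 p.2.1 p.2.2) := by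
  have h1 := hγ.continuous
  unfold Tht
  fun_prop

omit [MeasurableSpace E] [BorelSpace E] [FiniteDimensional ℝ E] [Nontrivial E] in
theorem continuous_dTht (hγ : ContDiff ℝ 1 γ) :
    Continuous (fun p : ℝ × E × E => dTht b n γ p.1 p.2.1 p.2.2) := by
  have h1 := hγ.continuous
  have h2 := hγ.continuous_fderiv one_ne_zero
  unfold dTht
  fun_prop

omit [MeasurableSpace E] [BorelSpace E] [FiniteDimensional ℝ E] [Nontrivial E] in
theorem continuous_dPath (hγ : ContDiff ℝ 1 γ) :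
    Continuous (fun p : ℝ × E × E => dPath n γ p.1 p.2.1 p.2.2) := by
  have h1 := hγ.continuous
  have h2 := hγ.continuous_fderiv one_ne_zero
  unfold dPath
  fun_prop

omit [Nontrivial E] in
/-- Integrability over the centres. -/
theorem integrable_centre {V : Type*} [NormedAddCommGroup V] [NormedSpace ℝ V]
    (μ : Measure E) [μ.IsAddHaarMeasure] {g : E → V} (hg : Continuous g) :
    Integrable (fun o => bmq.normed μ o • g o) μ := by
  apply Continuous.integrable_of_hasCompactSupport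
  · exact bmq.continuous_normed.smul hg
  · exact (bmq.hasCompactSupport_normed (μ := μ)).smul_right

omit [Nontrivial E] in
theorem hasFDerivAt_hopB (μ : Measure E) [μ.IsAddHaarMeasure] (hγ : ContDiff ℝ 1 γ)
    (hs : ∀ z, 1 ≤ ‖z‖ → γ z = 0) (hb : ∀ w u, ‖b w u‖ ≤ ‖w‖ * ‖u‖) {t : ℝ} (ht : 1 < t) :
    (∀ x, HasFDerivAt (hopB μ b n γ t) (∫ o, bmq.normed μ o • dTht b n γ t o x ∂μ) x) ∧
      ContDiff ℝ 1 (hopB μ b n γ t) := by
  obtain ⟨Γ, hΓ, h1, h2⟩ := exists_bound_supp hγ hs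
  have ht0 : 0 < t := by linarith
  have hmain := param_integral (ν := μ) (F := fun o x => bmq.normed μ o • Tht b n γ t o x)
    (F' := fun o x => bmq.normed μ o • dTht b n γ t o x)
    (b := fun o => bmq.normed μ o * (3 * Γ * t ^ n)) ?_ ?_ ?_ ?_ ?_ ?_
  · exact hmain
  · intro x
    apply integrable_centre
    exact (continuous_Tht hγ).comp (by fun_prop : Continuous fun o : E => (t, o, x))
  · intro x
    refine (integrable_centre μ ?_).aestronglyMeasurable
    exact (continuous_dTht hγ).comp (by fun_prop : Continuous fun o : E => (t, o, x))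
  · refine Eventually.of_forall fun o x => ?_
    rw [norm_smul, Real.norm_eq_abs, abs_of_nonneg (bmq.nonneg_normed o)]
    by_cases ho : ‖o‖ ≤ 1 / 4
    · by_cases hz : ‖o + t • (x - o)‖ ≤ 1
      · exact mul_le_mul_of_nonneg_left (norm_dTht_le hb h1 h2 ht ho hz) (bmq.nonneg_normed o)
      · rw [dTht_eq_zero hs (not_le.1 hz), norm_zero, mul_zero]
        have := bmq.nonneg_normed (μ := μ) o
        positivity
    · rw [bmq_eq_zero μ (not_le.1 ho).le, zero_mul, zero_mul]
  · exact bmq.integrable_normed.mul_const _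
  · refine Eventually.of_forall fun o x => ?_
    exact (hasFDerivAt_Tht b hγ t o x).const_smul _
  · refine Eventually.of_forall fun o => ?_
    exact ((continuous_dTht (b := b) (n := n) hγ).comp
      (by fun_prop : Continuous fun x : E => (t, o, x))).const_smul (bmq.normed μ o)

omit [Nontrivial E] in
/-- Measurability in the parameter of an average over centres. -/
theorem stronglyMeasurable_centre {V : Type*} [NormedAddCommGroup V] [NormedSpace ℝ V]
    (μ : Measure E) [μ.IsAddHaarMeasure] {g : ℝ → E → E → V}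
    (hg : Continuous (fun p : ℝ × E × E => g p.1 p.2.1 p.2.2)) (x : E) :
    StronglyMeasurable (fun t => ∫ o, bmq.normed μ o • g t o x ∂μ) := by
  apply StronglyMeasurable.integral_prod_right (f := fun (t : ℝ) (o : E) => bmq.normed μ o • g t o x)
  apply Continuous.stronglyMeasurable
  have h1 : Continuous (fun q : ℝ × E => g q.1 q.2 x) :=
    hg.comp (by fun_prop : Continuous fun q : ℝ × E => (q.1, q.2, x))
  have h2 : Continuous (fun q : ℝ × E => bmq.normed μ q.2) :=
    bmq.continuous_normed.comp continuous_snd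
  exact h2.smul h1

omit [Nontrivial E] in
/-- Decay in the parameter of an average over centres. -/
theorem centre_decay {V : Type*} [NormedAddCommGroup V] [NormedSpace ℝ V]
    (μ : Measure E) [μ.IsAddHaarMeasure] (hdim : finrank ℝ E = 2 * n) {K : ℝ} (hK : 0 ≤ K) :
    ∃ C : ℝ, 0 ≤ C ∧ ∀ (g : ℝ → E → E → V),
      (∀ t o x, 1 < t → ‖o‖ ≤ 1 / 4 → ‖o + t • (x - o)‖ ≤ 1 → ‖g t o x‖ ≤ K * t ^ n) →
      (∀ t o x, 1 < t → ‖o‖ ≤ 1 / 4 → 1 < ‖o + t • (x - o)‖ → g t o x = 0) →
      ∀ t x, 1 < t → ‖∫ o, bmq.normed μ o • g t o x ∂μ‖ ≤ C * (t ^ n)⁻¹ := by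
  obtain ⟨M, hM0, hM⟩ := bmq_bound μ
  refine ⟨M * K * 2 ^ (2 * n) * μ.real (closedBall 0 1), by positivity, ?_⟩
  intro g hg1 hg2 t x ht
  have ht0 : 0 < t := by linarith
  refine (centre_integral_le μ hM0 hM x ht (g := fun o => g t o x) (A := K * t ^ n)
    (by positivity) (fun o ho hz => hg1 t o x ht ho hz)
    (fun o ho hz => hg2 t o x ht ho hz)).trans (le_of_eq ?_)
  rw [hdim, div_pow, show t ^ (2 * n) = t ^ n * t ^ n by rw [← pow_add]; congr 1; ring]
  have : t ^ n ≠ 0 := by positivity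
  field_simp

omit [Nontrivial E] in
/-- The homotopy operator is continuously differentiable, with the expected derivative. -/
theorem hasFDerivAt_hop (μ : Measure E) [μ.IsAddHaarMeasure] (hγ : ContDiff ℝ 1 γ)
    (hs : ∀ z, 1 ≤ ‖z‖ → γ z = 0) (hb : ∀ w u, ‖b w u‖ ≤ ‖w‖ * ‖u‖) (hn : 2 ≤ n)
    (hdim : finrank ℝ E = 2 * n) :
    (∀ x, HasFDerivAt (hop μ b n γ)
      (-∫ t in Ioi (1 : ℝ), ∫ o, bmq.normed μ o • dTht b n γ t o x ∂μ) x) ∧
      ContDiff ℝ 1 (hop μ b n γ) := by
  obtain ⟨Γ, hΓ, h1, h2⟩ := exists_bound_supp hγ hs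
  obtain ⟨C, hC, hCT⟩ := centre_decay (V := W') μ hdim (K := 3 * Γ) (by positivity)
  obtain ⟨C', hC', hCT'⟩ := centre_decay (V := E →L[ℝ] W') μ hdim (K := 3 * Γ) (by positivity)
  have hae : ∀ᵐ t ∂(volume.restrict (Ioi (1 : ℝ))), t ∈ Ioi (1 : ℝ) :=
    ae_restrict_mem measurableSet_Ioi
  have hmain := param_integral (ν := volume.restrict (Ioi (1 : ℝ)))
    (F := fun t x => hopB μ b n γ t x)
    (F' := fun t x => ∫ o, bmq.normed μ o • dTht b n γ t o x ∂μ)
    (b := fun t => C' * (t ^ n)⁻¹) ?_ ?_ ?_ ?_ ?_ ?_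
  · refine ⟨fun x => (hmain.1 x).neg, hmain.2.neg⟩
  · intro x
    refine (integrableOn_inv_pow hn C).mono' ?_ ?_
    · exact (stronglyMeasurable_centre μ (continuous_Tht hγ) x).aestronglyMeasurable
    · filter_upwards [hae] with t ht
      exact hCT _ (fun t o x ht ho hz => norm_Tht_le hb h1 ht ho hz)
        (fun t o x _ _ hz => Tht_eq_zero hs hz) t x ht
  · intro x
    exact (stronglyMeasurable_centre μ (continuous_dTht hγ) x).aestronglyMeasurable
  · filter_upwards [hae] with t ht x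
    exact hCT' _ (fun t o x ht ho hz => norm_dTht_le hb h1 h2 ht ho hz)
        (fun t o x _ _ hz => dTht_eq_zero hs hz) t x ht
  · exact integrableOn_inv_pow hn C'
  · filter_upwards [hae] with t ht x
    exact (hasFDerivAt_hopB μ hγ hs hb ht).1 x
  · filter_upwards [hae] with t ht
    have h3 := hasFDerivAt_hopB (n := n) μ hγ hs hb ht
    have h4 := h3.2.continuous_fderiv one_ne_zero
    have h5 : fderiv ℝ (hopB μ b n γ t) = fun x => ∫ o, bmq.normed μ o • dTht b n γ t o x ∂μ := by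
      ext1 x
      exact (h3.1 x).fderiv
    rwa [h5] at h4

omit [Nontrivial E] in
theorem hasDerivAt_J (μ : Measure E) [μ.IsAddHaarMeasure] (hγ : ContDiff ℝ 1 γ)
    (hs : ∀ z, 1 ≤ ‖z‖ → γ z = 0) (x : E) (t : ℝ) :
    HasDerivAt (fun t : ℝ => ∫ o, bmq.normed μ o • (t ^ (n + 1) • γ (o + t • (x - o))) ∂μ)
      (∫ o, bmq.normed μ o • dPath n γ t o x ∂μ) t := by
  obtain ⟨Γ, hΓ, h1, h2⟩ := exists_bound_supp hγ hs
  set K : ℝ := (n + 1) * (|t| + 1) ^ n * Γ + (|t| + 1) ^ (n + 1) * (Γ * (‖x‖ + 1)) with hK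
  have hc : ∀ t : ℝ, Continuous fun o : E => t ^ (n + 1) • γ (o + t • (x - o)) := by
    intro t
    have := hγ.continuous
    fun_prop
  have hmain := hasDerivAt_integral_of_dominated_loc_of_deriv_le (μ := μ) (𝕜 := ℝ)
    (F := fun (t : ℝ) o => bmq.normed μ o • (t ^ (n + 1) • γ (o + t • (x - o))))
    (F' := fun (t : ℝ) o => bmq.normed μ o • dPath n γ t o x) (x₀ := t)
    (bound := fun o => bmq.normed μ o * K)
    (s := ball t 1) (ball_mem_nhds t one_pos) ?_ ?_ ?_ ?_ ?_ ?_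
  · exact hmain.2
  · exact Eventually.of_forall fun t' => (integrable_centre μ (hc t')).aestronglyMeasurable
  · exact integrable_centre μ (hc t)
  · refine (integrable_centre μ ?_).aestronglyMeasurable
    exact (continuous_dPath hγ).comp (by fun_prop : Continuous fun o : E => (t, o, x))
  · refine Eventually.of_forall fun o t' ht' => ?_
    rw [norm_smul, Real.norm_eq_abs, abs_of_nonneg (bmq.nonneg_normed o)]
    by_cases ho : ‖o‖ ≤ 1 / 4
    · apply mul_le_mul_of_nonneg_left _ (bmq.nonneg_normed o)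
      have h3 : |t'| ≤ |t| + 1 := by
        rw [mem_ball, Real.dist_eq] at ht'
        have := abs_sub_abs_le_abs_sub t' t
        linarith
      rw [dPath]
      refine (norm_add_le _ _).trans ?_
      rw [norm_smul, norm_smul]
      have h4 : ‖fderiv ℝ γ (o + t' • (x - o)) (x - o)‖ ≤ Γ * (‖x‖ + 1) := by
        refine (ContinuousLinearMap.le_opNorm _ _).trans ?_
        apply mul_le_mul (h2 _) _ (norm_nonneg _) hΓ.le
        refine (norm_sub_le _ _).trans ?_
        linarith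
      rw [hK]
      have h5 : ‖((n + 1 : ℕ) * t' ^ n : ℝ)‖ ≤ (n + 1) * (|t| + 1) ^ n := by
        rw [norm_mul, norm_pow, Real.norm_eq_abs, Real.norm_eq_abs, Nat.abs_cast]
        push_cast
        gcongr
      have h6 : ‖t' ^ (n + 1)‖ ≤ (|t| + 1) ^ (n + 1) := by
        rw [norm_pow, Real.norm_eq_abs]
        gcongr
      apply add_le_add
      · exact mul_le_mul h5 (h1 _) (norm_nonneg _) (by positivity)
      · exact mul_le_mul h6 h4 (norm_nonneg _) (by positivity)
    · rw [bmq_eq_zero μ (not_le.1 ho).le, zero_mul, zero_mul]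
  · exact bmq.integrable_normed.mul_const _
  · refine Eventually.of_forall fun o t' _ => ?_
    exact (hasDerivAt_path hγ t' o x).const_smul (bmq.normed μ o)

/-- The homotopy formula. -/
theorem hop_primitive [CompleteSpace W] [CompleteSpace W'] (μ : Measure E) [μ.IsAddHaarMeasure]
    (hγ : ContDiff ℝ 1 γ)
    (hs : ∀ z, 1 ≤ ‖z‖ → γ z = 0) (hb : ∀ w u, ‖b w u‖ ≤ ‖w‖ * ‖u‖) (hn : 2 ≤ n)
    (hdim : finrank ℝ E = 2 * n) (a : (E →L[ℝ] W') →L[ℝ] W)
    (ha : ∀ t o x, a (dTht b n γ t o x) = dPath n γ t o x) (x : E) :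
    a (fderiv ℝ (hop μ b n γ) x) = γ x := by
  obtain ⟨Γ, hΓ, h1, h2⟩ := exists_bound_supp hγ hs
  obtain ⟨C', hC', hCT'⟩ := centre_decay (V := E →L[ℝ] W') μ hdim (K := 3 * Γ) (by positivity)
  obtain ⟨C, hC, hCT⟩ := centre_decay (V := W) μ hdim (K := (n + 3) * Γ) (by positivity)
  have hae : ∀ᵐ t ∂(volume.restrict (Ioi (1 : ℝ))), t ∈ Ioi (1 : ℝ) :=
    ae_restrict_mem measurableSet_Ioi
  have hint : Integrable (fun t => ∫ o, bmq.normed μ o • dTht b n γ t o x ∂μ)
      (volume.restrict (Ioi (1 : ℝ))) := by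
    refine (integrableOn_inv_pow hn C').mono' ?_ ?_
    · exact (stronglyMeasurable_centre μ (continuous_dTht hγ) x).aestronglyMeasurable
    · filter_upwards [hae] with t ht
      exact hCT' _ (fun t o x ht ho hz => norm_dTht_le hb h1 h2 ht ho hz)
        (fun t o x _ _ hz => dTht_eq_zero hs hz) t x ht
  have hint2 : IntegrableOn (fun t => ∫ o, bmq.normed μ o • dPath n γ t o x ∂μ) (Ioi (1 : ℝ)) := by
    refine (integrableOn_inv_pow hn C).mono' ?_ ?_
    · exact (stronglyMeasurable_centre μ (continuous_dPath hγ) x).aestronglyMeasurable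
    · filter_upwards [hae] with t ht
      exact hCT _ (fun t o x ht ho hz => norm_dPath_le h1 h2 ht ho hz)
        (fun t o x _ _ hz => dPath_eq_zero hs hz) t x ht
  rw [((hasFDerivAt_hop μ hγ hs hb hn hdim).1 x).fderiv, map_neg,
    ← ContinuousLinearMap.integral_comp_comm a hint]
  have h3 : ∀ t : ℝ, a (∫ o, bmq.normed μ o • dTht b n γ t o x ∂μ) =
      ∫ o, bmq.normed μ o • dPath n γ t o x ∂μ := by
    intro t
    rw [← ContinuousLinearMap.integral_comp_comm a]
    · congr 1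
      ext1 o
      rw [map_smul, ha]
    · apply integrable_centre
      exact (continuous_dTht hγ).comp (by fun_prop : Continuous fun o : E => (t, o, x))
  simp_rw [h3]
  have hlim : Tendsto (fun t : ℝ => ∫ o, bmq.normed μ o • (t ^ (n + 1) • γ (o + t • (x - o))) ∂μ)
      atTop (𝓝 0) := by
    obtain ⟨M, hM0, hM⟩ := bmq_bound μ
    have hbd : ∀ᶠ t : ℝ in atTop,
        ‖∫ o, bmq.normed μ o • (t ^ (n + 1) • γ (o + t • (x - o))) ∂μ‖ ≤
          (M * Γ * 2 ^ (2 * n) * μ.real (closedBall 0 1)) * t⁻¹ := by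
      filter_upwards [eventually_gt_atTop 1] with t ht
      have ht0 : 0 < t := by linarith
      refine (centre_integral_le μ hM0 hM x ht
        (g := fun o => t ^ (n + 1) • γ (o + t • (x - o))) (A := Γ * t ^ (n + 1))
        (by positivity) (fun o ho hz => ?_) (fun o ho hz => ?_)).trans ?_
      · rw [norm_smul, norm_pow, Real.norm_eq_abs, abs_of_pos ht0, mul_comm]
        gcongr
        exact h1 _
      · rw [hs _ hz.le, smul_zero]
      · obtain ⟨k, rfl⟩ : ∃ k, n = k + 2 := ⟨n - 2, by omega⟩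
        rw [hdim, div_pow]
        have h5 : t ^ (2 * (k + 2)) = t ^ (k + 2 + 1) * t * t ^ k := by
          rw [← pow_succ, ← pow_add]; congr 1; ring
        have h6 : 1 ≤ t ^ k := one_le_pow₀ ht.le
        have h7 : M * (Γ * t ^ (k + 2 + 1)) * (2 ^ (2 * (k + 2)) / t ^ (2 * (k + 2)) *
            μ.real (closedBall 0 1)) =
            (M * Γ * 2 ^ (2 * (k + 2)) * μ.real (closedBall 0 1)) * t⁻¹ * (t ^ k)⁻¹ := by
          rw [h5]
          field_simp
        rw [h7]
        have h8 : (t ^ k)⁻¹ ≤ 1 := inv_le_one_of_one_le₀ h6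
        have h9 : 0 ≤ (M * Γ * 2 ^ (2 * (k + 2)) * μ.real (closedBall (0 : E) 1)) * t⁻¹ := by
          positivity
        exact mul_le_of_le_one_right h9 h8
    apply squeeze_zero_norm' hbd
    have := tendsto_inv_atTop_zero (𝕜 := ℝ)
    simpa using this.const_mul (M * Γ * 2 ^ (2 * n) * μ.real (closedBall (0 : E) 1))
  rw [integral_Ioi_of_hasDerivAt_of_tendsto' (fun t _ => hasDerivAt_J μ hγ hs x t) hint2 hlim,
    zero_sub, neg_neg]
  simp only [one_pow, one_smul, add_sub_cancel]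
  rw [integral_smul_const, bmq.integral_normed, one_smul]

omit [Nontrivial E] in
/-- The homotopy operator preserves the support in a ball. -/
theorem hop_eq_zero (μ : Measure E) [μ.IsAddHaarMeasure] {ρ : ℝ} (hρ : 1 / 4 ≤ ρ)
    (hs : ∀ z, ρ ≤ ‖z‖ → γ z = 0) {x : E} (hx : ρ ≤ ‖x‖) : hop μ b n γ x = 0 := by
  rw [hop, neg_eq_zero]
  apply setIntegral_eq_zero_of_forall_eq_zero
  intro t ht
  rw [hopB]
  apply integral_eq_zero_of_ae
  refine Eventually.of_forall fun o => ?_
  simp only [Pi.zero_apply]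
  by_cases ho : ‖o‖ ≤ 1 / 4
  · have ht1 : 1 < t := ht
    rw [Tht, hs]
    · simp
    · have h1 : ‖t • x‖ - ‖(t - 1) • o‖ ≤ ‖o + t • (x - o)‖ := by
        have := norm_sub_norm_le (t • x) ((t - 1) • o)
        refine this.trans (le_of_eq ?_)
        congr 1
        module
      rw [norm_smul, norm_smul, Real.norm_eq_abs, Real.norm_eq_abs, abs_of_pos (by linarith),
        abs_of_pos (by linarith)] at h1
      nlinarith
  · rw [bmq_eq_zero μ (not_le.1 ho).le, zero_smul]

/-- The one dimensional integral in the kernel of the homotopy operator. -/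
theorem kernel_one_dim (n : ℕ) (hn : 1 ≤ n) :
    ∃ C : ℝ, 0 < C ∧ ∀ δ : ℝ, 0 < δ → δ ≤ 2 →
      ∫⁻ t in {t : ℝ | 4 / 5 * δ ≤ t - 1}, ENNReal.ofReal (t ^ n * ((t - 1) ^ (2 * n + 1))⁻¹) ≤
        ENNReal.ofReal (C * (δ ^ (2 * n))⁻¹) := by
  refine ⟨2 ^ n * (8 * (5 / 4) ^ (2 * n)) + 2 ^ n * (8 * (5 / 4) ^ n * 2 ^ n), by positivity, ?_⟩
  intro δ hδ hδ2
  have hm : MeasurableSet {t : ℝ | 4 / 5 * δ ≤ t - 1} :=
    (isClosed_le continuous_const (by fun_prop)).measurableSet
  have hR : 0 < 4 / 5 * δ := by positivity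
  calc ∫⁻ t in {t : ℝ | 4 / 5 * δ ≤ t - 1}, ENNReal.ofReal (t ^ n * ((t - 1) ^ (2 * n + 1))⁻¹)
      ≤ ∫⁻ t in {t : ℝ | 4 / 5 * δ ≤ t - 1},
          (ENNReal.ofReal (2 ^ n) * ENNReal.ofReal ((dist t 1 ^ (2 * n + 1))⁻¹) +
          ENNReal.ofReal (2 ^ n) * ENNReal.ofReal ((dist t 1 ^ (n + 1))⁻¹)) := by
        apply setLIntegral_mono' hm
        intro t ht
        have ht1 : 4 / 5 * δ ≤ t - 1 := ht
        have hs : 0 < t - 1 := by linarith
        rw [← ENNReal.ofReal_mul (by positivity), ← ENNReal.ofReal_mul (by positivity),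
          ← ENNReal.ofReal_add (by positivity) (by positivity)]
        apply ENNReal.ofReal_le_ofReal
        rw [Real.dist_eq, abs_of_pos hs]
        have h1 : t ^ n ≤ 2 ^ n * (1 + (t - 1) ^ n) := by
          rcases le_total (t - 1) 1 with h | h
          · calc t ^ n ≤ 2 ^ n := pow_le_pow_left₀ (by linarith) (by linarith) n
              _ ≤ _ := by
                  have : 0 ≤ (t - 1) ^ n := by positivity
                  have h2 : (0 : ℝ) < 2 ^ n := by positivity
                  nlinarith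
          · calc t ^ n ≤ (2 * (t - 1)) ^ n := pow_le_pow_left₀ (by linarith) (by linarith) n
              _ = 2 ^ n * (t - 1) ^ n := by rw [mul_pow]
              _ ≤ _ := by
                  have h2 : (0 : ℝ) < 2 ^ n := by positivity
                  nlinarith
        have h3 : (t - 1) ^ (2 * n + 1) = (t - 1) ^ n * (t - 1) ^ (n + 1) := by
          rw [← pow_add]; congr 1; ring
        calc t ^ n * ((t - 1) ^ (2 * n + 1))⁻¹
            ≤ 2 ^ n * (1 + (t - 1) ^ n) * ((t - 1) ^ (2 * n + 1))⁻¹ := by gcongr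
          _ = _ := by
              rw [h3]
              field_simp
    _ = (∫⁻ t in {t : ℝ | 4 / 5 * δ ≤ t - 1},
          ENNReal.ofReal (2 ^ n) * ENNReal.ofReal ((dist t 1 ^ (2 * n + 1))⁻¹)) +
        ∫⁻ t in {t : ℝ | 4 / 5 * δ ≤ t - 1},
          ENNReal.ofReal (2 ^ n) * ENNReal.ofReal ((dist t 1 ^ (n + 1))⁻¹) := by
        rw [lintegral_add_left]
        have h0 : Measurable (fun t : ℝ => dist t 1) := by fun_prop
        exact (h0.pow_const _).inv.ennreal_ofReal.const_mul _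
    _ ≤ ENNReal.ofReal (2 ^ n) * (2 * ENNReal.ofReal (2 ^ (1 + 1) *
          ((4 / 5 * δ) ^ (2 * n + 1 - 1))⁻¹)) +
        ENNReal.ofReal (2 ^ n) * (2 * ENNReal.ofReal (2 ^ (1 + 1) *
          ((4 / 5 * δ) ^ (n + 1 - 1))⁻¹)) := by
        rw [lintegral_const_mul' _ _ ENNReal.ofReal_ne_top,
          lintegral_const_mul' _ _ ENNReal.ofReal_ne_top]
        have hsub : {t : ℝ | 4 / 5 * δ ≤ t - 1} ⊆ {t : ℝ | 4 / 5 * δ ≤ dist t 1} := by
          intro t ht
          have ht1 : 4 / 5 * δ ≤ t - 1 := ht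
          rw [mem_ofPred_eq, Real.dist_eq, abs_of_pos (by linarith)]
          exact ht1
        gcongr
        · refine (lintegral_mono_set hsub).trans ?_
          exact lintegral_far volume 1 (show 1 < 2 * n + 1 by omega)
            (fun r _ => volume_closedBall_real_le 1 r) hR
        · refine (lintegral_mono_set hsub).trans ?_
          exact lintegral_far volume 1 (show 1 < n + 1 by omega)
            (fun r _ => volume_closedBall_real_le 1 r) hR
    _ = ENNReal.ofReal (2 ^ n * (2 * (2 ^ (1 + 1) * ((4 / 5 * δ) ^ (2 * n + 1 - 1))⁻¹)) +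
          2 ^ n * (2 * (2 ^ (1 + 1) * ((4 / 5 * δ) ^ (n + 1 - 1))⁻¹))) := by
        rw [show (2 : ℝ≥0∞) = ENNReal.ofReal 2 by norm_num,
          ENNReal.ofReal_add (by positivity) (by positivity),
          ENNReal.ofReal_mul (p := 2 ^ n) (by positivity),
          ENNReal.ofReal_mul (p := 2 ^ n) (by positivity),
          ENNReal.ofReal_mul (p := 2) (by positivity),
          ENNReal.ofReal_mul (p := 2) (by positivity)]
    _ ≤ _ := by
        apply ENNReal.ofReal_le_ofReal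
        simp only [Nat.add_sub_cancel]
        have e1 : ((4 / 5 * δ) ^ (2 * n))⁻¹ = (5 / 4) ^ (2 * n) * (δ ^ (2 * n))⁻¹ := by
          rw [mul_pow, mul_inv, ← inv_pow]
          norm_num
        have e2 : ((4 / 5 * δ) ^ n)⁻¹ ≤ (5 / 4) ^ n * 2 ^ n * (δ ^ (2 * n))⁻¹ := by
          have e3 : ((4 / 5 * δ) ^ n)⁻¹ = (5 / 4) ^ n * (δ ^ n)⁻¹ := by
            rw [mul_pow, mul_inv, ← inv_pow]
            norm_num
          have e4 : (δ ^ n)⁻¹ = δ ^ n * (δ ^ (2 * n))⁻¹ := by
            rw [two_mul, pow_add]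
            have : δ ^ n ≠ 0 := by positivity
            field_simp
          rw [e3, e4]
          have e5 : δ ^ n ≤ 2 ^ n := pow_le_pow_left₀ hδ.le hδ2 n
          calc (5 / 4) ^ n * (δ ^ n * (δ ^ (2 * n))⁻¹) ≤ (5 / 4) ^ n * (2 ^ n * (δ ^ (2 * n))⁻¹) := by
                gcongr
            _ = _ := by ring
        rw [e1]
        have e6 : (0 : ℝ) < 2 ^ n := by positivity
        have e7 : 2 ^ n * (2 * (2 ^ (1 + 1) * ((4 / 5 * δ) ^ n)⁻¹)) ≤
            2 ^ n * (2 * (2 ^ (1 + 1) * ((5 / 4) ^ n * 2 ^ n * (δ ^ (2 * n))⁻¹))) := by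
          gcongr
        nlinarith [e7]

omit [MeasurableSpace E] [BorelSpace E] [FiniteDimensional ℝ E] [Nontrivial E] in
/-- Geometry of the support of the kernel. -/
theorem kernel_geometry {x z : E} (hx : ‖x‖ < 1) (hz : ‖z‖ < 1) {t : ℝ} (ht : 1 < t)
    (ho : ‖x + (1 / (t - 1)) • (x - z)‖ ≤ 1 / 4) :
    4 / 5 * dist x z ≤ t - 1 ∧ 3 / 16 * (dr ‖z‖ + dist x z) ≤ dr ‖x‖ := by
  have ht1 : 0 < t - 1 := by linarith
  have ht0 : 0 < t := by linarith
  set o := x + (1 / (t - 1)) • (x - z) with hodef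
  have h1 : x - z = (t - 1) • (o - x) := by
    rw [hodef, add_sub_cancel_left, smul_smul, mul_one_div_cancel ht1.ne', one_smul]
  have h2 : dist x z = (t - 1) * ‖o - x‖ := by
    rw [dist_eq_norm, h1, norm_smul, Real.norm_eq_abs, abs_of_pos ht1]
  have h3 : ‖o - x‖ ≤ 5 / 4 := by
    refine (norm_sub_le _ _).trans ?_
    linarith
  refine ⟨?_, ?_⟩
  · rw [h2]
    nlinarith
  · have h4 : x = (1 / t) • z + (1 - 1 / t) • o := by
      have h5 : t • x = z + (t - 1) • o := by
        have : z = x - (t - 1) • (o - x) := by rw [← h1]; abel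
        rw [this]; module
      calc x = (1 / t) • (t • x) := by rw [smul_smul, one_div_mul_cancel ht0.ne', one_smul]
        _ = (1 / t) • (z + (t - 1) • o) := by rw [h5]
        _ = _ := by
            rw [smul_add, smul_smul]
            congr 2
            field_simp
    set s := 1 / t with hs
    have hs0 : 0 < s := by positivity
    have hs1 : s < 1 := by rw [hs, div_lt_one ht0]; exact ht
    have h6 : ‖x‖ ^ 2 ≤ s * ‖z‖ ^ 2 + (1 - s) * ‖o‖ ^ 2 := by
      have h7 : ‖x‖ ≤ s * ‖z‖ + (1 - s) * ‖o‖ := by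
        rw [h4]
        refine (norm_add_le _ _).trans ?_
        rw [norm_smul, norm_smul, Real.norm_eq_abs, Real.norm_eq_abs, abs_of_pos hs0,
          abs_of_pos (by linarith : 0 < 1 - s)]
      have h8 : (s * ‖z‖ + (1 - s) * ‖o‖) ^ 2 ≤ s * ‖z‖ ^ 2 + (1 - s) * ‖o‖ ^ 2 := by
        nlinarith [sq_nonneg (‖z‖ - ‖o‖), mul_pos hs0 (by linarith : 0 < 1 - s)]
      have h9 : ‖x‖ ^ 2 ≤ (s * ‖z‖ + (1 - s) * ‖o‖) ^ 2 :=
        pow_le_pow_left₀ (norm_nonneg _) h7 2
      linarith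
    have h10 : ‖o‖ ^ 2 ≤ 1 / 16 := by nlinarith [norm_nonneg o]
    have h11 : s * dr ‖z‖ + (1 - s) * (15 / 32) ≤ dr ‖x‖ := by
      unfold dr
      nlinarith
    have h12 : dist x z ≤ (1 - s) * (5 / 4) := by
      have h13 : x - z = (1 - s) • (o - z) := by
        nth_rewrite 1 [h4]
        module
      rw [dist_eq_norm, h13, norm_smul, Real.norm_eq_abs, abs_of_pos (by linarith : 0 < 1 - s)]
      have h16 : ‖o - z‖ ≤ 5 / 4 := by
        refine (norm_sub_le _ _).trans ?_
        linarith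
      have h17 : 0 < 1 - s := by linarith
      gcongr
    have h14 : dr ‖z‖ ≤ 1 / 2 := by unfold dr; nlinarith [norm_nonneg z]
    have h15 : 0 ≤ dr ‖z‖ := (dr_pos' (norm_nonneg _) hz).le
    nlinarith

end hop

end Pool.Agent.Lib.MP_3db736_an
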