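import Pool.Agent.Lib.MP_3db736_an.Homotopy2
import Pool.Agent.Lib.MP_3db736_an.Energy

open MeasureTheory Metric Set Module Filter
open scoped ENNReal NNReal Topology ContDiff

namespace Pool.Agent.Lib.MP_3db736_an

section hop

variable {E : Type*} [NormedAddCommGroup E] [InnerProductSpace ℝ E] [MeasurableSpace E]
  [BorelSpace E] [FiniteDimensional ℝ E] [Nontrivial E]
variable {W W' : Type*} [NormedAddCommGroup W] [NormedSpace ℝ W] [NormedAddCommGroup W']
  [NormedSpace ℝ W']
variable {b : W →L[ℝ] E →L[ℝ] W'} {γ : E → W} {n : ℕ}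

omit [Nontrivial E] in
/-- Pointwise kernel bound for the homotopy operator. -/
theorem hop_kernel (μ : Measure E) [μ.IsAddHaarMeasure] (hn : 1 ≤ n)
    (hdim : finrank ℝ E = 2 * n) :
    ∃ C : ℝ≥0∞, C ≠ ⊤ ∧ ∀ (b : W →L[ℝ] E →L[ℝ] W') (γ : E → W), Continuous γ →
      (∀ z, 1 ≤ ‖z‖ → γ z = 0) → (∀ w u, ‖b w u‖ ≤ ‖w‖ * ‖u‖) → ∀ x : E, ‖x‖ < 1 →
        ‖hop μ b n γ x‖ₑ ≤ C * ∫⁻ z in ball 0 1, ‖γ z‖ₑ * kerT n (3 / 16) x z ∂μ := by
  obtain ⟨M, hM0, hM⟩ := bmq_bound μ
  obtain ⟨C, hC, hC1⟩ := kernel_one_dim n hn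
  refine ⟨ENNReal.ofReal (M * C), ENNReal.ofReal_ne_top, ?_⟩
  intro b γ hγ hs hb x hx
  set φ : E → ℝ := bmq.normed μ with hφ
  have hφ0 : ∀ o, 0 ≤ φ o := fun o => bmq.nonneg_normed o
  have hφc : Continuous φ := bmq.continuous_normed
  have hγm : Measurable (fun z => ‖γ z‖ₑ) := hγ.enorm.measurable
  have hone : 1 < (2 : ℝ) := by norm_num
  -- the centre as a function of the image point
  set ce : ℝ → E → E := fun t z => x + (1 / (t - 1)) • (x - z) with hce
  set g : ℝ → E → ℝ≥0∞ := fun t z => ENNReal.ofReal (((t - 1) ^ (2 * n))⁻¹ * (φ (ce t z) *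
    t ^ n * (‖z - x‖ / (t - 1)))) with hg
  have hgm : Measurable (fun p : ℝ × E => g p.1 p.2) := by
    simp only [hg, hce]
    have h1 : Measurable (fun p : ℝ × E => φ (x + (1 / (p.1 - 1)) • (x - p.2))) := by
      apply hφc.measurable.comp
      fun_prop
    have h2 : Measurable (fun p : ℝ × E => ‖p.2 - x‖ / (p.1 - 1)) := by fun_prop
    have h3 : Measurable (fun p : ℝ × E => ((p.1 - 1) ^ (2 * n))⁻¹) := by fun_prop
    have h4 : Measurable (fun p : ℝ × E => p.1 ^ n) := by fun_prop
    exact (h3.mul ((h1.mul h4).mul h2)).ennreal_ofReal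
  -- step 1
  have hstep1 : ∀ t : ℝ, 1 < t → ‖hopB μ b n γ t x‖ₑ ≤ ∫⁻ z, g t z * ‖γ z‖ₑ ∂μ := by
    intro t ht
    have ht0 : 0 < t := by linarith
    have ht1 : 0 < t - 1 := by linarith
    set h : E → ℝ≥0∞ := fun o => ENNReal.ofReal (φ o * t ^ n * ‖x - o‖) *
      ‖γ (o + t • (x - o))‖ₑ with hh
    have hhm : Measurable h := by
      have h1 : Continuous (fun o : E => φ o * t ^ n * ‖x - o‖) := by fun_prop
      have h2 : Continuous (fun o : E => γ (o + t • (x - o))) := by fun_prop
      exact h1.measurable.ennreal_ofReal.mul h2.enorm.measurable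
    calc ‖hopB μ b n γ t x‖ₑ ≤ ∫⁻ o, ‖φ o • Tht b n γ t o x‖ₑ ∂μ :=
          enorm_integral_le_lintegral_enorm _
      _ ≤ ∫⁻ o, h o ∂μ := by
          apply lintegral_mono
          intro o
          simp only [hh]
          rw [← ofReal_norm, ← ofReal_norm, ← ENNReal.ofReal_mul
            (mul_nonneg (mul_nonneg (hφ0 o) (by positivity)) (norm_nonneg _))]
          apply ENNReal.ofReal_le_ofReal
          rw [norm_smul, Real.norm_eq_abs, abs_of_nonneg (hφ0 o), Tht, norm_smul, norm_pow,
            Real.norm_eq_abs, abs_of_pos ht0]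
          have h1 := hb (γ (o + t • (x - o))) (x - o)
          have h2 : 0 ≤ φ o * t ^ n := mul_nonneg (hφ0 o) (by positivity)
          calc φ o * (t ^ n * ‖b (γ (o + t • (x - o))) (x - o)‖)
              = φ o * t ^ n * ‖b (γ (o + t • (x - o))) (x - o)‖ := by ring
            _ ≤ φ o * t ^ n * (‖γ (o + t • (x - o))‖ * ‖x - o‖) := by gcongr
            _ = _ := by ring
      _ = ENNReal.ofReal |(1 / (t - 1)) ^ (2 * n)| *
            ∫⁻ z, h ((t / (t - 1)) • x + (-(1 / (t - 1))) • z) ∂μ := by
          have hd : -(1 / (t - 1)) ≠ 0 := by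
            rw [neg_ne_zero]; positivity
          rw [lintegral_affine μ hhm _ hd, hdim, ← mul_assoc, ← ENNReal.ofReal_mul (abs_nonneg _),
            ← abs_mul, Even.neg_pow (by simp), mul_inv_cancel₀ (by positivity)]
          simp
      _ = ∫⁻ z, g t z * ‖γ z‖ₑ ∂μ := by
          rw [← lintegral_const_mul' _ _ ENNReal.ofReal_ne_top]
          apply lintegral_congr
          intro z
          have e1 : (t / (t - 1)) • x + (-(1 / (t - 1))) • z = ce t z := by
            simp only [hce]
            have : t / (t - 1) = 1 + 1 / (t - 1) := by field_simp; ring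
            rw [this]
            module
          have e2 : x - ce t z = (1 / (t - 1)) • (z - x) := by
            simp only [hce]; module
          have e3 : ce t z + t • (x - ce t z) = z := by
            have : ce t z + t • (x - ce t z) = x + (t - 1) • (x - ce t z) := by module
            rw [this, e2, smul_smul, mul_one_div_cancel ht1.ne', one_smul]
            abel
          rw [e1]
          simp only [hh, hg]
          rw [e3, e2, norm_smul, Real.norm_eq_abs, abs_of_pos (by positivity : 0 < 1 / (t - 1)),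
            abs_of_pos (by positivity), ← mul_assoc, ← ENNReal.ofReal_mul (by positivity)]
          congr 2
          rw [one_div_pow]
          ring
  -- step 2
  have hstep2 : ‖hop μ b n γ x‖ₑ ≤ ∫⁻ z, ‖γ z‖ₑ * (∫⁻ t in Ioi (1 : ℝ), g t z) ∂μ := by
    calc ‖hop μ b n γ x‖ₑ = ‖∫ t in Ioi (1 : ℝ), hopB μ b n γ t x‖ₑ := by
          rw [hop, enorm_neg]
      _ ≤ ∫⁻ t in Ioi (1 : ℝ), ‖hopB μ b n γ t x‖ₑ := enorm_integral_le_lintegral_enorm _
      _ ≤ ∫⁻ t in Ioi (1 : ℝ), ∫⁻ z, g t z * ‖γ z‖ₑ ∂μ :=
          setLIntegral_mono' measurableSet_Ioi fun t ht => hstep1 t ht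
      _ = ∫⁻ z, (∫⁻ t in Ioi (1 : ℝ), g t z * ‖γ z‖ₑ) ∂μ := by
          rw [lintegral_lintegral_swap]
          apply Measurable.aemeasurable
          exact hgm.mul (hγm.comp measurable_snd)
      _ = _ := by
          apply lintegral_congr
          intro z
          rw [lintegral_mul_const, mul_comm]
          exact hgm.comp (measurable_id.prodMk measurable_const)
  -- step 3
  have hstep3 : ∀ z : E, ‖z‖ < 1 → ∫⁻ t in Ioi (1 : ℝ), g t z ≤
      ENNReal.ofReal (M * C) * kerT n (3 / 16) x z := by
    intro z hz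
    by_cases hcond : 3 / 16 * (dr ‖z‖ + dist x z) ≤ dr ‖x‖
    · have hker : kerT n (3 / 16) x z = ENNReal.ofReal ((dist x z ^ (2 * n - 1))⁻¹) := by
        rw [kerT, indicator_of_mem]
        exact hcond
      rw [hker]
      rcases eq_or_ne x z with rfl | hxz
      · have : ∀ t ∈ Ioi (1 : ℝ), g t x = 0 := by
          intro t _
          simp [hg]
        rw [setLIntegral_congr_fun measurableSet_Ioi this]
        simp
      · have hδ : 0 < dist x z := dist_pos.2 hxz
        have hδ2 : dist x z ≤ 2 := by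
          rw [dist_eq_norm]
          refine (norm_sub_le _ _).trans ?_
          linarith
        set δ := dist x z with hδdef
        have hm : MeasurableSet {t : ℝ | 4 / 5 * δ ≤ t - 1} :=
          (isClosed_le continuous_const (by fun_prop)).measurableSet
        calc ∫⁻ t in Ioi (1 : ℝ), g t z
            ≤ ∫⁻ t in Ioi (1 : ℝ), ({t : ℝ | 4 / 5 * δ ≤ t - 1}).indicator
                (fun t => ENNReal.ofReal (M * δ) *
                  ENNReal.ofReal (t ^ n * ((t - 1) ^ (2 * n + 1))⁻¹)) t := by
              apply setLIntegral_mono' measurableSet_Ioi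
              intro t ht
              have ht' : 1 < t := ht
              have ht1 : 0 < t - 1 := by linarith
              have ht0 : 0 < t := by linarith
              by_cases ho : ‖ce t z‖ ≤ 1 / 4
              · have hgeo := kernel_geometry hx hz ht' ho
                rw [indicator_of_mem (show t ∈ {t : ℝ | 4 / 5 * δ ≤ t - 1} from hgeo.1),
                  ← ENNReal.ofReal_mul (by positivity)]
                apply ENNReal.ofReal_le_ofReal
                rw [norm_sub_rev, ← dist_eq_norm, ← hδdef]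
                have h1 : φ (ce t z) ≤ M := hM _
                calc ((t - 1) ^ (2 * n))⁻¹ * (φ (ce t z) * t ^ n * (δ / (t - 1)))
                    ≤ ((t - 1) ^ (2 * n))⁻¹ * (M * t ^ n * (δ / (t - 1))) := by gcongr
                  _ = _ := by rw [pow_succ]; field_simp
              · have : g t z = 0 := by
                  simp only [hg]
                  have h1 : φ (ce t z) = 0 := bmq_eq_zero μ (not_le.1 ho).le
                  rw [h1]; simp
                rw [this]
                exact zero_le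
          _ ≤ ∫⁻ t, ({t : ℝ | 4 / 5 * δ ≤ t - 1}).indicator
                (fun t => ENNReal.ofReal (M * δ) *
                  ENNReal.ofReal (t ^ n * ((t - 1) ^ (2 * n + 1))⁻¹)) t :=
              setLIntegral_le_lintegral _ _
          _ = ENNReal.ofReal (M * δ) * ∫⁻ t in {t : ℝ | 4 / 5 * δ ≤ t - 1},
                ENNReal.ofReal (t ^ n * ((t - 1) ^ (2 * n + 1))⁻¹) := by
              rw [lintegral_indicator hm, lintegral_const_mul' _ _ ENNReal.ofReal_ne_top]
          _ ≤ ENNReal.ofReal (M * δ) * ENNReal.ofReal (C * (δ ^ (2 * n))⁻¹) := by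
              gcongr
              exact hC1 δ hδ hδ2
          _ = _ := by
              rw [← ENNReal.ofReal_mul (by positivity), ← ENNReal.ofReal_mul (by positivity)]
              congr 1
              obtain ⟨k, rfl⟩ : ∃ k, n = k + 1 := ⟨n - 1, by omega⟩
              have e1 : 2 * (k + 1) - 1 = 2 * k + 1 := by omega
              rw [e1, show 2 * (k + 1) = 2 * k + 1 + 1 by ring, pow_succ δ (2 * k + 1)]
              field_simp
    · have : ∀ t ∈ Ioi (1 : ℝ), g t z = 0 := by
        intro t ht
        simp only [hg]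
        have h1 : φ (ce t z) = 0 := by
          apply bmq_eq_zero μ
          by_contra hcon
          exact hcond (kernel_geometry hx hz ht (not_le.1 hcon).le).2
        rw [h1]; simp
      rw [setLIntegral_congr_fun measurableSet_Ioi this]
      simp
  calc ‖hop μ b n γ x‖ₑ ≤ ∫⁻ z, ‖γ z‖ₑ * (∫⁻ t in Ioi (1 : ℝ), g t z) ∂μ := hstep2
    _ = ∫⁻ z in ball 0 1, ‖γ z‖ₑ * (∫⁻ t in Ioi (1 : ℝ), g t z) ∂μ := by
        rw [← lintegral_indicator measurableSet_ball]
        apply lintegral_congr
        intro z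
        by_cases hz : z ∈ ball (0 : E) 1
        · rw [indicator_of_mem hz]
        · rw [indicator_of_notMem hz, hs z (by simpa using hz)]
          simp
    _ ≤ ∫⁻ z in ball 0 1, ENNReal.ofReal (M * C) * (‖γ z‖ₑ * kerT n (3 / 16) x z) ∂μ := by
        apply setLIntegral_mono' measurableSet_ball
        intro z hz
        have := hstep3 z (by simpa using hz)
        calc ‖γ z‖ₑ * ∫⁻ t in Ioi (1 : ℝ), g t z
            ≤ ‖γ z‖ₑ * (ENNReal.ofReal (M * C) * kerT n (3 / 16) x z) := by gcongr
          _ = _ := by ring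
    _ = _ := by rw [lintegral_const_mul' _ _ ENNReal.ofReal_ne_top]

end hop

end Pool.Agent.Lib.MP_3db736_an
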