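import Pool.Agent.Lib.MP_3db736_an.Close2
import Pool.Agent.Lib.MP_3db736_an.Good2

open MeasureTheory Metric Set Module Filter
open scoped ENNReal NNReal Topology ContDiff

namespace Pool.Agent.Lib.MP_3db736_an

section app

/-- `I` is the Whitehead integral of a smooth approximation of `f`. -/
def App (n : ℕ) (f : sphere (0 : EuclideanSpace ℝ (Fin (n + n))) 1 →
    EuclideanSpace ℝ (Fin (n + 1))) (I : ℝ) : Prop :=
  ∃ (R : ℝ) (U : Set (EuclideanSpace ℝ (Fin (n + n))))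
        (g : EuclideanSpace ℝ (Fin (n + n)) → EuclideanSpace ℝ (Fin (n + 1)))
        (Om : EuclideanSpace ℝ (Fin (n + n)) → EuclideanSpace ℝ (Fin (n + n)) [⋀^Fin n]→L[ℝ] ℝ),
        1 < R ∧ IsOpen U ∧ sphere 0 1 ⊆ U ∧ ContDiffOn ℝ ∞ g U ∧
        (∀ x ∈ U, ‖g x‖ = 1) ∧
        (∀ ζ : sphere (0 : EuclideanSpace ℝ (Fin (n + n))) 1, ‖g ζ - f ζ‖ ≤ 1 / 2) ∧
        ContDiffOn ℝ 1 Om (ball 0 R) ∧ (∀ x ∈ ball 0 R, extDeriv Om x = 0) ∧
        (∀ x, ‖x‖ = 1 → ∀ v : Fin n → EuclideanSpace ℝ (Fin (n + n)),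
          Om x v = volG (n + 1) (Matrix.vecCons (g x) (fun i => fderiv ℝ g x (v i)))) ∧
        I = ∫ x in ball (0 : EuclideanSpace ℝ (Fin (n + n))) 1, wedge (Om x) (Om x)

theorem app_unique {n : ℕ} (hn : 2 ≤ n) {f f' : sphere (0 : EuclideanSpace ℝ (Fin (n + n))) 1 →
    EuclideanSpace ℝ (Fin (n + 1))} (hff : ∀ ζ, ‖f' ζ - f ζ‖ ≤ 1 / 2) {I I' : ℝ}
    (h : App n f I) (h' : App n f' I') : I = I' := by
  obtain ⟨m, rfl⟩ : ∃ m, n = m + 1 := ⟨n - 1, by omega⟩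
  obtain ⟨R, U, g, Om, hR, hU, hUs, hg, hg1, hc, hO, hcl, hbd, rfl⟩ := h
  obtain ⟨R', U', g', Om', hR', hU', hUs', hg', hg1', hc', hO', hcl', hbd', rfl⟩ := h'
  refine close_maps (by omega) hU hU' hUs hUs' hg hg' hg1 hg1' ?_ hR hR' hO hO' hcl hcl' hbd hbd'
  intro x hx
  have hx' : x ∈ sphere (0 : EuclideanSpace ℝ (Fin (m + 1 + (m + 1)))) 1 := by simpa using hx
  have h1 := hc ⟨x, hx'⟩
  have h2 := hc' ⟨x, hx'⟩
  have h3 := hff ⟨x, hx'⟩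
  simp only at h1 h2
  have h4 : g' x - g x = (g' x - f' ⟨x, hx'⟩) + (f' ⟨x, hx'⟩ - f ⟨x, hx'⟩) -
      (g x - f ⟨x, hx'⟩) := by abel
  rw [h4]
  calc _ ≤ ‖(g' x - f' ⟨x, hx'⟩) + (f' ⟨x, hx'⟩ - f ⟨x, hx'⟩)‖ + ‖g x - f ⟨x, hx'⟩‖ :=
        norm_sub_le _ _
    _ ≤ (‖g' x - f' ⟨x, hx'⟩‖ + ‖f' ⟨x, hx'⟩ - f ⟨x, hx'⟩‖) + ‖g x - f ⟨x, hx'⟩‖ := by
        gcongr
        exact norm_add_le _ _
    _ < 2 := by linarith

theorem exists_app {n : ℕ} (hn : 2 ≤ n) {f : sphere (0 : EuclideanSpace ℝ (Fin (n + n))) 1 →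
    EuclideanSpace ℝ (Fin (n + 1))} (hf : Continuous f) (h1 : ∀ ζ, ‖f ζ‖ = 1) :
    ∃ I, App n f I := by
  have : Nontrivial (EuclideanSpace ℝ (Fin (n + n))) := by
    apply Module.nontrivial_of_finrank_pos (R := ℝ)
    rw [finrank_euclideanSpace, Fintype.card_fin]
    omega
  obtain ⟨C, hC, hmain⟩ := exists_good_form n hn (one_pos : (0 : ℝ) < 1)
  obtain ⟨R, U, g, Om, hR, hU, hUs, hg, hg1, hclose, hOm, hcl, hbd, hint⟩ := hmain f hf h1
  exact ⟨_, R, U, g, Om, hR, hU, hUs, hg, hg1, hclose, hOm, hcl, hbd, rfl⟩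

theorem app_homotopic {n : ℕ} (hn : 2 ≤ n)
    {f f' : C(sphere (0 : EuclideanSpace ℝ (Fin (n + n))) 1,
      sphere (0 : EuclideanSpace ℝ (Fin (n + 1))) 1)} (h : f.Homotopic f') {I I' : ℝ}
    (hI : App n (fun ζ => (f ζ : EuclideanSpace ℝ (Fin (n + 1)))) I)
    (hI' : App n (fun ζ => (f' ζ : EuclideanSpace ℝ (Fin (n + 1)))) I') : I = I' := by
  obtain ⟨H⟩ := h
  set K : C(unitInterval, C(sphere (0 : EuclideanSpace ℝ (Fin (n + n))) 1,
      sphere (0 : EuclideanSpace ℝ (Fin (n + 1))) 1)) := H.toContinuousMap.curry with hK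
  have hex : ∀ t, ∃ I, App n (fun ζ => (K t ζ : EuclideanSpace ℝ (Fin (n + 1)))) I := by
    intro t
    exact exists_app hn (by fun_prop) (fun ζ => by simp)
  choose J hJ using hex
  have hloc : IsLocallyConstant J := by
    rw [IsLocallyConstant.iff_eventually_eq]
    intro t
    have h1 : Tendsto K (𝓝 t) (𝓝 (K t)) := K.continuous.continuousAt
    have h2 := h1 (ball_mem_nhds (K t) (show (0 : ℝ) < 1 / 2 by norm_num))
    filter_upwards [h2] with s hs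
    have hs' : dist (K s) (K t) < 1 / 2 := hs
    refine app_unique hn (fun ζ => ?_) (hJ s) (hJ t)
    have h3 := (ContinuousMap.dist_lt_iff (by norm_num)).1 hs' ζ
    rw [Subtype.dist_eq, dist_comm, dist_eq_norm] at h3
    exact h3.le
  have h0 : ∀ ζ, K 0 ζ = f ζ := fun ζ => H.apply_zero ζ
  have h1 : ∀ ζ, K 1 ζ = f' ζ := fun ζ => H.apply_one ζ
  have hJ0 := hJ 0
  have hJ1 := hJ 1
  simp only [h0] at hJ0
  simp only [h1] at hJ1
  have e0 : I = J 0 := app_unique hn (fun ζ => by simp) hI hJ0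
  have e1 : I' = J 1 := app_unique hn (fun ζ => by simp) hI' hJ1
  have e2 : J 0 = J 1 := hloc.apply_eq_of_isPreconnected isPreconnected_univ (mem_univ _)
    (mem_univ _)
  rw [e0, e1, e2]

end app

end Pool.Agent.Lib.MP_3db736_an
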