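import Pool.Agent.Lib.MP_3db736_an.Homotopy3
import Pool.Agent.Lib.MP_3db736_an.Extension
import Pool.Agent.Lib.MP_3db736_an.Form

open MeasureTheory Metric Set Module Filter
open scoped ENNReal NNReal Topology ContDiff

namespace Pool.Agent.Lib.MP_3db736_an

theorem two_le_smooth : minSmoothness ℝ 2 ≤ (∞ : ℕ∞ω) := by
  rw [minSmoothness_of_isRCLikeNormedField]; exact WithTop.coe_le_coe.2 le_top

section main

variable {n : ℕ} [Nontrivial (EuclideanSpace ℝ (Fin (n + n)))]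

/-- The pulled back form on the ball. -/
noncomputable def eta (f : sphere (0 : EuclideanSpace ℝ (Fin (n + n))) 1 →
    EuclideanSpace ℝ (Fin (n + 1))) (x : EuclideanSpace ℝ (Fin (n + n))) :
    EuclideanSpace ℝ (Fin (n + n)) [⋀^Fin n]→L[ℝ] ℝ :=
  (omg n (ext volume f x)).compContinuousLinearMap (fderiv ℝ (ext volume f) x)

/-- Its exterior derivative, extended by zero. -/
noncomputable def gam (f : sphere (0 : EuclideanSpace ℝ (Fin (n + n))) 1 →
    EuclideanSpace ℝ (Fin (n + 1))) (x : EuclideanSpace ℝ (Fin (n + n))) :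
    EuclideanSpace ℝ (Fin (n + n)) [⋀^Fin (n + 1)]→L[ℝ] ℝ :=
  (ball (0 : EuclideanSpace ℝ (Fin (n + n))) 1).indicator (extDeriv (eta f)) x

/-- The correction. -/
noncomputable def bet (f : sphere (0 : EuclideanSpace ℝ (Fin (n + n))) 1 →
    EuclideanSpace ℝ (Fin (n + 1))) (x : EuclideanSpace ℝ (Fin (n + n))) :
    EuclideanSpace ℝ (Fin (n + n)) [⋀^Fin n]→L[ℝ] ℝ :=
  hop volume (ip (EuclideanSpace ℝ (Fin (n + n))) n) n (gam f) x

variable {f : sphere (0 : EuclideanSpace ℝ (Fin (n + n))) 1 → EuclideanSpace ℝ (Fin (n + 1))}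

theorem contDiffAt_ext (hf : Continuous f)
    (h1 : ∀ ζ, ‖f ζ‖ = 1) {x : EuclideanSpace ℝ (Fin (n + n))} (hx : ‖x‖ < 1) :
    ContDiffAt ℝ ∞ (ext volume f) x :=
  (contDiffOn_ext volume hf h1).contDiffAt (isOpen_ball.mem_nhds (by simpa using hx))

theorem contDiffAt_eta (hf : Continuous f)
    (h1 : ∀ ζ, ‖f ζ‖ = 1) {x : EuclideanSpace ℝ (Fin (n + n))} (hx : ‖x‖ < 1) :
    ContDiffAt ℝ ∞ (eta f) x := by
  have h2 := contDiffAt_ext hf h1 hx
  unfold eta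
  apply contDiffAt_pullback
  · exact (contDiff_omg n).contDiffAt.comp x h2
  · exact h2.fderiv_right (m := ∞) (by rfl)

theorem extDeriv_eta (hf : Continuous f)
    (h1 : ∀ ζ, ‖f ζ‖ = 1) {x : EuclideanSpace ℝ (Fin (n + n))} (hx : ‖x‖ < 1) :
    extDeriv (eta f) x = (extDeriv (omg n) (ext volume f x)).compContinuousLinearMap
      (fderiv ℝ (ext volume f) x) := by
  have h2 := contDiffAt_ext hf h1 hx
  exact extDeriv_pullback (r := ∞) ((contDiff_omg n).differentiable (by simp) _) h2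
    two_le_smooth

/-- Close to the sphere the extension is close to the boundary values. -/
theorem exists_rho (hf : Continuous f) (h1 : ∀ ζ, ‖f ζ‖ = 1) :
    ∃ ρ : ℝ, 1 / 2 ≤ ρ ∧ ρ < 1 ∧ ∀ x : EuclideanSpace ℝ (Fin (n + n)), ρ < ‖x‖ → ‖x‖ < 1 →
      ‖ext volume f x - f (nrm x)‖ ≤ 1 / 4 :=
  ext_boundary volume hf h1 (by norm_num)

theorem norm_ext_ge {ρ : ℝ} (h1 : ∀ ζ, ‖f ζ‖ = 1)
    (hρ : ∀ x : EuclideanSpace ℝ (Fin (n + n)), ρ < ‖x‖ → ‖x‖ < 1 →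
      ‖ext volume f x - f (nrm x)‖ ≤ 1 / 4) {x : EuclideanSpace ℝ (Fin (n + n))}
    (hx : ρ < ‖x‖) (hx1 : ‖x‖ < 1) : 3 / 4 ≤ ‖ext volume f x‖ := by
  have h2 := hρ x hx hx1
  have h3 := norm_sub_norm_le (f (nrm x)) (ext volume f x)
  rw [norm_sub_rev, h1] at h3
  linarith

theorem gam_of_norm_lt {x : EuclideanSpace ℝ (Fin (n + n))} (hx : ‖x‖ < 1) :
    gam f x = extDeriv (eta f) x := by
  unfold gam
  rw [indicator_of_mem (by simpa using hx)]

theorem gam_eq_zero_of_large (hf : Continuous f) (h1 : ∀ ζ, ‖f ζ‖ = 1)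
    {x : EuclideanSpace ℝ (Fin (n + n))}
    (hF : 1 / 2 < ‖ext volume f x‖) : gam f x = 0 := by
  by_cases hx : ‖x‖ < 1
  · rw [gam_of_norm_lt hx, extDeriv_eta hf h1 hx, extDeriv_omg n (by nlinarith)]
    rfl
  · unfold gam
    rw [indicator_of_notMem (by simpa using hx)]

theorem gam_eq_zero_of_norm {ρ : ℝ} (hf : Continuous f) (h1 : ∀ ζ, ‖f ζ‖ = 1)
    (hρ : ∀ x : EuclideanSpace ℝ (Fin (n + n)), ρ < ‖x‖ → ‖x‖ < 1 →
      ‖ext volume f x - f (nrm x)‖ ≤ 1 / 4) {x : EuclideanSpace ℝ (Fin (n + n))}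
    (hx : ρ < ‖x‖) : gam f x = 0 := by
  by_cases hx1 : ‖x‖ < 1
  · apply gam_eq_zero_of_large hf h1
    have := norm_ext_ge h1 hρ hx hx1
    linarith
  · unfold gam
    rw [indicator_of_notMem (by simpa using hx1)]

theorem gam_eventuallyEq {x : EuclideanSpace ℝ (Fin (n + n))} (hx : ‖x‖ < 1) :
    gam f =ᶠ[𝓝 x] extDeriv (eta f) := by
  have h2 : ball (0 : EuclideanSpace ℝ (Fin (n + n))) 1 ∈ 𝓝 x :=
    isOpen_ball.mem_nhds (by simpa using hx)
  filter_upwards [h2] with y hy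
  exact gam_of_norm_lt (by simpa using hy)

theorem gam_eventuallyEq_zero {ρ : ℝ} (hf : Continuous f) (h1 : ∀ ζ, ‖f ζ‖ = 1)
    (hρ : ∀ x : EuclideanSpace ℝ (Fin (n + n)), ρ < ‖x‖ → ‖x‖ < 1 →
      ‖ext volume f x - f (nrm x)‖ ≤ 1 / 4) {x : EuclideanSpace ℝ (Fin (n + n))}
    (hx : ρ < ‖x‖) : gam f =ᶠ[𝓝 x] fun _ => 0 := by
  have h2 : IsOpen {y : EuclideanSpace ℝ (Fin (n + n)) | ρ < ‖y‖} :=
    isOpen_lt continuous_const continuous_norm
  filter_upwards [h2.mem_nhds hx] with y hy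
  exact gam_eq_zero_of_norm hf h1 hρ hy

theorem contDiff_gam (hf : Continuous f) (h1 : ∀ ζ, ‖f ζ‖ = 1) : ContDiff ℝ 1 (gam f) := by
  obtain ⟨ρ, _, hρ1, hρ⟩ := exists_rho hf h1
  rw [contDiff_iff_contDiffAt]
  intro x
  by_cases hx : ‖x‖ < 1
  · have h2 : ContDiffAt ℝ 1 (fderiv ℝ (eta f)) x :=
      (contDiffAt_eta hf h1 hx).fderiv_right (m := 1) (WithTop.coe_le_coe.2 le_top)
    have h3 : ContDiffAt ℝ 1 (extDeriv (eta f)) x :=
      (contDiff_alt 1).contDiffAt.comp x h2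
    exact h3.congr_of_eventuallyEq (gam_eventuallyEq hx)
  · exact contDiffAt_const.congr_of_eventuallyEq
      (gam_eventuallyEq_zero hf h1 hρ (by linarith [not_lt.1 hx]))

theorem extDeriv_gam (hf : Continuous f) (h1 : ∀ ζ, ‖f ζ‖ = 1)
    (x : EuclideanSpace ℝ (Fin (n + n))) : extDeriv (gam f) x = 0 := by
  obtain ⟨ρ, _, hρ1, hρ⟩ := exists_rho hf h1
  by_cases hx : ‖x‖ < 1
  · rw [(gam_eventuallyEq hx).extDeriv_eq]
    exact extDeriv_extDeriv_apply (r := ∞) (contDiffAt_eta hf h1 hx) two_le_smooth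
  · rw [(gam_eventuallyEq_zero hf h1 hρ (by linarith [not_lt.1 hx])).extDeriv_eq]
    rw [extDeriv, fderiv_fun_const]
    exact map_zero (ContinuousAlternatingMap.alternatizeUncurryFinCLM ℝ
      (EuclideanSpace ℝ (Fin (n + n))) ℝ)

theorem ip_bound (E : Type*) [NormedAddCommGroup E] [NormedSpace ℝ E] (n : ℕ) :
    ∀ w u, ‖ip E n w u‖ ≤ ‖w‖ * ‖u‖ := by
  intro w u
  have := w.curryLeft.le_opNorm u
  rw [w.norm_curryLeft] at this
  exact this

theorem gam_supp (z : EuclideanSpace ℝ (Fin (n + n))) (hz : 1 ≤ ‖z‖) : gam f z = 0 := by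
  unfold gam
  rw [indicator_of_notMem (by simpa using hz)]

theorem finrank_En (n : ℕ) : finrank ℝ (EuclideanSpace ℝ (Fin (n + n))) = 2 * n := by
  rw [finrank_euclideanSpace, Fintype.card_fin]; ring

theorem contDiff_bet (hn : 2 ≤ n) (hf : Continuous f) (h1 : ∀ ζ, ‖f ζ‖ = 1) :
    ContDiff ℝ 1 (bet f) :=
  (hasFDerivAt_hop volume (contDiff_gam hf h1) gam_supp (ip_bound _ n) hn (finrank_En n)).2

theorem extDeriv_bet (hn : 2 ≤ n) (hf : Continuous f) (h1 : ∀ ζ, ‖f ζ‖ = 1)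
    (x : EuclideanSpace ℝ (Fin (n + n))) : extDeriv (bet f) x = gam f x := by
  have h := hop_primitive volume (contDiff_gam hf h1) gam_supp (ip_bound _ n) hn (finrank_En n)
    (ContinuousAlternatingMap.alternatizeUncurryFinCLM ℝ (EuclideanSpace ℝ (Fin (n + n))) ℝ)
    (fun t o x => alternatize_dTht (extDeriv_gam hf h1) t o x) x
  exact h

end main

end Pool.Agent.Lib.MP_3db736_an
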