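import Pool.Agent.Lib.MP_3db736_an.Form

open MeasureTheory Metric Set Module Filter
open scoped ENNReal NNReal Topology ContDiff

namespace Pool.Agent.Lib.MP_3db736_an

section perm

/-- Moving one factor of the first block to the front. -/
def tau1 (m : ℕ) (i : Fin (m + 1)) : Equiv.Perm (Fin ((m + 1) + (m + 1))) :=
  finSumFinEquiv.permCongr (Equiv.Perm.sumCongr i.cycleRange.symm (Equiv.refl (Fin (m + 1))))

theorem sign_tau1 (m : ℕ) (i : Fin (m + 1)) :
    ((Equiv.Perm.sign (tau1 m i) : ℤ) : ℝ) = (-1) ^ (i : ℕ) := by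
  rw [tau1, Equiv.Perm.sign_permCongr, Equiv.Perm.sign_sumCongr, Equiv.Perm.sign_symm,
    Fin.sign_cycleRange]
  have h : Equiv.Perm.sign (Equiv.refl (Fin (m + 1))) = 1 := Equiv.Perm.sign_one
  rw [h, mul_one]
  push_cast
  rfl

theorem tau1_left (m : ℕ) (i a : Fin (m + 1)) :
    tau1 m i (Fin.castAdd (m + 1) a) = Fin.castAdd (m + 1) (i.cycleRange.symm a) := by
  rw [tau1, Equiv.permCongr_apply, finSumFinEquiv_symm_apply_castAdd]
  rfl

theorem tau1_right (m : ℕ) (i a : Fin (m + 1)) :
    tau1 m i (Fin.natAdd (m + 1) a) = Fin.natAdd (m + 1) a := by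
  rw [tau1, Equiv.permCongr_apply, finSumFinEquiv_symm_apply_natAdd]
  rfl

/-- The other splitting of the index set. -/
def spl (m : ℕ) : Fin m ⊕ Fin (m + 2) → Fin ((m + 1) + (m + 1)) :=
  Sum.elim (fun j => Fin.castAdd (m + 1) j.succ)
    (Fin.cases (Fin.castAdd (m + 1) 0) (fun j => Fin.natAdd (m + 1) j))

theorem spl_bij (m : ℕ) : Function.Bijective (spl m) := by
  rw [Fintype.bijective_iff_injective_and_card]
  constructor
  · have key : ∀ a b : Fin m ⊕ Fin (m + 2), (spl m a : ℕ) = (spl m b : ℕ) → a = b := by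
      intro a b hab
      rcases a with a | a <;> rcases b with b | b
      · simp only [spl, Sum.elim_inl, Fin.val_castAdd, Fin.val_succ] at hab
        congr 1
        exact Fin.ext (by omega)
      · revert hab
        refine Fin.cases ?_ (fun b => ?_) b
        · intro hab
          simp only [spl, Sum.elim_inl, Sum.elim_inr, Fin.val_castAdd, Fin.val_succ,
            Fin.cases_zero, Fin.val_zero] at hab
          omega
        · intro hab
          simp only [spl, Sum.elim_inl, Sum.elim_inr, Fin.val_castAdd, Fin.val_succ,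
            Fin.cases_succ, Fin.val_natAdd] at hab
          have := a.2
          omega
      · revert hab
        refine Fin.cases ?_ (fun a => ?_) a
        · intro hab
          simp only [spl, Sum.elim_inl, Sum.elim_inr, Fin.val_castAdd, Fin.val_succ,
            Fin.cases_zero, Fin.val_zero] at hab
          omega
        · intro hab
          simp only [spl, Sum.elim_inl, Sum.elim_inr, Fin.val_castAdd, Fin.val_succ,
            Fin.cases_succ, Fin.val_natAdd] at hab
          have := b.2
          omega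
      · revert hab
        refine Fin.cases ?_ (fun a => ?_) a <;> refine Fin.cases ?_ (fun b => ?_) b
        · intro _; rfl
        · intro hab
          simp only [spl, Sum.elim_inr, Fin.val_castAdd,
            Fin.cases_zero, Fin.val_zero, Fin.cases_succ, Fin.val_natAdd] at hab
          omega
        · intro hab
          simp only [spl, Sum.elim_inr, Fin.val_castAdd,
            Fin.cases_zero, Fin.val_zero, Fin.cases_succ, Fin.val_natAdd] at hab
          omega
        · intro hab
          simp only [spl, Sum.elim_inr, Fin.cases_succ, Fin.val_natAdd] at hab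
          congr 2
          exact Fin.ext (by omega)
    intro a b hab
    exact key a b (by rw [hab])
  · simp only [Fintype.card_sum, Fintype.card_fin]
    omega

/-- The other splitting of the index set, as an equivalence. -/
noncomputable def splE (m : ℕ) : Fin m ⊕ Fin (m + 2) ≃ Fin ((m + 1) + (m + 1)) :=
  Equiv.ofBijective (spl m) (spl_bij m)

/-- Moving one factor of the big block to its front. -/
noncomputable def tau2 (m : ℕ) (i : Fin (m + 2)) : Equiv.Perm (Fin ((m + 1) + (m + 1))) :=
  (splE m).permCongr (Equiv.Perm.sumCongr (Equiv.refl (Fin m)) i.cycleRange.symm)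

theorem sign_tau2 (m : ℕ) (i : Fin (m + 2)) :
    ((Equiv.Perm.sign (tau2 m i) : ℤ) : ℝ) = (-1) ^ (i : ℕ) := by
  rw [tau2, Equiv.Perm.sign_permCongr, Equiv.Perm.sign_sumCongr, Equiv.Perm.sign_symm,
    Fin.sign_cycleRange]
  have h : Equiv.Perm.sign (Equiv.refl (Fin m)) = 1 := Equiv.Perm.sign_one
  rw [h, one_mul]
  push_cast
  rfl

theorem tau2_apply (m : ℕ) (i : Fin (m + 2)) (s : Fin m ⊕ Fin (m + 2)) :
    tau2 m i (spl m s) = spl m (Sum.map id i.cycleRange.symm s) := by
  have h : spl m s = splE m s := rfl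
  rw [tau2, h, Equiv.permCongr_apply, Equiv.symm_apply_apply]
  rfl

end perm

section sums

/-- Signed sum over permutations. -/
noncomputable def sgs {N : ℕ} (F : Equiv.Perm (Fin N) → ℝ) : ℝ :=
  ∑ σ : Equiv.Perm (Fin N), ((Equiv.Perm.sign σ : ℤ) : ℝ) * F σ

theorem sgs_mul {N : ℕ} (F : Equiv.Perm (Fin N) → ℝ) (τ : Equiv.Perm (Fin N)) :
    sgs (fun σ => F (σ * τ)) = ((Equiv.Perm.sign τ : ℤ) : ℝ) * sgs F := by
  unfold sgs
  rw [Finset.mul_sum]
  refine Fintype.sum_equiv (Equiv.mulRight τ) _ _ ?_
  intro σ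
  simp only [Equiv.coe_mulRight, Equiv.Perm.sign_mul]
  have h : ((Equiv.Perm.sign τ : ℤ) : ℝ) * ((Equiv.Perm.sign τ : ℤ) : ℝ) = 1 := by
    rcases Int.units_eq_one_or (Equiv.Perm.sign τ) with h | h <;> simp [h]
  push_cast
  linear_combination (-((Equiv.Perm.sign σ : ℤ) : ℝ) * F (σ * τ)) * h

theorem sgs_sum {N : ℕ} {ι : Type*} (s : Finset ι) (F : ι → Equiv.Perm (Fin N) → ℝ) :
    sgs (fun σ => ∑ i ∈ s, F i σ) = ∑ i ∈ s, sgs (F i) := by
  unfold sgs
  rw [Finset.sum_comm]
  apply Finset.sum_congr rfl
  intro σ _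
  rw [Finset.mul_sum]

theorem sgs_const_mul {N : ℕ} (c : ℝ) (F : Equiv.Perm (Fin N) → ℝ) :
    sgs (fun σ => c * F σ) = c * sgs F := by
  unfold sgs
  rw [Finset.mul_sum]
  apply Finset.sum_congr rfl
  intro σ _
  ring

end sums

end Pool.Agent.Lib.MP_3db736_an
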