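import Pool.Agent.Lib.MP_3db736_an.Growth

open MeasureTheory Metric Set Module Filter
open scoped ENNReal NNReal Topology

namespace Pool.Agent.Lib.MP_3db736_an

/-- The depth function of the unit ball, as a function of the radius. -/
noncomputable def dr (r : ℝ) : ℝ := (1 - r ^ 2) / 2

theorem dr_pos {r : ℝ} (h0 : 0 < r) (h1 : r < 1) : 0 < dr r := by
  unfold dr; nlinarith

theorem dr_pos' {r : ℝ} (h0 : 0 ≤ r) (h1 : r < 1) : 0 < dr r := by
  unfold dr; nlinarith

theorem dr_le (r : ℝ) : dr r ≤ 1 - r := by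
  unfold dr; nlinarith [sq_nonneg (r - 1)]

theorem le_dr {r : ℝ} (h0 : 0 < r) (h1 : r < 1) : (1 - r) / 2 ≤ dr r := by
  unfold dr; nlinarith

@[fun_prop]
theorem continuous_dr : Continuous dr := by unfold dr; fun_prop

theorem volume_closedBall_real_le (x r : ℝ) :
    (volume : Measure ℝ) (closedBall x r) ≤ 2 * ENNReal.ofReal (r ^ 1) := by
  rw [Real.volume_closedBall, pow_one, ENNReal.ofReal_mul (by norm_num)]
  norm_num

theorem lintegral_dr {k : ℕ} (hk : 2 ≤ k) {τ : ℝ} (hτ : 0 < τ) :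
    ∫⁻ r in {r | r ∈ Ioo (0 : ℝ) 1 ∧ τ ≤ 1 - r}, ENNReal.ofReal ((dr r ^ k)⁻¹) ≤
      ENNReal.ofReal (2 ^ (k + 3) * (τ ^ (k - 1))⁻¹) := by
  have hm : MeasurableSet {r | r ∈ Ioo (0 : ℝ) 1 ∧ τ ≤ 1 - r} := by
    have h1 : MeasurableSet {r : ℝ | τ ≤ 1 - r} :=
      (isClosed_le continuous_const (by fun_prop)).measurableSet
    exact measurableSet_Ioo.inter h1
  calc ∫⁻ r in {r | r ∈ Ioo (0 : ℝ) 1 ∧ τ ≤ 1 - r}, ENNReal.ofReal ((dr r ^ k)⁻¹)
      ≤ ∫⁻ r in {r | r ∈ Ioo (0 : ℝ) 1 ∧ τ ≤ 1 - r}, ENNReal.ofReal (2 ^ k) *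
          ENNReal.ofReal ((dist r 1 ^ k)⁻¹) := by
        apply setLIntegral_mono' hm
        intro r hr
        have h0 : 0 < r := hr.1.1
        have h1 : r < 1 := hr.1.2
        rw [← ENNReal.ofReal_mul (by positivity)]
        apply ENNReal.ofReal_le_ofReal
        rw [Real.dist_eq, abs_of_neg (by linarith), neg_sub]
        have h2 := le_dr h0 h1
        have h3 : ((1 - r) / 2) ^ k ≤ dr r ^ k := pow_le_pow_left₀ (by linarith) h2 k
        have h4 : 0 < 1 - r := by linarith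
        calc (dr r ^ k)⁻¹ ≤ (((1 - r) / 2) ^ k)⁻¹ := by gcongr
          _ = 2 ^ k * ((1 - r) ^ k)⁻¹ := by rw [div_pow]; field_simp
    _ ≤ ∫⁻ r in {r : ℝ | τ ≤ dist r 1}, ENNReal.ofReal (2 ^ k) *
          ENNReal.ofReal ((dist r 1 ^ k)⁻¹) := by
        apply lintegral_mono_set
        intro r hr
        have h1 : r < 1 := hr.1.2
        have h2 : τ ≤ 1 - r := hr.2
        rw [mem_ofPred_eq, Real.dist_eq, abs_of_neg (by linarith)]
        linarith
    _ = ENNReal.ofReal (2 ^ k) * ∫⁻ r in {r : ℝ | τ ≤ dist r 1}, ENNReal.ofReal ((dist r 1 ^ k)⁻¹) := by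
        rw [lintegral_const_mul' _ _ ENNReal.ofReal_ne_top]
    _ ≤ ENNReal.ofReal (2 ^ k) * (2 * ENNReal.ofReal (2 ^ (1 + 1) * (τ ^ (k - 1))⁻¹)) := by
        gcongr
        exact lintegral_far volume 1 (show 1 < k by omega)
          (fun r _ => volume_closedBall_real_le 1 r) hτ
    _ = _ := by
        rw [show (2 : ℝ≥0∞) = ENNReal.ofReal 2 by norm_num, ← ENNReal.ofReal_mul (by positivity),
          ← ENNReal.ofReal_mul (by positivity)]
        congr 1
        ring

section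

variable {E : Type*} [NormedAddCommGroup E] [InnerProductSpace ℝ E] [MeasurableSpace E]
  [BorelSpace E] [FiniteDimensional ℝ E] [Nontrivial E]

/-- Polar coordinates for a set in the unit ball. -/
theorem setLIntegral_polar (μ : Measure E) [μ.IsAddHaarMeasure] {D : Set E}
    (hD : MeasurableSet D) (hDb : D ⊆ ball 0 1) {f : E → ℝ≥0∞} (hf : Measurable f) :
    ∫⁻ x in D, f x ∂μ = ∫⁻ ζ : sphere (0 : E) 1, ∫⁻ r in Ioo (0 : ℝ) 1,
      ENNReal.ofReal (r ^ (finrank ℝ E - 1)) * D.indicator f (r • (ζ : E))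
        ∂volume ∂μ.toSphere := by
  rw [← lintegral_indicator hD, lintegral_polar μ (hf.indicator hD)]
  apply lintegral_congr
  intro ζ
  rw [← lintegral_indicator measurableSet_Ioi, ← lintegral_indicator measurableSet_Ioo]
  apply lintegral_congr
  intro r
  by_cases h0 : 0 < r
  · by_cases h1 : r < 1
    · rw [indicator_of_mem (show r ∈ Ioi (0 : ℝ) from h0),
        indicator_of_mem (show r ∈ Ioo (0 : ℝ) 1 from ⟨h0, h1⟩)]
    · rw [indicator_of_mem (show r ∈ Ioi (0 : ℝ) from h0),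
        indicator_of_notMem (show r ∉ Ioo (0 : ℝ) 1 from fun h => h1 h.2),
        indicator_of_notMem, mul_zero]
      intro h
      have := hDb h
      rw [mem_ball_zero_iff, norm_smul, Real.norm_eq_abs, abs_of_pos h0] at this
      simp at this
      exact h1 this
  · rw [indicator_of_notMem (show r ∉ Ioi (0 : ℝ) from h0),
      indicator_of_notMem (show r ∉ Ioo (0 : ℝ) 1 from fun h => h0 h.1)]

/-- Radial integral over the bad set, along a fixed ray. -/
theorem ray_lintegral_le {D : Set E} {e : sphere (0 : E) 1 → ℝ≥0∞}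
    {c : ℝ} (hc : 0 < c) {m : ℕ} (hm : 1 ≤ m)
    (h : ∀ (ζ : sphere (0 : E) 1) (r : ℝ), 0 < r → r < 1 → r • (ζ : E) ∈ D →
      ENNReal.ofReal c ≤ ENNReal.ofReal (dr r ^ m) * e ζ) (ζ : sphere (0 : E) 1) :
    ∫⁻ r in Ioo (0 : ℝ) 1, {r : ℝ | r • (ζ : E) ∈ D}.indicator
        (fun r => ENNReal.ofReal ((dr r ^ (m + 1))⁻¹)) r ≤
      ENNReal.ofReal (2 ^ (m + 4) / c) * e ζ := by
  rcases eq_or_ne (e ζ) ∞ with htop | htop
  · rw [htop, ENNReal.mul_top]
    · exact le_top
    · simp only [ne_eq, ENNReal.ofReal_eq_zero, not_le]; positivity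
  set ε : ℝ := (e ζ).toReal with hε
  have heε : e ζ = ENNReal.ofReal ε := (ENNReal.ofReal_toReal htop).symm
  rcases eq_or_lt_of_le (ENNReal.toReal_nonneg : 0 ≤ (e ζ).toReal) with h0 | h0
  · have h0' : e ζ = 0 := by
      rw [heε, hε, ← h0]; simp
    rw [h0', mul_zero]
    apply le_of_eq
    apply setLIntegral_eq_zero measurableSet_Ioo
    intro r hr
    rw [indicator_of_notMem]
    · rfl
    · intro hrD
      have := h ζ r hr.1 hr.2 hrD
      rw [h0', mul_zero] at this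
      simp only [nonpos_iff_eq_zero, ENNReal.ofReal_eq_zero] at this
      linarith
  · have hεpos : 0 < ε := h0
    set τ : ℝ := (c / ε) ^ ((1 : ℝ) / m) with hτ
    have hcε : 0 < c / ε := by positivity
    have hτpos : 0 < τ := Real.rpow_pos_of_pos hcε _
    have hmne : (m : ℝ) ≠ 0 := by
      have : 0 < m := hm
      positivity
    have hτm : τ ^ m = c / ε := by
      rw [hτ, ← Real.rpow_natCast, ← Real.rpow_mul hcε.le, one_div,
        inv_mul_cancel₀ hmne, Real.rpow_one]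
    calc ∫⁻ r in Ioo (0 : ℝ) 1, {r : ℝ | r • (ζ : E) ∈ D}.indicator
            (fun r => ENNReal.ofReal ((dr r ^ (m + 1))⁻¹)) r
        ≤ ∫⁻ r in Ioo (0 : ℝ) 1, {r : ℝ | τ ≤ 1 - r}.indicator
            (fun r => ENNReal.ofReal ((dr r ^ (m + 1))⁻¹)) r := by
          apply setLIntegral_mono' measurableSet_Ioo
          intro r hr
          by_cases hrD : r • (ζ : E) ∈ D
          · rw [indicator_of_mem (show r ∈ {r : ℝ | r • (ζ : E) ∈ D} from hrD),
              indicator_of_mem]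
            have h1 := h ζ r hr.1 hr.2 hrD
            have hdr := dr_pos hr.1 hr.2
            rw [heε, ← ENNReal.ofReal_mul (by positivity),
              ENNReal.ofReal_le_ofReal_iff (by positivity)] at h1
            have h2 : τ ^ m ≤ dr r ^ m := by
              rw [hτm, div_le_iff₀ hεpos]
              exact h1
            have h3 : τ ≤ dr r := le_of_pow_le_pow_left₀ (by omega) hdr.le h2
            exact h3.trans (dr_le r)
          · rw [indicator_of_notMem (show r ∉ {r : ℝ | r • (ζ : E) ∈ D} from hrD)]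
            exact zero_le
      _ = ∫⁻ r in {r | r ∈ Ioo (0 : ℝ) 1 ∧ τ ≤ 1 - r}, ENNReal.ofReal ((dr r ^ (m + 1))⁻¹) := by
          have hmeas : MeasurableSet {r : ℝ | τ ≤ 1 - r} :=
            (isClosed_le continuous_const (by fun_prop)).measurableSet
          rw [setLIntegral_indicator hmeas]
          congr 2
          ext r
          simp [and_comm]
      _ ≤ ENNReal.ofReal (2 ^ (m + 1 + 3) * (τ ^ (m + 1 - 1))⁻¹) :=
          lintegral_dr (by omega) hτpos
      _ = _ := by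
          rw [Nat.add_sub_cancel, hτm, heε, ← ENNReal.ofReal_mul (by positivity)]
          congr 1
          field_simp

/-- The bad set has small shadow at depth `dr r`. -/
theorem shadow_le {D : Set E} (μ : Measure E) {e : sphere (0 : E) 1 → ℝ≥0∞} (he : Measurable e)
    {c : ℝ} (hc : 0 < c) {m : ℕ}
    (h : ∀ (ζ : sphere (0 : E) 1) (r : ℝ), 0 < r → r < 1 → r • (ζ : E) ∈ D →
      ENNReal.ofReal c ≤ ENNReal.ofReal (dr r ^ m) * e ζ) {r : ℝ} (hr : 0 < r) (hr1 : r < 1) :
    μ.toSphere {ζ : sphere (0 : E) 1 | r • (ζ : E) ∈ D} ≤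
      ENNReal.ofReal (dr r ^ m) * (ENNReal.ofReal (1 / c) * ∫⁻ ζ, e ζ ∂μ.toSphere) := by
  have hdr := dr_pos hr hr1
  set ε : ℝ≥0∞ := ENNReal.ofReal (c / dr r ^ m) with hε
  have hε0 : ε ≠ 0 := by
    simp only [hε, ne_eq, ENNReal.ofReal_eq_zero, not_le]; positivity
  have h1 : {ζ : sphere (0 : E) 1 | r • (ζ : E) ∈ D} ⊆ {ζ | ε ≤ e ζ} := by
    intro ζ hζ
    have h2 := h ζ r hr hr1 hζ
    rw [mem_ofPred_eq, hε, ENNReal.ofReal_div_of_pos (by positivity)]
    apply ENNReal.div_le_of_le_mul'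
    exact h2
  have h3 := mul_meas_ge_le_lintegral₀ (μ := μ.toSphere) he.aemeasurable ε
  have h4 : μ.toSphere {ζ | ε ≤ e ζ} ≤ (∫⁻ ζ, e ζ ∂μ.toSphere) / ε := by
    rw [ENNReal.le_div_iff_mul_le (Or.inl hε0) (Or.inl ENNReal.ofReal_ne_top), mul_comm]
    exact h3
  calc μ.toSphere {ζ : sphere (0 : E) 1 | r • (ζ : E) ∈ D} ≤ μ.toSphere {ζ | ε ≤ e ζ} :=
        measure_mono h1
    _ ≤ (∫⁻ ζ, e ζ ∂μ.toSphere) / ε := h4
    _ = _ := by
        rw [hε, div_eq_mul_inv, ← ENNReal.ofReal_inv_of_pos (by positivity), ← mul_assoc,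
          ← ENNReal.ofReal_mul (by positivity), mul_comm]
        congr 2
        field_simp

/-- The bad set has finite weighted volume. -/
theorem setLIntegral_weight_le (μ : Measure E) [μ.IsAddHaarMeasure] {D : Set E}
    (hD : MeasurableSet D) (hDb : D ⊆ ball 0 1) {e : sphere (0 : E) 1 → ℝ≥0∞}
    {c : ℝ} (hc : 0 < c) {m : ℕ} (hm : 1 ≤ m)
    (h : ∀ (ζ : sphere (0 : E) 1) (r : ℝ), 0 < r → r < 1 → r • (ζ : E) ∈ D →
      ENNReal.ofReal c ≤ ENNReal.ofReal (dr r ^ m) * e ζ) :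
    ∫⁻ x in D, ENNReal.ofReal ((dr ‖x‖ ^ (m + 1))⁻¹) ∂μ ≤
      ENNReal.ofReal (2 ^ (m + 4) / c) * ∫⁻ ζ, e ζ ∂μ.toSphere := by
  rw [setLIntegral_polar μ hD hDb (by fun_prop),
    ← lintegral_const_mul' _ _ ENNReal.ofReal_ne_top]
  apply lintegral_mono
  intro ζ
  refine le_trans ?_ (ray_lintegral_le hc hm h ζ)
  apply setLIntegral_mono' measurableSet_Ioo
  intro r hr
  by_cases hrD : r • (ζ : E) ∈ D
  · rw [indicator_of_mem hrD, indicator_of_mem (show r ∈ {r : ℝ | r • (ζ : E) ∈ D} from hrD)]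
    have h1 : ‖r • (ζ : E)‖ = r := by
      rw [norm_smul, Real.norm_eq_abs, abs_of_pos hr.1]; simp
    rw [h1]
    calc _ ≤ 1 * ENNReal.ofReal ((dr r ^ (m + 1))⁻¹) := by
          gcongr
          rw [ENNReal.ofReal_le_one]
          exact pow_le_one₀ hr.1.le hr.2.le
      _ = _ := one_mul _
  · rw [indicator_of_notMem hrD, mul_zero]
    exact zero_le

/-- Weight on polar coordinates. -/
noncomputable def polW (D : Set E) (k : ℕ) (p : sphere (0 : E) 1 × ℝ) : ℝ≥0∞ :=
  {p : sphere (0 : E) 1 × ℝ | p.2 • (p.1 : E) ∈ D}.indicator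
    (fun p => ENNReal.ofReal ((dr p.2 ^ k)⁻¹)) p

omit [FiniteDimensional ℝ E] [Nontrivial E] in
theorem measurable_polW {D : Set E} (hD : MeasurableSet D) (k : ℕ) :
    Measurable (polW D k) := by
  unfold polW
  apply Measurable.indicator
  · fun_prop
  · exact measurableSet_preimage (f := fun p : sphere (0 : E) 1 × ℝ => p.2 • (p.1 : E))
      (by fun_prop) hD

/-- The Riesz kernel on the sphere in polar coordinates. -/
noncomputable def polK (k : ℕ) (p q : sphere (0 : E) 1 × ℝ) : ℝ≥0∞ :=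
  ENNReal.ofReal ((dist p.1 q.1 ^ k)⁻¹)

omit [InnerProductSpace ℝ E] [MeasurableSpace E] [BorelSpace E] [FiniteDimensional ℝ E]
  [Nontrivial E] in
theorem polK_symm (k : ℕ) (p q : sphere (0 : E) 1 × ℝ) : polK k p q = polK k q p := by
  unfold polK; rw [dist_comm]

omit [InnerProductSpace ℝ E] [FiniteDimensional ℝ E] [Nontrivial E] in
theorem measurable_polK [SecondCountableTopology E] (k : ℕ) :
    Measurable (fun pq : (sphere (0 : E) 1 × ℝ) × (sphere (0 : E) 1 × ℝ) =>
      polK k pq.1 pq.2) := by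
  unfold polK
  apply Measurable.ennreal_ofReal
  apply Measurable.inv
  apply Measurable.pow_const
  fun_prop

theorem polar_double_le (μ : Measure E) [μ.IsAddHaarMeasure] {n : ℕ} (hn : 2 ≤ n)
    (hdim : finrank ℝ E = 2 * n) :
    ∃ C : ℝ≥0∞, C ≠ ∞ ∧ ∀ {D : Set E} (_ : MeasurableSet D) {e : sphere (0 : E) 1 → ℝ≥0∞}
      (_ : Measurable e) {c : ℝ} (_ : 0 < c)
      (_ : ∀ (ζ : sphere (0 : E) 1) (r : ℝ), 0 < r → r < 1 → r • (ζ : E) ∈ D →
        ENNReal.ofReal c ≤ ENNReal.ofReal (dr r ^ (2 * n - 1)) * e ζ),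
      ∫⁻ q, ∫⁻ p, polW D (n + 1) p * (polW D (n + 1) q * polK (2 * n - 2) p q)
        ∂(μ.toSphere.prod (volume.restrict (Ioo (0 : ℝ) 1)))
        ∂(μ.toSphere.prod (volume.restrict (Ioo (0 : ℝ) 1))) ≤
      C * (ENNReal.ofReal (1 / c) * ∫⁻ ζ, e ζ ∂μ.toSphere) ^ ((1 : ℝ) / (2 * n - 1 : ℕ)) *
        (ENNReal.ofReal (1 / c) * ∫⁻ ζ, e ζ ∂μ.toSphere) := by
  obtain ⟨C₀, hC₀, hgrow⟩ := toSphere_closedBall_le μ
  set C₁ : ℝ≥0∞ := C₀ * ENNReal.ofReal (2 ^ (2 * n - 1)) + 1 with hC₁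
  refine ⟨2 * (C₁ * ENNReal.ofReal (2 ^ (n + 3)) * ENNReal.ofReal (2 ^ (2 * n + 3))), ?_, ?_⟩
  · refine ENNReal.mul_ne_top (by norm_num) (ENNReal.mul_ne_top (ENNReal.mul_ne_top ?_
      ENNReal.ofReal_ne_top) ENNReal.ofReal_ne_top)
    exact ENNReal.add_ne_top.2 ⟨ENNReal.mul_ne_top hC₀ ENNReal.ofReal_ne_top, by norm_num⟩
  intro D hD e he c hc h
  set 𝓔 : ℝ≥0∞ := ENNReal.ofReal (1 / c) * ∫⁻ ζ, e ζ ∂μ.toSphere with h𝓔
  set ν := μ.toSphere.prod (volume.restrict (Ioo (0 : ℝ) 1)) with hν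
  set W := polW D (n + 1) with hW
  set K : sphere (0 : E) 1 × ℝ → sphere (0 : E) 1 × ℝ → ℝ≥0∞ := polK (2 * n - 2) with hK
  have hWm : Measurable W := measurable_polW hD _
  have hKm : Measurable (fun pq : (sphere (0 : E) 1 × ℝ) × (sphere (0 : E) 1 × ℝ) =>
      K pq.1 pq.2) := measurable_polK _
  -- the half where the first point is deeper
  set H : sphere (0 : E) 1 × ℝ → sphere (0 : E) 1 × ℝ → ℝ≥0∞ := fun p q =>
    {p : sphere (0 : E) 1 × ℝ | p.2 ≤ q.2}.indicator (fun p => W p * (W q * K p q)) p with hH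
  have hHm : Measurable (fun pq : (sphere (0 : E) 1 × ℝ) × (sphere (0 : E) 1 × ℝ) =>
      H pq.1 pq.2) := by
    have : (fun pq : (sphere (0 : E) 1 × ℝ) × (sphere (0 : E) 1 × ℝ) => H pq.1 pq.2) =
        {pq : (sphere (0 : E) 1 × ℝ) × (sphere (0 : E) 1 × ℝ) | pq.1.2 ≤ pq.2.2}.indicator
          (fun pq => W pq.1 * (W pq.2 * K pq.1 pq.2)) := by
      ext pq
      simp [hH, indicator]
    rw [this]
    apply Measurable.indicator
    · exact (hWm.comp measurable_fst).mul ((hWm.comp measurable_snd).mul hKm)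
    · exact measurableSet_le (by fun_prop) (by fun_prop)
  have hsplit : ∀ p q, W p * (W q * K p q) ≤ H p q + H q p := by
    intro p q
    rcases le_total p.2 q.2 with hpq | hpq
    · refine le_trans (le_of_eq ?_) le_self_add
      simp only [hH]
      rw [indicator_of_mem (show p ∈ {p : sphere (0 : E) 1 × ℝ | p.2 ≤ q.2} from hpq)]
    · refine le_trans (le_of_eq ?_) le_add_self
      simp only [hH]
      rw [indicator_of_mem (show q ∈ {q : sphere (0 : E) 1 × ℝ | q.2 ≤ p.2} from hpq)]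
      rw [hK, polK_symm]
      ring
  have hstep1 : ∫⁻ q, ∫⁻ p, W p * (W q * K p q) ∂ν ∂ν ≤ 2 * ∫⁻ q, ∫⁻ p, H p q ∂ν ∂ν := by
    calc ∫⁻ q, ∫⁻ p, W p * (W q * K p q) ∂ν ∂ν
        ≤ ∫⁻ q, ∫⁻ p, (H p q + H q p) ∂ν ∂ν :=
          lintegral_mono fun q => lintegral_mono fun p => hsplit p q
      _ = ∫⁻ q, ((∫⁻ p, H p q ∂ν) + ∫⁻ p, H q p ∂ν) ∂ν := by
          apply lintegral_congr
          intro q
          rw [lintegral_add_left]
          exact hHm.comp (measurable_id.prodMk measurable_const)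
      _ = (∫⁻ q, ∫⁻ p, H p q ∂ν ∂ν) + ∫⁻ q, ∫⁻ p, H q p ∂ν ∂ν := by
          rw [lintegral_add_left]
          exact Measurable.lintegral_prod_left' (f := fun pq : (sphere (0 : E) 1 × ℝ) ×
            (sphere (0 : E) 1 × ℝ) => H pq.1 pq.2) hHm
      _ = (∫⁻ q, ∫⁻ p, H p q ∂ν ∂ν) + ∫⁻ q, ∫⁻ p, H p q ∂ν ∂ν := by
          congr 1
          rw [lintegral_lintegral_swap]
          exact hHm.aemeasurable
      _ = _ := by ring
  have hinner : ∀ q : sphere (0 : E) 1 × ℝ, q.2 ∈ Ioo (0 : ℝ) 1 → ∫⁻ p, H p q ∂ν ≤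
      W q * (C₁ * 𝓔 ^ ((1 : ℝ) / (2 * n - 1 : ℕ)) *
        ENNReal.ofReal (2 ^ (n + 3) * ((dr q.2) ^ (n - 1))⁻¹)) := by
    intro q hq
    have hk : 2 * n - 2 + 1 = 2 * n - 1 := by omega
    have hkR : (((2 * n - 2 : ℕ) : ℝ) + 1) = ((2 * n - 1 : ℕ) : ℝ) := by
      rw [← hk]; push_cast; ring
    rw [hν, lintegral_prod_symm' (fun p => H p q)
      (hHm.comp (measurable_id.prodMk measurable_const))]
    calc ∫⁻ r in Ioo (0 : ℝ) 1, ∫⁻ ζ, H (ζ, r) q ∂μ.toSphere
        ≤ ∫⁻ r in Ioo (0 : ℝ) 1, {r : ℝ | 1 - q.2 ≤ 1 - r}.indicator (fun r =>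
            (W q * (C₁ * 𝓔 ^ ((1 : ℝ) / (2 * n - 1 : ℕ)))) * ENNReal.ofReal ((dr r ^ n)⁻¹)) r := by
          apply setLIntegral_mono' measurableSet_Ioo
          intro r hr
          have hdr := dr_pos hr.1 hr.2
          by_cases hrq : r ≤ q.2
          · rw [indicator_of_mem (show r ∈ {r : ℝ | 1 - q.2 ≤ 1 - r} by
              simp only [mem_ofPred_eq]; linarith)]
            set A : Set (sphere (0 : E) 1) := {ζ | r • (ζ : E) ∈ D} with hA
            have hAm : MeasurableSet A :=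
              measurableSet_preimage (f := fun ζ : sphere (0 : E) 1 => r • (ζ : E))
                (by fun_prop) hD
            calc ∫⁻ ζ, H (ζ, r) q ∂μ.toSphere
                = ∫⁻ ζ, (W q * ENNReal.ofReal ((dr r ^ (n + 1))⁻¹)) * A.indicator
                    (fun ζ => ENNReal.ofReal ((dist ζ q.1 ^ (2 * n - 2))⁻¹)) ζ ∂μ.toSphere := by
                  apply lintegral_congr
                  intro ζ
                  simp only [hH]
                  rw [indicator_of_mem (show ((ζ, r) : sphere (0 : E) 1 × ℝ) ∈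
                    {p : sphere (0 : E) 1 × ℝ | p.2 ≤ q.2} from hrq)]
                  by_cases hζ : ζ ∈ A
                  · rw [indicator_of_mem hζ]
                    have : W (ζ, r) = ENNReal.ofReal ((dr r ^ (n + 1))⁻¹) := by
                      simp only [hW, polW]
                      rw [indicator_of_mem (show ((ζ, r) : sphere (0 : E) 1 × ℝ) ∈
                        {p : sphere (0 : E) 1 × ℝ | p.2 • (p.1 : E) ∈ D} from hζ)]
                    rw [this]
                    simp only [hK, polK]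
                    ring
                  · rw [indicator_of_notMem hζ]
                    have : W (ζ, r) = 0 := by
                      simp only [hW, polW]
                      rw [indicator_of_notMem (show ((ζ, r) : sphere (0 : E) 1 × ℝ) ∉
                        {p : sphere (0 : E) 1 × ℝ | p.2 • (p.1 : E) ∈ D} from hζ)]
                    rw [this, zero_mul, mul_zero]
              _ = (W q * ENNReal.ofReal ((dr r ^ (n + 1))⁻¹)) * ∫⁻ ζ in A,
                    ENNReal.ofReal ((dist ζ q.1 ^ (2 * n - 2))⁻¹) ∂μ.toSphere := by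
                  rw [lintegral_const_mul _ (by
                    apply Measurable.indicator _ hAm
                    apply Measurable.ennreal_ofReal
                    apply Measurable.inv
                    apply Measurable.pow_const
                    fun_prop), lintegral_indicator hAm]
              _ ≤ (W q * ENNReal.ofReal ((dr r ^ (n + 1))⁻¹)) *
                    (C₁ * (μ.toSphere A) ^ ((1 : ℝ) / (2 * n - 1 : ℕ))) := by
                  gcongr
                  have := lintegral_rearr (k := 2 * n - 2) μ.toSphere q.1 (by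
                    intro r hr
                    have := hgrow q.1 r hr
                    rwa [hdim, ← hk] at this) hAm (measure_ne_top _ _)
                  rw [hk, hkR] at this
                  exact this
              _ ≤ (W q * ENNReal.ofReal ((dr r ^ (n + 1))⁻¹)) *
                    (C₁ * (ENNReal.ofReal (dr r) * 𝓔 ^ ((1 : ℝ) / (2 * n - 1 : ℕ)))) := by
                  gcongr
                  have h1 := shadow_le μ he hc h hr.1 hr.2
                  have hne : ((2 * n - 1 : ℕ) : ℝ) ≠ 0 := by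
                    have : 0 < 2 * n - 1 := by omega
                    positivity
                  calc (μ.toSphere A) ^ ((1 : ℝ) / (2 * n - 1 : ℕ))
                      ≤ (ENNReal.ofReal (dr r ^ (2 * n - 1)) * 𝓔) ^
                          ((1 : ℝ) / (2 * n - 1 : ℕ)) := by
                        gcongr
                    _ = (ENNReal.ofReal (dr r ^ (2 * n - 1))) ^ ((1 : ℝ) / (2 * n - 1 : ℕ)) *
                          𝓔 ^ ((1 : ℝ) / (2 * n - 1 : ℕ)) := by
                        rw [ENNReal.mul_rpow_of_nonneg _ _ (by positivity)]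
                    _ = _ := by
                        congr 1
                        rw [ENNReal.ofReal_pow hdr.le, ← ENNReal.rpow_natCast, ← ENNReal.rpow_mul,
                          mul_one_div_cancel hne, ENNReal.rpow_one]
              _ = (W q * (C₁ * 𝓔 ^ ((1 : ℝ) / (2 * n - 1 : ℕ)))) *
                    (ENNReal.ofReal ((dr r ^ (n + 1))⁻¹) * ENNReal.ofReal (dr r)) := by ring
              _ = _ := by
                  congr 1
                  rw [← ENNReal.ofReal_mul (by positivity)]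
                  congr 1
                  rw [pow_succ]
                  field_simp
          · rw [indicator_of_notMem (show r ∉ {r : ℝ | 1 - q.2 ≤ 1 - r} by
              simp only [mem_ofPred_eq]; intro h'; exact hrq (by linarith))]
            apply le_of_eq
            rw [lintegral_eq_zero_iff']
            · refine Filter.Eventually.of_forall fun ζ => ?_
              simp only [hH]
              rw [indicator_of_notMem (show ((ζ, r) : sphere (0 : E) 1 × ℝ) ∉
                {p : sphere (0 : E) 1 × ℝ | p.2 ≤ q.2} from hrq)]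
              rfl
            · apply Measurable.aemeasurable
              exact hHm.comp ((measurable_id.prodMk measurable_const).prodMk measurable_const)
      _ = (W q * (C₁ * 𝓔 ^ ((1 : ℝ) / (2 * n - 1 : ℕ)))) *
            ∫⁻ r in {r | r ∈ Ioo (0 : ℝ) 1 ∧ 1 - q.2 ≤ 1 - r}, ENNReal.ofReal ((dr r ^ n)⁻¹) := by
          have hmeas : MeasurableSet {r : ℝ | 1 - q.2 ≤ 1 - r} :=
            (isClosed_le continuous_const (by fun_prop)).measurableSet
          rw [setLIntegral_indicator hmeas, lintegral_const_mul _ (by fun_prop)]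
          congr 3
          ext r
          simp [and_comm]
      _ ≤ (W q * (C₁ * 𝓔 ^ ((1 : ℝ) / (2 * n - 1 : ℕ)))) *
            ENNReal.ofReal (2 ^ (n + 3) * ((1 - q.2) ^ (n - 1))⁻¹) := by
          gcongr
          exact lintegral_dr hn (by linarith [hq.2])
      _ ≤ (W q * (C₁ * 𝓔 ^ ((1 : ℝ) / (2 * n - 1 : ℕ)))) *
            ENNReal.ofReal (2 ^ (n + 3) * ((dr q.2) ^ (n - 1))⁻¹) := by
          have h1 := dr_pos hq.1 hq.2
          have h2 := dr_le q.2
          gcongr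
      _ = _ := by ring
  have hWW : ∀ q : sphere (0 : E) 1 × ℝ, q.2 ∈ Ioo (0 : ℝ) 1 →
      W q * ENNReal.ofReal (2 ^ (n + 3) * ((dr q.2) ^ (n - 1))⁻¹) =
        ENNReal.ofReal (2 ^ (n + 3)) * polW D (2 * n) q := by
    intro q hq
    have h1 := dr_pos hq.1 hq.2
    simp only [hW, polW]
    by_cases hqD : q ∈ {p : sphere (0 : E) 1 × ℝ | p.2 • (p.1 : E) ∈ D}
    · rw [indicator_of_mem hqD, indicator_of_mem hqD, ← ENNReal.ofReal_mul (by positivity),
        ← ENNReal.ofReal_mul (by positivity)]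
      congr 1
      have e1 : 2 * n = (n + 1) + (n - 1) := by omega
      rw [e1, pow_add (dr q.2) (n + 1) (n - 1), mul_inv]
      ring
    · rw [indicator_of_notMem hqD, indicator_of_notMem hqD]; simp
  have hstep2 : ∫⁻ q, ∫⁻ p, H p q ∂ν ∂ν ≤
      C₁ * 𝓔 ^ ((1 : ℝ) / (2 * n - 1 : ℕ)) * ENNReal.ofReal (2 ^ (n + 3)) *
        (ENNReal.ofReal (2 ^ (2 * n + 3)) * 𝓔) := by
    calc ∫⁻ q, ∫⁻ p, H p q ∂ν ∂ν
        ≤ ∫⁻ q, (C₁ * 𝓔 ^ ((1 : ℝ) / (2 * n - 1 : ℕ)) * ENNReal.ofReal (2 ^ (n + 3))) *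
            polW D (2 * n) q ∂ν := by
          apply lintegral_mono_ae
          have hae : ∀ᵐ q ∂ν, q.2 ∈ Ioo (0 : ℝ) 1 := by
            have h1 : ∀ᵐ r ∂(volume.restrict (Ioo (0 : ℝ) 1)), r ∈ Ioo (0 : ℝ) 1 :=
              ae_restrict_mem measurableSet_Ioo
            exact Measure.quasiMeasurePreserving_snd.ae h1
          filter_upwards [hae] with q hq
          refine (hinner q hq).trans (le_of_eq ?_)
          rw [mul_assoc (C₁ * 𝓔 ^ ((1 : ℝ) / (2 * n - 1 : ℕ))), ← hWW q hq]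
          ring
      _ = (C₁ * 𝓔 ^ ((1 : ℝ) / (2 * n - 1 : ℕ)) * ENNReal.ofReal (2 ^ (n + 3))) *
            ∫⁻ q, polW D (2 * n) q ∂ν := by
          rw [lintegral_const_mul _ (measurable_polW hD _)]
      _ ≤ _ := by
          gcongr
          rw [hν, lintegral_prod _ (measurable_polW hD _).aemeasurable, h𝓔, ← mul_assoc,
            ← ENNReal.ofReal_mul (by positivity), ← lintegral_const_mul' _ _ ENNReal.ofReal_ne_top]
          apply lintegral_mono
          intro ζ
          have h1 := ray_lintegral_le hc (show 1 ≤ 2 * n - 1 by omega) h ζ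
          have e1 : 2 * n - 1 + 1 = 2 * n := by omega
          have e2 : 2 * n - 1 + 4 = 2 * n + 3 := by omega
          rw [e1, e2] at h1
          rw [mul_one_div]
          exact h1
  calc _ ≤ 2 * ∫⁻ q, ∫⁻ p, H p q ∂ν ∂ν := hstep1
    _ ≤ 2 * (C₁ * 𝓔 ^ ((1 : ℝ) / (2 * n - 1 : ℕ)) * ENNReal.ofReal (2 ^ (n + 3)) *
        (ENNReal.ofReal (2 ^ (2 * n + 3)) * 𝓔)) := by gcongr
    _ = _ := by ring

theorem toSphere_singleton_eq_zero (μ : Measure E) [μ.IsAddHaarMeasure] (h2 : 2 ≤ finrank ℝ E)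
    (ζ : sphere (0 : E) 1) : μ.toSphere {ζ} = 0 := by
  obtain ⟨C₀, hC₀, hgrow⟩ := toSphere_closedBall_le μ
  have h : Tendsto (fun r : ℝ => C₀ * ENNReal.ofReal (r ^ (finrank ℝ E - 1))) (𝓝[>] 0) (𝓝 0) := by
    have h1 : Tendsto (fun r : ℝ => ENNReal.ofReal (r ^ (finrank ℝ E - 1))) (𝓝[>] 0) (𝓝 0) := by
      have h3 : Tendsto (fun r : ℝ => ENNReal.ofReal (r ^ (finrank ℝ E - 1))) (𝓝 0)
          (𝓝 (ENNReal.ofReal (0 ^ (finrank ℝ E - 1)))) :=
        Continuous.tendsto (ENNReal.continuous_ofReal.comp (by fun_prop)) 0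
      rw [zero_pow (by omega), ENNReal.ofReal_zero] at h3
      exact h3.mono_left nhdsWithin_le_nhds
    have := ENNReal.Tendsto.const_mul h1 (Or.inr hC₀)
    simpa using this
  refine le_antisymm (ge_of_tendsto h ?_) zero_le
  filter_upwards [self_mem_nhdsWithin] with r hr
  refine le_trans (measure_mono ?_) (hgrow ζ r hr)
  intro x hx
  rw [mem_singleton_iff.1 hx]
  exact mem_closedBall_self (le_of_lt hr)

/-- Comparison of the Riesz kernels in the ball and on the sphere. -/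
theorem kernel_comparison {n : ℕ} (hn : 1 ≤ n) (ζ ζ' : sphere (0 : E) 1) (hne : ζ ≠ ζ')
    {r r' : ℝ} (hr : r ∈ Ioo (0 : ℝ) 1) (hr' : r' ∈ Ioo (0 : ℝ) 1) :
    r ^ (2 * n - 1) * r' ^ (2 * n - 1) * (dist (r • (ζ : E)) (r' • (ζ' : E)) ^ (2 * n - 2))⁻¹ ≤
      (dist ζ ζ' ^ (2 * n - 2))⁻¹ := by
  have h1 : ‖(ζ : E)‖ = 1 := by simp
  have h2 : ‖(ζ' : E)‖ = 1 := by simp
  have hr0 := hr.1
  have hr0' := hr'.1
  have hdist : r * r' * dist ζ ζ' ^ 2 ≤ dist (r • (ζ : E)) (r' • (ζ' : E)) ^ 2 := by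
    rw [Subtype.dist_eq, dist_eq_norm, dist_eq_norm, @norm_sub_sq_real, @norm_sub_sq_real,
      norm_smul, norm_smul, h1, h2, inner_smul_left, inner_smul_right]
    simp only [Real.norm_eq_abs, abs_of_pos hr0, abs_of_pos hr0', conj_trivial]
    nlinarith [sq_nonneg (r - r')]
  have hpos : 0 < dist ζ ζ' := dist_pos.2 hne
  obtain ⟨k, rfl⟩ : ∃ k, n = k + 1 := ⟨n - 1, by omega⟩
  have e1 : 2 * (k + 1) - 1 = 2 * k + 1 := by omega
  have e2 : 2 * (k + 1) - 2 = 2 * k := by omega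
  rw [e1, e2, pow_mul (dist (r • (ζ : E)) _), pow_mul (dist ζ ζ')]
  have h3 : (r * r' * dist ζ ζ' ^ 2) ^ k ≤ (dist (r • (ζ : E)) (r' • (ζ' : E)) ^ 2) ^ k :=
    pow_le_pow_left₀ (by positivity) hdist k
  calc r ^ (2 * k + 1) * r' ^ (2 * k + 1) * ((dist (r • (ζ : E)) (r' • (ζ' : E)) ^ 2) ^ k)⁻¹
      ≤ r ^ (2 * k + 1) * r' ^ (2 * k + 1) * ((r * r' * dist ζ ζ' ^ 2) ^ k)⁻¹ := by gcongr
    _ = (r * r') ^ (k + 1) * ((dist ζ ζ' ^ 2) ^ k)⁻¹ := by
        rw [mul_pow (r * r'), mul_pow r r' k, mul_pow r r' (k + 1)]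
        rw [show 2 * k + 1 = k + (k + 1) by ring, pow_add r, pow_add r']
        have : r ^ k ≠ 0 := by positivity
        have : r' ^ k ≠ 0 := by positivity
        field_simp
    _ ≤ 1 * ((dist ζ ζ' ^ 2) ^ k)⁻¹ := by
        gcongr
        apply pow_le_one₀ (by positivity)
        nlinarith [hr.2, hr'.2]
    _ = _ := one_mul _

/-- The double potential of the bad set. -/
theorem double_potential_le (μ : Measure E) [μ.IsAddHaarMeasure] {n : ℕ} (hn : 2 ≤ n)
    (hdim : finrank ℝ E = 2 * n) :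
    ∃ C : ℝ≥0∞, C ≠ ∞ ∧ ∀ {D : Set E} (_ : MeasurableSet D) (_ : D ⊆ ball 0 1)
      {e : sphere (0 : E) 1 → ℝ≥0∞}
      (_ : Measurable e) {c : ℝ} (_ : 0 < c)
      (_ : ∀ (ζ : sphere (0 : E) 1) (r : ℝ), 0 < r → r < 1 → r • (ζ : E) ∈ D →
        ENNReal.ofReal c ≤ ENNReal.ofReal (dr r ^ (2 * n - 1)) * e ζ),
      ∫⁻ z' in D, ∫⁻ z in D, ENNReal.ofReal ((dr ‖z‖ ^ (n + 1))⁻¹) *
          (ENNReal.ofReal ((dr ‖z'‖ ^ (n + 1))⁻¹) * ENNReal.ofReal ((dist z z' ^ (2 * n - 2))⁻¹))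
          ∂μ ∂μ ≤
      C * (ENNReal.ofReal (1 / c) * ∫⁻ ζ, e ζ ∂μ.toSphere) ^ ((1 : ℝ) / (2 * n - 1 : ℕ)) *
        (ENNReal.ofReal (1 / c) * ∫⁻ ζ, e ζ ∂μ.toSphere) := by
  obtain ⟨C, hC, hmain⟩ := polar_double_le μ hn hdim
  refine ⟨C, hC, ?_⟩
  intro D hD hDb e he c hc h
  refine le_trans ?_ (hmain hD he hc h)
  set ν := μ.toSphere.prod (volume.restrict (Ioo (0 : ℝ) 1)) with hν
  have hpol : ∀ f : E → ℝ≥0∞, Measurable f → ∫⁻ x in D, f x ∂μ =
      ∫⁻ p, ENNReal.ofReal (p.2 ^ (2 * n - 1)) * D.indicator f (p.2 • (p.1 : E)) ∂ν := by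
    intro f hf
    rw [setLIntegral_polar μ hD hDb hf, hν, lintegral_prod, hdim]
    apply Measurable.aemeasurable
    apply Measurable.mul (by fun_prop)
    exact (hf.indicator hD).comp (by fun_prop)
  obtain ⟨Φ, hΦ⟩ : ∃ Φ : E → E → ℝ≥0∞, Φ = fun z z' => ENNReal.ofReal ((dr ‖z‖ ^ (n + 1))⁻¹) *
          (ENNReal.ofReal ((dr ‖z'‖ ^ (n + 1))⁻¹) *
            ENNReal.ofReal ((dist z z' ^ (2 * n - 2))⁻¹)) := ⟨_, rfl⟩
  have hgoal : ∫⁻ z' in D, ∫⁻ z in D, ENNReal.ofReal ((dr ‖z‖ ^ (n + 1))⁻¹) *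
          (ENNReal.ofReal ((dr ‖z'‖ ^ (n + 1))⁻¹) * ENNReal.ofReal ((dist z z' ^ (2 * n - 2))⁻¹))
          ∂μ ∂μ = ∫⁻ z' in D, ∫⁻ z in D, Φ z z' ∂μ ∂μ := by rw [hΦ]
  rw [hgoal]
  have hm2 : Measurable (Function.uncurry Φ) := by
    rw [hΦ]
    have h1 : Measurable (fun pq : E × E => dist pq.1 pq.2) := by fun_prop
    have h2 : Measurable (fun pq : E × E => ENNReal.ofReal ((dist pq.1 pq.2 ^ (2 * n - 2))⁻¹)) :=
      (h1.pow_const _).inv.ennreal_ofReal
    have h3 : Measurable (fun pq : E × E => ENNReal.ofReal ((dr ‖pq.1‖ ^ (n + 1))⁻¹)) := by fun_prop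
    have h4 : Measurable (fun pq : E × E => ENNReal.ofReal ((dr ‖pq.2‖ ^ (n + 1))⁻¹)) := by fun_prop
    exact h3.mul (h4.mul h2)
  have hae : ∀ᵐ q ∂ν, q.2 ∈ Ioo (0 : ℝ) 1 := by
    have h1 : ∀ᵐ r ∂(volume.restrict (Ioo (0 : ℝ) 1)), r ∈ Ioo (0 : ℝ) 1 :=
      ae_restrict_mem measurableSet_Ioo
    exact Measure.quasiMeasurePreserving_snd.ae h1
  have hmF : Measurable (fun z' => ∫⁻ z in D, Φ z z' ∂μ) :=
    Measurable.lintegral_prod_left' (f := Function.uncurry Φ) hm2
  rw [hpol _ hmF]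
  apply lintegral_mono_ae
  filter_upwards [hae] with q hq
  by_cases hqD : q.2 • (q.1 : E) ∈ D
  · have hq1 : D.indicator (fun z' => ∫⁻ z in D, Φ z z' ∂μ) (q.2 • (q.1 : E)) =
        ∫⁻ z in D, Φ z (q.2 • (q.1 : E)) ∂μ := indicator_of_mem hqD _
    have hmq : Measurable (fun z => Φ z (q.2 • (q.1 : E))) := hm2.of_uncurry_right
    have hq2 := hpol (fun z => Φ z (q.2 • (q.1 : E))) hmq
    rw [hq1, hq2, ← lintegral_const_mul' _ _ ENNReal.ofReal_ne_top]
    apply lintegral_mono_ae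
    have hae2 : ∀ᵐ p ∂ν, p.1 ≠ q.1 := by
      have h1 : ∀ᵐ ζ ∂μ.toSphere, ζ ≠ q.1 := by
        rw [ae_iff]
        simp only [ne_eq, not_not]
        exact toSphere_singleton_eq_zero μ (by omega) q.1
      exact Measure.quasiMeasurePreserving_fst.ae h1
    filter_upwards [hae, hae2] with p hp hpq
    by_cases hpD : p.2 • (p.1 : E) ∈ D
    · have hW : ∀ p : sphere (0 : E) 1 × ℝ, p.2 • (p.1 : E) ∈ D →
          polW D (n + 1) p = ENNReal.ofReal ((dr p.2 ^ (n + 1))⁻¹) := by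
        intro p hp
        unfold polW
        rw [indicator_of_mem (show p ∈ {p : sphere (0 : E) 1 × ℝ | p.2 • (p.1 : E) ∈ D} from hp)]
      rw [indicator_of_mem hpD, hW p hpD, hW q hqD]
      have h1 : ‖p.2 • (p.1 : E)‖ = p.2 := by
        rw [norm_smul, Real.norm_eq_abs, abs_of_pos hp.1]; simp
      have h2 : ‖q.2 • (q.1 : E)‖ = q.2 := by
        rw [norm_smul, Real.norm_eq_abs, abs_of_pos hq.1]; simp
      rw [hΦ]
      simp only
      rw [h1, h2, polK]
      have h3 := kernel_comparison (show 1 ≤ n by omega) p.1 q.1 hpq hp hq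
      have h4 : ENNReal.ofReal (q.2 ^ (2 * n - 1)) * ENNReal.ofReal (p.2 ^ (2 * n - 1)) *
          ENNReal.ofReal ((dist (p.2 • (p.1 : E)) (q.2 • (q.1 : E)) ^ (2 * n - 2))⁻¹) ≤
          ENNReal.ofReal ((dist p.1 q.1 ^ (2 * n - 2))⁻¹) := by
        have hp0 := hp.1
        have hq0 := hq.1
        rw [← ENNReal.ofReal_mul (by positivity), ← ENNReal.ofReal_mul (by positivity)]
        apply ENNReal.ofReal_le_ofReal
        rw [mul_comm (q.2 ^ (2 * n - 1))]
        exact h3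
      calc _ = ENNReal.ofReal ((dr p.2 ^ (n + 1))⁻¹) * (ENNReal.ofReal ((dr q.2 ^ (n + 1))⁻¹) *
            (ENNReal.ofReal (q.2 ^ (2 * n - 1)) * ENNReal.ofReal (p.2 ^ (2 * n - 1)) *
          ENNReal.ofReal ((dist (p.2 • (p.1 : E)) (q.2 • (q.1 : E)) ^ (2 * n - 2))⁻¹))) := by ring
        _ ≤ _ := by gcongr
    · rw [indicator_of_notMem hpD, mul_zero, mul_zero]
      exact zero_le
  · rw [indicator_of_notMem hqD, mul_zero]
    exact zero_le

omit [Nontrivial E] in
theorem haar_growth (μ : Measure E) [μ.IsAddHaarMeasure] (x : E) (r : ℝ) (hr : 0 < r) :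
    μ (closedBall x r) ≤ μ (closedBall 0 1) * ENNReal.ofReal (r ^ finrank ℝ E) := by
  rw [Measure.addHaar_closedBall' _ _ hr.le, mul_comm]

omit [Nontrivial E] in
/-- First moment estimate for the kernel of the homotopy operator. -/
theorem kernel_first (μ : Measure E) [μ.IsAddHaarMeasure] {n : ℕ} (hn : 2 ≤ n)
    (hdim : finrank ℝ E = 2 * n) {c : ℝ} (hc : 0 < c) (z : E) {δ : ℝ} (hδ : 0 < δ) :
    ∫⁻ x in {x | c * (δ + dist x z) ≤ dr ‖x‖},
      ENNReal.ofReal ((dr ‖x‖ ^ n)⁻¹) * ENNReal.ofReal ((dist x z ^ (2 * n - 1))⁻¹) ∂μ ≤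
    μ (closedBall 0 1) * ENNReal.ofReal (2 ^ (2 * n + 2) * (c ^ n)⁻¹) *
      ENNReal.ofReal ((δ ^ (n - 1))⁻¹) := by
  set A := {x : E | c * (δ + dist x z) ≤ dr ‖x‖} with hA
  have hAm : MeasurableSet A :=
    (isClosed_le (by fun_prop) (by fun_prop)).measurableSet
  have hfm : MeasurableSet {y : E | δ ≤ dist y z} :=
    (isClosed_le continuous_const (by fun_prop)).measurableSet
  have hpt : ∀ x ∈ A, ENNReal.ofReal ((dr ‖x‖ ^ n)⁻¹) ≤
      ENNReal.ofReal ((c ^ n)⁻¹) * ENNReal.ofReal (((δ + dist x z) ^ n)⁻¹) := by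
    intro x hx
    rw [← ENNReal.ofReal_mul (by positivity), ← mul_inv, ← mul_pow]
    apply ENNReal.ofReal_le_ofReal
    have h1 : c * (δ + dist x z) ≤ dr ‖x‖ := hx
    have h2 : 0 < δ + dist x z := by positivity
    gcongr
  have hnear : ∫⁻ x in A ∩ closedBall z δ,
      ENNReal.ofReal ((dr ‖x‖ ^ n)⁻¹) * ENNReal.ofReal ((dist x z ^ (2 * n - 1))⁻¹) ∂μ ≤
      ENNReal.ofReal ((c ^ n)⁻¹ * (δ ^ n)⁻¹) *
        (μ (closedBall 0 1) * ENNReal.ofReal (2 ^ (2 * n) * δ)) := by
    calc ∫⁻ x in A ∩ closedBall z δ,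
          ENNReal.ofReal ((dr ‖x‖ ^ n)⁻¹) * ENNReal.ofReal ((dist x z ^ (2 * n - 1))⁻¹) ∂μ
        ≤ ∫⁻ x in A ∩ closedBall z δ, ENNReal.ofReal ((c ^ n)⁻¹ * (δ ^ n)⁻¹) *
            ENNReal.ofReal ((dist x z ^ (2 * n - 1))⁻¹) ∂μ := by
          apply setLIntegral_mono' (hAm.inter measurableSet_closedBall)
          intro x hx
          refine mul_le_mul' ((hpt x hx.1).trans ?_) le_rfl
          rw [← ENNReal.ofReal_mul (by positivity)]
          apply ENNReal.ofReal_le_ofReal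
          have : (0 : ℝ) ≤ dist x z := dist_nonneg
          gcongr
          linarith
      _ ≤ ∫⁻ x in closedBall z δ, ENNReal.ofReal ((c ^ n)⁻¹ * (δ ^ n)⁻¹) *
            ENNReal.ofReal ((dist x z ^ (2 * n - 1))⁻¹) ∂μ :=
          lintegral_mono_set inter_subset_right
      _ = ENNReal.ofReal ((c ^ n)⁻¹ * (δ ^ n)⁻¹) * ∫⁻ x in closedBall z δ,
            ENNReal.ofReal ((dist x z ^ (2 * n - 1))⁻¹) ∂μ := by
          rw [lintegral_const_mul' _ _ ENNReal.ofReal_ne_top]
      _ ≤ _ := by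
          gcongr
          have := lintegral_near μ z (show 2 * n - 1 < finrank ℝ E by omega)
            (fun r hr => haar_growth μ z r hr) hδ
          have e1 : finrank ℝ E - (2 * n - 1) = 1 := by omega
          have e2 : 2 * n - 1 + 1 = 2 * n := by omega
          rw [e1, e2, pow_one] at this
          exact this
  have hfar : ∫⁻ x in A ∩ {y : E | δ ≤ dist y z},
      ENNReal.ofReal ((dr ‖x‖ ^ n)⁻¹) * ENNReal.ofReal ((dist x z ^ (2 * n - 1))⁻¹) ∂μ ≤
      ENNReal.ofReal ((c ^ n)⁻¹) *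
        (μ (closedBall 0 1) * ENNReal.ofReal (2 ^ (2 * n + 1) * (δ ^ (n - 1))⁻¹)) := by
    calc ∫⁻ x in A ∩ {y : E | δ ≤ dist y z},
          ENNReal.ofReal ((dr ‖x‖ ^ n)⁻¹) * ENNReal.ofReal ((dist x z ^ (2 * n - 1))⁻¹) ∂μ
        ≤ ∫⁻ x in A ∩ {y : E | δ ≤ dist y z}, ENNReal.ofReal ((c ^ n)⁻¹) *
            ENNReal.ofReal ((dist x z ^ (3 * n - 1))⁻¹) ∂μ := by
          apply setLIntegral_mono' (hAm.inter hfm)
          intro x hx
          refine (mul_le_mul' (hpt x hx.1) le_rfl).trans ?_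
          rw [mul_assoc]
          refine mul_le_mul' le_rfl ?_
          have h4 : δ ≤ dist x z := hx.2
          have h5 : 0 < dist x z := hδ.trans_le h4
          rw [← ENNReal.ofReal_mul (by positivity)]
          apply ENNReal.ofReal_le_ofReal
          rw [show 3 * n - 1 = n + (2 * n - 1) by omega, pow_add (dist x z) n (2 * n - 1), mul_inv]
          gcongr
          linarith
      _ ≤ ∫⁻ x in {y : E | δ ≤ dist y z}, ENNReal.ofReal ((c ^ n)⁻¹) *
            ENNReal.ofReal ((dist x z ^ (3 * n - 1))⁻¹) ∂μ :=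
          lintegral_mono_set inter_subset_right
      _ = ENNReal.ofReal ((c ^ n)⁻¹) * ∫⁻ x in {y : E | δ ≤ dist y z},
            ENNReal.ofReal ((dist x z ^ (3 * n - 1))⁻¹) ∂μ := by
          rw [lintegral_const_mul' _ _ ENNReal.ofReal_ne_top]
      _ ≤ _ := by
          gcongr
          have := lintegral_far μ z (show finrank ℝ E < 3 * n - 1 by omega)
            (fun r hr => haar_growth μ z r hr) hδ
          have e1 : 3 * n - 1 - finrank ℝ E = n - 1 := by omega
          rw [e1, hdim] at this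
          exact this
  calc ∫⁻ x in A, ENNReal.ofReal ((dr ‖x‖ ^ n)⁻¹) * ENNReal.ofReal ((dist x z ^ (2 * n - 1))⁻¹) ∂μ
      ≤ ∫⁻ x in (A ∩ closedBall z δ) ∪ (A ∩ {y | δ ≤ dist y z}),
          ENNReal.ofReal ((dr ‖x‖ ^ n)⁻¹) * ENNReal.ofReal ((dist x z ^ (2 * n - 1))⁻¹) ∂μ := by
        apply lintegral_mono_set
        intro x hx
        rcases le_total (dist x z) δ with h | h
        · exact Or.inl ⟨hx, h⟩
        · exact Or.inr ⟨hx, h⟩
    _ ≤ _ := lintegral_union_le _ _ _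
    _ ≤ ENNReal.ofReal ((c ^ n)⁻¹ * (δ ^ n)⁻¹) *
          (μ (closedBall 0 1) * ENNReal.ofReal (2 ^ (2 * n) * δ)) +
        ENNReal.ofReal ((c ^ n)⁻¹) *
          (μ (closedBall 0 1) * ENNReal.ofReal (2 ^ (2 * n + 1) * (δ ^ (n - 1))⁻¹)) :=
        add_le_add hnear hfar
    _ = μ (closedBall 0 1) * ENNReal.ofReal ((c ^ n)⁻¹ * (δ ^ n)⁻¹ * (2 ^ (2 * n) * δ) +
          (c ^ n)⁻¹ * (2 ^ (2 * n + 1) * (δ ^ (n - 1))⁻¹)) := by
        rw [ENNReal.ofReal_add (by positivity) (by positivity),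
          ENNReal.ofReal_mul (p := (c ^ n)⁻¹ * (δ ^ n)⁻¹) (by positivity),
          ENNReal.ofReal_mul (p := (c ^ n)⁻¹) (q := (2 ^ (2 * n + 1) * (δ ^ (n - 1))⁻¹))
            (by positivity)]
        ring
    _ ≤ μ (closedBall 0 1) * ENNReal.ofReal (2 ^ (2 * n + 2) * (c ^ n)⁻¹ * (δ ^ (n - 1))⁻¹) := by
        refine mul_le_mul' le_rfl (ENNReal.ofReal_le_ofReal ?_)
        obtain ⟨k, rfl⟩ : ∃ k, n = k + 1 := ⟨n - 1, by omega⟩
        simp only [Nat.add_sub_cancel]
        have e1 : (c ^ (k + 1))⁻¹ * (δ ^ (k + 1))⁻¹ * (2 ^ (2 * (k + 1)) * δ) =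
            2 ^ (2 * (k + 1)) * ((c ^ (k + 1))⁻¹ * (δ ^ k)⁻¹) := by
          rw [pow_succ δ k]
          field_simp
        have e2 : (2 : ℝ) ^ (2 * (k + 1) + 2) = 4 * 2 ^ (2 * (k + 1)) := by ring
        have e3 : (2 : ℝ) ^ (2 * (k + 1) + 1) = 2 * 2 ^ (2 * (k + 1)) := by ring
        rw [e1, e2, e3]
        have : 0 < (2 : ℝ) ^ (2 * (k + 1)) * ((c ^ (k + 1))⁻¹ * (δ ^ k)⁻¹) := by positivity
        nlinarith
    _ = _ := by
        rw [ENNReal.ofReal_mul (by positivity)]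
        ring

/-- Weight of order `k`. -/
noncomputable def wt (k : ℕ) (z : E) : ℝ≥0∞ := ENNReal.ofReal ((dr ‖z‖ ^ k)⁻¹)

omit [InnerProductSpace ℝ E] [FiniteDimensional ℝ E] [Nontrivial E] in
@[fun_prop]
theorem measurable_wt (k : ℕ) : Measurable (wt k : E → ℝ≥0∞) := by
  unfold wt; fun_prop

/-- Truncated Riesz kernel of order one. -/
noncomputable def kerT (n : ℕ) (c : ℝ) (x z : E) : ℝ≥0∞ :=
  {p : E × E | c * (dr ‖p.2‖ + dist p.1 p.2) ≤ dr ‖p.1‖}.indicator
    (fun p => ENNReal.ofReal ((dist p.1 p.2 ^ (2 * n - 1))⁻¹)) (x, z)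

omit [Nontrivial E] in
theorem measurable_kerT (n : ℕ) (c : ℝ) :
    Measurable (Function.uncurry (kerT n c : E → E → ℝ≥0∞)) := by
  have h1 : Measurable (fun p : E × E => dist p.1 p.2) := by fun_prop
  have h2 : MeasurableSet {p : E × E | c * (dr ‖p.2‖ + dist p.1 p.2) ≤ dr ‖p.1‖} :=
    (isClosed_le (by fun_prop) (by fun_prop)).measurableSet
  exact Measurable.indicator (h1.pow_const _).inv.ennreal_ofReal h2

/-- The model operator. -/
noncomputable def opT (μ : Measure E) (n : ℕ) (c : ℝ) (D : Set E) (x : E) : ℝ≥0∞ :=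
  ∫⁻ z in D, wt (n + 1) z * kerT n c x z ∂μ

theorem measurable_opT (μ : Measure E) [μ.IsAddHaarMeasure] (n : ℕ) (c : ℝ) (D : Set E) :
    Measurable (opT μ n c D) := by
  unfold opT
  apply Measurable.lintegral_prod_right' (f := fun p : E × E => wt (n + 1) p.2 * kerT n c p.1 p.2)
  exact ((measurable_wt _).comp measurable_snd).mul (measurable_kerT n c)

theorem opT_first (μ : Measure E) [μ.IsAddHaarMeasure] {n : ℕ} (hn : 2 ≤ n)
    (hdim : finrank ℝ E = 2 * n) {c : ℝ} (hc : 0 < c) {D : Set E} (hD : MeasurableSet D)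
    (hDb : D ⊆ ball 0 1) :
    ∫⁻ x in ball 0 1, wt n x * opT μ n c D x ∂μ ≤
      μ (closedBall 0 1) * ENNReal.ofReal (2 ^ (2 * n + 2) * (c ^ n)⁻¹) *
        ∫⁻ z in D, wt (2 * n) z ∂μ := by
  have hmk := measurable_kerT (E := E) n c
  calc ∫⁻ x in ball 0 1, wt n x * opT μ n c D x ∂μ
      = ∫⁻ x in ball 0 1, ∫⁻ z in D, wt n x * (wt (n + 1) z * kerT n c x z) ∂μ ∂μ := by
        apply lintegral_congr
        intro x
        rw [opT, lintegral_const_mul]
        exact (measurable_wt _).mul hmk.of_uncurry_left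
    _ = ∫⁻ z in D, ∫⁻ x in ball 0 1, wt n x * (wt (n + 1) z * kerT n c x z) ∂μ ∂μ := by
        rw [lintegral_lintegral_swap]
        apply Measurable.aemeasurable
        exact ((measurable_wt _).comp measurable_fst).mul
          (((measurable_wt _).comp measurable_snd).mul hmk)
    _ ≤ ∫⁻ z in D, (μ (closedBall 0 1) * ENNReal.ofReal (2 ^ (2 * n + 2) * (c ^ n)⁻¹)) *
          wt (2 * n) z ∂μ := by
        apply setLIntegral_mono' hD
        intro z hz
        have hz1 : ‖z‖ < 1 := by simpa using hDb hz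
        have hδ : 0 < dr ‖z‖ := dr_pos' (norm_nonneg z) hz1
        have hk := kernel_first μ hn hdim hc z hδ
        calc ∫⁻ x in ball 0 1, wt n x * (wt (n + 1) z * kerT n c x z) ∂μ
            ≤ ∫⁻ x, wt (n + 1) z * (wt n x * kerT n c x z) ∂μ := by
              refine (setLIntegral_le_lintegral _ _).trans (le_of_eq ?_)
              apply lintegral_congr
              intro x; ring
          _ = wt (n + 1) z * ∫⁻ x, wt n x * kerT n c x z ∂μ := by
              rw [lintegral_const_mul]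
              exact (measurable_wt _).mul hmk.of_uncurry_right
          _ = wt (n + 1) z * ∫⁻ x in {x | c * (dr ‖z‖ + dist x z) ≤ dr ‖x‖},
                ENNReal.ofReal ((dr ‖x‖ ^ n)⁻¹) * ENNReal.ofReal ((dist x z ^ (2 * n - 1))⁻¹) ∂μ := by
              congr 1
              rw [← lintegral_indicator]
              · apply lintegral_congr
                intro x
                by_cases hx : c * (dr ‖z‖ + dist x z) ≤ dr ‖x‖
                · rw [indicator_of_mem (show x ∈ {x : E | c * (dr ‖z‖ + dist x z) ≤ dr ‖x‖} from hx),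
                    kerT, indicator_of_mem (show (x, z) ∈ {p : E × E |
                      c * (dr ‖p.2‖ + dist p.1 p.2) ≤ dr ‖p.1‖} from hx), wt]
                · rw [indicator_of_notMem (show x ∉ {x : E | c * (dr ‖z‖ + dist x z) ≤ dr ‖x‖} from hx),
                    kerT, indicator_of_notMem (show (x, z) ∉ {p : E × E |
                      c * (dr ‖p.2‖ + dist p.1 p.2) ≤ dr ‖p.1‖} from hx), mul_zero]
              · exact (isClosed_le (by fun_prop) (by fun_prop)).measurableSet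
          _ ≤ wt (n + 1) z * (μ (closedBall 0 1) * ENNReal.ofReal (2 ^ (2 * n + 2) * (c ^ n)⁻¹) *
                ENNReal.ofReal ((dr ‖z‖ ^ (n - 1))⁻¹)) := by gcongr
          _ = (μ (closedBall 0 1) * ENNReal.ofReal (2 ^ (2 * n + 2) * (c ^ n)⁻¹)) *
                (wt (n + 1) z * ENNReal.ofReal ((dr ‖z‖ ^ (n - 1))⁻¹)) := by ring
          _ = _ := by
              congr 1
              rw [wt, wt, ← ENNReal.ofReal_mul (by positivity), ← mul_inv, ← pow_add]
              congr 4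
              omega
    _ = _ := by rw [lintegral_const_mul _ (measurable_wt _)]

theorem opT_sq (μ : Measure E) [μ.IsAddHaarMeasure] {n : ℕ} (hn : 2 ≤ n)
    (hdim : finrank ℝ E = 2 * n) {c : ℝ} {D : Set E} :
    ∫⁻ x, opT μ n c D x * opT μ n c D x ∂μ ≤
      μ (closedBall 0 1) * ENNReal.ofReal (2 ^ (4 * n + 1)) *
        ∫⁻ z' in D, ∫⁻ z in D, wt (n + 1) z * (wt (n + 1) z' *
          ENNReal.ofReal ((dist z z' ^ (2 * n - 2))⁻¹)) ∂μ ∂μ := by
  have hmk := measurable_kerT (E := E) n c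
  obtain ⟨W, hW⟩ : ∃ W : E → ℝ≥0∞, W = wt (n + 1) := ⟨_, rfl⟩
  obtain ⟨K, hK⟩ : ∃ K : E → E → ℝ≥0∞, K = kerT n c := ⟨_, rfl⟩
  obtain ⟨T, hT⟩ : ∃ T : E → ℝ≥0∞, T = opT μ n c D := ⟨_, rfl⟩
  have hWm : Measurable W := by rw [hW]; exact measurable_wt _
  have hTm : Measurable T := by rw [hT]; exact measurable_opT μ n c D
  rw [← hK] at hmk
  have hTx : ∀ x, T x = ∫⁻ z in D, W z * K x z ∂μ := by
    intro x; rw [hT, hW, hK, opT]
  rw [← hT, ← hW]
  calc ∫⁻ x, T x * T x ∂μ
      = ∫⁻ x, ∫⁻ z' in D, T x * (W z' * K x z') ∂μ ∂μ := by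
        apply lintegral_congr
        intro x
        rw [lintegral_const_mul, ← hTx]
        exact hWm.mul hmk.of_uncurry_left
    _ = ∫⁻ z' in D, ∫⁻ x, T x * (W z' * K x z') ∂μ ∂μ := by
        rw [lintegral_lintegral_swap]
        apply Measurable.aemeasurable
        exact (hTm.comp measurable_fst).mul ((hWm.comp measurable_snd).mul hmk)
    _ = ∫⁻ z' in D, ∫⁻ x, ∫⁻ z in D, (W z' * K x z') * (W z * K x z) ∂μ ∂μ ∂μ := by
        apply lintegral_congr
        intro z'
        apply lintegral_congr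
        intro x
        rw [lintegral_const_mul, ← hTx, mul_comm]
        exact hWm.mul hmk.of_uncurry_left
    _ = ∫⁻ z' in D, ∫⁻ z in D, ∫⁻ x, (W z' * K x z') * (W z * K x z) ∂μ ∂μ ∂μ := by
        apply lintegral_congr
        intro z'
        rw [lintegral_lintegral_swap]
        apply Measurable.aemeasurable
        have h1 : Measurable (fun p : E × E => K p.1 z') :=
          hmk.of_uncurry_right.comp measurable_fst
        exact (h1.const_mul _).mul ((hWm.comp measurable_snd).mul hmk)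
    _ ≤ ∫⁻ z' in D, ∫⁻ z in D, (μ (closedBall 0 1) * ENNReal.ofReal (2 ^ (4 * n + 1))) *
          (W z * (W z' * ENNReal.ofReal ((dist z z' ^ (2 * n - 2))⁻¹))) ∂μ ∂μ := by
        apply lintegral_mono
        intro z'
        apply lintegral_mono_ae
        have hae : ∀ᵐ z ∂(μ.restrict D), z ≠ z' := by
          apply ae_restrict_of_ae
          rw [ae_iff]
          simp only [ne_eq, not_not]
          exact measure_singleton z'
        filter_upwards [hae] with z hz
        have hdz : 0 < dist z z' := dist_pos.2 hz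
        obtain ⟨j, hj⟩ : ∃ j, 2 * n = j + 3 := ⟨2 * n - 3, by omega⟩
        have hcomp := lintegral_comp μ z z' (C := μ (closedBall 0 1)) (j := j)
          (fun x r hr => by
            have := haar_growth μ x r hr
            rwa [hdim, hj] at this) hdz
        have e1 : j + 2 = 2 * n - 1 := by omega
        have e2 : j + 1 = 2 * n - 2 := by omega
        have e3 : 2 * j + 7 = 4 * n + 1 := by omega
        rw [e1, e2, e3] at hcomp
        have hKle : ∀ x z, K x z ≤ ENNReal.ofReal ((dist x z ^ (2 * n - 1))⁻¹) := by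
          intro x z
          rw [hK, kerT]
          exact indicator_le_self _ _ _
        calc ∫⁻ x, (W z' * K x z') * (W z * K x z) ∂μ
            ≤ ∫⁻ x, (W z' * W z) * (ENNReal.ofReal ((dist x z ^ (2 * n - 1))⁻¹) *
                ENNReal.ofReal ((dist x z' ^ (2 * n - 1))⁻¹)) ∂μ := by
              apply lintegral_mono
              intro x
              calc (W z' * K x z') * (W z * K x z) = (W z' * W z) * (K x z * K x z') := by ring
                _ ≤ _ := mul_le_mul' le_rfl (mul_le_mul' (hKle _ _) (hKle _ _))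
          _ = (W z' * W z) * ∫⁻ x, (ENNReal.ofReal ((dist x z ^ (2 * n - 1))⁻¹) *
                ENNReal.ofReal ((dist x z' ^ (2 * n - 1))⁻¹)) ∂μ := by
              rw [lintegral_const_mul]
              have h1 : ∀ z : E, Measurable (fun x => ENNReal.ofReal ((dist x z ^ (2 * n - 1))⁻¹)) := by
                intro z
                have h0 : Measurable (fun x : E => dist x z) := by fun_prop
                exact (h0.pow_const _).inv.ennreal_ofReal
              exact (h1 z).mul (h1 z')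
          _ ≤ (W z' * W z) * (μ (closedBall 0 1) * ENNReal.ofReal (2 ^ (4 * n + 1)) *
                ENNReal.ofReal ((dist z z' ^ (2 * n - 2))⁻¹)) := by gcongr
          _ = _ := by ring
    _ = _ := by
        have hfin : μ (closedBall (0 : E) 1) * ENNReal.ofReal (2 ^ (4 * n + 1)) ≠ ∞ :=
          ENNReal.mul_ne_top measure_closedBall_lt_top.ne ENNReal.ofReal_ne_top
        rw [← lintegral_const_mul' _ _ hfin]
        apply lintegral_congr
        intro z'
        rw [lintegral_const_mul' _ _ hfin]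

end

end Pool.Agent.Lib.MP_3db736_an
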