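import Pool.Agent.Lib.MP_3db736_an.Homotopy3
import Pool.Agent.Lib.MP_3db736_an.Form

open MeasureTheory Metric Set Module Filter
open scoped ENNReal NNReal Topology ContDiff

namespace Pool.Agent.Lib.MP_3db736_an

section hop

variable {E : Type*} [NormedAddCommGroup E] [InnerProductSpace ℝ E] [MeasurableSpace E]
  [BorelSpace E] [FiniteDimensional ℝ E]
variable {W W' : Type*} [NormedAddCommGroup W] [NormedSpace ℝ W] [NormedAddCommGroup W']
  [NormedSpace ℝ W'] {b : W →L[ℝ] E →L[ℝ] W'} {γ : E → W} {n : ℕ}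

/-- Decay in the parameter of an average over centres. -/
theorem centre_decay' {V : Type*} [NormedAddCommGroup V] [NormedSpace ℝ V]
    (μ : Measure E) [μ.IsAddHaarMeasure] {q : ℕ} (hdim : finrank ℝ E = n + q) {K : ℝ}
    (hK : 0 ≤ K) :
    ∃ C : ℝ, 0 ≤ C ∧ ∀ (g : ℝ → E → E → V),
      (∀ t o x, 1 < t → ‖o‖ ≤ 1 / 4 → ‖o + t • (x - o)‖ ≤ 1 → ‖g t o x‖ ≤ K * t ^ n) →
      (∀ t o x, 1 < t → ‖o‖ ≤ 1 / 4 → 1 < ‖o + t • (x - o)‖ → g t o x = 0) →
      ∀ t x, 1 < t → ‖∫ o, bmq.normed μ o • g t o x ∂μ‖ ≤ C * (t ^ q)⁻¹ := by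
  obtain ⟨M, hM0, hM⟩ := bmq_bound μ
  refine ⟨M * K * 2 ^ (n + q) * μ.real (closedBall 0 1), by positivity, ?_⟩
  intro g hg1 hg2 t x ht
  have ht0 : 0 < t := by linarith
  refine (centre_integral_le μ hM0 hM x ht (g := fun o => g t o x) (A := K * t ^ n)
    (by positivity) (fun o ho hz => hg1 t o x ht ho hz)
    (fun o ho hz => hg2 t o x ht ho hz)).trans (le_of_eq ?_)
  rw [hdim, div_pow, show t ^ (n + q) = t ^ n * t ^ q by rw [← pow_add]]
  have : t ^ n ≠ 0 := by positivity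
  field_simp

/-- The homotopy operator is continuously differentiable, with the expected derivative. -/
theorem hasFDerivAt_hop' (μ : Measure E) [μ.IsAddHaarMeasure] (hγ : ContDiff ℝ 1 γ)
    (hs : ∀ z, 1 ≤ ‖z‖ → γ z = 0) (hb : ∀ w u, ‖b w u‖ ≤ ‖w‖ * ‖u‖) {q : ℕ} (hq : 2 ≤ q)
    (hdim : finrank ℝ E = n + q) :
    (∀ x, HasFDerivAt (hop μ b n γ)
      (-∫ t in Ioi (1 : ℝ), ∫ o, bmq.normed μ o • dTht b n γ t o x ∂μ) x) ∧
      ContDiff ℝ 1 (hop μ b n γ) := by
  obtain ⟨Γ, hΓ, h1, h2⟩ := exists_bound_supp hγ hs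
  obtain ⟨C, hC, hCT⟩ := centre_decay' (V := W') μ hdim (K := 3 * Γ) (by positivity)
  obtain ⟨C', hC', hCT'⟩ := centre_decay' (V := E →L[ℝ] W') μ hdim (K := 3 * Γ) (by positivity)
  have hae : ∀ᵐ t ∂(volume.restrict (Ioi (1 : ℝ))), t ∈ Ioi (1 : ℝ) :=
    ae_restrict_mem measurableSet_Ioi
  have hmain := param_integral (ν := volume.restrict (Ioi (1 : ℝ)))
    (F := fun t x => hopB μ b n γ t x)
    (F' := fun t x => ∫ o, bmq.normed μ o • dTht b n γ t o x ∂μ)
    (b := fun t => C' * (t ^ q)⁻¹) ?_ ?_ ?_ ?_ ?_ ?_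
  · refine ⟨fun x => (hmain.1 x).neg, hmain.2.neg⟩
  · intro x
    refine (integrableOn_inv_pow hq C).mono' ?_ ?_
    · exact (stronglyMeasurable_centre μ (continuous_Tht hγ) x).aestronglyMeasurable
    · filter_upwards [hae] with t ht
      exact hCT _ (fun t o x ht ho hz => norm_Tht_le hb h1 ht ho hz)
        (fun t o x _ _ hz => Tht_eq_zero hs hz) t x ht
  · intro x
    exact (stronglyMeasurable_centre μ (continuous_dTht hγ) x).aestronglyMeasurable
  · filter_upwards [hae] with t ht x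
    exact hCT' _ (fun t o x ht ho hz => norm_dTht_le hb h1 h2 ht ho hz)
        (fun t o x _ _ hz => dTht_eq_zero hs hz) t x ht
  · exact integrableOn_inv_pow hq C'
  · filter_upwards [hae] with t ht x
    exact (hasFDerivAt_hopB μ hγ hs hb ht).1 x
  · filter_upwards [hae] with t ht
    have h3 := hasFDerivAt_hopB (n := n) μ hγ hs hb ht
    have h4 := h3.2.continuous_fderiv one_ne_zero
    have h5 : fderiv ℝ (hopB μ b n γ t) = fun x => ∫ o, bmq.normed μ o • dTht b n γ t o x ∂μ := by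
      ext1 x
      exact (h3.1 x).fderiv
    rwa [h5] at h4

/-- The homotopy formula. -/
theorem hop_primitive' [CompleteSpace W] [CompleteSpace W'] (μ : Measure E) [μ.IsAddHaarMeasure]
    (hγ : ContDiff ℝ 1 γ)
    (hs : ∀ z, 1 ≤ ‖z‖ → γ z = 0) (hb : ∀ w u, ‖b w u‖ ≤ ‖w‖ * ‖u‖) {q : ℕ} (hq : 2 ≤ q)
    (hdim : finrank ℝ E = n + q) (a : (E →L[ℝ] W') →L[ℝ] W)
    (ha : ∀ t o x, a (dTht b n γ t o x) = dPath n γ t o x) (x : E) :
    a (fderiv ℝ (hop μ b n γ) x) = γ x := by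
  obtain ⟨Γ, hΓ, h1, h2⟩ := exists_bound_supp hγ hs
  obtain ⟨C', hC', hCT'⟩ := centre_decay' (V := E →L[ℝ] W') μ hdim (K := 3 * Γ) (by positivity)
  obtain ⟨C, hC, hCT⟩ := centre_decay' (V := W) μ hdim (K := (n + 3) * Γ) (by positivity)
  have hae : ∀ᵐ t ∂(volume.restrict (Ioi (1 : ℝ))), t ∈ Ioi (1 : ℝ) :=
    ae_restrict_mem measurableSet_Ioi
  have hint : Integrable (fun t => ∫ o, bmq.normed μ o • dTht b n γ t o x ∂μ)
      (volume.restrict (Ioi (1 : ℝ))) := by
    refine (integrableOn_inv_pow hq C').mono' ?_ ?_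
    · exact (stronglyMeasurable_centre μ (continuous_dTht hγ) x).aestronglyMeasurable
    · filter_upwards [hae] with t ht
      exact hCT' _ (fun t o x ht ho hz => norm_dTht_le hb h1 h2 ht ho hz)
        (fun t o x _ _ hz => dTht_eq_zero hs hz) t x ht
  have hint2 : IntegrableOn (fun t => ∫ o, bmq.normed μ o • dPath n γ t o x ∂μ) (Ioi (1 : ℝ)) := by
    refine (integrableOn_inv_pow hq C).mono' ?_ ?_
    · exact (stronglyMeasurable_centre μ (continuous_dPath hγ) x).aestronglyMeasurable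
    · filter_upwards [hae] with t ht
      exact hCT _ (fun t o x ht ho hz => norm_dPath_le h1 h2 ht ho hz)
        (fun t o x _ _ hz => dPath_eq_zero hs hz) t x ht
  rw [((hasFDerivAt_hop' μ hγ hs hb hq hdim).1 x).fderiv, map_neg,
    ← ContinuousLinearMap.integral_comp_comm a hint]
  have h3 : ∀ t : ℝ, a (∫ o, bmq.normed μ o • dTht b n γ t o x ∂μ) =
      ∫ o, bmq.normed μ o • dPath n γ t o x ∂μ := by
    intro t
    rw [← ContinuousLinearMap.integral_comp_comm a]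
    · congr 1
      ext1 o
      rw [map_smul, ha]
    · apply integrable_centre
      exact (continuous_dTht hγ).comp (by fun_prop : Continuous fun o : E => (t, o, x))
  simp_rw [h3]
  have hlim : Tendsto (fun t : ℝ => ∫ o, bmq.normed μ o • (t ^ (n + 1) • γ (o + t • (x - o))) ∂μ)
      atTop (𝓝 0) := by
    obtain ⟨M, hM0, hM⟩ := bmq_bound μ
    have hbd : ∀ᶠ t : ℝ in atTop,
        ‖∫ o, bmq.normed μ o • (t ^ (n + 1) • γ (o + t • (x - o))) ∂μ‖ ≤
          (M * Γ * 2 ^ (n + q) * μ.real (closedBall 0 1)) * t⁻¹ := by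
      filter_upwards [eventually_gt_atTop 1] with t ht
      have ht0 : 0 < t := by linarith
      refine (centre_integral_le μ hM0 hM x ht
        (g := fun o => t ^ (n + 1) • γ (o + t • (x - o))) (A := Γ * t ^ (n + 1))
        (by positivity) (fun o ho hz => ?_) (fun o ho hz => ?_)).trans ?_
      · rw [norm_smul, norm_pow, Real.norm_eq_abs, abs_of_pos ht0, mul_comm]
        gcongr
        exact h1 _
      · rw [hs _ hz.le, smul_zero]
      · obtain ⟨k, rfl⟩ : ∃ k, q = k + 2 := ⟨q - 2, by omega⟩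
        rw [hdim, div_pow]
        have h5 : t ^ (n + (k + 2)) = t ^ (n + 1) * t * t ^ k := by
          rw [← pow_succ, ← pow_add]; congr 1; ring
        have h6 : 1 ≤ t ^ k := one_le_pow₀ ht.le
        have h7 : M * (Γ * t ^ (n + 1)) * (2 ^ (n + (k + 2)) / t ^ (n + (k + 2)) *
            μ.real (closedBall 0 1)) =
            (M * Γ * 2 ^ (n + (k + 2)) * μ.real (closedBall 0 1)) * t⁻¹ * (t ^ k)⁻¹ := by
          rw [h5]
          field_simp
        rw [h7]
        have h8 : (t ^ k)⁻¹ ≤ 1 := inv_le_one_of_one_le₀ h6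
        have h9 : 0 ≤ (M * Γ * 2 ^ (n + (k + 2)) * μ.real (closedBall (0 : E) 1)) * t⁻¹ := by
          positivity
        exact mul_le_of_le_one_right h9 h8
    apply squeeze_zero_norm' hbd
    have := tendsto_inv_atTop_zero (𝕜 := ℝ)
    simpa using this.const_mul (M * Γ * 2 ^ (n + q) * μ.real (closedBall (0 : E) 1))
  rw [integral_Ioi_of_hasDerivAt_of_tendsto' (fun t _ => hasDerivAt_J μ hγ hs x t) hint2 hlim,
    zero_sub, neg_neg]
  simp only [one_pow, one_smul, add_sub_cancel]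
  rw [integral_smul_const, bmq.integral_normed, one_smul]

end hop

section prim

/-- A compactly supported closed form of degree `m + 1` has a compactly supported primitive,
provided that the dimension is at least `m + 2`. -/
theorem exists_primitive {E : Type*} [NormedAddCommGroup E] [InnerProductSpace ℝ E]
    [FiniteDimensional ℝ E] {m q : ℕ} (hq : 2 ≤ q) (hdim : finrank ℝ E = m + q)
    {γ : E → E [⋀^Fin (m + 1)]→L[ℝ] ℝ} (hγ : ContDiff ℝ 1 γ) (hcl : ∀ x, extDeriv γ x = 0)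
    {ρ : ℝ} (h4 : 1 / 4 ≤ ρ) (h1 : ρ ≤ 1) (hs : ∀ z, ρ ≤ ‖z‖ → γ z = 0) :
    ∃ β : E → E [⋀^Fin m]→L[ℝ] ℝ, ContDiff ℝ 1 β ∧ (∀ x, extDeriv β x = γ x) ∧
      ∀ x, ρ ≤ ‖x‖ → β x = 0 := by
  borelize E
  have hs1 : ∀ z, 1 ≤ ‖z‖ → γ z = 0 := fun z hz => hs z (h1.trans hz)
  have hb : ∀ w u, ‖ip E m w u‖ ≤ ‖w‖ * ‖u‖ := by
    intro w u
    have := w.curryLeft.le_opNorm u
    rw [w.norm_curryLeft] at this
    exact this
  refine ⟨hop (stdOrthonormalBasis ℝ E).toBasis.addHaar (ip E m) m γ, ?_, ?_, ?_⟩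
  · exact (hasFDerivAt_hop' _ hγ hs1 hb hq hdim).2
  · intro x
    exact hop_primitive' _ hγ hs1 hb hq hdim
      (ContinuousAlternatingMap.alternatizeUncurryFinCLM ℝ E ℝ)
      (fun t o x => alternatize_dTht hcl t o x) x
  · intro x hx
    exact hop_eq_zero _ h4 hs hx

end prim

end Pool.Agent.Lib.MP_3db736_an
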