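import Pool.Agent.Lib.MP_3db736_an.Stokes

open MeasureTheory Metric Set Module Filter
open scoped ENNReal NNReal Topology ContDiff

namespace Pool.Agent.Lib.MP_3db736_an

section lam

/-- Bound of the derivative of the smooth transition function. -/
theorem exists_bound_deriv_smoothTransition :
    ∃ L : ℝ, 0 ≤ L ∧ ∀ x, |deriv Real.smoothTransition x| ≤ L := by
  have hc : Continuous (deriv Real.smoothTransition) :=
    (Real.smoothTransition.contDiff (n := 1)).continuous_deriv le_rfl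
  obtain ⟨L, hL⟩ := (isCompact_Icc (a := (0 : ℝ)) (b := 1)).exists_bound_of_continuousOn
    hc.continuousOn
  refine ⟨max L 0, le_max_right _ _, fun x => ?_⟩
  by_cases h0 : x < 0
  · have h1 : Real.smoothTransition =ᶠ[𝓝 x] fun _ => 0 := by
      filter_upwards [isOpen_Iio.mem_nhds h0] with y hy
      exact Real.smoothTransition.zero_of_nonpos (le_of_lt hy)
    rw [h1.deriv_eq, deriv_const, abs_zero]
    exact le_max_right _ _
  · by_cases h1 : 1 < x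
    · have h2 : Real.smoothTransition =ᶠ[𝓝 x] fun _ => 1 := by
        filter_upwards [isOpen_Ioi.mem_nhds h1] with y hy
        exact Real.smoothTransition.one_of_one_le (le_of_lt hy)
      rw [h2.deriv_eq, deriv_const, abs_zero]
      exact le_max_right _ _
    · exact (hL x ⟨not_lt.1 h0, not_lt.1 h1⟩).trans (le_max_left _ _)

/-- Cutoff. -/
noncomputable def SS (δ t : ℝ) : ℝ := Real.smoothTransition ((t - (1 - 2 * δ)) / δ)

theorem SS_zero {δ t : ℝ} (hδ : 0 < δ) (ht : t ≤ 1 - 2 * δ) : SS δ t = 0 :=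
  Real.smoothTransition.zero_of_nonpos (div_nonpos_of_nonpos_of_nonneg (by linarith) hδ.le)

theorem SS_one {δ t : ℝ} (hδ : 0 < δ) (ht : 1 - δ ≤ t) : SS δ t = 1 :=
  Real.smoothTransition.one_of_one_le (by rw [le_div_iff₀ hδ]; linarith)

theorem SS_nonneg (δ t : ℝ) : 0 ≤ SS δ t := Real.smoothTransition.nonneg _

theorem SS_le_one (δ t : ℝ) : SS δ t ≤ 1 := Real.smoothTransition.le_one _

theorem contDiff_SS (δ : ℝ) : ContDiff ℝ ∞ (SS δ) :=
  Real.smoothTransition.contDiff.comp (by fun_prop)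

theorem deriv_SS (δ t : ℝ) : deriv (SS δ) t =
    deriv Real.smoothTransition ((t - (1 - 2 * δ)) / δ) * δ⁻¹ := by
  have h1 : HasDerivAt (fun t : ℝ => (t - (1 - 2 * δ)) / δ) (1 / δ) t :=
    ((hasDerivAt_id t).sub_const _).div_const δ
  have h2 : HasDerivAt Real.smoothTransition (deriv Real.smoothTransition ((t - (1 - 2 * δ)) / δ))
      ((t - (1 - 2 * δ)) / δ) :=
    ((Real.smoothTransition.contDiff (n := 1)).differentiable one_ne_zero _).hasDerivAt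
  have h3 := (h2.comp t h1).deriv
  rw [one_div] at h3
  exact h3

/-- Radial profile of the retraction. -/
noncomputable def lamR (δ t : ℝ) : ℝ := 1 + SS δ t * ((Real.sqrt t)⁻¹ - 1)

theorem lamR_one {δ t : ℝ} (hδ : 0 < δ) (ht : t ≤ 1 - 2 * δ) : lamR δ t = 1 := by
  rw [lamR, SS_zero hδ ht]; ring

theorem lamR_sqrt {δ t : ℝ} (hδ : 0 < δ) (ht : 1 - δ ≤ t) : lamR δ t = (Real.sqrt t)⁻¹ := by
  rw [lamR, SS_one hδ ht]; ring

theorem contDiff_lamR {δ : ℝ} (hδ : 0 < δ) (hδ1 : δ ≤ 1 / 8) : ContDiff ℝ ∞ (lamR δ) := by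
  rw [contDiff_iff_contDiffAt]
  intro t
  by_cases ht : 0 < t
  · unfold lamR
    exact contDiffAt_const.add ((contDiff_SS δ).contDiffAt.mul
      (((Real.contDiffAt_sqrt ht.ne').inv (Real.sqrt_pos.2 ht).ne').sub contDiffAt_const))
  · have h1 : lamR δ =ᶠ[𝓝 t] fun _ => 1 := by
      filter_upwards [isOpen_Iio.mem_nhds (show t < 1 - 2 * δ by linarith [not_lt.1 ht])] with y hy
      exact lamR_one hδ (le_of_lt hy)
    exact contDiffAt_const.congr_of_eventuallyEq h1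

theorem abs_lamR_le {δ t : ℝ} (hδ : 0 < δ) (hδ1 : δ ≤ 1 / 8) (ht : t ≤ 1) :
    |lamR δ t| ≤ 2 := by
  by_cases h : t ≤ 1 - 2 * δ
  · rw [lamR_one hδ h]; norm_num
  · have h34 : 3 / 4 ≤ t := by linarith [not_le.1 h]
    have hs : 1 / 2 ≤ Real.sqrt t := by
      rw [show (1 / 2 : ℝ) = Real.sqrt (1 / 4) by
        rw [show (1 / 4 : ℝ) = (1 / 2) ^ 2 by norm_num, Real.sqrt_sq (by norm_num)]]
      exact Real.sqrt_le_sqrt (by linarith)
    have hs1 : Real.sqrt t ≤ 1 := Real.sqrt_le_one.2 ht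
    have h1 : 1 ≤ (Real.sqrt t)⁻¹ := (one_le_inv₀ (by linarith)).2 hs1
    have h2 : (Real.sqrt t)⁻¹ ≤ 2 := by
      rw [inv_le_comm₀ (by linarith) (by norm_num)]
      linarith
    have h3 := SS_nonneg δ t
    have h4 := SS_le_one δ t
    rw [lamR, abs_of_nonneg (by nlinarith)]
    nlinarith

theorem exists_bound_deriv_lamR : ∃ L : ℝ, 0 ≤ L ∧ ∀ δ t : ℝ, 0 < δ → δ ≤ 1 / 8 → t ≤ 1 →
    |deriv (lamR δ) t| ≤ L := by
  obtain ⟨L, hL0, hL⟩ := exists_bound_deriv_smoothTransition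
  refine ⟨2 * L + 4, by positivity, ?_⟩
  intro δ t hδ hδ1 ht
  by_cases h : t < 1 - 2 * δ
  · have h1 : lamR δ =ᶠ[𝓝 t] fun _ => 1 := by
      filter_upwards [isOpen_Iio.mem_nhds h] with y hy
      exact lamR_one hδ (le_of_lt hy)
    rw [h1.deriv_eq, deriv_const, abs_zero]
    positivity
  · have h34 : 3 / 4 ≤ t := by linarith [not_lt.1 h]
    have ht0 : 0 < t := by linarith
    have hs : 1 / 2 ≤ Real.sqrt t := by
      rw [show (1 / 2 : ℝ) = Real.sqrt (1 / 4) by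
        rw [show (1 / 4 : ℝ) = (1 / 2) ^ 2 by norm_num, Real.sqrt_sq (by norm_num)]]
      exact Real.sqrt_le_sqrt (by linarith)
    have hs1 : Real.sqrt t ≤ 1 := Real.sqrt_le_one.2 ht
    have hsq : Real.sqrt t ^ 2 = t := Real.sq_sqrt ht0.le
    have hd1 : HasDerivAt (fun t => (Real.sqrt t)⁻¹ - 1)
        (-(1 / (2 * Real.sqrt t)) / Real.sqrt t ^ 2) t :=
      ((Real.hasDerivAt_sqrt ht0.ne').inv (Real.sqrt_pos.2 ht0).ne').sub_const 1
    have hd2 : HasDerivAt (SS δ) (deriv (SS δ) t) t :=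
      ((contDiff_SS δ).differentiable (by simp) t).hasDerivAt
    have hd3 : HasDerivAt (lamR δ) (deriv (SS δ) t * ((Real.sqrt t)⁻¹ - 1) +
        SS δ t * (-(1 / (2 * Real.sqrt t)) / Real.sqrt t ^ 2)) t := (hd2.mul hd1).const_add 1
    rw [hd3.deriv]
    set s := Real.sqrt t with hsdef
    have h5 : |deriv (SS δ) t| ≤ L * δ⁻¹ := by
      rw [deriv_SS, abs_mul, abs_of_pos (inv_pos.2 hδ)]
      gcongr
      exact hL _
    have h6 : |s⁻¹ - 1| ≤ 2 * δ * 1 := by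
      have h7 : s⁻¹ - 1 = (1 - t) / (s * (1 + s)) := by
        rw [← hsq]; field_simp; ring
      have h8 : 0 ≤ (1 - t) / (s * (1 + s)) := by
        apply div_nonneg (by linarith)
        nlinarith
      rw [h7, abs_of_nonneg h8, div_le_iff₀ (by nlinarith)]
      have h9 : s * (1 + s) ≥ 1 := by nlinarith
      nlinarith [not_lt.1 h]
    have h10 : |deriv (SS δ) t * (s⁻¹ - 1)| ≤ 2 * L := by
      rw [abs_mul]
      calc _ ≤ (L * δ⁻¹) * (2 * δ * 1) := by gcongr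
        _ = _ := by field_simp
    have h11 : |SS δ t * (-(1 / (2 * s)) / s ^ 2)| ≤ 4 := by
      rw [abs_mul, abs_of_nonneg (SS_nonneg _ _)]
      have h12 : |(-(1 / (2 * s)) / s ^ 2)| ≤ 4 := by
        rw [abs_div, abs_neg, abs_of_nonneg (by positivity), abs_of_nonneg (by positivity),
          div_div, div_le_iff₀ (by positivity)]
        have : (1 / 2 : ℝ) ^ 3 ≤ s ^ 3 := pow_le_pow_left₀ (by norm_num) hs 3
        nlinarith
      exact (mul_le_mul (SS_le_one _ _) h12 (abs_nonneg _) zero_le_one).trans (by norm_num)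
    exact (abs_add_le _ _).trans (add_le_add h10 h11)

end lam

section ret

variable {E : Type*} [NormedAddCommGroup E] [InnerProductSpace ℝ E]

/-- Radial retraction onto the unit ball, equal to the radial projection near the sphere. -/
noncomputable def Pr (δ : ℝ) (x : E) : E := lamR δ (‖x‖ ^ 2) • x

theorem contDiff_Pr {δ : ℝ} (hδ : 0 < δ) (hδ1 : δ ≤ 1 / 8) : ContDiff ℝ ∞ (Pr δ : E → E) := by
  unfold Pr
  exact ((contDiff_lamR hδ hδ1).comp (contDiff_norm_sq ℝ)).smul contDiff_id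

theorem Pr_eq_id {δ : ℝ} (hδ : 0 < δ) {x : E} (hx : ‖x‖ ^ 2 < 1 - 2 * δ) :
    (Pr δ : E → E) =ᶠ[𝓝 x] id := by
  have h2 : IsOpen {y : E | ‖y‖ ^ 2 < 1 - 2 * δ} :=
    isOpen_lt (by fun_prop) continuous_const
  filter_upwards [h2.mem_nhds hx] with y hy
  have hy' : ‖y‖ ^ 2 < 1 - 2 * δ := hy
  rw [Pr, lamR_one hδ hy'.le, one_smul, id]

theorem Pr_eq_proj {δ : ℝ} (hδ : 0 < δ) {x : E} (hx : 1 - δ ≤ ‖x‖ ^ 2) :
    Pr δ x = ‖x‖⁻¹ • x := by
  rw [Pr, lamR_sqrt hδ hx, Real.sqrt_sq (norm_nonneg x)]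

theorem Pr_eventually_proj {δ : ℝ} (hδ : 0 < δ) {x : E} (hx : 1 - δ < ‖x‖ ^ 2) :
    (Pr δ : E → E) =ᶠ[𝓝 x] fun x => ‖x‖⁻¹ • x := by
  have h2 : IsOpen {y : E | 1 - δ < ‖y‖ ^ 2} :=
    isOpen_lt continuous_const (by fun_prop)
  filter_upwards [h2.mem_nhds hx] with y hy
  have hy' : 1 - δ < ‖y‖ ^ 2 := hy
  exact Pr_eq_proj hδ hy'.le

theorem norm_Pr_le {δ : ℝ} (hδ : 0 < δ) (hδ1 : δ ≤ 1 / 8) (x : E) : ‖Pr δ x‖ ≤ 1 := by
  by_cases hx : 1 - δ ≤ ‖x‖ ^ 2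
  · rw [Pr_eq_proj hδ hx, norm_smul, norm_inv, norm_norm]
    exact inv_mul_le_one
  · push Not at hx
    have h1 : ‖x‖ ≤ 1 := by nlinarith [norm_nonneg x]
    by_cases hx0 : ‖x‖ = 0
    · rw [Pr, norm_smul, hx0, mul_zero]; norm_num
    · have hpos : 0 < ‖x‖ := lt_of_le_of_ne (norm_nonneg x) (Ne.symm hx0)
      have h2 : lamR δ (‖x‖ ^ 2) * ‖x‖ = ‖x‖ + SS δ (‖x‖ ^ 2) * (1 - ‖x‖) := by
        rw [lamR, Real.sqrt_sq (norm_nonneg x)]
        field_simp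
      have h3 := SS_nonneg δ (‖x‖ ^ 2)
      have h4 := SS_le_one δ (‖x‖ ^ 2)
      have h5 : 0 ≤ lamR δ (‖x‖ ^ 2) * ‖x‖ := by rw [h2]; nlinarith
      have h6 : 0 ≤ lamR δ (‖x‖ ^ 2) := by
        by_contra hcon
        push Not at hcon
        nlinarith
      rw [Pr, norm_smul, Real.norm_eq_abs, abs_of_nonneg h6, h2]
      nlinarith

variable (E) in
theorem exists_bound_fderiv_Pr : ∃ K : ℝ, 0 ≤ K ∧ ∀ δ : ℝ, 0 < δ → δ ≤ 1 / 8 → ∀ x : E,
    ‖x‖ ≤ 1 → ‖fderiv ℝ (Pr δ : E → E) x‖ ≤ K := by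
  obtain ⟨L, hL0, hL⟩ := exists_bound_deriv_lamR
  refine ⟨2 + 2 * L, by positivity, ?_⟩
  intro δ hδ hδ1 x hx
  have hx2 : ‖x‖ ^ 2 ≤ 1 := by nlinarith [norm_nonneg x]
  have h1 : HasFDerivAt (fun y : E => lamR δ (‖y‖ ^ 2))
      (deriv (lamR δ) (‖x‖ ^ 2) • (2 • innerSL ℝ x)) x := by
    have h2 : HasDerivAt (lamR δ) (deriv (lamR δ) (‖x‖ ^ 2)) (‖x‖ ^ 2) :=
      ((contDiff_lamR hδ hδ1).differentiable (by simp) _).hasDerivAt
    have h3 := (hasStrictFDerivAt_norm_sq x).hasFDerivAt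
    exact HasDerivAt.comp_hasFDerivAt (h₂ := lamR δ) (f := fun y : E => ‖y‖ ^ 2) x h2 h3
  have h4 := (h1.smul (hasFDerivAt_id x)).fderiv
  have h5 : (fun y : E => lamR δ (‖y‖ ^ 2) • id y) = Pr δ := rfl
  have h6 : fderiv ℝ (Pr δ : E → E) x = lamR δ (‖x‖ ^ 2) • ContinuousLinearMap.id ℝ E +
      (deriv (lamR δ) (‖x‖ ^ 2) • (2 • innerSL ℝ x)).smulRight (id x) := h4
  rw [h6]
  apply ContinuousLinearMap.opNorm_le_bound _ (by positivity)
  intro v
  have h7 : (lamR δ (‖x‖ ^ 2) • ContinuousLinearMap.id ℝ E +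
      (deriv (lamR δ) (‖x‖ ^ 2) • (2 • innerSL ℝ x)).smulRight (id x)) v =
      lamR δ (‖x‖ ^ 2) • v + (deriv (lamR δ) (‖x‖ ^ 2) * (2 * inner ℝ x v)) • x := by
    have h8 : (2 • innerSL ℝ x) v = 2 * inner ℝ x v := by
      rw [two_mul, two_smul]; rfl
    change lamR δ (‖x‖ ^ 2) • v + (deriv (lamR δ) (‖x‖ ^ 2) * ((2 • innerSL ℝ x) v)) • x = _
    rw [h8]
  rw [h7]
  have h9 : |inner ℝ x v| ≤ 1 * ‖v‖ :=
    (abs_real_inner_le_norm x v).trans (by gcongr)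
  calc _ ≤ ‖lamR δ (‖x‖ ^ 2) • v‖ + ‖(deriv (lamR δ) (‖x‖ ^ 2) * (2 * inner ℝ x v)) • x‖ :=
        norm_add_le _ _
    _ = |lamR δ (‖x‖ ^ 2)| * ‖v‖ + |deriv (lamR δ) (‖x‖ ^ 2)| * (2 * |inner ℝ x v|) * ‖x‖ := by
        rw [norm_smul, norm_smul, Real.norm_eq_abs, Real.norm_eq_abs, abs_mul, abs_mul]
        norm_num
    _ ≤ 2 * ‖v‖ + L * (2 * (1 * ‖v‖)) * 1 := by
        gcongr
        · exact abs_lamR_le hδ hδ1 hx2
        · exact hL δ _ hδ hδ1 hx2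
    _ = _ := by ring

end ret

end Pool.Agent.Lib.MP_3db736_an
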