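import Pool.Agent.Lib.MP_3db736_an.Retract

open MeasureTheory Metric Set Module Filter
open scoped ENNReal NNReal Topology ContDiff

namespace Pool.Agent.Lib.MP_3db736_an

theorem two_le_smooth' : minSmoothness ℝ 2 ≤ (∞ : ℕ∞ω) := by
  rw [minSmoothness_of_isRCLikeNormedField]; exact WithTop.coe_le_coe.2 le_top

section the

variable {E : Type*} [NormedAddCommGroup E] [InnerProductSpace ℝ E] {n : ℕ}

/-- Pull back of a form by the radial retraction. -/
noncomputable def The (δ : ℝ) (Om : E → E [⋀^Fin n]→L[ℝ] ℝ) (x : E) : E [⋀^Fin n]→L[ℝ] ℝ :=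
  (Om (Pr δ x)).compContinuousLinearMap (fderiv ℝ (Pr δ) x)

variable {Om : E → E [⋀^Fin n]→L[ℝ] ℝ} {R δ : ℝ}

theorem contDiff_The (hR : 1 < R) (hO : ContDiffOn ℝ 1 Om (ball 0 R)) (hδ : 0 < δ)
    (hδ1 : δ ≤ 1 / 8) : ContDiff ℝ 1 (The δ Om) := by
  rw [contDiff_iff_contDiffAt]
  intro x
  have h1 : ContDiffAt ℝ 1 Om (Pr δ x) := by
    apply hO.contDiffAt
    apply isOpen_ball.mem_nhds
    rw [mem_ball_zero_iff]
    exact lt_of_le_of_lt (norm_Pr_le hδ hδ1 x) hR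
  have h2 : ContDiffAt ℝ 1 (Pr δ : E → E) x :=
    (contDiff_Pr hδ hδ1).contDiffAt.of_le (by exact_mod_cast le_top)
  have h3 : ContDiffAt ℝ 1 (fun x => Om (Pr δ x)) x :=
    ContDiffAt.comp (g := Om) (f := Pr δ) x h1 h2
  have h4 : ContDiffAt ℝ 1 (fderiv ℝ (Pr δ : E → E)) x :=
    (contDiff_Pr hδ hδ1).contDiffAt.fderiv_right (m := 1) (WithTop.coe_le_coe.2 le_top)
  exact contDiffAt_pullback (m := 1) h3 h4

theorem extDeriv_The (hR : 1 < R) (hO : ContDiffOn ℝ 1 Om (ball 0 R))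
    (hcl : ∀ x ∈ ball 0 R, extDeriv Om x = 0) (hδ : 0 < δ)
    (hδ1 : δ ≤ 1 / 8) (x : E) : extDeriv (The δ Om) x = 0 := by
  have hmem : Pr δ x ∈ ball (0 : E) R := by
    rw [mem_ball_zero_iff]
    exact lt_of_le_of_lt (norm_Pr_le hδ hδ1 x) hR
  have h1 : DifferentiableAt ℝ Om (Pr δ x) :=
    (hO.contDiffAt (isOpen_ball.mem_nhds hmem)).differentiableAt one_ne_zero
  have h2 := extDeriv_pullback (r := ∞) (f := (Pr δ : E → E)) (x := x) h1
    (contDiff_Pr hδ hδ1).contDiffAt two_le_smooth'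
  have h3 : extDeriv (The δ Om) x = (extDeriv Om (Pr δ x)).compContinuousLinearMap
    (fderiv ℝ (Pr δ) x) := h2
  rw [h3, hcl _ hmem]
  rfl

theorem The_eq (Om : E → E [⋀^Fin n]→L[ℝ] ℝ) (hδ : 0 < δ) {x : E} (hx : ‖x‖ ^ 2 < 1 - 2 * δ) :
    The δ Om x = Om x := by
  have h1 := Pr_eq_id hδ hx
  rw [The, h1.fderiv_eq, h1.eq_of_nhds, fderiv_id]
  rfl

theorem norm_The_le {M K : ℝ} (hK0 : 0 ≤ K) (hM : ∀ x : E, ‖x‖ ≤ 1 → ‖Om x‖ ≤ M)
    (hδ : 0 < δ) (hδ1 : δ ≤ 1 / 8) {x : E} (hK : ‖fderiv ℝ (Pr δ : E → E) x‖ ≤ K) :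
    ‖The δ Om x‖ ≤ M * K ^ n := by
  have h1 := ContinuousAlternatingMap.norm_compContinuousLinearMap_le
    (Om (Pr δ x)) (fderiv ℝ (Pr δ : E → E) x)
  rw [Fintype.card_fin] at h1
  have h2 := hM (Pr δ x) (norm_Pr_le hδ hδ1 x)
  refine h1.trans ?_
  gcongr
  exact (norm_nonneg _).trans h2

end the

section lim

variable {m : ℕ}

theorem continuous_wedge {X : Type*} [TopologicalSpace X] {n : ℕ}
    {P Q : X → EuclideanSpace ℝ (Fin (n + n)) [⋀^Fin n]→L[ℝ] ℝ} (hP : Continuous P)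
    (hQ : Continuous Q) : Continuous (fun x => wedge (P x) (Q x)) := by
  have h : ∀ (P : X → EuclideanSpace ℝ (Fin (n + n)) [⋀^Fin n]→L[ℝ] ℝ) (v), Continuous P →
        Continuous (fun x => P x v) := by
    intro P v hP
    exact (ContinuousAlternatingMap.apply ℝ (EuclideanSpace ℝ (Fin (n + n))) ℝ
        v).continuous.comp hP
  unfold wedge
  refine continuous_const.mul (continuous_finsetSum _ fun σ _ => ?_)
  exact continuous_const.mul ((h P _ hP).mul (h Q _ hQ))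

theorem integral_The_const {Om : EuclideanSpace ℝ (Fin ((m + 1) + (m + 1))) →
    EuclideanSpace ℝ (Fin ((m + 1) + (m + 1))) [⋀^Fin (m + 1)]→L[ℝ] ℝ} {R : ℝ}
    (hR : 1 < R) (hO : ContDiffOn ℝ 1 Om (ball 0 R))
    (hcl : ∀ x ∈ ball 0 R, extDeriv Om x = 0) {δ δ' : ℝ} (hδ : 0 < δ) (hδ1 : δ ≤ 1 / 8)
    (hδ' : 0 < δ') (hδ1' : δ' ≤ 1 / 8) :
    ∫ x in ball (0 : EuclideanSpace ℝ (Fin ((m + 1) + (m + 1)))) 1,
      wedge (The δ Om x) (The δ Om x) =
    ∫ x in ball (0 : EuclideanSpace ℝ (Fin ((m + 1) + (m + 1)))) 1,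
      wedge (The δ' Om x) (The δ' Om x) := by
  set d := min δ δ' with hd
  have hd0 : 0 < d := lt_min hδ hδ'
  have hd1 : d ≤ 1 / 8 := (min_le_left _ _).trans hδ1
  apply integral_wedge_eq (contDiff_The hR hO hδ hδ1) (contDiff_The hR hO hδ' hδ1')
    (extDeriv_The hR hO hcl hδ hδ1) (extDeriv_The hR hO hcl hδ' hδ1') (ρ := 1 - d / 4)
    (by linarith)
  intro x hx
  have hx2 : 1 - d < ‖x‖ ^ 2 := by nlinarith
  have h1 : 1 - δ < ‖x‖ ^ 2 := by
    have := min_le_left δ δ'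
    linarith
  have h2 : 1 - δ' < ‖x‖ ^ 2 := by
    have := min_le_right δ δ'
    linarith
  have e1 := Pr_eventually_proj hδ h1
  have e2 := Pr_eventually_proj hδ' h2
  unfold The
  rw [e1.fderiv_eq, e2.fderiv_eq, e1.eq_of_nhds, e2.eq_of_nhds]

theorem integral_The {Om : EuclideanSpace ℝ (Fin ((m + 1) + (m + 1))) →
    EuclideanSpace ℝ (Fin ((m + 1) + (m + 1))) [⋀^Fin (m + 1)]→L[ℝ] ℝ} {R : ℝ}
    (hR : 1 < R) (hO : ContDiffOn ℝ 1 Om (ball 0 R))
    (hcl : ∀ x ∈ ball 0 R, extDeriv Om x = 0) {δ : ℝ} (hδ : 0 < δ) (hδ1 : δ ≤ 1 / 8) :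
    ∫ x in ball (0 : EuclideanSpace ℝ (Fin ((m + 1) + (m + 1)))) 1,
      wedge (The δ Om x) (The δ Om x) =
    ∫ x in ball (0 : EuclideanSpace ℝ (Fin ((m + 1) + (m + 1)))) 1,
      wedge (Om x) (Om x) := by
  set d : ℕ → ℝ := fun k => 1 / 8 * (1 / ((k : ℝ) + 1)) with hd
  have hd0 : ∀ k, 0 < d k := fun k => by rw [hd]; positivity
  have hd1 : ∀ k, d k ≤ 1 / 8 := by
    intro k
    have h : 1 / ((k : ℝ) + 1) ≤ 1 := by
      rw [div_le_one (by positivity)]
      linarith [Nat.cast_nonneg (α := ℝ) k]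
    have : d k = 1 / 8 * (1 / ((k : ℝ) + 1)) := rfl
    rw [this]
    linarith
  have hdt : Tendsto d atTop (𝓝 0) := by
    have := (tendsto_one_div_add_atTop_nhds_zero_nat (𝕜 := ℝ)).const_mul (1 / 8)
    rw [mul_zero] at this
    exact this
  obtain ⟨K, hK0, hK⟩ := exists_bound_fderiv_Pr (EuclideanSpace ℝ (Fin ((m + 1) + (m + 1))))
  obtain ⟨M, hM⟩ : ∃ M : ℝ, ∀ x : EuclideanSpace ℝ (Fin ((m + 1) + (m + 1))), ‖x‖ ≤ 1 →
      ‖Om x‖ ≤ M := by
    have hc : ContinuousOn Om (closedBall 0 1) :=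
      hO.continuousOn.mono (closedBall_subset_ball hR)
    obtain ⟨M, hM⟩ := (isCompact_closedBall (0 : EuclideanSpace ℝ (Fin ((m + 1) + (m + 1))))
      1).exists_bound_of_continuousOn hc
    exact ⟨M, fun x hx => hM x (by simpa using hx)⟩
  have hM0 : 0 ≤ M := (norm_nonneg _).trans (hM 0 (by simp))
  have hlim : Tendsto (fun k => ∫ x in ball (0 : EuclideanSpace ℝ (Fin ((m + 1) + (m + 1)))) 1,
      wedge (The (d k) Om x) (The (d k) Om x)) atTop
      (𝓝 (∫ x in ball (0 : EuclideanSpace ℝ (Fin ((m + 1) + (m + 1)))) 1,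
      wedge (Om x) (Om x))) := by
    apply tendsto_integral_of_dominated_convergence
      (fun _ => wK (m + 1) * ((M * K ^ (m + 1)) * (M * K ^ (m + 1))))
    · intro k
      have h1 := (contDiff_The hR hO (hd0 k) (hd1 k)).continuous
      exact (continuous_wedge h1 h1).aestronglyMeasurable
    · have : IsFiniteMeasure ((volume : Measure (EuclideanSpace ℝ (Fin ((m + 1) +
          (m + 1))))).restrict (ball 0 1)) :=
        ⟨by rw [Measure.restrict_apply_univ]; exact measure_ball_lt_top⟩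
      exact integrable_const _
    · intro k
      filter_upwards [ae_restrict_mem measurableSet_ball] with x hx
      have hx1 : ‖x‖ ≤ 1 := by
        rw [mem_ball_zero_iff] at hx
        exact hx.le
      have h1 := norm_The_le (n := m + 1) hK0 hM (hd0 k) (hd1 k) (hK (d k) (hd0 k) (hd1 k) x hx1)
      rw [Real.norm_eq_abs]
      refine (abs_wedge_le _ _).trans ?_
      have := wK_nonneg (m + 1)
      gcongr
    · filter_upwards [ae_restrict_mem measurableSet_ball] with x hx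
      have hx1 : ‖x‖ < 1 := by simpa using hx
      have hev : ∀ᶠ k in atTop, d k < (1 - ‖x‖ ^ 2) / 2 := by
        apply hdt.eventually_lt_const
        have : ‖x‖ ^ 2 < 1 := by nlinarith [norm_nonneg x]
        linarith
      apply tendsto_const_nhds.congr'
      filter_upwards [hev] with k hk
      rw [The_eq Om (hd0 k) (by linarith)]
  have hconst : ∀ k, ∫ x in ball (0 : EuclideanSpace ℝ (Fin ((m + 1) + (m + 1)))) 1,
      wedge (The (d k) Om x) (The (d k) Om x) =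
      ∫ x in ball (0 : EuclideanSpace ℝ (Fin ((m + 1) + (m + 1)))) 1,
      wedge (The δ Om x) (The δ Om x) := fun k =>
    integral_The_const hR hO hcl (hd0 k) (hd1 k) hδ hδ1
  simp_rw [hconst] at hlim
  exact tendsto_nhds_unique tendsto_const_nhds hlim

end lim

end Pool.Agent.Lib.MP_3db736_an
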