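import Pool.Agent.Lib.MP_3db736_an.Perms
import Pool.Agent.Lib.MP_3db736_an.Primitive

open MeasureTheory Metric Set Module Filter
open scoped ENNReal NNReal Topology ContDiff

namespace Pool.Agent.Lib.MP_3db736_an

section stokes

variable {m : ℕ}

/-- Standard basis vectors. -/
noncomputable def ee (i : Fin ((m + 1) + (m + 1))) :
    EuclideanSpace ℝ (Fin ((m + 1) + (m + 1))) := EuclideanSpace.single i (1 : ℝ)

theorem wedge_eq_sgs (α β : EuclideanSpace ℝ (Fin ((m + 1) + (m + 1))) [⋀^Fin (m + 1)]→L[ℝ] ℝ) :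
    wedge α β = (((m + 1).factorial * (m + 1).factorial : ℕ) : ℝ)⁻¹ *
      sgs (fun σ => α (fun i => ee (σ (Fin.castAdd (m + 1) i))) *
        β (fun i => ee (σ (Fin.natAdd (m + 1) i)))) := rfl

theorem wedge_comm (α β : EuclideanSpace ℝ (Fin ((m + 1) + (m + 1))) [⋀^Fin (m + 1)]→L[ℝ] ℝ) :
    ∃ s : ℝ, |s| = 1 ∧ wedge α β = s * wedge β α ∧
      ∀ α' β' : EuclideanSpace ℝ (Fin ((m + 1) + (m + 1))) [⋀^Fin (m + 1)]→L[ℝ] ℝ,
        wedge α' β' = s * wedge β' α' := by
  set τ : Equiv.Perm (Fin ((m + 1) + (m + 1))) :=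
    finSumFinEquiv.permCongr (Equiv.sumComm (Fin (m + 1)) (Fin (m + 1))) with hτ
  have h1 : ∀ i, τ (Fin.castAdd (m + 1) i) = Fin.natAdd (m + 1) i := by
    intro i
    rw [hτ, Equiv.permCongr_apply, finSumFinEquiv_symm_apply_castAdd]
    rfl
  have h2 : ∀ i, τ (Fin.natAdd (m + 1) i) = Fin.castAdd (m + 1) i := by
    intro i
    rw [hτ, Equiv.permCongr_apply, finSumFinEquiv_symm_apply_natAdd]
    rfl
  have h3 : ∀ α β : EuclideanSpace ℝ (Fin ((m + 1) + (m + 1))) [⋀^Fin (m + 1)]→L[ℝ] ℝ,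
      wedge α β = ((Equiv.Perm.sign τ : ℤ) : ℝ) * wedge β α := by
    intro α β
    rw [wedge_eq_sgs, wedge_eq_sgs]
    have h4 := sgs_mul (fun σ => β (fun i => ee (σ (Fin.castAdd (m + 1) i))) *
        α (fun i => ee (σ (Fin.natAdd (m + 1) i)))) τ
    simp only [Equiv.Perm.mul_apply, h1, h2] at h4
    rw [mul_left_comm, ← h4]
    congr 1
    unfold sgs
    apply Finset.sum_congr rfl
    intro σ _
    ring
  refine ⟨_, ?_, h3 α β, h3⟩
  rcases Int.units_eq_one_or (Equiv.Perm.sign τ) with h | h <;> simp [h]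

/-- Step A: the exterior derivative inside a signed sum. -/
theorem sgs_extDeriv {β : EuclideanSpace ℝ (Fin ((m + 1) + (m + 1))) →
    EuclideanSpace ℝ (Fin ((m + 1) + (m + 1))) [⋀^Fin m]→L[ℝ] ℝ}
    (hβ : ContDiff ℝ 1 β) (x : EuclideanSpace ℝ (Fin ((m + 1) + (m + 1))))
    (Y : (Fin (m + 1) → EuclideanSpace ℝ (Fin ((m + 1) + (m + 1)))) → ℝ) :
    sgs (fun σ => extDeriv β x (fun i => ee (σ (Fin.castAdd (m + 1) i))) *
        Y (fun i => ee (σ (Fin.natAdd (m + 1) i)))) =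
      (m + 1 : ℕ) * sgs (fun σ => fderiv ℝ (fun x => β x (fun i : Fin m =>
        ee (σ (Fin.castAdd (m + 1) i.succ)))) x (ee (σ (Fin.castAdd (m + 1) 0))) *
        Y (fun i => ee (σ (Fin.natAdd (m + 1) i)))) := by
  set F0 : Equiv.Perm (Fin ((m + 1) + (m + 1))) → ℝ := fun σ => fderiv ℝ (fun x => β x (fun i : Fin m =>
        ee (σ (Fin.castAdd (m + 1) i.succ)))) x (ee (σ (Fin.castAdd (m + 1) 0))) *
        Y (fun i => ee (σ (Fin.natAdd (m + 1) i))) with hF0
  have h1 : ∀ σ : Equiv.Perm (Fin ((m + 1) + (m + 1))),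
      extDeriv β x (fun i => ee (σ (Fin.castAdd (m + 1) i))) *
        Y (fun i => ee (σ (Fin.natAdd (m + 1) i))) =
      ∑ i : Fin (m + 1), (-1 : ℝ) ^ (i : ℕ) * F0 (σ * tau1 m i) := by
    intro σ
    rw [extDeriv_apply (hβ.differentiable one_ne_zero x), Finset.sum_mul]
    apply Finset.sum_congr rfl
    intro i _
    simp only [hF0, Equiv.Perm.mul_apply, tau1_left, tau1_right, Fin.cycleRange_symm_zero,
      Fin.cycleRange_symm_succ, zsmul_eq_mul]
    push_cast
    rw [mul_assoc]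
    rfl
  simp only [h1]
  rw [sgs_sum]
  have h2 : ∀ i : Fin (m + 1), sgs (fun σ => (-1 : ℝ) ^ (i : ℕ) * F0 (σ * tau1 m i)) = sgs F0 := by
    intro i
    rw [sgs_const_mul, sgs_mul, sign_tau1, ← mul_assoc, ← mul_pow]
    norm_num
  rw [Finset.sum_congr rfl (fun i _ => h2 i), Finset.sum_const, Finset.card_univ, Fintype.card_fin,
    nsmul_eq_mul]

/-- Step C: the signed sum with a closed form vanishes. -/
theorem sgs_closed {Ps : EuclideanSpace ℝ (Fin ((m + 1) + (m + 1))) →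
    EuclideanSpace ℝ (Fin ((m + 1) + (m + 1))) [⋀^Fin (m + 1)]→L[ℝ] ℝ}
    (hP : ContDiff ℝ 1 Ps) (x : EuclideanSpace ℝ (Fin ((m + 1) + (m + 1))))
    (hcl : extDeriv Ps x = 0)
    (Y : (Fin m → EuclideanSpace ℝ (Fin ((m + 1) + (m + 1)))) → ℝ) :
    sgs (fun σ => Y (fun i : Fin m => ee (σ (Fin.castAdd (m + 1) i.succ))) *
      fderiv ℝ (fun x => Ps x (fun i => ee (σ (Fin.natAdd (m + 1) i)))) x
        (ee (σ (Fin.castAdd (m + 1) 0)))) = 0 := by
  set G : Equiv.Perm (Fin ((m + 1) + (m + 1))) → ℝ := fun σ =>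
    Y (fun i : Fin m => ee (σ (Fin.castAdd (m + 1) i.succ))) *
      fderiv ℝ (fun x => Ps x (fun i => ee (σ (Fin.natAdd (m + 1) i)))) x
        (ee (σ (Fin.castAdd (m + 1) 0))) with hG
  have h1 : ∀ σ : Equiv.Perm (Fin ((m + 1) + (m + 1))),
      ∑ i : Fin (m + 2), (-1 : ℝ) ^ (i : ℕ) * G (σ * tau2 m i) = 0 := by
    intro σ
    have h2 := congrArg (fun f => f (fun k : Fin (m + 2) => ee (σ (spl m (Sum.inr k))))) hcl
    rw [extDeriv_apply (hP.differentiable one_ne_zero x)] at h2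
    have h3 : ∀ i : Fin (m + 2), G (σ * tau2 m i) =
        Y (fun i : Fin m => ee (σ (Fin.castAdd (m + 1) i.succ))) *
        fderiv ℝ (fun x => Ps x (i.removeNth (fun k : Fin (m + 2) => ee (σ (spl m (Sum.inr k))))))
          x (ee (σ (spl m (Sum.inr i)))) := by
      intro i
      have h4 : ∀ j : Fin m, tau2 m i (Fin.castAdd (m + 1) j.succ) = Fin.castAdd (m + 1) j.succ := by
        intro j
        exact tau2_apply m i (Sum.inl j)
      have h5 : tau2 m i (Fin.castAdd (m + 1) 0) = spl m (Sum.inr i) := by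
        have := tau2_apply m i (Sum.inr 0)
        simp only [Sum.map_inr, Fin.cycleRange_symm_zero] at this
        exact this
      have h6 : ∀ j : Fin (m + 1), tau2 m i (Fin.natAdd (m + 1) j) =
          spl m (Sum.inr (i.succAbove j)) := by
        intro j
        have := tau2_apply m i (Sum.inr j.succ)
        simp only [Sum.map_inr, Fin.cycleRange_symm_succ] at this
        exact this
      simp only [hG, Equiv.Perm.mul_apply, h4, h5, h6]
      rfl
    simp only [h3]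
    have h7 : ∑ i : Fin (m + 2), (-1 : ℝ) ^ (i : ℕ) *
        (Y (fun i : Fin m => ee (σ (Fin.castAdd (m + 1) i.succ))) *
        fderiv ℝ (fun x => Ps x (i.removeNth (fun k : Fin (m + 2) => ee (σ (spl m (Sum.inr k))))))
          x (ee (σ (spl m (Sum.inr i))))) =
        Y (fun i : Fin m => ee (σ (Fin.castAdd (m + 1) i.succ))) *
        ∑ i : Fin (m + 2), (-1 : ℤ) ^ (i : ℕ) •
        fderiv ℝ (fun x => Ps x (i.removeNth (fun k : Fin (m + 2) => ee (σ (spl m (Sum.inr k))))))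
          x (ee (σ (spl m (Sum.inr i)))) := by
      rw [Finset.mul_sum]
      apply Finset.sum_congr rfl
      intro i _
      rw [zsmul_eq_mul]
      push_cast
      ring
    rw [h7, h2]
    exact mul_zero _
  have h8 : (m + 2 : ℕ) * sgs G = 0 := by
    have h9 : ∀ i : Fin (m + 2), sgs (fun σ => (-1 : ℝ) ^ (i : ℕ) * G (σ * tau2 m i)) = sgs G := by
      intro i
      rw [sgs_const_mul, sgs_mul, sign_tau2, ← mul_assoc, ← mul_pow]
      norm_num
    have h10 := sgs_sum (N := (m + 1) + (m + 1)) (Finset.univ : Finset (Fin (m + 2)))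
      (fun i σ => (-1 : ℝ) ^ (i : ℕ) * G (σ * tau2 m i))
    simp only [h1] at h10
    rw [Finset.sum_congr rfl (fun i _ => h9 i), Finset.sum_const, Finset.card_univ,
      Fintype.card_fin, nsmul_eq_mul] at h10
    rw [← h10]
    unfold sgs
    simp
  rcases mul_eq_zero.1 h8 with h | h
  · exfalso
    have : ((m + 2 : ℕ) : ℝ) ≠ 0 := by positivity
    exact this h
  · exact h

end stokes

section stokes2

variable {m : ℕ}

theorem contDiff_apply {E : Type*} [NormedAddCommGroup E] [NormedSpace ℝ E] {k : ℕ} {r : ℕ∞ω}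
    {β : E → E [⋀^Fin k]→L[ℝ] ℝ} (hβ : ContDiff ℝ r β) (v : Fin k → E) :
    ContDiff ℝ r (fun x => β x v) :=
  (ContinuousAlternatingMap.apply ℝ E ℝ v).contDiff.comp hβ

/-- Stokes' theorem for compactly supported forms. -/
theorem integral_wedge_extDeriv {β : EuclideanSpace ℝ (Fin ((m + 1) + (m + 1))) →
    EuclideanSpace ℝ (Fin ((m + 1) + (m + 1))) [⋀^Fin m]→L[ℝ] ℝ}
    (hβ : ContDiff ℝ 1 β) {ρ : ℝ} (hs : ∀ x, ρ ≤ ‖x‖ → β x = 0)
    {Ps : EuclideanSpace ℝ (Fin ((m + 1) + (m + 1))) →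
    EuclideanSpace ℝ (Fin ((m + 1) + (m + 1))) [⋀^Fin (m + 1)]→L[ℝ] ℝ}
    (hP : ContDiff ℝ 1 Ps) (hcl : ∀ x, extDeriv Ps x = 0) :
    ∫ x, wedge (extDeriv β x) (Ps x) = 0 := by
  set E := EuclideanSpace ℝ (Fin ((m + 1) + (m + 1))) with hE
  set I : Equiv.Perm (Fin ((m + 1) + (m + 1))) → Fin m → E := fun σ i =>
    ee (σ (Fin.castAdd (m + 1) i.succ)) with hI
  set J : Equiv.Perm (Fin ((m + 1) + (m + 1))) → Fin (m + 1) → E := fun σ i =>
    ee (σ (Fin.natAdd (m + 1) i)) with hJ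
  set a : Equiv.Perm (Fin ((m + 1) + (m + 1))) → E := fun σ => ee (σ (Fin.castAdd (m + 1) 0))
    with ha
  have hb : ∀ σ, ContDiff ℝ 1 (fun x => β x (I σ)) := fun σ => contDiff_apply hβ _
  have hp : ∀ σ, ContDiff ℝ 1 (fun x => Ps x (J σ)) := fun σ => contDiff_apply hP _
  have hbs : ∀ σ, HasCompactSupport (fun x => β x (I σ)) := by
    intro σ
    apply HasCompactSupport.intro (isCompact_closedBall 0 ρ)
    intro x hx
    have : β x = 0 := hs x (by
      rw [mem_closedBall_zero_iff, not_le] at hx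
      exact hx.le)
    rw [this]; rfl
  have hds : ∀ σ, HasCompactSupport (fun x => fderiv ℝ (fun x => β x (I σ)) x (a σ)) :=
    fun σ => (hbs σ).fderiv_apply ℝ (a σ)
  have hdb : ∀ σ, Continuous (fun x => fderiv ℝ (fun x => β x (I σ)) x (a σ)) := fun σ =>
    ((hb σ).continuous_fderiv one_ne_zero).clm_apply continuous_const
  have hdp : ∀ σ, Continuous (fun x => fderiv ℝ (fun x => Ps x (J σ)) x (a σ)) := fun σ =>
    ((hp σ).continuous_fderiv one_ne_zero).clm_apply continuous_const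
  have hi1 : ∀ σ, Integrable (fun x => fderiv ℝ (fun x => β x (I σ)) x (a σ) * Ps x (J σ)) :=
    fun σ => ((hdb σ).mul (hp σ).continuous).integrable_of_hasCompactSupport (hds σ).mul_right
  have hi2 : ∀ σ, Integrable (fun x => β x (I σ) * fderiv ℝ (fun x => Ps x (J σ)) x (a σ)) :=
    fun σ => ((hb σ).continuous.mul (hdp σ)).integrable_of_hasCompactSupport (hbs σ).mul_right
  have hi3 : ∀ σ, Integrable (fun x => β x (I σ) * Ps x (J σ)) :=
    fun σ => ((hb σ).continuous.mul (hp σ).continuous).integrable_of_hasCompactSupport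
      (hbs σ).mul_right
  have hparts : ∀ σ, ∫ x, fderiv ℝ (fun x => β x (I σ)) x (a σ) * Ps x (J σ) =
      -∫ x, β x (I σ) * fderiv ℝ (fun x => Ps x (J σ)) x (a σ) := by
    intro σ
    have := integral_mul_fderiv_eq_neg_fderiv_mul_of_integrable (μ := (volume : Measure E))
      (f := fun x => β x (I σ)) (g := fun x => Ps x (J σ)) (v := a σ) (hi1 σ) (hi2 σ) (hi3 σ)
      (fun x _ => (hb σ).differentiable one_ne_zero x)
      (fun x _ => (hp σ).differentiable one_ne_zero x)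
    rw [this, neg_neg]
  set c : ℝ := (((m + 1).factorial * (m + 1).factorial : ℕ) : ℝ)⁻¹ with hc
  have h1 : ∀ x, wedge (extDeriv β x) (Ps x) = c * ((m + 1 : ℕ) *
      sgs (fun σ => fderiv ℝ (fun x => β x (I σ)) x (a σ) * Ps x (J σ))) := by
    intro x
    rw [wedge_eq_sgs, sgs_extDeriv hβ x (fun v => Ps x v)]
  simp_rw [h1]
  rw [integral_const_mul, integral_const_mul]
  have h2 : ∫ x, sgs (fun σ => fderiv ℝ (fun x => β x (I σ)) x (a σ) * Ps x (J σ)) =
      -∫ x, sgs (fun σ => β x (I σ) * fderiv ℝ (fun x => Ps x (J σ)) x (a σ)) := by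
    unfold sgs
    rw [integral_finsetSum _ (fun σ _ => (hi1 σ).const_mul _),
      integral_finsetSum _ (fun σ _ => (hi2 σ).const_mul _), ← Finset.sum_neg_distrib]
    apply Finset.sum_congr rfl
    intro σ _
    rw [integral_const_mul, integral_const_mul, hparts]
    ring
  have h3 : ∀ x, sgs (fun σ => β x (I σ) * fderiv ℝ (fun x => Ps x (J σ)) x (a σ)) = 0 :=
    fun x => sgs_closed hP x (hcl x) (fun v => β x v)
  rw [h2]
  simp_rw [h3]
  simp

/-- Two closed forms which agree near the unit sphere have the same integral. -/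
theorem integral_wedge_eq {A B : EuclideanSpace ℝ (Fin ((m + 1) + (m + 1))) →
    EuclideanSpace ℝ (Fin ((m + 1) + (m + 1))) [⋀^Fin (m + 1)]→L[ℝ] ℝ}
    (hA : ContDiff ℝ 1 A) (hB : ContDiff ℝ 1 B) (hAc : ∀ x, extDeriv A x = 0)
    (hBc : ∀ x, extDeriv B x = 0) {ρ : ℝ} (h1 : ρ < 1) (hAB : ∀ x, ρ ≤ ‖x‖ → A x = B x) :
    ∫ x in ball (0 : EuclideanSpace ℝ (Fin ((m + 1) + (m + 1)))) 1, wedge (A x) (A x) =
      ∫ x in ball (0 : EuclideanSpace ℝ (Fin ((m + 1) + (m + 1)))) 1, wedge (B x) (B x) := by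
  set r : ℝ := max ρ (1 / 4) with hr
  have hr4 : 1 / 4 ≤ r := le_max_right _ _
  have hr1 : r < 1 := max_lt h1 (by norm_num)
  have hAB' : ∀ x, r ≤ ‖x‖ → A x = B x := fun x hx => hAB x ((le_max_left _ _).trans hx)
  have hg : ContDiff ℝ 1 (A - B) := hA.sub hB
  have hgc : ∀ x, extDeriv (A - B) x = 0 := by
    intro x
    have ha := hAc x
    have hb := hBc x
    have h2 : fderiv ℝ (A - B) x = fderiv ℝ A x - fderiv ℝ B x :=
      fderiv_sub (hA.differentiable one_ne_zero x) (hB.differentiable one_ne_zero x)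
    rw [extDeriv, h2]
    have h4 : ContinuousAlternatingMap.alternatizeUncurryFin
        (fderiv ℝ A x - fderiv ℝ B x) =
        ContinuousAlternatingMap.alternatizeUncurryFin (fderiv ℝ A x) -
        ContinuousAlternatingMap.alternatizeUncurryFin (fderiv ℝ B x) :=
      map_sub (ContinuousAlternatingMap.alternatizeUncurryFinCLM ℝ
        (EuclideanSpace ℝ (Fin ((m + 1) + (m + 1)))) ℝ) _ _
    rw [h4]
    exact sub_eq_zero.2 (ha.trans hb.symm)
  have hfin : finrank ℝ (EuclideanSpace ℝ (Fin ((m + 1) + (m + 1)))) = m + (m + 2) := by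
    rw [finrank_euclideanSpace, Fintype.card_fin]; ring
  obtain ⟨β, hβ, hdβ, hβs⟩ := exists_primitive (q := m + 2) (by omega) hfin hg hgc hr4 hr1.le
    (fun z hz => sub_eq_zero.2 (hAB' z hz))
  have hI1 := integral_wedge_extDeriv hβ hβs hA hAc
  have hI2 := integral_wedge_extDeriv hβ hβs hB hBc
  simp only [hdβ] at hI1 hI2
  obtain ⟨s, hs, -, hcomm⟩ := wedge_comm (A 0) (A 0)
  have hI3 : ∫ x, wedge (B x) ((A - B) x) = 0 := by
    simp_rw [hcomm (B _) _]
    rw [integral_const_mul, hI2, mul_zero]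
  have hpt : ∀ x, wedge (A x) (A x) - wedge (B x) (B x) =
      wedge ((A - B) x) (A x) + wedge (B x) ((A - B) x) := by
    intro x
    have e1 : (A - B) x = A x - B x := rfl
    rw [e1]
    unfold wedge
    rw [← mul_sub, ← mul_add, ← Finset.sum_sub_distrib, ← Finset.sum_add_distrib]
    congr 1
    apply Finset.sum_congr rfl
    intro σ _
    rw [ContinuousAlternatingMap.sub_apply, ContinuousAlternatingMap.sub_apply]
    ring
  have hcont : ∀ P Q : EuclideanSpace ℝ (Fin ((m + 1) + (m + 1))) →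
    EuclideanSpace ℝ (Fin ((m + 1) + (m + 1))) [⋀^Fin (m + 1)]→L[ℝ] ℝ, Continuous P →
      Continuous Q → Continuous (fun x => wedge (P x) (Q x)) := by
    intro P Q hP hQ
    have h : ∀ (P : EuclideanSpace ℝ (Fin ((m + 1) + (m + 1))) →
      EuclideanSpace ℝ (Fin ((m + 1) + (m + 1))) [⋀^Fin (m + 1)]→L[ℝ] ℝ) (v), Continuous P →
        Continuous (fun x => P x v) := by
      intro P v hP
      exact (ContinuousAlternatingMap.apply ℝ (EuclideanSpace ℝ (Fin ((m + 1) + (m + 1)))) ℝ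
        v).continuous.comp hP
    unfold wedge
    refine continuous_const.mul (continuous_finsetSum _ fun σ _ => ?_)
    exact continuous_const.mul ((h P _ hP).mul (h Q _ hQ))
  have hint : ∀ P Q : EuclideanSpace ℝ (Fin ((m + 1) + (m + 1))) →
    EuclideanSpace ℝ (Fin ((m + 1) + (m + 1))) [⋀^Fin (m + 1)]→L[ℝ] ℝ, Continuous P →
      Continuous Q → IntegrableOn (fun x => wedge (P x) (Q x)) (ball 0 1) := by
    intro P Q hP hQ
    exact ((hcont P Q hP hQ).continuousOn.integrableOn_compact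
      (isCompact_closedBall 0 1)).mono_set ball_subset_closedBall
  have hsupp : ∀ F : EuclideanSpace ℝ (Fin ((m + 1) + (m + 1))) → ℝ, (∀ x, 1 ≤ ‖x‖ → F x = 0) →
      ∫ x in ball (0 : EuclideanSpace ℝ (Fin ((m + 1) + (m + 1)))) 1, F x = ∫ x, F x := by
    intro F hF
    apply setIntegral_eq_integral_of_forall_compl_eq_zero
    intro x hx
    exact hF x (by simpa using hx)
  have hz : ∀ x, 1 ≤ ‖x‖ → (A - B) x = 0 := fun x hx =>
    sub_eq_zero.2 (hAB' x (hr1.le.trans hx))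
  have hw0 : ∀ P : EuclideanSpace ℝ (Fin ((m + 1) + (m + 1))) [⋀^Fin (m + 1)]→L[ℝ] ℝ,
      wedge 0 P = 0 ∧ wedge P 0 = 0 := by
    intro P
    unfold wedge
    simp
  rw [← sub_eq_zero, ← integral_sub (hint A A hA.continuous hA.continuous)
    (hint B B hB.continuous hB.continuous)]
  simp_rw [hpt]
  rw [integral_add (hint _ _ (hA.continuous.sub hB.continuous) hA.continuous)
    (hint _ _ hB.continuous (hA.continuous.sub hB.continuous)),
    hsupp _ (fun x hx => by rw [hz x hx]; exact (hw0 _).1),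
    hsupp _ (fun x hx => by rw [hz x hx]; exact (hw0 _).2), hI1, hI3, add_zero]

end stokes2

end Pool.Agent.Lib.MP_3db736_an
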