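import Pool.Agent.Lib.MP_3db736_an.Bounds

open MeasureTheory Metric Set Module Filter
open scoped ENNReal NNReal Topology ContDiff

namespace Pool.Agent.Lib.MP_3db736_an

section total

variable {n : ℕ} [Nontrivial (EuclideanSpace ℝ (Fin (n + n)))]

theorem measurable_eng {E : Type*} [NormedAddCommGroup E] [InnerProductSpace ℝ E]
    [MeasurableSpace E] [BorelSpace E] [FiniteDimensional ℝ E] {G : Type*} [NormedAddCommGroup G]
    (μ : Measure E) [μ.IsAddHaarMeasure] {f : sphere (0 : E) 1 → G} (hf : Continuous f) (p : ℝ)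
    (m : ℕ) : Measurable (eng μ f p m) := by
  unfold eng
  apply Measurable.lintegral_prod_right' (f := fun q : sphere (0 : E) 1 × sphere (0 : E) 1 =>
    ENNReal.ofReal (dist (f q.2) (f q.1) ^ p / dist q.2 q.1 ^ (2 * m)))
  have h1 : Measurable (fun q : sphere (0 : E) 1 × sphere (0 : E) 1 => dist (f q.2) (f q.1)) :=
    ((hf.comp continuous_snd).dist (hf.comp continuous_fst)).measurable
  have h2 : Measurable (fun q : sphere (0 : E) 1 × sphere (0 : E) 1 => dist q.2 q.1) :=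
    (continuous_snd.dist continuous_fst).measurable
  exact ((h1.pow_const p).div (h2.pow_const (2 * m))).ennreal_ofReal

theorem opT_empty (c : ℝ) (x : EuclideanSpace ℝ (Fin (n + n))) :
    opT volume n c ∅ x = 0 := by
  unfold opT
  simp

variable (n) in
theorem total_bound (hn : 2 ≤ n) {p : ℝ} (hp : 0 < p) : ∃ C : ℝ≥0∞, C ≠ ⊤ ∧
    ∀ f : sphere (0 : EuclideanSpace ℝ (Fin (n + n))) 1 → EuclideanSpace ℝ (Fin (n + 1)),
      Continuous f → (∀ ζ, ‖f ζ‖ = 1) →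
      ∫⁻ x in ball (0 : EuclideanSpace ℝ (Fin (n + n))) 1,
          (2 * (‖eta f x‖ₑ * ‖bet f x‖ₑ) + ‖bet f x‖ₑ * ‖bet f x‖ₑ) ≤
        C * ((∫⁻ ζ, eng volume f p (2 * n - 1) ζ ∂(volume : Measure
          (EuclideanSpace ℝ (Fin (n + n)))).toSphere) ^ ((1 : ℝ) / (2 * n - 1 : ℕ)) *
          (∫⁻ ζ, eng volume f p (2 * n - 1) ζ ∂(volume : Measure
          (EuclideanSpace ℝ (Fin (n + n)))).toSphere)) := by
  have hfin : finrank ℝ (EuclideanSpace ℝ (Fin (n + n))) - 1 = 2 * n - 1 := by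
    rw [finrank_En]
  obtain ⟨C1, hC1, h1⟩ := eta_gam_bound n
  obtain ⟨C2, hC2, h2⟩ := bet_bound n hn
  obtain ⟨C3, hC3, h3⟩ := double_potential_le
    (volume : Measure (EuclideanSpace ℝ (Fin (n + n)))) hn (finrank_En n)
  obtain ⟨c, hc, h4⟩ := energy_lower (G := EuclideanSpace ℝ (Fin (n + 1)))
    (volume : Measure (EuclideanSpace ℝ (Fin (n + n)))) hp
  obtain ⟨c0, hc0, h5⟩ := exists_energy_lower_bound (G := EuclideanSpace ℝ (Fin (n + 1)))
    (volume : Measure (EuclideanSpace ℝ (Fin (n + n)))) hp (by rw [finrank_En]; omega)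
  rw [hfin] at h4 h5
  set m : ℕ := 2 * n - 1 with hm
  have hm1 : 1 ≤ m := by omega
  set V : ℝ≥0∞ := (volume : Measure (EuclideanSpace ℝ (Fin (n + n)))) (closedBall 0 1) with hV
  have hVt : V ≠ ⊤ := measure_closedBall_lt_top.ne
  set K1 : ℝ≥0∞ := V * ENNReal.ofReal (2 ^ (2 * n + 2) * ((3 / 16 : ℝ) ^ n)⁻¹) with hK1
  have hK1t : K1 ≠ ⊤ := ENNReal.mul_ne_top hVt ENNReal.ofReal_ne_top
  set K2 : ℝ≥0∞ := V * ENNReal.ofReal (2 ^ (4 * n + 1)) with hK2
  have hK2t : K2 ≠ ⊤ := ENNReal.mul_ne_top hVt ENNReal.ofReal_ne_top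
  set A : ℝ≥0∞ := 2 * (ENNReal.ofReal C1 * C2) * (K1 * ENNReal.ofReal (2 ^ (m + 4) / c)) with hA
  have hAt : A ≠ ⊤ := by
    refine ENNReal.mul_ne_top (ENNReal.mul_ne_top (by norm_num) (ENNReal.mul_ne_top
      ENNReal.ofReal_ne_top hC2)) (ENNReal.mul_ne_top hK1t ENNReal.ofReal_ne_top)
  set B : ℝ≥0∞ := C2 * C2 * (K2 * (C3 * (ENNReal.ofReal (1 / c) ^ ((1 : ℝ) / m) *
    ENNReal.ofReal (1 / c)))) with hB
  have hBt : B ≠ ⊤ := by
    refine ENNReal.mul_ne_top (ENNReal.mul_ne_top hC2 hC2) (ENNReal.mul_ne_top hK2t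
      (ENNReal.mul_ne_top hC3 (ENNReal.mul_ne_top ?_ ENNReal.ofReal_ne_top)))
    exact ENNReal.rpow_ne_top_of_nonneg (by positivity) ENNReal.ofReal_ne_top
  set g0 : ℝ≥0∞ := (ENNReal.ofReal c0) ^ ((1 : ℝ) / m) with hg0
  have hg0pos : g0 ≠ 0 := by
    rw [hg0]
    exact (ENNReal.rpow_pos (ENNReal.ofReal_pos.2 hc0) ENNReal.ofReal_ne_top).ne'
  have hg0t : g0 ≠ ⊤ := ENNReal.rpow_ne_top_of_nonneg (by positivity) ENNReal.ofReal_ne_top
  refine ⟨A * g0⁻¹ + B, ENNReal.add_ne_top.2 ⟨ENNReal.mul_ne_top hAt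
    (ENNReal.inv_ne_top.2 hg0pos), hBt⟩, ?_⟩
  intro f hf hf1
  set 𝓔 : ℝ≥0∞ := ∫⁻ ζ, eng volume f p m ζ ∂(volume : Measure
          (EuclideanSpace ℝ (Fin (n + n)))).toSphere with h𝓔
  rcases (bad f).eq_empty_or_nonempty with hemp | ⟨x₀, hx₀⟩
  · -- trivial case
    have hz : ∀ x ∈ ball (0 : EuclideanSpace ℝ (Fin (n + n))) 1, ‖bet f x‖ₑ = 0 := by
      intro x hx
      have := h2 f hf hf1 x (by simpa using hx)
      rw [hemp, opT_empty, mul_zero] at this
      exact le_antisymm this zero_le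
    have : ∫⁻ x in ball (0 : EuclideanSpace ℝ (Fin (n + n))) 1,
          (2 * (‖eta f x‖ₑ * ‖bet f x‖ₑ) + ‖bet f x‖ₑ * ‖bet f x‖ₑ) = 0 := by
      rw [setLIntegral_congr_fun (g := fun _ => 0) measurableSet_ball]
      · simp
      · intro x hx
        simp only []
        rw [hz x hx]; simp
    rw [this]
    exact zero_le
  have hbadm : MeasurableSet (bad f) := measurableSet_bad volume hf hf1 _
  have hbsub : bad f ⊆ ball 0 1 := fun x hx => hx.1
  have hlow : ENNReal.ofReal c0 ≤ 𝓔 := h5 f hf hf1 ⟨x₀, by simpa using hx₀.1, hx₀.2⟩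
  have hcond : ∀ (ζ : sphere (0 : EuclideanSpace ℝ (Fin (n + n))) 1) (r : ℝ), 0 < r → r < 1 →
      r • (ζ : EuclideanSpace ℝ (Fin (n + n))) ∈ bad f →
      ENNReal.ofReal c ≤ ENNReal.ofReal (dr r ^ m) * eng volume f p m ζ := by
    intro ζ r hr hr1 hmem
    exact h4 f hf hf1 ζ r hr hr1 (hmem.2.trans (by norm_num))
  have hW : ∫⁻ z in bad f, wt (2 * n) z ≤ ENNReal.ofReal (2 ^ (m + 4) / c) * 𝓔 := by
    have := setLIntegral_weight_le volume hbadm hbsub hc hm1 hcond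
    have h6 : m + 1 = 2 * n := by omega
    rw [h6] at this
    exact this
  have hD := h3 hbadm hbsub (measurable_eng volume hf p m) hc hcond
  rw [← h𝓔] at hD
  have hfirst := opT_first volume hn (finrank_En n) (show (0 : ℝ) < 3 / 16 by norm_num) hbadm hbsub
  rw [← hV, ← hK1] at hfirst
  have hsq := opT_sq volume hn (finrank_En n) (c := 3 / 16) (D := bad f)
  rw [← hV, ← hK2] at hsq
  have hE : 𝓔 ≤ g0⁻¹ * (𝓔 ^ ((1 : ℝ) / m) * 𝓔) := by
    have : g0 ≤ 𝓔 ^ ((1 : ℝ) / m) := ENNReal.rpow_le_rpow hlow (by positivity)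
    calc 𝓔 = g0⁻¹ * g0 * 𝓔 := by rw [ENNReal.inv_mul_cancel hg0pos hg0t, one_mul]
      _ ≤ g0⁻¹ * 𝓔 ^ ((1 : ℝ) / m) * 𝓔 := by gcongr
      _ = _ := by ring
  have hopTm : Measurable (opT volume n (3 / 16) (bad f)) := measurable_opT volume n _ _
  calc ∫⁻ x in ball (0 : EuclideanSpace ℝ (Fin (n + n))) 1,
          (2 * (‖eta f x‖ₑ * ‖bet f x‖ₑ) + ‖bet f x‖ₑ * ‖bet f x‖ₑ)
      ≤ ∫⁻ x in ball (0 : EuclideanSpace ℝ (Fin (n + n))) 1,
          (2 * (ENNReal.ofReal C1 * C2) * (wt n x * opT volume n (3 / 16) (bad f) x) +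
            C2 * C2 * (opT volume n (3 / 16) (bad f) x * opT volume n (3 / 16) (bad f) x)) := by
        apply setLIntegral_mono' measurableSet_ball
        intro x hx
        have hx1 : ‖x‖ < 1 := by simpa using hx
        have ha : ‖eta f x‖ₑ ≤ ENNReal.ofReal C1 * wt n x := by
          rw [← ofReal_norm, wt, ← ENNReal.ofReal_mul hC1]
          exact ENNReal.ofReal_le_ofReal (h1 f hf hf1 x hx1).1
        have hb := h2 f hf hf1 x hx1
        calc _ ≤ 2 * ((ENNReal.ofReal C1 * wt n x) * (C2 * opT volume n (3 / 16) (bad f) x)) +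
              (C2 * opT volume n (3 / 16) (bad f) x) * (C2 * opT volume n (3 / 16) (bad f) x) := by
              gcongr
          _ = _ := by ring
    _ = 2 * (ENNReal.ofReal C1 * C2) * (∫⁻ x in ball (0 : EuclideanSpace ℝ (Fin (n + n))) 1,
          wt n x * opT volume n (3 / 16) (bad f) x) +
          C2 * C2 * (∫⁻ x in ball (0 : EuclideanSpace ℝ (Fin (n + n))) 1,
            opT volume n (3 / 16) (bad f) x * opT volume n (3 / 16) (bad f) x) := by
        rw [lintegral_add_left, lintegral_const_mul, lintegral_const_mul]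
        · exact hopTm.mul hopTm
        · exact (measurable_wt _).mul hopTm
        · exact ((measurable_wt _).mul hopTm).const_mul _
    _ ≤ 2 * (ENNReal.ofReal C1 * C2) * (K1 * (ENNReal.ofReal (2 ^ (m + 4) / c) * 𝓔)) +
          C2 * C2 * (K2 * (C3 * (ENNReal.ofReal (1 / c) * 𝓔) ^ ((1 : ℝ) / m) *
            (ENNReal.ofReal (1 / c) * 𝓔))) := by
        refine add_le_add (mul_le_mul' le_rfl (hfirst.trans (mul_le_mul' le_rfl hW)))
          (mul_le_mul' le_rfl ((setLIntegral_le_lintegral _ _).trans (hsq.trans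
            (mul_le_mul' le_rfl ?_))))
        exact hD
    _ = A * 𝓔 + B * (𝓔 ^ ((1 : ℝ) / m) * 𝓔) := by
        rw [ENNReal.mul_rpow_of_nonneg _ _ (by positivity), hA, hB]
        ring
    _ ≤ A * (g0⁻¹ * (𝓔 ^ ((1 : ℝ) / m) * 𝓔)) + B * (𝓔 ^ ((1 : ℝ) / m) * 𝓔) := by
        gcongr
    _ = _ := by ring

end total

end Pool.Agent.Lib.MP_3db736_an
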